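import Mathlib

set_option autoImplicit false

namespace Run7.h506

open MvPolynomial

/-- Scaling property of homogeneous polynomials. -/
theorem eval_scale {P : MvPolynomial (Fin 3) ℝ} {ℓ : ℕ} (hP : P.IsHomogeneous ℓ)
    (c : ℝ) (f : Fin 3 → ℝ) :
    eval (fun i => c * f i) P = c ^ ℓ * eval f P := by
  rw [eval_eq', eval_eq', Finset.mul_sum]
  apply Finset.sum_congr rfl
  intro d hd
  have hdeg : d.degree = ℓ := by
    by_contra hne
    exact (mem_support_iff.1 hd) (hP.coeff_eq_zero hne)
  have hsum : ∑ i, d i = ℓ := by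
    rw [← hdeg, Finsupp.degree_eq_sum]
  simp_rw [mul_pow]
  rw [Finset.prod_mul_distrib, Finset.prod_pow_eq_pow_sum, hsum]
  ring

/-- Chain rule for polynomials along a curve. -/
theorem hasDerivAt_eval (P : MvPolynomial (Fin 3) ℝ) {g : ℝ → Fin 3 → ℝ} {g' : Fin 3 → ℝ}
    {t : ℝ} (hg : ∀ i, HasDerivAt (fun s => g s i) (g' i) t) :
    HasDerivAt (fun s => eval (g s) P) (∑ i, g' i * eval (g t) (pderiv i P)) t := by
  induction P using MvPolynomial.induction_on with
  | C a =>
    simp only [eval_C, pderiv_C, map_zero, mul_zero, Finset.sum_const_zero]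
    exact hasDerivAt_const t a
  | add p q hp hq =>
    have h := hp.add hq
    simp only [map_add, mul_add, Finset.sum_add_distrib]
    exact h
  | mul_X p i hp =>
    have h := hp.mul (hg i)
    have hfun : (fun s => eval (g s) (p * X i)) = (fun s => eval (g s) p * g s i) := by
      funext s
      rw [map_mul, eval_X]
    have hval : ∑ k, g' k * eval (g t) (pderiv k (p * X i)) =
        (∑ k, g' k * eval (g t) (pderiv k p)) * g t i + eval (g t) p * g' i := by
      have h1 : ∀ k, g' k * eval (g t) (pderiv k (p * X i)) =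
          g' k * eval (g t) (pderiv k p) * g t i + (if k = i then eval (g t) p * g' i else 0) := by
        intro k
        rw [pderiv_mul, pderiv_X, map_add, map_mul, map_mul, eval_X]
        by_cases hk : k = i
        · subst hk
          simp
          ring
        · simp [Pi.single_apply, hk, Ne.symm hk]
          ring
      rw [Finset.sum_congr rfl (fun k _ => h1 k), Finset.sum_add_distrib, ← Finset.sum_mul]
      simp
    rw [hfun, hval]
    exact h

/-- The polynomial obtained by restricting `P` to a great circle in the half-angle parameter. -/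
noncomputable def circPoly (P : MvPolynomial (Fin 3) ℝ) (p q : Fin 3 → ℝ) : Polynomial ℝ :=
  MvPolynomial.aeval (fun i => Polynomial.C (p i) * (1 - Polynomial.X ^ 2) +
    Polynomial.C (2 * q i) * Polynomial.X) P

theorem circPoly_natDegree_le {P : MvPolynomial (Fin 3) ℝ} {ℓ : ℕ} (hP : P.IsHomogeneous ℓ)
    (p q : Fin 3 → ℝ) : (circPoly P p q).natDegree ≤ 2 * ℓ := by
  rw [mul_comm]
  apply aeval_natDegree_le P hP.totalDegree_le
  intro i
  compute_degree!

theorem circPoly_eval (P : MvPolynomial (Fin 3) ℝ) (p q : Fin 3 → ℝ) (x : ℝ) :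
    (circPoly P p q).eval x = eval (fun i => p i * (1 - x ^ 2) + 2 * q i * x) P := by
  rw [circPoly]
  have h := (MvPolynomial.comp_aeval_apply (φ := Polynomial.aeval (R := ℝ) x)
    (fun i => Polynomial.C (p i) * (1 - Polynomial.X ^ 2) +
    Polynomial.C (2 * q i) * Polynomial.X) P)
  rw [Polynomial.coe_aeval_eq_eval] at h
  rw [h, MvPolynomial.aeval_eq_eval]
  congr 2
  ext i
  simp

/-- Half-angle identity: the polynomial is `(1+τ²)^ℓ` times the value on the circle. -/
theorem circPoly_tan {P : MvPolynomial (Fin 3) ℝ} {ℓ : ℕ} (hP : P.IsHomogeneous ℓ)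
    (p q : Fin 3 → ℝ) {t : ℝ} (ht : t ∈ Set.Ioo (-Real.pi) Real.pi) :
    (circPoly P p q).eval (Real.tan (t / 2)) =
      (1 + Real.tan (t / 2) ^ 2) ^ ℓ *
        eval (fun i => Real.cos t * p i + Real.sin t * q i) P := by
  rw [circPoly_eval, ← eval_scale hP]
  congr 2
  ext i
  have hc : 0 < Real.cos (t / 2) := by
    apply Real.cos_pos_of_mem_Ioo
    constructor <;> linarith [ht.1, ht.2]
  have h1 : Real.cos t = 2 * Real.cos (t / 2) ^ 2 - 1 := by
    rw [← Real.cos_two_mul]; ring_nf
  have h2 : Real.sin t = 2 * Real.sin (t / 2) * Real.cos (t / 2) := by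
    rw [← Real.sin_two_mul]; ring_nf
  have h3 : Real.sin (t / 2) ^ 2 = 1 - Real.cos (t / 2) ^ 2 := by
    have := Real.sin_sq_add_cos_sq (t / 2); linarith
  rw [Real.tan_eq_sin_div_cos, h1, h2]
  field_simp
  rw [h3]
  ring

end Run7.h506
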