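import Mathlib

set_option autoImplicit false

namespace Run7.h506

open Finset

/-- Combinatorial core: a closed walk in a bipartite graph in which every edge that is
traversed from the first side is also traversed towards it visits at most `k + 1` vertices. -/
theorem walk_count {α β : Type*} [DecidableEq α] [DecidableEq β] (m : ℕ) (pos : ℕ → Prop)
    [DecidablePred pos] (cA : ℕ → α) (cB : ℕ → β)
    (hneg : ∀ j < m, ¬ pos j → cB (j + 1) = cB j)
    (hedge : ∀ j < m, pos j → ∃ j' < m, pos j' ∧ cA j' = cA j ∧ cB (j' + 1) = cB j) :
    (((range m).filter pos).image cA).card + ((range (m + 1)).image cB).card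
      ≤ ((range m).filter pos).card + 1 := by
  classical
  set E : ℕ → Finset (α × β) := fun i =>
    ((range i).filter pos).image (fun j => (cA j, cB j)) ∪
      ((range i).filter pos).image (fun j => (cA j, cB (j + 1))) with hE
  have key : ∀ i ≤ m, (((range i).filter pos).image cA).card + ((range (i + 1)).image cB).card
      ≤ (E i).card + 1 := by
    intro i
    induction i with
    | zero => intro _; simp [hE]
    | succ i ih =>
      intro hi
      have ih' := ih (by omega)
      set VA := ((range i).filter pos).image cA with hVA
      set VB := (range (i + 1)).image cB with hVB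
      have hBi : cB i ∈ VB := by
        rw [hVB]; exact mem_image_of_mem _ (by simp)
      have hEsub : ∀ e ∈ E i, e.1 ∈ VA ∧ e.2 ∈ VB := by
        intro e he
        rw [hE] at he
        simp only [mem_union, mem_image, mem_filter, mem_range] at he
        rcases he with ⟨j, ⟨hj, hp⟩, rfl⟩ | ⟨j, ⟨hj, hp⟩, rfl⟩
        · refine ⟨mem_image_of_mem _ (by simp [hj, hp]), mem_image_of_mem _ (by simp; omega)⟩
        · refine ⟨mem_image_of_mem _ (by simp [hj, hp]), mem_image_of_mem _ (by simp; omega)⟩
      have hB' : (range (i + 1 + 1)).image cB = insert (cB (i + 1)) VB := by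
        rw [range_add_one (n := i + 1), image_insert]
      by_cases hp : pos i
      · have hA' : ((range (i + 1)).filter pos).image cA = insert (cA i) VA := by
          rw [range_add_one, filter_insert, if_pos hp, image_insert]
        have hE' : E (i + 1) = insert (cA i, cB (i + 1)) (insert (cA i, cB i) (E i)) := by
          rw [hE]
          simp only
          rw [range_add_one, filter_insert, if_pos hp, image_insert, image_insert]
          ext e
          simp only [mem_union, mem_insert]
          tauto
        rw [hA', hB', hE']
        by_cases h1 : cA i ∈ VA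
        · by_cases h2 : cB (i + 1) ∈ VB
          · rw [insert_eq_of_mem h1, insert_eq_of_mem h2]
            calc VA.card + VB.card ≤ (E i).card + 1 := ih'
              _ ≤ _ := by
                gcongr
                exact (subset_insert _ _).trans (subset_insert _ _)
          · rw [insert_eq_of_mem h1, card_insert_of_notMem h2]
            have h3 : (cA i, cB (i + 1)) ∉ insert (cA i, cB i) (E i) := by
              rw [mem_insert, not_or]
              refine ⟨?_, fun h => h2 (hEsub _ h).2⟩
              intro h
              have : cB (i + 1) = cB i := (Prod.mk.inj h).2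
              exact h2 (this ▸ hBi)
            rw [card_insert_of_notMem h3]
            have : (E i).card ≤ (insert (cA i, cB i) (E i)).card :=
              card_le_card (subset_insert _ _)
            omega
        · have h4 : (cA i, cB i) ∉ E i := fun h => h1 (hEsub _ h).1
          by_cases h2 : cB (i + 1) ∈ VB
          · rw [card_insert_of_notMem h1, insert_eq_of_mem h2]
            have h5 : (insert (cA i, cB i) (E i)).card ≤
                (insert (cA i, cB (i + 1)) (insert (cA i, cB i) (E i))).card :=
              card_le_card (subset_insert _ _)
            rw [card_insert_of_notMem h4] at h5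
            omega
          · rw [card_insert_of_notMem h1, card_insert_of_notMem h2]
            have h3 : (cA i, cB (i + 1)) ∉ insert (cA i, cB i) (E i) := by
              rw [mem_insert, not_or]
              refine ⟨?_, fun h => h2 (hEsub _ h).2⟩
              intro h
              have : cB (i + 1) = cB i := (Prod.mk.inj h).2
              exact h2 (this ▸ hBi)
            rw [card_insert_of_notMem h3, card_insert_of_notMem h4]
            omega
      · have hA' : ((range (i + 1)).filter pos).image cA = VA := by
          rw [range_add_one, filter_insert, if_neg hp]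
        have hE' : E (i + 1) = E i := by
          rw [hE]
          simp only
          rw [range_add_one, filter_insert, if_neg hp]
        have h2 : cB (i + 1) ∈ VB := by rw [hneg i (by omega) hp]; exact hBi
        rw [hA', hB', hE', insert_eq_of_mem h2]
        exact ih'
  have hfin := key m le_rfl
  have hEm : E m ⊆ ((range m).filter pos).image (fun j => (cA j, cB (j + 1))) := by
    rw [hE]
    apply union_subset _ (subset_refl _)
    intro e he
    simp only [mem_image, mem_filter, mem_range] at he ⊢
    obtain ⟨j, ⟨hj, hp⟩, rfl⟩ := he
    obtain ⟨j', hj', hp', h1, h2⟩ := hedge j hj hp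
    exact ⟨j', ⟨hj', hp'⟩, by rw [h1, h2]⟩
  have hcard : (E m).card ≤ ((range m).filter pos).card :=
    (card_le_card hEm).trans card_image_le
  omega

/-- A finite subset of `[a, b]` containing the endpoints can be listed increasingly. -/
theorem exists_partition (Z : Finset ℝ) (a : ℝ) :
    ∀ b : ℝ, a < b → b ∈ Z → a ∈ Z →
    ∃ (m : ℕ) (τ : ℕ → ℝ), τ 0 = a ∧ τ m = b ∧ (∀ j < m, τ j < τ (j + 1)) ∧
      (∀ j ≤ m, τ j ∈ Z ∧ a ≤ τ j ∧ τ j ≤ b) ∧
      (∀ j < m, ∀ t, τ j < t → t < τ (j + 1) → t ∉ Z) ∧
      (∀ t, a ≤ t → t ≤ b → ∃ j < m, τ j ≤ t ∧ t ≤ τ (j + 1)) := by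
  classical
  have main : ∀ n : ℕ, ∀ b : ℝ, a < b → b ∈ Z → a ∈ Z →
      (Z.filter (fun t => a < t ∧ t < b)).card = n →
    ∃ (m : ℕ) (τ : ℕ → ℝ), τ 0 = a ∧ τ m = b ∧ (∀ j < m, τ j < τ (j + 1)) ∧
      (∀ j ≤ m, τ j ∈ Z ∧ a ≤ τ j ∧ τ j ≤ b) ∧
      (∀ j < m, ∀ t, τ j < t → t < τ (j + 1) → t ∉ Z) ∧
      (∀ t, a ≤ t → t ≤ b → ∃ j < m, τ j ≤ t ∧ t ≤ τ (j + 1)) := by
    intro n
    induction n using Nat.strong_induction_on with
    | _ n ih =>
      intro b hab hb ha hn
      rcases (Z.filter (fun t => a < t ∧ t < b)).eq_empty_or_nonempty with he | hne
      · refine ⟨1, fun j => if j = 0 then a else b, by simp, by simp, ?_, ?_, ?_, ?_⟩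
        · intro j hj
          have : j = 0 := by omega
          subst this; simpa using hab
        · intro j hj
          by_cases h : j = 0
          · subst h; simp [ha, hab.le]
          · simp [h, hb, hab.le]
        · intro j hj t h1 h2 hZ
          have : j = 0 := by omega
          subst this
          simp at h1 h2
          have : t ∈ (Z.filter (fun t => a < t ∧ t < b)) := by simp [hZ, h1, h2]
          rw [he] at this
          simp at this
        · intro t h1 h2
          exact ⟨0, by norm_num, by simpa using h1, by simpa using h2⟩
      · obtain ⟨c, hc, hmax⟩ := exists_max_image _ id hne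
        simp only [mem_filter, id] at hc hmax
        have hlt : (Z.filter (fun t => a < t ∧ t < c)).card < n := by
          rw [← hn]
          apply card_lt_card
          rw [ssubset_iff_of_subset]
          · exact ⟨c, by simp [hc], by simp⟩
          · intro t ht
            simp only [mem_filter] at ht ⊢
            exact ⟨ht.1, ht.2.1, ht.2.2.trans hc.2.2⟩
        obtain ⟨m, τ, h0, hm, hinc, hmem, hgap, hcov⟩ := ih _ hlt c hc.2.1 hc.1 ha rfl
        refine ⟨m + 1, fun j => if j ≤ m then τ j else b, by simp [h0], by simp, ?_, ?_, ?_, ?_⟩
        · intro j hj
          by_cases h : j < m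
          · have h1 : j ≤ m := h.le
            have h2 : j + 1 ≤ m := h
            simp only [h1, h2, if_true]
            exact hinc j h
          · have h1 : j = m := by omega
            subst h1
            simp [hm, hc.2.2]
        · intro j hj
          by_cases h : j ≤ m
          · simp only [h, if_true]
            exact ⟨(hmem j h).1, (hmem j h).2.1, (hmem j h).2.2.trans hc.2.2.le⟩
          · simp only [h, if_false]
            exact ⟨hb, hab.le, le_refl _⟩
        · intro j hj t h1 h2 hZ
          by_cases h : j < m
          · have h1' : j ≤ m := h.le
            have h2' : j + 1 ≤ m := h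
            simp only [h1', h2', if_true] at h1 h2
            exact hgap j h t h1 h2 hZ
          · have h1' : j = m := by omega
            subst h1'
            simp [hm] at h1 h2
            have := hmax t ⟨hZ, hc.2.1.trans h1, h2⟩
            linarith
        · intro t h1 h2
          by_cases h : t ≤ c
          · obtain ⟨j, hj, h3, h4⟩ := hcov t h1 h
            refine ⟨j, by omega, ?_, ?_⟩
            · simpa [hj.le] using h3
            · have h2' : j + 1 ≤ m := hj
              simpa [h2'] using h4
          · refine ⟨m, by omega, ?_, ?_⟩
            · simp only [le_refl, if_true, hm]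
              exact (not_le.mp h).le
            · simpa using h2
  intro b hab hb ha
  exact main _ b hab hb ha rfl

end Run7.h506
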