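import Mathlib
import Pool.Agent.Run7.h506.Walk

set_option autoImplicit false

namespace Run7.h506

open Set Topology

/-- A continuous real function whose circle exponential is constantly one is constant. -/
theorem phase_const {φ : ℝ → ℝ} {a b : ℝ} (hab : a ≤ b) (hc : ContinuousOn φ (Icc a b))
    (h : ∀ t ∈ Icc a b, Circle.exp (φ t) = 1) : φ a = φ b := by
  by_contra hne
  obtain ⟨n, hn⟩ := Circle.exp_eq_one.1 (h a ⟨le_refl _, hab⟩)
  obtain ⟨k, hk⟩ := Circle.exp_eq_one.1 (h b ⟨hab, le_refl _⟩)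
  have hpi := Real.pi_pos
  rcases lt_or_gt_of_ne hne with hlt | hlt
  · have hnk : n < k := by
      have : (n : ℝ) < k := by
        rw [hn, hk] at hlt
        exact lt_of_mul_lt_mul_right hlt (by positivity)
      exact_mod_cast this
    have hnk' : (n : ℝ) + 1 ≤ k := by exact_mod_cast hnk
    have hv : (n : ℝ) * (2 * Real.pi) + Real.pi ∈ Icc (φ a) (φ b) := by
      rw [hn, hk]
      constructor
      · linarith
      · nlinarith
    obtain ⟨t, ht, hv'⟩ := intermediate_value_Icc hab hc hv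
    obtain ⟨j, hj⟩ := Circle.exp_eq_one.1 (h t ht)
    rw [hj] at hv'
    have h2 : ((j : ℝ) * 2 - n * 2 - 1) * Real.pi = 0 := by linarith
    have h3 : (j : ℝ) * 2 - n * 2 - 1 = 0 := by
      rcases mul_eq_zero.1 h2 with h | h
      · exact h
      · exact absurd h hpi.ne'
    have h4 : (j * 2 - n * 2 - 1 : ℤ) = 0 := by exact_mod_cast h3
    omega
  · have hnk : k < n := by
      have : (k : ℝ) < n := by
        rw [hn, hk] at hlt
        exact lt_of_mul_lt_mul_right hlt (by positivity)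
      exact_mod_cast this
    have hnk' : (k : ℝ) + 1 ≤ n := by exact_mod_cast hnk
    have hv : (k : ℝ) * (2 * Real.pi) + Real.pi ∈ Icc (φ b) (φ a) := by
      rw [hn, hk]
      constructor
      · linarith
      · nlinarith
    obtain ⟨t, ht, hv'⟩ := intermediate_value_Icc' hab hc hv
    obtain ⟨j, hj⟩ := Circle.exp_eq_one.1 (h t ht)
    rw [hj] at hv'
    have h2 : ((j : ℝ) * 2 - k * 2 - 1) * Real.pi = 0 := by linarith
    have h3 : (j : ℝ) * 2 - k * 2 - 1 = 0 := by
      rcases mul_eq_zero.1 h2 with h | h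
      · exact h
      · exact absurd h hpi.ne'
    have h4 : (j * 2 - k * 2 - 1 : ℤ) = 0 := by exact_mod_cast h3
    omega

/-- A point of the closure of a component of an open set, lying in the open set, is in the
component. -/
theorem mem_comp_of_mem_closure {X : Type*} [TopologicalSpace X] [LocallyConnectedSpace X]
    {A : Set X} (hA : IsOpen A) {x y : X} (hy : y ∈ closure (connectedComponentIn A x))
    (hyA : y ∈ A) : y ∈ connectedComponentIn A x := by
  have ho : IsOpen (connectedComponentIn A y) := hA.connectedComponentIn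
  have hy' : y ∈ connectedComponentIn A y := mem_connectedComponentIn hyA
  obtain ⟨z, hz1, hz2⟩ := mem_closure_iff.1 hy _ ho hy'
  rw [connectedComponentIn_eq hz2, ← connectedComponentIn_eq hz1]
  exact hy'

/-- Crossing balance: if a closed path that lifts through every circle valued map enters a
component of `A` from a component of the complement, it also leaves the component of `A` into
that component of the complement. -/
theorem edge_lemma {X : Type*} [TopologicalSpace X] [CompactSpace X] [T2Space X]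
    [LocallyConnectedSpace X] {A : Set X} (hA : IsOpen A) {γ : ℝ → X} (hγ : Continuous γ)
    {a b : ℝ}
    (hnull : ∀ h : X → Circle, Continuous h → ∃ θ : ℝ → ℝ, Continuous θ ∧
      (∀ t, Circle.exp (θ t) = h (γ t)) ∧ θ a = θ b)
    (m : ℕ) (τ : ℕ → ℝ) (h0 : τ 0 = a) (hm : τ m = b) (hinc : ∀ j < m, τ j < τ (j + 1))
    (pos : ℕ → Prop) (hz : ∀ j ≤ m, γ (τ j) ∉ A)
    (hpos : ∀ j < m, pos j → ∀ t, τ j < t → t < τ (j + 1) → γ t ∈ A)
    (hneg : ∀ j < m, ¬ pos j → ∀ t, τ j ≤ t → t ≤ τ (j + 1) → γ t ∉ A)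
    (j₀ : ℕ) (hj₀ : j₀ < m) (hp₀ : pos j₀) :
    ∃ j < m, pos j ∧
      connectedComponentIn A (γ ((τ j + τ (j + 1)) / 2)) =
        connectedComponentIn A (γ ((τ j₀ + τ (j₀ + 1)) / 2)) ∧
      connectedComponentIn Aᶜ (γ (τ (j + 1))) = connectedComponentIn Aᶜ (γ (τ j₀)) := by
  classical
  by_contra hcon
  push Not at hcon
  have hB : IsClosed Aᶜ := hA.isClosed_compl
  have : CompactSpace (Aᶜ : Set X) := isCompact_iff_compactSpace.1 hB.isCompact
  set mid : ℕ → ℝ := fun j => (τ j + τ (j + 1)) / 2 with hmid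
  have hmidmem : ∀ j < m, τ j < mid j ∧ mid j < τ (j + 1) := by
    intro j hj
    have := hinc j hj
    simp only [hmid]
    constructor <;> linarith
  set D := connectedComponentIn A (γ (mid j₀)) with hD
  have hDo : IsOpen D := hA.connectedComponentIn
  have hDA : D ⊆ A := connectedComponentIn_subset _ _
  -- positive intervals are contained in their component
  have hint : ∀ j < m, pos j → ∀ t, τ j < t → t < τ (j + 1) →
      γ t ∈ connectedComponentIn A (γ (mid j)) := by
    intro j hj hp t h1 h2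
    have hsub : γ '' (Ioo (τ j) (τ (j + 1))) ⊆ A := by
      rintro _ ⟨s, hs, rfl⟩
      exact hpos j hj hp s hs.1 hs.2
    have hpre : IsPreconnected (γ '' (Ioo (τ j) (τ (j + 1)))) :=
      isPreconnected_Ioo.image _ hγ.continuousOn
    exact hpre.subset_connectedComponentIn
      (mem_image_of_mem _ ⟨(hmidmem j hj).1, (hmidmem j hj).2⟩) hsub
      (mem_image_of_mem _ ⟨h1, h2⟩)
  set b0 : (Aᶜ : Set X) := ⟨γ (τ j₀), hz j₀ hj₀.le⟩ with hb0
  set J := (Finset.range m).filter (fun j => pos j ∧ connectedComponentIn A (γ (mid j)) = D)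
    with hJ
  have hJ' : ∀ j ∈ J, j < m ∧ pos j ∧ connectedComponentIn A (γ (mid j)) = D := by
    intro j hj
    simpa [hJ] using hj
  have hsep : ∀ j : ℕ, ∃ s : Set (Aᶜ : Set X), IsClopen s ∧ b0 ∈ s ∧
      (j ∈ J → ∀ h : γ (τ (j + 1)) ∈ Aᶜ, (⟨γ (τ (j + 1)), h⟩ : (Aᶜ : Set X)) ∉ s) := by
    intro j
    by_cases hj : j ∈ J
    · obtain ⟨h1, h2, h3⟩ := hJ' j hj
      have hmem : γ (τ (j + 1)) ∈ Aᶜ := hz (j + 1) h1
      have hne := hcon j h1 h2 h3
      have hnot : (⟨γ (τ (j + 1)), hmem⟩ : (Aᶜ : Set X)) ∉ connectedComponent b0 := by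
        intro hin
        apply hne
        have : γ (τ (j + 1)) ∈ connectedComponentIn Aᶜ (γ (τ j₀)) := by
          rw [connectedComponentIn_eq_image (hz j₀ hj₀.le)]
          exact ⟨_, hin, rfl⟩
        exact (connectedComponentIn_eq this).symm
      rw [connectedComponent_eq_iInter_isClopen] at hnot
      simp only [mem_iInter, not_forall] at hnot
      obtain ⟨⟨s, hs1, hs2⟩, hs3⟩ := hnot
      exact ⟨s, hs1, hs2, fun _ _ => hs3⟩
    · exact ⟨univ, isClopen_univ, mem_univ _, fun h => absurd h hj⟩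
  choose s hs1 hs2 hs3 using hsep
  set K : Set (Aᶜ : Set X) := ⋂ j ∈ J, s j with hK
  have hKc : IsClopen K := by
    rw [hK]
    exact isClopen_biInter_finset (fun j _ => hs1 j)
  have hb0K : b0 ∈ K := by
    simp only [hK, mem_iInter]
    exact fun j _ => hs2 j
  set B1 : Set X := Subtype.val '' K with hB1
  set B2 : Set X := Subtype.val '' Kᶜ with hB2
  have hB1c : IsClosed B1 := hB.isClosedEmbedding_subtypeVal.isClosedMap _ hKc.1
  have hB2c : IsClosed B2 := hB.isClosedEmbedding_subtypeVal.isClosedMap _ hKc.compl.1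
  have hdisj : Disjoint B1 B2 := by
    rw [Set.disjoint_left]
    rintro x ⟨y, hy, rfl⟩ ⟨z, hz', hzy⟩
    have : z = y := Subtype.ext hzy
    exact hz' (this ▸ hy)
  obtain ⟨f, hf0, hf1, hf01⟩ := exists_continuous_zero_one_of_isClosed hB1c hB2c hdisj
  have hfB : ∀ x ∈ Aᶜ, f x = 0 ∨ f x = 1 := by
    intro x hx
    by_cases hxK : (⟨x, hx⟩ : (Aᶜ : Set X)) ∈ K
    · left; exact hf0 ⟨_, hxK, rfl⟩
    · right; exact hf1 ⟨_, hxK, rfl⟩
  have hfexp : ∀ x ∈ Aᶜ, Circle.exp (2 * Real.pi * f x) = 1 := by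
    intro x hx
    rcases hfB x hx with h | h <;> simp [h]
  set h : X → Circle := D.piecewise (fun x => Circle.exp (2 * Real.pi * f x)) (fun _ => 1)
    with hh
  have hfront : ∀ x ∈ frontier D, x ∈ Aᶜ := by
    intro x hx hxA
    rw [hDo.frontier_eq] at hx
    exact hx.2 (mem_comp_of_mem_closure hA hx.1 hxA)
  have hcont : Continuous h := by
    rw [hh]
    apply Continuous.piecewise
    · intro x hx
      exact hfexp x (hfront x hx)
    · fun_prop
    · exact continuous_const
  have hhD : ∀ x ∈ D, h x = Circle.exp (2 * Real.pi * f x) := fun x hx => by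
    rw [hh]; exact Set.piecewise_eq_of_mem _ _ _ hx
  have hhD' : ∀ x ∉ D, h x = 1 := fun x hx => by
    rw [hh]; exact Set.piecewise_eq_of_notMem _ _ _ hx
  obtain ⟨θ, hθc, hθ, hθab⟩ := hnull h hcont
  have hdiff1 : ∀ j ∈ J, θ (τ (j + 1)) - θ (τ j) =
      2 * Real.pi * (f (γ (τ (j + 1))) - f (γ (τ j))) := by
    intro j hj
    obtain ⟨h1, h2, h3⟩ := hJ' j hj
    have hkey := phase_const (φ := fun t => θ t - 2 * Real.pi * f (γ t)) (hinc j h1).le
      (by fun_prop) (by
        intro t ht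
        have hexp : h (γ t) = Circle.exp (2 * Real.pi * f (γ t)) := by
          rcases eq_or_lt_of_le ht.1 with he | hl
          · have hA' : γ t ∈ Aᶜ := by rw [← he]; exact hz j h1.le
            rw [hhD' _ (fun hd => hA' (hDA hd)), hfexp _ hA']
          · rcases eq_or_lt_of_le ht.2 with he' | hl'
            · have hA' : γ t ∈ Aᶜ := by rw [he']; exact hz (j + 1) h1
              rw [hhD' _ (fun hd => hA' (hDA hd)), hfexp _ hA']
            · apply hhD
              rw [← h3]
              exact hint j h1 h2 t hl hl'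
        rw [Circle.exp_sub, hθ t, hexp, div_self'])
    linarith
  have hdiff2 : ∀ j < m, j ∉ J → θ (τ (j + 1)) - θ (τ j) = 0 := by
    intro j hj hjJ
    have hkey := phase_const (φ := θ) (hinc j hj).le (by fun_prop) (by
        intro t ht
        rw [hθ t]
        apply hhD'
        intro hd
        by_cases hp : pos j
        · rcases eq_or_lt_of_le ht.1 with he | hl
          · exact hz j hj.le (he ▸ hDA hd)
          · rcases eq_or_lt_of_le ht.2 with he' | hl'
            · exact hz (j + 1) hj (he' ▸ hDA hd)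
            · apply hjJ
              rw [hJ, Finset.mem_filter, Finset.mem_range]
              refine ⟨hj, hp, ?_⟩
              rw [connectedComponentIn_eq (hint j hj hp t hl hl'), hD,
                connectedComponentIn_eq hd]
        · exact hneg j hj hp t ht.1 ht.2 (hDA hd))
    linarith
  have hsum : ∑ j ∈ Finset.range m, (θ (τ (j + 1)) - θ (τ j)) = 0 := by
    rw [Finset.sum_range_sub (fun j => θ (τ j)), h0, hm, hθab, sub_self]
  have hend : ∀ j ∈ J, f (γ (τ (j + 1))) = 1 := by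
    intro j hj
    obtain ⟨h1, h2, h3⟩ := hJ' j hj
    have hmem : γ (τ (j + 1)) ∈ Aᶜ := hz (j + 1) h1
    apply hf1
    refine ⟨⟨_, hmem⟩, ?_, rfl⟩
    intro hin
    simp only [hK, mem_iInter] at hin
    exact hs3 j hj hmem (hin j hj)
  have hnonneg : ∀ j ∈ Finset.range m, 0 ≤ θ (τ (j + 1)) - θ (τ j) := by
    intro j hj
    by_cases hjJ : j ∈ J
    · rw [hdiff1 j hjJ, hend j hjJ]
      have := (hf01 (γ (τ j))).2
      have hpi := Real.pi_pos
      apply mul_nonneg (by positivity)
      linarith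
    · rw [hdiff2 j (Finset.mem_range.1 hj) hjJ]
  have hall := (Finset.sum_eq_zero_iff_of_nonneg hnonneg).1 hsum j₀ (Finset.mem_range.2 hj₀)
  have hj₀J : j₀ ∈ J := by
    rw [hJ, Finset.mem_filter, Finset.mem_range]
    exact ⟨hj₀, hp₀, rfl⟩
  have hst : f (γ (τ j₀)) = 0 := hf0 ⟨b0, hb0K, rfl⟩
  rw [hdiff1 j₀ hj₀J, hend j₀ hj₀J, hst] at hall
  have hpi := Real.pi_pos
  linarith

/-- Abstract count along a closed curve. -/
theorem comps_le {X : Type*} [TopologicalSpace X] [CompactSpace X] [T2Space X]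
    [LocallyConnectedSpace X] {A : Set X} (hA : IsOpen A) {γ : ℝ → X} (hγ : Continuous γ)
    {a b : ℝ}
    (hnull : ∀ h : X → Circle, Continuous h → ∃ θ : ℝ → ℝ, Continuous θ ∧
      (∀ t, Circle.exp (θ t) = h (γ t)) ∧ θ a = θ b)
    (m : ℕ) (τ : ℕ → ℝ) (h0 : τ 0 = a) (hm : τ m = b) (hinc : ∀ j < m, τ j < τ (j + 1))
    (pos : ℕ → Prop) [DecidablePred pos] (hz : ∀ j ≤ m, γ (τ j) ∉ A)
    (hpos : ∀ j < m, pos j → ∀ t, τ j < t → t < τ (j + 1) → γ t ∈ A)
    (hneg : ∀ j < m, ¬ pos j → ∀ t, τ j ≤ t → t ≤ τ (j + 1) → γ t ∉ A)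
    (hcov : ∀ t, a ≤ t → t ≤ b → ∃ j < m, τ j ≤ t ∧ t ≤ τ (j + 1))
    (FA FB : Finset (Set X))
    (hFA : ∀ C ∈ FA, ∃ t, a ≤ t ∧ t ≤ b ∧ γ t ∈ A ∧ C = connectedComponentIn A (γ t))
    (hFB : ∀ C ∈ FB, ∃ t, a ≤ t ∧ t ≤ b ∧ γ t ∉ A ∧ C = connectedComponentIn Aᶜ (γ t)) :
    FA.card + FB.card ≤ ((Finset.range m).filter pos).card + 1 := by
  classical
  have hwalk := walk_count m pos
    (fun j => connectedComponentIn A (γ ((τ j + τ (j + 1)) / 2)))
    (fun j => connectedComponentIn Aᶜ (γ (τ j)))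
    (by
      intro j hj hp
      have hpre : IsPreconnected (γ '' (Icc (τ j) (τ (j + 1)))) :=
        isPreconnected_Icc.image _ hγ.continuousOn
      have hsub : γ '' (Icc (τ j) (τ (j + 1))) ⊆ Aᶜ := by
        rintro _ ⟨s, hs, rfl⟩
        exact hneg j hj hp s hs.1 hs.2
      have := hpre.subset_connectedComponentIn
        (mem_image_of_mem _ (left_mem_Icc.2 (hinc j hj).le)) hsub
        (mem_image_of_mem _ (right_mem_Icc.2 (hinc j hj).le))
      exact (connectedComponentIn_eq this).symm)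
    (by
      intro j hj hp
      obtain ⟨j', h1, h2, h3, h4⟩ := edge_lemma hA hγ hnull m τ h0 hm hinc pos hz hpos hneg
        j hj hp
      exact ⟨j', h1, h2, h3, h4⟩)
  refine le_trans (Nat.add_le_add (Finset.card_le_card ?_) (Finset.card_le_card ?_)) hwalk
  · intro C hC
    obtain ⟨t, h1, h2, h3, rfl⟩ := hFA C hC
    obtain ⟨j, hj, h4, h5⟩ := hcov t h1 h2
    have h6 : τ j < t := lt_of_le_of_ne h4 (fun he => hz j hj.le (he ▸ h3))
    have h7 : t < τ (j + 1) := lt_of_le_of_ne h5 (fun he => hz (j + 1) hj (he ▸ h3))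
    have hp : pos j := by
      by_contra hp
      exact hneg j hj hp t h4 h5 h3
    rw [Finset.mem_image]
    refine ⟨j, by simp [hj, hp], ?_⟩
    have hsub : γ '' (Ioo (τ j) (τ (j + 1))) ⊆ A := by
      rintro _ ⟨s, hs, rfl⟩
      exact hpos j hj hp s hs.1 hs.2
    have hpre : IsPreconnected (γ '' (Ioo (τ j) (τ (j + 1)))) :=
      isPreconnected_Ioo.image _ hγ.continuousOn
    have hmid : (τ j + τ (j + 1)) / 2 ∈ Ioo (τ j) (τ (j + 1)) := by
      have := hinc j hj
      constructor <;> linarith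
    exact connectedComponentIn_eq (hpre.subset_connectedComponentIn
      (mem_image_of_mem _ hmid) hsub (mem_image_of_mem _ ⟨h6, h7⟩))
  · intro C hC
    obtain ⟨t, h1, h2, h3, rfl⟩ := hFB C hC
    obtain ⟨j, hj, h4, h5⟩ := hcov t h1 h2
    rw [Finset.mem_image]
    by_cases hp : pos j
    · have : t = τ j ∨ t = τ (j + 1) := by
        by_contra hcon
        push Not at hcon
        exact h3 (hpos j hj hp t (lt_of_le_of_ne h4 (Ne.symm hcon.1))
          (lt_of_le_of_ne h5 hcon.2))
      rcases this with he | he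
      · exact ⟨j, by simp; omega, by rw [he]⟩
      · exact ⟨j + 1, by simp; omega, by rw [he]⟩
    · refine ⟨j, by simp; omega, ?_⟩
      have hpre : IsPreconnected (γ '' (Icc (τ j) (τ (j + 1)))) :=
        isPreconnected_Icc.image _ hγ.continuousOn
      have hsub : γ '' (Icc (τ j) (τ (j + 1))) ⊆ Aᶜ := by
        rintro _ ⟨s, hs, rfl⟩
        exact hneg j hj hp s hs.1 hs.2
      exact connectedComponentIn_eq (hpre.subset_connectedComponentIn
        (mem_image_of_mem _ (left_mem_Icc.2 (hinc j hj).le)) hsub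
        (mem_image_of_mem _ ⟨h4, h5⟩))

end Run7.h506
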