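import Mathlib
import Pool.Agent.Run7.h506.Topo
import Pool.Agent.Run7.h506.Poly

set_option autoImplicit false

namespace Run7.h506

open Set Topology MvPolynomial

abbrev E3 := EuclideanSpace ℝ (Fin 3)
abbrev S2 := Metric.sphere (0 : E3) 1

instance instLCS2 : LocallyConnectedSpace S2 := by
  have : Fact (Module.finrank ℝ E3 = 2 + 1) := ⟨by simp⟩
  exact ChartedSpace.locallyConnectedSpace (EuclideanSpace ℝ (Fin 2)) S2

/-- Value of a polynomial at a point of Euclidean space. -/
noncomputable def ev (P : MvPolynomial (Fin 3) ℝ) (x : E3) : ℝ := eval (fun i => x i) P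

theorem ev_continuous (P : MvPolynomial (Fin 3) ℝ) : Continuous (ev P) := by
  unfold ev
  have h1 : Continuous (fun f : Fin 3 → ℝ => eval f P) := MvPolynomial.continuous_eval P
  exact h1.comp (by fun_prop)

theorem ev_smul {P : MvPolynomial (Fin 3) ℝ} {ℓ : ℕ} (hP : P.IsHomogeneous ℓ) (c : ℝ) (x : E3) :
    ev P (c • x) = c ^ ℓ * ev P x := by
  unfold ev
  rw [← eval_scale hP]
  congr 2

theorem norm_comb (b : OrthonormalBasis (Fin 3) ℝ E3) (c0 c1 c2 : ℝ) :
    ‖c0 • b 0 + c1 • b 1 + c2 • b 2‖ ^ 2 = c0 ^ 2 + c1 ^ 2 + c2 ^ 2 := by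
  have h00 : inner ℝ (b 0) (b 0) = 1 := by simp
  have h11 : inner ℝ (b 1) (b 1) = 1 := by simp
  have h22 : inner ℝ (b 2) (b 2) = 1 := by simp
  have h01 : inner ℝ (b 0) (b 1) = 0 := b.orthonormal.2 (by decide)
  have h02 : inner ℝ (b 0) (b 2) = 0 := b.orthonormal.2 (by decide)
  have h12 : inner ℝ (b 1) (b 2) = 0 := b.orthonormal.2 (by decide)
  have h10 : inner ℝ (b 1) (b 0) = 0 := b.orthonormal.2 (by decide)
  have h20 : inner ℝ (b 2) (b 0) = 0 := b.orthonormal.2 (by decide)
  have h21 : inner ℝ (b 2) (b 1) = 0 := b.orthonormal.2 (by decide)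
  rw [← real_inner_self_eq_norm_sq]
  simp only [inner_add_left, inner_add_right, inner_smul_left, inner_smul_right, h00, h11, h22,
    h01, h02, h12, h10, h20, h21, RCLike.conj_to_real]
  ring

theorem norm_eq_one_of_sq {x : E3} (h : ‖x‖ ^ 2 = 1) : ‖x‖ = 1 := by
  have h0 := norm_nonneg x
  nlinarith

/-- Parametrised great circle spanned by the first two vectors of an orthonormal basis. -/
noncomputable def gc (b : OrthonormalBasis (Fin 3) ℝ E3) (t : ℝ) : S2 :=
  ⟨Real.cos t • b 0 + Real.sin t • b 1, by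
    rw [mem_sphere_zero_iff_norm]
    apply norm_eq_one_of_sq
    have h := norm_comb b (Real.cos t) (Real.sin t) 0
    rw [zero_smul, add_zero] at h
    rw [h]
    have := Real.sin_sq_add_cos_sq t
    linarith⟩

theorem gc_continuous (b : OrthonormalBasis (Fin 3) ℝ E3) : Continuous (gc b) := by
  unfold gc
  apply Continuous.subtype_mk
  fun_prop

/-- The contraction of the great circle to its pole. -/
noncomputable def gcH (b : OrthonormalBasis (Fin 3) ℝ E3) (z : ℝ × ℝ) : S2 :=
  ⟨(Real.cos z.1 * Real.cos z.2) • b 0 + (Real.cos z.1 * Real.sin z.2) • b 1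
      + Real.sin z.1 • b 2, by
    rw [mem_sphere_zero_iff_norm]
    apply norm_eq_one_of_sq
    rw [norm_comb b]
    have h1 := Real.sin_sq_add_cos_sq z.1
    have h2 := Real.sin_sq_add_cos_sq z.2
    have : (Real.cos z.1 * Real.cos z.2) ^ 2 + (Real.cos z.1 * Real.sin z.2) ^ 2
        = Real.cos z.1 ^ 2 * (Real.sin z.2 ^ 2 + Real.cos z.2 ^ 2) := by ring
    rw [this, h2]
    linarith⟩

theorem gcH_continuous (b : OrthonormalBasis (Fin 3) ℝ E3) : Continuous (gcH b) := by
  unfold gcH
  apply Continuous.subtype_mk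
  fun_prop

theorem gc_null (b : OrthonormalBasis (Fin 3) ℝ E3) (h : S2 → Circle) (hh : Continuous h) :
    ∃ θ : ℝ → ℝ, Continuous θ ∧ (∀ t, Circle.exp (θ t) = h (gc b t)) ∧
      θ (-Real.pi) = θ Real.pi := by
  obtain ⟨e0, he0⟩ := Circle.exp_surjective (h (gcH b (0, 0)))
  obtain ⟨G, ⟨-, hG⟩, -⟩ := Circle.isCoveringMap_exp.existsUnique_continuousMap_lifts
    (⟨fun z : ℝ × ℝ => h (gcH b z), hh.comp (gcH_continuous b)⟩ : C(ℝ × ℝ, Circle)) (0, 0) e0 he0
  have hG' : ∀ z, Circle.exp (G z) = h (gcH b z) := fun z => congrFun hG z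
  have hGc : Continuous G := G.continuous
  refine ⟨fun t => G (0, t), by fun_prop, ?_, ?_⟩
  · intro t
    rw [hG']
    congr 1
    apply Subtype.ext
    simp [gcH, gc]
  · have hpi := Real.pi_pos
    have h1 := phase_const (φ := fun s => G (s, -Real.pi) - G (s, Real.pi))
      (a := 0) (b := Real.pi / 2) (by positivity) (by fun_prop) (by
        intro s _
        rw [Circle.exp_sub, hG', hG']
        have : gcH b (s, -Real.pi) = gcH b (s, Real.pi) := by
          apply Subtype.ext
          simp [gcH]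
        rw [this, div_self'])
    have h2 := phase_const (φ := fun t => G (Real.pi / 2, t) - G (Real.pi / 2, Real.pi))
      (a := -Real.pi) (b := Real.pi) (by linarith) (by fun_prop) (by
        intro s _
        rw [Circle.exp_sub, hG', hG']
        have : gcH b (Real.pi / 2, s) = gcH b (Real.pi / 2, Real.pi) := by
          apply Subtype.ext
          simp [gcH]
        rw [this, div_self'])
    linarith

/-- Every unit vector orthogonal to the pole is on the great circle. -/
theorem exists_gc (b : OrthonormalBasis (Fin 3) ℝ E3) (x : S2)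
    (hx : inner ℝ (b 2) (x : E3) = 0) : ∃ t, -Real.pi ≤ t ∧ t ≤ Real.pi ∧ gc b t = x := by
  set c0 := inner ℝ (b 0) (x : E3) with hc0
  set c1 := inner ℝ (b 1) (x : E3) with hc1
  have hx' : (x : E3) = c0 • b 0 + c1 • b 1 := by
    have h := b.sum_repr' (x : E3)
    rw [Fin.sum_univ_three, hx, zero_smul, add_zero] at h
    exact h.symm
  have hn : c0 ^ 2 + c1 ^ 2 = 1 := by
    have h := norm_comb b c0 c1 0
    rw [zero_smul, add_zero, ← hx'] at h
    have hx1 : ‖(x : E3)‖ = 1 := mem_sphere_zero_iff_norm.1 x.2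
    rw [hx1] at h
    linarith
  have hne : (⟨c0, c1⟩ : ℂ) ≠ 0 := by
    intro h
    have h1 := congrArg Complex.re h
    have h2 := congrArg Complex.im h
    simp at h1 h2
    rw [h1, h2] at hn
    norm_num at hn
  have hnorm : ‖(⟨c0, c1⟩ : ℂ)‖ = 1 := by
    rw [Complex.norm_def, Complex.normSq_mk]
    rw [show c0 * c0 + c1 * c1 = 1 by nlinarith]
    simp
  refine ⟨Complex.arg ⟨c0, c1⟩, (Complex.neg_pi_lt_arg _).le, Complex.arg_le_pi _, ?_⟩
  apply Subtype.ext
  have hcos : Real.cos (Complex.arg ⟨c0, c1⟩) = c0 := by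
    rw [Complex.cos_arg hne, hnorm]; simp
  have hsin : Real.sin (Complex.arg ⟨c0, c1⟩) = c1 := by
    rw [Complex.sin_arg, hnorm]; simp
  simp only [gc]
  rw [hcos, hsin, ← hx']

end Run7.h506
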