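import Mathlib
import Pool.Agent.Run7.h506.Sphere

set_option autoImplicit false

namespace Run7.h506

open Set Topology MvPolynomial

/-- Radial projection to the sphere (with a dummy value at the origin). -/
noncomputable def rad (z : S2) (x : E3) : S2 := by
  classical
  exact if h : x = 0 then z else ⟨‖x‖⁻¹ • x, by
    rw [mem_sphere_zero_iff_norm, norm_smul, norm_inv, norm_norm]
    exact inv_mul_cancel₀ (norm_ne_zero_iff.2 h)⟩

theorem rad_val (z : S2) {x : E3} (h : x ≠ 0) : (rad z x : E3) = ‖x‖⁻¹ • x := by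
  simp [rad, h]

theorem rad_self (z y : S2) : rad z (y : E3) = y := by
  have hy : ‖(y : E3)‖ = 1 := mem_sphere_zero_iff_norm.1 y.2
  have h0 : (y : E3) ≠ 0 := by
    intro h
    rw [h, norm_zero] at hy
    exact zero_ne_one hy
  apply Subtype.ext
  rw [rad_val z h0, hy, inv_one, one_smul]

theorem rad_continuousOn (z : S2) : ContinuousOn (rad z) {x : E3 | x ≠ 0} := by
  rw [Topology.IsInducing.subtypeVal.continuousOn_iff]
  have h : ContinuousOn (fun x : E3 => ‖x‖⁻¹ • x) {x : E3 | x ≠ 0} := by
    have h1 : ContinuousOn (fun x : E3 => ‖x‖⁻¹) {x : E3 | x ≠ 0} :=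
      continuous_norm.continuousOn.inv₀ (fun x hx => norm_ne_zero_iff.2 hx)
    exact h1.smul continuousOn_id
  exact h.congr (fun x hx => rad_val z hx)

theorem ev_rad {P : MvPolynomial (Fin 3) ℝ} {ℓ : ℕ} (hP : P.IsHomogeneous ℓ) (z : S2) {x : E3}
    (h : x ≠ 0) : ev P (rad z x) = (‖x‖⁻¹) ^ ℓ * ev P x := by
  rw [rad_val z h, ev_smul hP]

theorem ev_rad_neg {P : MvPolynomial (Fin 3) ℝ} {ℓ : ℕ} (hP : P.IsHomogeneous ℓ) (z : S2) {x : E3}
    (h : x ≠ 0) (hx : ev P x < 0) : ev P (rad z x) < 0 := by
  rw [ev_rad hP z h]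
  have : 0 < ‖x‖ := norm_pos_iff.2 h
  have h2 : 0 < (‖x‖⁻¹) ^ ℓ := by positivity
  exact mul_neg_of_pos_of_neg h2 hx

/-- Derivative of the polynomial along a line. -/
theorem line_deriv (P : MvPolynomial (Fin 3) ℝ) (y v : E3) (s : ℝ) :
    HasDerivAt (fun s : ℝ => ev P (y - s • v))
      (-∑ i, v i * eval (fun j => (y - s • v) j) (pderiv i P)) s := by
  have h := hasDerivAt_eval P (g := fun s i => (y - s • v) i) (g' := fun i => -v i) (t := s)
    (fun i => by
      have h1 : (fun s : ℝ => (y - s • v) i) = fun s : ℝ => y i - s * v i := by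
        funext s
        simp
      rw [h1]
      have h2 := (hasDerivAt_mul_const (x := s) (v i)).const_sub (y i)
      exact h2)
  have e : -∑ i, v i * eval (fun j => (y - s • v) j) (pderiv i P) =
      ∑ i, -v i * eval (fun j => (y - s • v) j) (pderiv i P) := by
    rw [← Finset.sum_neg_distrib]
    apply Finset.sum_congr rfl
    intro i _
    ring
  rw [e]
  exact h

theorem line_anti {P : MvPolynomial (Fin 3) ℝ} {z v : E3} {δ : ℝ}
    (hw : ∀ x : E3, ‖x - z‖ < δ → 0 < ∑ i, v i * eval (fun j => x j) (pderiv i P))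
    {y : E3} {s0 : ℝ} (hy : ‖y - z‖ + s0 * ‖v‖ < δ) :
    StrictAntiOn (fun s : ℝ => ev P (y - s • v)) (Icc 0 s0) := by
  have hin : ∀ s ∈ Icc (0 : ℝ) s0, ‖(y - s • v) - z‖ < δ := by
    intro s hs
    have h1 : (y - s • v) - z = (y - z) - s • v := by abel
    have h2 := norm_sub_le (y - z) (s • v)
    rw [norm_smul, Real.norm_of_nonneg hs.1] at h2
    have h3 : s * ‖v‖ ≤ s0 * ‖v‖ := mul_le_mul_of_nonneg_right hs.2 (norm_nonneg v)
    rw [h1]
    linarith
  apply strictAntiOn_of_deriv_neg (convex_Icc 0 s0)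
  · intro s _
    exact (line_deriv P y v s).continuousAt.continuousWithinAt
  · intro s hs
    rw [interior_Icc] at hs
    rw [(line_deriv P y v s).deriv]
    have := hw _ (hin s ⟨hs.1.le, hs.2.le⟩)
    linarith

/-- Near a regular zero the negative set lies in a single component, and the zero is in its
closure. -/
theorem local_neg {P : MvPolynomial (Fin 3) ℝ} {ℓ : ℕ} (hP : P.IsHomogeneous ℓ) (z : S2)
    (hz : ev P z = 0) (hg : ∃ i, eval (fun j => (z : E3) j) (pderiv i P) ≠ 0) :
    (∃ U : Set S2, IsOpen U ∧ z ∈ U ∧ ∀ y1 ∈ U, ∀ y2 ∈ U, ev P y1 < 0 → ev P y2 < 0 →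
      connectedComponentIn {y : S2 | ev P y < 0} y1 =
        connectedComponentIn {y : S2 | ev P y < 0} y2) ∧
    z ∈ closure {y : S2 | ev P y < 0} := by
  set v : E3 := WithLp.toLp 2 (fun i => eval (fun j => (z : E3) j) (pderiv i P)) with hv
  have hvi : ∀ i, v i = eval (fun j => (z : E3) j) (pderiv i P) := fun i => rfl
  have hzn : ‖(z : E3)‖ = 1 := mem_sphere_zero_iff_norm.1 z.2
  set w : E3 → ℝ := fun x => ∑ i, v i * eval (fun j => x j) (pderiv i P) with hw
  have hwc : Continuous w := by
    apply continuous_finsetSum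
    intro i _
    exact continuous_const.mul (ev_continuous (pderiv i P))
  have hwz : 0 < w z := by
    obtain ⟨i, hi⟩ := hg
    apply Finset.sum_pos'
    · intro j _
      rw [hvi]
      exact mul_self_nonneg _
    · refine ⟨i, Finset.mem_univ i, ?_⟩
      rw [hvi]
      exact mul_self_pos.2 hi
  obtain ⟨δ0, hδ0, hball⟩ := Metric.isOpen_iff.1 (isOpen_lt continuous_const hwc) (z : E3) hwz
  set δ := min δ0 1 with hδ
  have hδpos : 0 < δ := lt_min hδ0 one_pos
  have hwδ : ∀ x : E3, ‖x - z‖ < δ → 0 < ∑ i, v i * eval (fun j => x j) (pderiv i P) := by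
    intro x hx
    apply hball
    rw [Metric.mem_ball, dist_eq_norm]
    exact lt_of_lt_of_le hx (min_le_left _ _)
  have hne0 : ∀ x : E3, ‖x - z‖ < δ → x ≠ 0 := by
    rintro x hx rfl
    rw [zero_sub, norm_neg, hzn] at hx
    exact absurd hx (not_lt.2 (min_le_right _ _))
  set s0 : ℝ := δ / (2 * (‖v‖ + 1)) with hs0
  have hvn : 0 < ‖v‖ + 1 := by positivity
  have hs0pos : 0 < s0 := by positivity
  have hs0v : s0 * ‖v‖ < δ / 2 := by
    rw [hs0, div_mul_eq_mul_div, div_lt_div_iff₀ (by positivity) (by norm_num)]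
    nlinarith [norm_nonneg v]
  have hanti := line_anti (y := (z : E3)) (s0 := s0) hwδ (by rw [sub_self, norm_zero]; linarith)
  set p0 : E3 := (z : E3) - s0 • v with hp0
  have hnegz : ∀ s ∈ Ioc (0 : ℝ) s0, ev P ((z : E3) - s • v) < 0 := by
    intro s hs
    have h := hanti (left_mem_Icc.2 hs0pos.le) (⟨hs.1.le, hs.2⟩ : s ∈ Icc 0 s0) hs.1
    simp only [zero_smul, sub_zero, hz] at h
    exact h
  have hp0neg : ev P p0 < 0 := hnegz s0 ⟨hs0pos, le_refl _⟩
  obtain ⟨ε0, hε0, hball2⟩ := Metric.isOpen_iff.1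
    (isOpen_lt (ev_continuous P) continuous_const) p0 hp0neg
  set ε := min ε0 (δ / 2) with hε
  have hεpos : 0 < ε := lt_min hε0 (by positivity)
  constructor
  · refine ⟨{y : S2 | ‖(y : E3) - z‖ < ε}, isOpen_lt (by fun_prop) (by fun_prop), ?_, ?_⟩
    · change ‖(z : E3) - z‖ < ε
      rw [sub_self, norm_zero]; exact hεpos
    · intro y1 hy1 y2 hy2 hn1 hn2
      change ‖(y1 : E3) - z‖ < ε at hy1
      change ‖(y2 : E3) - z‖ < ε at hy2
      set B := Metric.ball p0 ε with hB
      have hεδ : ε ≤ δ / 2 := min_le_right _ _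
      have hBneg : ∀ x ∈ B, ev P x < 0 ∧ x ≠ 0 := by
        intro x hx
        rw [hB, Metric.mem_ball, dist_eq_norm] at hx
        constructor
        · apply hball2
          rw [Metric.mem_ball, dist_eq_norm]
          exact lt_of_lt_of_le hx (min_le_left _ _)
        · apply hne0
          have h1 : x - z = (x - p0) - s0 • v := by rw [hp0]; abel
          have h2 := norm_sub_le (x - p0) (s0 • v)
          rw [norm_smul, Real.norm_of_nonneg hs0pos.le] at h2
          rw [h1]
          linarith
      have key : ∀ y : S2, ‖(y : E3) - z‖ < ε → ev P y < 0 →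
          IsPreconnected (segment ℝ ((y : E3)) ((y : E3) - s0 • v)) ∧
          (y : E3) - s0 • v ∈ B ∧
          ∀ x ∈ segment ℝ ((y : E3)) ((y : E3) - s0 • v), ev P x < 0 ∧ x ≠ 0 := by
        intro y hy hyn
        have hyδ : ‖(y : E3) - z‖ + s0 * ‖v‖ < δ := by linarith
        have han := line_anti (y := (y : E3)) hwδ hyδ
        refine ⟨(convex_segment _ _).isPreconnected, ?_, ?_⟩
        · rw [hB, Metric.mem_ball, dist_eq_norm, hp0]
          have : (y : E3) - s0 • v - ((z : E3) - s0 • v) = (y : E3) - z := by abel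
          rw [this]; exact hy
        · intro x hx
          rw [segment_eq_image'] at hx
          obtain ⟨θ, hθ, rfl⟩ := hx
          have e : (y : E3) + θ • ((y : E3) - s0 • v - y) = (y : E3) - (θ * s0) • v := by
            have : (y : E3) - s0 • v - y = -(s0 • v) := by abel
            rw [this, smul_neg, smul_smul, sub_eq_add_neg]
          simp only
          rw [e]
          have hmem : θ * s0 ∈ Icc (0 : ℝ) s0 :=
            ⟨mul_nonneg hθ.1 hs0pos.le, by nlinarith [hθ.2]⟩
          constructor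
          · rcases eq_or_lt_of_le hmem.1 with h0 | h0
            · rw [← h0, zero_smul, sub_zero]; exact hyn
            · have := han (left_mem_Icc.2 hs0pos.le) hmem h0
              simp only [zero_smul, sub_zero] at this
              linarith
          · apply hne0
            have h1 : (y : E3) - (θ * s0) • v - z = ((y : E3) - z) - (θ * s0) • v := by abel
            have h2 := norm_sub_le ((y : E3) - z) ((θ * s0) • v)
            rw [norm_smul, Real.norm_of_nonneg hmem.1] at h2
            have h3 : (θ * s0) * ‖v‖ ≤ s0 * ‖v‖ :=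
              mul_le_mul_of_nonneg_right hmem.2 (norm_nonneg v)
            rw [h1]
            linarith
      obtain ⟨k1, k2, k3⟩ := key y1 hy1 hn1
      obtain ⟨l1, l2, l3⟩ := key y2 hy2 hn2
      set K : Set E3 := (segment ℝ ((y1 : E3)) ((y1 : E3) - s0 • v) ∪ B) ∪
        segment ℝ ((y2 : E3)) ((y2 : E3) - s0 • v) with hK
      have hKc : IsPreconnected K := by
        apply IsPreconnected.union ((y2 : E3) - s0 • v)
        · exact Or.inr l2
        · exact right_mem_segment ℝ _ _
        · apply IsPreconnected.union ((y1 : E3) - s0 • v)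
          · exact right_mem_segment ℝ _ _
          · exact k2
          · exact k1
          · exact (convex_ball _ _).isPreconnected
        · exact l1
      have hKneg : ∀ x ∈ K, ev P x < 0 ∧ x ≠ 0 := by
        rintro x ((hx | hx) | hx)
        · exact k3 x hx
        · exact hBneg x hx
        · exact l3 x hx
      have hKc' : IsPreconnected (rad z '' K) :=
        hKc.image _ ((rad_continuousOn z).mono (fun x hx => (hKneg x hx).2))
      have hK1 : y1 ∈ rad z '' K :=
        ⟨y1, Or.inl (Or.inl (left_mem_segment ℝ _ _)), rad_self z y1⟩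
      have hK2 : y2 ∈ rad z '' K :=
        ⟨y2, Or.inr (left_mem_segment ℝ _ _), rad_self z y2⟩
      have hsub : rad z '' K ⊆ {y : S2 | ev P y < 0} := by
        rintro _ ⟨x, hx, rfl⟩
        exact ev_rad_neg hP z (hKneg x hx).2 (hKneg x hx).1
      have := hKc'.subset_connectedComponentIn hK1 hsub hK2
      exact connectedComponentIn_eq this
  · have ht : Filter.Tendsto (fun s : ℝ => rad z ((z : E3) - s • v)) (𝓝[>] 0) (𝓝 z) := by
      have h1 : ContinuousAt (rad z) (z : E3) := by
        apply (rad_continuousOn z).continuousAt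
        apply IsOpen.mem_nhds
        · exact isOpen_ne
        · exact hne0 z (by rw [sub_self, norm_zero]; exact hδpos)
      have h2 : Filter.Tendsto (fun s : ℝ => (z : E3) - s • v) (𝓝 0) (𝓝 (z : E3)) := by
        have : Continuous (fun s : ℝ => (z : E3) - s • v) := by fun_prop
        have h := this.tendsto 0
        simpa using h
      have h3 : Filter.Tendsto (rad z) (𝓝 (z : E3)) (𝓝 z) := by
        have := h1.tendsto
        rwa [rad_self] at this
      exact (h3.comp h2).mono_left nhdsWithin_le_nhds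
    apply mem_closure_of_tendsto ht
    have hmem : Ioo (0 : ℝ) s0 ∈ 𝓝[>] (0 : ℝ) := Ioo_mem_nhdsGT hs0pos
    filter_upwards [hmem] with s hs
    apply ev_rad_neg hP
    · apply hne0
      have : (z : E3) - s • v - z = -(s • v) := by abel
      rw [this, norm_neg, norm_smul, Real.norm_of_nonneg hs.1.le]
      have h3 : s * ‖v‖ ≤ s0 * ‖v‖ := mul_le_mul_of_nonneg_right hs.2.le (norm_nonneg v)
      linarith
    · exact hnegz s ⟨hs.1, hs.2.le⟩

/-- For a polynomial with no singular zero on the sphere, negative nodal domains inject into the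
components of the closed set where the polynomial is non-positive. -/
theorem comp_inj {P : MvPolynomial (Fin 3) ℝ} {ℓ : ℕ} (hP : P.IsHomogeneous ℓ)
    (hreg : ∀ z : S2, ev P z = 0 → ∃ i, eval (fun j => (z : E3) j) (pderiv i P) ≠ 0)
    (y1 y2 : S2) (h1 : ev P y1 < 0) (h2 : ev P y2 < 0)
    (h : connectedComponentIn {y : S2 | 0 < ev P y}ᶜ y1 =
      connectedComponentIn {y : S2 | 0 < ev P y}ᶜ y2) :
    connectedComponentIn {y : S2 | ev P y < 0} y1 =
      connectedComponentIn {y : S2 | ev P y < 0} y2 := by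
  have hcont : Continuous (fun y : S2 => ev P y) := (ev_continuous P).comp continuous_subtype_val
  have hNo : IsOpen {y : S2 | ev P y < 0} := isOpen_lt hcont continuous_const
  set N : Set S2 := {y : S2 | ev P y < 0} with hN
  set F : Set S2 := {y : S2 | 0 < ev P y}ᶜ with hF
  set D := connectedComponentIn N y1 with hD
  set A := closure D with hA
  have hFN : ∀ y ∈ F, ev P y ≤ 0 := by
    intro y hy
    by_contra hc
    exact hy (not_le.1 hc)
  have hDN : D ⊆ N := connectedComponentIn_subset _ _
  have hAF : ∀ y ∈ A, ev P y ≤ 0 := by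
    intro y hy
    have hcl : IsClosed {y : S2 | ev P y ≤ 0} := isClosed_le hcont continuous_const
    have hsub : D ⊆ {y : S2 | ev P y ≤ 0} := by
      intro y hy
      have : ev P y < 0 := hDN hy
      exact this.le
    exact closure_minimal hsub hcl hy
  -- local openness
  have hloc : ∀ w ∈ A, ∃ U : Set S2, IsOpen U ∧ w ∈ U ∧ U ∩ F ⊆ A := by
    intro w hw
    rcases (hAF w hw).lt_or_eq with hlt | heq
    · have hwD : w ∈ D := mem_comp_of_mem_closure hNo hw hlt
      exact ⟨D, hNo.connectedComponentIn, hwD, fun x hx => subset_closure hx.1⟩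
    · obtain ⟨⟨U, hUo, hwU, hU⟩, _⟩ := local_neg hP w heq (hreg w heq)
      refine ⟨U, hUo, hwU, ?_⟩
      obtain ⟨d, hdU, hdD⟩ := mem_closure_iff.1 hw U hUo hwU
      have hUD : ∀ x ∈ U, ev P x < 0 → x ∈ D := by
        intro x hx hxn
        have e := hU d hdU x hx (hDN hdD) hxn
        have e2 : D = connectedComponentIn N d := connectedComponentIn_eq hdD
        rw [e2, hN, e]
        exact mem_connectedComponentIn hxn
      rintro x ⟨hxU, hxF⟩
      rcases (hFN x hxF).lt_or_eq with hxl | hxe
      · exact subset_closure (hUD x hxU hxl)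
      · obtain ⟨_, hxc⟩ := local_neg hP x hxe (hreg x hxe)
        rw [hA, mem_closure_iff]
        intro O hO hxO
        obtain ⟨e, he1, he2⟩ := mem_closure_iff.1 hxc (O ∩ U) (hO.inter hUo) ⟨hxO, hxU⟩
        exact ⟨e, he1.1, hUD e he1.2 he2⟩
  set V : Set S2 := ⋃₀ {U : Set S2 | IsOpen U ∧ U ∩ F ⊆ A} with hV
  have hVo : IsOpen V := isOpen_sUnion (fun U hU => hU.1)
  have hAV : A ⊆ V := by
    intro w hw
    obtain ⟨U, hU1, hU2, hU3⟩ := hloc w hw
    exact ⟨U, ⟨hU1, hU3⟩, hU2⟩
  have hVF : V ∩ F ⊆ A := by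
    rintro x ⟨⟨U, ⟨_, hU2⟩, hxU⟩, hxF⟩
    exact hU2 ⟨hxU, hxF⟩
  have hy1F : y1 ∈ F := fun hc => absurd hc (not_lt.2 h1.le)
  have hy2F : y2 ∈ F := fun hc => absurd hc (not_lt.2 h2.le)
  have hKp : IsPreconnected (connectedComponentIn F y1) := isPreconnected_connectedComponentIn
  have hKF : connectedComponentIn F y1 ⊆ F := connectedComponentIn_subset _ _
  have hy1D : y1 ∈ D := mem_connectedComponentIn h1
  have hy2K : y2 ∈ connectedComponentIn F y1 := by
    rw [h]; exact mem_connectedComponentIn hy2F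
  have hy2A : y2 ∈ A := by
    by_contra hcon
    have hAc : IsOpen Aᶜ := isClosed_closure.isOpen_compl
    obtain ⟨x, hxK, hxV, hxA⟩ := hKp V Aᶜ hVo hAc
      (fun x _ => by
        by_cases hx : x ∈ A
        · exact Or.inl (hAV hx)
        · exact Or.inr hx)
      ⟨y1, mem_connectedComponentIn hy1F, hAV (subset_closure hy1D)⟩ ⟨y2, hy2K, hcon⟩
    exact hxA (hVF ⟨hxV, hKF hxK⟩)
  have hy2D : y2 ∈ D := mem_comp_of_mem_closure hNo hy2A h2
  exact connectedComponentIn_eq hy2D

end Run7.h506
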