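import Mathlib
import Pool.Agent.Run7.h506.Sphere

set_option autoImplicit false

namespace Run7.h506

open Set Topology MvPolynomial

theorem ev_gc (P : MvPolynomial (Fin 3) ℝ) (b : OrthonormalBasis (Fin 3) ℝ E3) (t : ℝ) :
    ev P (gc b t) = eval (fun i => Real.cos t * b 0 i + Real.sin t * b 1 i) P := by
  unfold ev gc
  congr 2

theorem strict_of_step {τ : ℕ → ℝ} {m : ℕ} (hinc : ∀ j < m, τ j < τ (j + 1)) :
    ∀ i j, i < j → j ≤ m → τ i < τ j := by
  intro i j hij
  induction j with
  | zero => omega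
  | succ j ih =>
    intro hj
    rcases Nat.lt_succ_iff_lt_or_eq.1 hij with h | h
    · exact (ih h (by omega)).trans (hinc j (by omega))
    · subst h; exact hinc i (by omega)

theorem le_of_step {τ : ℕ → ℝ} {m : ℕ} (hinc : ∀ j < m, τ j < τ (j + 1)) :
    ∀ i j, i ≤ j → j ≤ m → τ i ≤ τ j := by
  intro i j hij hj
  rcases eq_or_lt_of_le hij with h | h
  · subst h; exact le_refl _
  · exact (strict_of_step hinc i j h hj).le

/-- A homogeneous polynomial of degree `ℓ` has at most `ℓ` positive arcs on a great circle. -/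
theorem pos_intervals_le {P : MvPolynomial (Fin 3) ℝ} {ℓ : ℕ} (hP : P.IsHomogeneous ℓ)
    (b : OrthonormalBasis (Fin 3) ℝ E3) (m : ℕ) (τ : ℕ → ℝ) (h0 : τ 0 = -Real.pi)
    (hm : τ m = Real.pi) (hinc : ∀ j < m, τ j < τ (j + 1)) (pos : ℕ → Prop)
    [DecidablePred pos] (hz : ∀ j ≤ m, ev P (gc b (τ j)) ≤ 0)
    (hp : ∀ j < m, pos j → ∃ s, τ j < s ∧ s < τ (j + 1) ∧ 0 < ev P (gc b s)) :
    ((Finset.range m).filter pos).card ≤ ℓ := by
  classical
  set F := (Finset.range m).filter pos with hF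
  have hFmem : ∀ j ∈ F, j < m ∧ pos j := by
    intro j hj; simpa [hF] using hj
  rcases F.eq_empty_or_nonempty with he | hne
  · rw [he]; simp
  have hfc : Continuous (fun t => ev P (gc b t)) :=
    (ev_continuous P).comp (continuous_subtype_val.comp (gc_continuous b))
  set f : ℝ → ℝ := fun t => ev P (gc b t) with hf
  have hs : ∀ j : ℕ, ∃ s, j ∈ F → τ j < s ∧ s < τ (j + 1) ∧ 0 < f s := by
    intro j
    by_cases hj : j ∈ F
    · obtain ⟨s, h1, h2, h3⟩ := hp j (hFmem j hj).1 (hFmem j hj).2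
      exact ⟨s, fun _ => ⟨h1, h2, h3⟩⟩
    · exact ⟨0, fun h => absurd h hj⟩
  choose s hs using hs
  obtain ⟨j0, hj0, hmin⟩ := Finset.exists_min_image F (fun j => f (s j)) hne
  set ε := f (s j0) / 2 with hε
  have hεpos : 0 < ε := by have := (hs j0 hj0).2.2; positivity
  have hεlt : ∀ j ∈ F, ε < f (s j) := by
    intro j hj
    have h1 := hmin j hj
    have h2 := (hs j0 hj0).2.2
    simp only [hε]
    linarith
  -- crossing points
  have hr : ∀ j : ℕ, ∃ r, j ∈ F → τ j < r ∧ r < s j ∧ f r = ε := by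
    intro j
    by_cases hj : j ∈ F
    · obtain ⟨h1, h2, h3⟩ := hs j hj
      have hv : ε ∈ Ioo (f (τ j)) (f (s j)) :=
        ⟨lt_of_le_of_lt (hz j (hFmem j hj).1.le) hεpos, hεlt j hj⟩
      obtain ⟨r, hr, hr'⟩ := intermediate_value_Ioo h1.le hfc.continuousOn hv
      exact ⟨r, fun _ => ⟨hr.1, hr.2, hr'⟩⟩
    · exact ⟨0, fun h => absurd h hj⟩
  have hr' : ∀ j : ℕ, ∃ r, j ∈ F → s j < r ∧ r < τ (j + 1) ∧ f r = ε := by
    intro j
    by_cases hj : j ∈ F
    · obtain ⟨h1, h2, h3⟩ := hs j hj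
      have hv : ε ∈ Ioo (f (τ (j + 1))) (f (s j)) :=
        ⟨lt_of_le_of_lt (hz (j + 1) (hFmem j hj).1) hεpos, hεlt j hj⟩
      obtain ⟨r, hr, hr'⟩ := intermediate_value_Ioo' h2.le hfc.continuousOn hv
      exact ⟨r, fun _ => ⟨hr.1, hr.2, hr'⟩⟩
    · exact ⟨0, fun h => absurd h hj⟩
  choose r hr using hr
  choose r' hr' using hr'
  -- the polynomial
  set R : Polynomial ℝ := circPoly P (fun i => b 0 i) (fun i => b 1 i) -
    Polynomial.C ε * (1 + Polynomial.X ^ 2) ^ ℓ with hR
  have hRdeg : R.natDegree ≤ 2 * ℓ := by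
    rw [hR]
    apply (Polynomial.natDegree_sub_le _ _).trans
    apply max_le
    · exact circPoly_natDegree_le hP _ _
    · apply (Polynomial.natDegree_C_mul_le _ _).trans
      apply Polynomial.natDegree_pow_le.trans
      rw [mul_comm]
      apply Nat.mul_le_mul_right
      compute_degree!
  have hReval : ∀ t ∈ Ioo (-Real.pi) Real.pi, R.eval (Real.tan (t / 2)) =
      (1 + Real.tan (t / 2) ^ 2) ^ ℓ * (f t - ε) := by
    intro t ht
    rw [hR, Polynomial.eval_sub, circPoly_tan hP _ _ ht, hf]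
    simp only [ev_gc, Polynomial.eval_mul, Polynomial.eval_C, Polynomial.eval_pow,
      Polynomial.eval_add, Polynomial.eval_one, Polynomial.eval_X]
    ring
  have hfac : ∀ t : ℝ, (1 + Real.tan (t / 2) ^ 2) ^ ℓ ≠ 0 := by
    intro t; positivity
  have hrange : ∀ j ∈ F, -Real.pi ≤ τ j ∧ τ (j + 1) ≤ Real.pi := by
    intro j hj
    obtain ⟨h1, h2⟩ := hFmem j hj
    rw [← h0, ← hm]
    exact ⟨le_of_step hinc 0 j (by omega) (by omega),
      le_of_step hinc (j + 1) m (by omega) (by omega)⟩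
  have hRne : R ≠ 0 := by
    obtain ⟨h1, h2, h3⟩ := hs j0 hj0
    have hv : ε / 2 ∈ Ioo (f (τ j0)) (f (s j0)) :=
      ⟨lt_of_le_of_lt (hz j0 (hFmem j0 hj0).1.le) (by positivity),
        by have := hεlt j0 hj0; linarith⟩
    obtain ⟨x, hx, hx'⟩ := intermediate_value_Ioo h1.le hfc.continuousOn hv
    intro hR0
    have hxm : x ∈ Ioo (-Real.pi) Real.pi := by
      have := hrange j0 hj0
      constructor
      · linarith [hx.1]
      · linarith [hx.2]
    have h4 := hReval x hxm
    have hx'' : f x = ε / 2 := hx'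
    rw [hR0, Polynomial.eval_zero, hx''] at h4
    have h5 : (ε / 2 - ε) ≠ 0 := by
      intro h; linarith
    exact (mul_ne_zero (hfac x) h5) h4.symm
  -- the map into the roots
  set g : ℕ × Bool → ℝ := fun z => Real.tan ((if z.2 then r z.1 else r' z.1) / 2) with hg
  have hval : ∀ z ∈ F ×ˢ (Finset.univ : Finset Bool),
      (if z.2 then r z.1 else r' z.1) ∈ Ioo (-Real.pi) Real.pi ∧
        f (if z.2 then r z.1 else r' z.1) = ε ∧
        τ z.1 < (if z.2 then r z.1 else r' z.1) ∧
        (if z.2 then r z.1 else r' z.1) < τ (z.1 + 1) := by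
    rintro ⟨j, c⟩ hz'
    have hj : j ∈ F := (Finset.mem_product.1 hz').1
    obtain ⟨h1, h2, h3⟩ := hs j hj
    obtain ⟨h4, h5, h6⟩ := hr j hj
    obtain ⟨h7, h8, h9⟩ := hr' j hj
    obtain ⟨h10, h11⟩ := hrange j hj
    cases c with
    | true =>
      simp only [if_true]
      exact ⟨⟨by linarith, by linarith⟩, h6, h4, by linarith⟩
    | false =>
      simp only [Bool.false_eq_true, if_false]
      exact ⟨⟨by linarith, by linarith⟩, h9, by linarith, h8⟩
  have hmaps : ∀ z ∈ F ×ˢ (Finset.univ : Finset Bool), g z ∈ R.roots.toFinset := by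
    intro z hz'
    obtain ⟨h1, h2, -, -⟩ := hval z hz'
    rw [Multiset.mem_toFinset, Polynomial.mem_roots hRne, Polynomial.IsRoot.def]
    simp only [hg]
    rw [hReval _ h1, h2, sub_self, mul_zero]
  have hinj : Set.InjOn g (F ×ˢ (Finset.univ : Finset Bool) : Finset (ℕ × Bool)) := by
    intro z hz1 w hw1 hzw
    have hz1' := hval z (Finset.mem_coe.1 hz1)
    have hw1' := hval w (Finset.mem_coe.1 hw1)
    have hinjtan := Real.injOn_tan
    have heq : (if z.2 then r z.1 else r' z.1) = (if w.2 then r w.1 else r' w.1) := by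
      have h1 := hinjtan
        (x₁ := (if z.2 then r z.1 else r' z.1) / 2) (by
          constructor
          · linarith [hz1'.1.1]
          · linarith [hz1'.1.2])
        (x₂ := (if w.2 then r w.1 else r' w.1) / 2) (by
          constructor
          · linarith [hw1'.1.1]
          · linarith [hw1'.1.2]) hzw
      linarith
    have hzF : z.1 ∈ F := (Finset.mem_product.1 (Finset.mem_coe.1 hz1)).1
    have hwF : w.1 ∈ F := (Finset.mem_product.1 (Finset.mem_coe.1 hw1)).1
    have hidx : z.1 = w.1 := by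
      by_contra hne'
      rcases lt_or_gt_of_ne hne' with h | h
      · have := le_of_step hinc (z.1 + 1) w.1 h (hFmem _ hwF).1.le
        linarith [hz1'.2.2.2, hw1'.2.2.1]
      · have := le_of_step hinc (w.1 + 1) z.1 h (hFmem _ hzF).1.le
        linarith [hw1'.2.2.2, hz1'.2.2.1]
    obtain ⟨j, c⟩ := z
    obtain ⟨k, d⟩ := w
    simp only at hidx heq hzF hwF
    subst hidx
    have h1 := (hr j hzF).2.1
    have h2 := (hr' j hzF).1
    cases c <;> cases d
    · rfl
    · simp at heq; linarith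
    · simp at heq; linarith
    · rfl
  have hcard := Finset.card_le_card_of_injOn g hmaps hinj
  rw [Finset.card_product] at hcard
  have h1 : R.roots.toFinset.card ≤ 2 * ℓ :=
    (Multiset.toFinset_card_le _).trans ((Polynomial.card_roots' R).trans hRdeg)
  simp at hcard
  omega

end Run7.h506
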