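import Mathlib
import Pool.Agent.Run7.h506.CircleCount

set_option autoImplicit false

namespace Run7.h506

open Set Topology MvPolynomial

theorem exists_basis_ext (p n : E3) (hp : ‖p‖ = 1) (hn : ‖n‖ = 1) (hpn : inner ℝ p n = 0) :
    ∃ b : OrthonormalBasis (Fin 3) ℝ E3, b 0 = p ∧ b 2 = n := by
  have hv : Orthonormal ℝ (({0, 2} : Set (Fin 3)).domRestrict (![p, 0, n] : Fin 3 → E3)) := by
    constructor
    · rintro ⟨i, hi⟩
      rcases hi with rfl | hi
      · simpa using hp
      · rw [mem_singleton_iff] at hi
        subst hi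
        simpa using hn
    · rintro ⟨i, hi⟩ ⟨j, hj⟩ hij
      have hij' : i ≠ j := fun h => hij (Subtype.ext h)
      have hnp : inner ℝ n p = 0 := by rw [real_inner_comm]; exact hpn
      rcases hi with rfl | hi <;> rcases hj with rfl | hj
      · exact absurd rfl hij'
      · rw [mem_singleton_iff] at hj
        subst hj
        simpa using hpn
      · rw [mem_singleton_iff] at hi
        subst hi
        simpa using hnp
      · rw [mem_singleton_iff] at hi hj
        subst hi; subst hj
        exact absurd rfl hij'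
  obtain ⟨b, hb⟩ := hv.exists_orthonormalBasis_extension_of_card_eq (by simp)
  exact ⟨b, by simpa using hb 0 (by simp), by simpa using hb 2 (by simp)⟩

theorem exists_unit_orth (n : E3) : ∃ p : E3, ‖p‖ = 1 ∧ inner ℝ p n = 0 := by
  have hfr : 0 < Module.finrank ℝ (ℝ ∙ n)ᗮ := by
    have h1 := Submodule.finrank_add_finrank_orthogonal (ℝ ∙ n)
    have h2 : Module.finrank ℝ (ℝ ∙ n) ≤ 1 := by
      have h := finrank_span_le_card (R := ℝ) ({n} : Set E3)
      simpa using h
    have h3 : Module.finrank ℝ E3 = 3 := by simp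
    omega
  have hnt : Nontrivial (ℝ ∙ n)ᗮ := Module.finrank_pos_iff.1 hfr
  obtain ⟨v, hv⟩ := exists_ne (0 : (ℝ ∙ n)ᗮ)
  have hv0 : (v : E3) ≠ 0 := fun h => hv (Subtype.ext h)
  refine ⟨(‖(v : E3)‖⁻¹) • (v : E3), ?_, ?_⟩
  · rw [norm_smul, norm_inv, norm_norm]
    exact inv_mul_cancel₀ (norm_ne_zero_iff.2 hv0)
  · rw [inner_smul_left]
    have := Submodule.mem_orthogonal_singleton_iff_inner_left.1 v.2
    rw [this, mul_zero]

/-- On a great circle, at most `ℓ + 1` components of `{u > 0}` and of `{u ≤ 0}` are met. -/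
theorem circle_hits {P : MvPolynomial (Fin 3) ℝ} {ℓ : ℕ} (hP : P.IsHomogeneous ℓ)
    (n : E3) (hn : n ≠ 0) (FA FB : Finset (Set S2))
    (hFA : ∀ C ∈ FA, ∃ x : S2, inner ℝ n (x : E3) = 0 ∧ 0 < ev P x ∧
      C = connectedComponentIn {y : S2 | 0 < ev P y} x)
    (hFB : ∀ C ∈ FB, ∃ x : S2, inner ℝ n (x : E3) = 0 ∧ ev P x < 0 ∧
      C = connectedComponentIn {y : S2 | 0 < ev P y}ᶜ x) :
    FA.card + FB.card ≤ ℓ + 1 := by
  classical
  have hcont : Continuous (fun y : S2 => ev P y) := (ev_continuous P).comp continuous_subtype_val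
  have hAo : IsOpen {y : S2 | 0 < ev P y} := isOpen_lt continuous_const hcont
  set A : Set S2 := {y : S2 | 0 < ev P y} with hA
  -- normalise
  have hn' : ‖n‖ ≠ 0 := norm_ne_zero_iff.2 hn
  set n1 : E3 := ‖n‖⁻¹ • n with hn1
  have hn1n : ‖n1‖ = 1 := by
    rw [hn1, norm_smul, norm_inv, norm_norm, inv_mul_cancel₀ hn']
  have hinn : ∀ x : E3, inner ℝ n x = 0 ↔ inner ℝ n1 x = 0 := by
    intro x
    rw [hn1, inner_smul_left]
    simp [hn]
  by_cases hzero : ∃ x0 : S2, inner ℝ n (x0 : E3) = 0 ∧ ev P x0 = 0
  · obtain ⟨x0, hx0, hx0z⟩ := hzero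
    have hx0n : ‖(x0 : E3)‖ = 1 := mem_sphere_zero_iff_norm.1 x0.2
    obtain ⟨b, hb0, hb2⟩ := exists_basis_ext (-(x0 : E3)) n1 (by rw [norm_neg, hx0n]) hn1n
      (by rw [inner_neg_left, real_inner_comm, (hinn _).1 hx0, neg_zero])
    have hcov' : ∀ x : S2, inner ℝ n (x : E3) = 0 →
        ∃ t, -Real.pi ≤ t ∧ t ≤ Real.pi ∧ gc b t = x := by
      intro x hx
      apply exists_gc b x
      rw [hb2]; exact (hinn _).1 hx
    set f : ℝ → ℝ := fun t => ev P (gc b t) with hf
    have hfc : Continuous f := hcont.comp (gc_continuous b)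
    have hfpi : f Real.pi = 0 := by
      have : gc b Real.pi = x0 := by
        apply Subtype.ext
        simp [gc, hb0]
      simp only [hf]
      rw [this, hx0z]
    have hfnpi : f (-Real.pi) = 0 := by
      have : gc b (-Real.pi) = x0 := by
        apply Subtype.ext
        simp [gc, hb0]
      simp only [hf]
      rw [this, hx0z]
    set R := circPoly P (fun i => b 0 i) (fun i => b 1 i) with hR
    have hReval : ∀ t ∈ Ioo (-Real.pi) Real.pi, R.eval (Real.tan (t / 2)) =
        (1 + Real.tan (t / 2) ^ 2) ^ ℓ * f t := by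
      intro t ht
      rw [hR, circPoly_tan hP _ _ ht, hf]
      simp only [ev_gc]
    have hfac : ∀ t : ℝ, (1 + Real.tan (t / 2) ^ 2) ^ ℓ ≠ 0 := by
      intro t; positivity
    by_cases hR0 : R = 0
    · have hall : ∀ x : S2, inner ℝ n (x : E3) = 0 → ev P x = 0 := by
        intro x hx
        obtain ⟨t, h1, h2, h3⟩ := hcov' x hx
        rcases eq_or_lt_of_le h1 with he | hl
        · rw [← h3, ← he]; exact hfnpi
        · rcases eq_or_lt_of_le h2 with he' | hl'
          · rw [← h3, he']; exact hfpi
          · have h4 := hReval t ⟨hl, hl'⟩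
            rw [hR0, Polynomial.eval_zero] at h4
            have h5 := (mul_eq_zero.1 h4.symm).resolve_left (hfac t)
            rw [← h3]; exact h5
      have hFA0 : FA = ∅ := by
        rw [Finset.eq_empty_iff_forall_notMem]
        intro C hC
        obtain ⟨x, hx, hx', -⟩ := hFA C hC
        have := hall x hx
        linarith
      have hFB0 : FB = ∅ := by
        rw [Finset.eq_empty_iff_forall_notMem]
        intro C hC
        obtain ⟨x, hx, hx', -⟩ := hFB C hC
        have := hall x hx
        linarith
      rw [hFA0, hFB0]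
      simp
    · set Z : Finset ℝ := insert (-Real.pi) (insert Real.pi
        (R.roots.toFinset.image (fun τ => 2 * Real.arctan τ))) with hZ
      have hpi := Real.pi_pos
      have hZzero : ∀ t ∈ Z, f t = 0 := by
        intro t ht
        rw [hZ, Finset.mem_insert, Finset.mem_insert, Finset.mem_image] at ht
        rcases ht with rfl | rfl | ⟨x, hx, rfl⟩
        · exact hfnpi
        · exact hfpi
        · rw [Multiset.mem_toFinset, Polynomial.mem_roots hR0, Polynomial.IsRoot.def] at hx
          have h1 := Real.neg_pi_div_two_lt_arctan x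
          have h2 := Real.arctan_lt_pi_div_two x
          have h4 := hReval (2 * Real.arctan x) ⟨by linarith, by linarith⟩
          rw [mul_div_cancel_left₀ _ (two_ne_zero), Real.tan_arctan, hx] at h4
          have h5 : (1 + x ^ 2) ^ ℓ ≠ 0 := by positivity
          exact (mul_eq_zero.1 h4.symm).resolve_left h5
      have hzeroZ : ∀ t ∈ Ioo (-Real.pi) Real.pi, f t = 0 → t ∈ Z := by
        intro t ht hft
        rw [hZ, Finset.mem_insert, Finset.mem_insert, Finset.mem_image]
        right; right
        refine ⟨Real.tan (t / 2), ?_, ?_⟩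
        · rw [Multiset.mem_toFinset, Polynomial.mem_roots hR0, Polynomial.IsRoot.def,
            hReval t ht, hft, mul_zero]
        · rw [Real.arctan_tan (by linarith [ht.1]) (by linarith [ht.2])]
          ring
      obtain ⟨m, τ, h0, hm, hinc, hmem, hgap, hcov⟩ := exists_partition Z (-Real.pi) Real.pi
        (by linarith) (by simp [hZ]) (by simp [hZ])
      set pos : ℕ → Prop := fun j => ∃ s, τ j < s ∧ s < τ (j + 1) ∧ 0 < f s with hpos
      have hz : ∀ j ≤ m, f (τ j) = 0 := fun j hj => hZzero _ (hmem j hj).1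
      have hk := pos_intervals_le hP b m τ h0 hm hinc pos (fun j hj => (hz j hj).le)
        (fun j hj hp => hp)
      have hpos' : ∀ j < m, pos j → ∀ t, τ j < t → t < τ (j + 1) → gc b t ∈ A := by
        intro j hj hp t ht1 ht2
        obtain ⟨s, hs1, hs2, hs3⟩ := hp
        by_contra hcon
        have hft : f t ≤ 0 := not_lt.1 hcon
        have hex : ∃ x, τ j < x ∧ x < τ (j + 1) ∧ f x = 0 := by
          rcases le_total t s with hts | hts
          · obtain ⟨x, hx, hx'⟩ := intermediate_value_Icc hts hfc.continuousOn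
              (⟨hft, hs3.le⟩ : (0 : ℝ) ∈ Icc (f t) (f s))
            exact ⟨x, by linarith [hx.1], by linarith [hx.2], hx'⟩
          · obtain ⟨x, hx, hx'⟩ := intermediate_value_Icc' hts hfc.continuousOn
              (⟨hft, hs3.le⟩ : (0 : ℝ) ∈ Icc (f t) (f s))
            exact ⟨x, by linarith [hx.1], by linarith [hx.2], hx'⟩
        obtain ⟨x, hx1, hx2, hx3⟩ := hex
        have h1 := (hmem j hj.le).2.1
        have h2 := (hmem (j + 1) hj).2.2
        exact hgap j hj x hx1 hx2 (hzeroZ x ⟨by linarith, by linarith⟩ hx3)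
      have hneg' : ∀ j < m, ¬ pos j → ∀ t, τ j ≤ t → t ≤ τ (j + 1) → gc b t ∉ A := by
        intro j hj hp t ht1 ht2 hmemA
        rcases eq_or_lt_of_le ht1 with he | hl
        · have := hz j hj.le
          rw [he] at this
          have h3 : 0 < f t := hmemA
          linarith
        · rcases eq_or_lt_of_le ht2 with he' | hl'
          · have := hz (j + 1) hj
            rw [← he'] at this
            have h3 : 0 < f t := hmemA
            linarith
          · exact hp ⟨t, hl, hl', hmemA⟩
      have hfinal := comps_le hAo (gc_continuous b) (a := -Real.pi) (b := Real.pi)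
        (fun h hh => gc_null b h hh) m τ h0 hm hinc pos
        (fun j hj hmemA => by
          have h3 : 0 < f (τ j) := hmemA
          rw [hz j hj] at h3
          exact lt_irrefl _ h3)
        hpos' hneg' hcov FA FB
        (by
          intro C hC
          obtain ⟨x, hx, hx', hx''⟩ := hFA C hC
          obtain ⟨t, h1, h2, h3⟩ := hcov' x hx
          exact ⟨t, h1, h2, by rw [h3]; exact hx', by rw [h3]; exact hx''⟩)
        (by
          intro C hC
          obtain ⟨x, hx, hx', hx''⟩ := hFB C hC
          obtain ⟨t, h1, h2, h3⟩ := hcov' x hx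
          refine ⟨t, h1, h2, ?_, by rw [h3]; exact hx''⟩
          rw [h3]
          intro hmemA
          have h4 : 0 < ev P x := hmemA
          linarith)
      exact hfinal.trans (by omega)
  · push Not at hzero
    obtain ⟨p, hp1, hp2⟩ := exists_unit_orth n1
    obtain ⟨b, hb0, hb2⟩ := exists_basis_ext p n1 hp1 hn1n hp2
    have hcov' : ∀ x : S2, inner ℝ n (x : E3) = 0 →
        ∃ t, -Real.pi ≤ t ∧ t ≤ Real.pi ∧ gc b t = x := by
      intro x hx
      apply exists_gc b x
      rw [hb2]; exact (hinn _).1 hx
    have horth : ∀ t, inner ℝ n (gc b t : E3) = 0 := by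
      intro t
      rw [hinn, ← hb2]
      simp only [gc, inner_add_right, inner_smul_right]
      rw [b.orthonormal.2 (by decide : (2 : Fin 3) ≠ 0),
        b.orthonormal.2 (by decide : (2 : Fin 3) ≠ 1)]
      simp
    have hpre : IsPreconnected (range (gc b)) := isPreconnected_range (gc_continuous b)
    by_cases hsign : ∃ t, 0 < ev P (gc b t)
    · obtain ⟨t0, ht0⟩ := hsign
      have hallpos : ∀ t, 0 < ev P (gc b t) := by
        intro t
        by_contra hcon
        have hc := not_lt.1 hcon
        have hfc : Continuous (fun t => ev P (gc b t)) := hcont.comp (gc_continuous b)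
        have hmem : (0 : ℝ) ∈ uIcc (ev P (gc b t)) (ev P (gc b t0)) := by
          rw [mem_uIcc]; left; exact ⟨hc, ht0.le⟩
        obtain ⟨x, -, hx'⟩ := intermediate_value_uIcc (f := fun t => ev P (gc b t))
          hfc.continuousOn hmem
        exact hzero _ (horth x) hx'
      have hFB0 : FB = ∅ := by
        rw [Finset.eq_empty_iff_forall_notMem]
        intro C hC
        obtain ⟨x, hx, hx', -⟩ := hFB C hC
        obtain ⟨t, -, -, rfl⟩ := hcov' x hx
        have := hallpos t
        linarith
      have hFA1 : FA.card ≤ 1 := by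
        rw [Finset.card_le_one]
        intro C hC C' hC'
        obtain ⟨x, hx, hx', rfl⟩ := hFA C hC
        obtain ⟨y, hy, hy', rfl⟩ := hFA C' hC'
        obtain ⟨t, -, -, rfl⟩ := hcov' x hx
        obtain ⟨s, -, -, rfl⟩ := hcov' y hy
        exact connectedComponentIn_eq (hpre.subset_connectedComponentIn (mem_range_self t)
          (by rintro _ ⟨r, rfl⟩; exact hallpos r) (mem_range_self s))
      rw [hFB0]
      simp
      omega
    · push Not at hsign
      have hallneg : ∀ t, ev P (gc b t) < 0 := fun t =>
        lt_of_le_of_ne (hsign t) (hzero _ (horth t))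
      have hFA0 : FA = ∅ := by
        rw [Finset.eq_empty_iff_forall_notMem]
        intro C hC
        obtain ⟨x, hx, hx', -⟩ := hFA C hC
        obtain ⟨t, -, -, rfl⟩ := hcov' x hx
        have := hallneg t
        linarith
      have hFB1 : FB.card ≤ 1 := by
        rw [Finset.card_le_one]
        intro C hC C' hC'
        obtain ⟨x, hx, hx', rfl⟩ := hFB C hC
        obtain ⟨y, hy, hy', rfl⟩ := hFB C' hC'
        obtain ⟨t, -, -, rfl⟩ := hcov' x hx
        obtain ⟨s, -, -, rfl⟩ := hcov' y hy
        exact connectedComponentIn_eq (hpre.subset_connectedComponentIn (mem_range_self t)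
          (by
            rintro _ ⟨r, rfl⟩ hmemA
            have h4 : 0 < ev P (gc b r) := hmemA
            have := hallneg r
            linarith) (mem_range_self s))
      rw [hFA0]
      simp
      omega

end Run7.h506
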