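import Mathlib
import Pool.Agent.Run7.h506.Sphere

set_option autoImplicit false

namespace Run7.h506

open Set Topology MeasureTheory

/-- Cylindrical style coordinates attached to an orthonormal basis. -/
noncomputable def Phi (b : OrthonormalBasis (Fin 3) ℝ E3) (z : ℝ × (ℝ × ℝ)) : E3 :=
  z.2.1 • b 0 + z.2.2 • b 1 + z.1 • b 2

theorem Phi_continuous (b : OrthonormalBasis (Fin 3) ℝ E3) : Continuous (Phi b) := by
  unfold Phi
  fun_prop

theorem Phi_mp (b : OrthonormalBasis (Fin 3) ℝ E3) :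
    MeasurePreserving (Phi b) volume volume := by
  have h1 := (volume_preserving_finTwoArrow ℝ).symm
  have h2 : MeasurePreserving (Prod.map (id : ℝ → ℝ) (MeasurableEquiv.finTwoArrow (α := ℝ)).symm)
      (volume : Measure (ℝ × (ℝ × ℝ))) (volume : Measure (ℝ × (Fin 2 → ℝ))) :=
    (MeasurePreserving.id _).prod h1
  have h3 := (volume_preserving_piFinSuccAbove (fun _ : Fin 3 => ℝ) 2).symm
  have h4 := (EuclideanSpace.volume_preserving_symm_measurableEquiv_toLp (Fin 3)).symm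
  have h5 := b.measurePreserving_repr_symm
  have h6 := ((h5.comp h4).comp h3).comp h2
  convert h6 using 1
  funext z
  obtain ⟨s, v1, v2⟩ := z
  simp only [Function.comp]
  apply b.repr.injective
  rw [LinearIsometryEquiv.apply_symm_apply]
  ext i
  rw [OrthonormalBasis.repr_apply_apply]
  unfold Phi
  simp only [inner_add_right, inner_smul_right]
  have ho := b.orthonormal
  rw [orthonormal_iff_ite] at ho
  rw [ho, ho, ho]
  fin_cases i
  · simp
    rfl
  · simp
    rfl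
  · simp

/-- The normals of great circles that separate points of `D`. -/
def hit (D : Set S2) : Set E3 :=
  {n | (∃ x ∈ D, 0 < inner ℝ n (x : E3)) ∧ (∃ x ∈ D, inner ℝ n (x : E3) < 0)}

theorem hit_isOpen (D : Set S2) : IsOpen (hit D) := by
  have h1 : IsOpen {n : E3 | ∃ x ∈ D, 0 < inner ℝ n (x : E3)} := by
    have : {n : E3 | ∃ x ∈ D, 0 < inner ℝ n (x : E3)} =
        ⋃ x ∈ D, {n : E3 | 0 < inner ℝ n (x : E3)} := by
      ext n; simp
    rw [this]
    exact isOpen_biUnion (fun x _ => isOpen_lt continuous_const (by fun_prop))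
  have h2 : IsOpen {n : E3 | ∃ x ∈ D, inner ℝ n (x : E3) < 0} := by
    have : {n : E3 | ∃ x ∈ D, inner ℝ n (x : E3) < 0} =
        ⋃ x ∈ D, {n : E3 | inner ℝ n (x : E3) < 0} := by
      ext n; simp
    rw [this]
    exact isOpen_biUnion (fun x _ => isOpen_lt (by fun_prop) continuous_const)
  exact h1.inter h2

theorem hit_neg {D : Set S2} {n : E3} (h : n ∈ hit D) : -n ∈ hit D := by
  obtain ⟨⟨x, hx, h1⟩, ⟨y, hy, h2⟩⟩ := h
  refine ⟨⟨y, hy, ?_⟩, ⟨x, hx, ?_⟩⟩
  · rw [inner_neg_left]; linarith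
  · rw [inner_neg_left]; linarith

theorem hit_ne_zero {D : Set S2} {n : E3} (h : n ∈ hit D) : n ≠ 0 := by
  rintro rfl
  obtain ⟨⟨x, hx, h1⟩, _⟩ := h
  rw [inner_zero_left] at h1
  exact lt_irrefl _ h1

theorem hit_exists {D : Set S2} (hD : IsPreconnected D) {n : E3} (h : n ∈ hit D) :
    ∃ x ∈ D, inner ℝ (x : E3) n = 0 := by
  obtain ⟨⟨x, hx, h1⟩, ⟨y, hy, h2⟩⟩ := h
  have hc : Continuous (fun z : S2 => inner ℝ n (z : E3)) := by fun_prop
  obtain ⟨z, hz, hz0⟩ := hD.intermediate_value hy hx hc.continuousOn ⟨h2.le, h1.le⟩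
  refine ⟨z, hz, ?_⟩
  rw [real_inner_comm]
  exact hz0

/-- The support value of `D` in direction `p`. -/
noncomputable def supp (D : Set S2) (p : E3) : ℝ :=
  sSup ((fun x : S2 => inner ℝ p (x : E3)) '' D)

theorem inner_le_one {p : E3} (hp : ‖p‖ = 1) (x : S2) : inner ℝ p (x : E3) ≤ 1 := by
  have h := real_inner_le_norm p (x : E3)
  have hx : ‖(x : E3)‖ = 1 := mem_sphere_zero_iff_norm.1 x.2
  rw [hp, hx] at h
  linarith

theorem supp_bdd (D : Set S2) {p : E3} (hp : ‖p‖ = 1) :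
    BddAbove ((fun x : S2 => inner ℝ p (x : E3)) '' D) := by
  refine ⟨1, ?_⟩
  rintro _ ⟨x, _, rfl⟩
  exact inner_le_one hp x

theorem le_supp {D : Set S2} {p : E3} (hp : ‖p‖ = 1) {x : S2} (hx : x ∈ D) :
    inner ℝ p (x : E3) ≤ supp D p :=
  le_csSup (supp_bdd D hp) ⟨x, hx, rfl⟩

theorem supp_le_one {D : Set S2} {c : S2} (hc : c ∈ D) {p : E3} (hp : ‖p‖ = 1) :
    supp D p ≤ 1 := by
  apply csSup_le (Set.Nonempty.image _ ⟨c, hc⟩)
  rintro _ ⟨x, _, rfl⟩
  exact inner_le_one hp x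

theorem supp_nonneg {D : Set S2} {c : S2} (hc : c ∈ D) {p : E3} (hp : ‖p‖ = 1)
    (hpc : inner ℝ p (c : E3) = 0) : 0 ≤ supp D p := by
  rw [← hpc]
  exact le_supp hp hc

/-- If the tangential slope is small compared with the support value then the circle is hit. -/
theorem hit_of {D : Set S2} {c : S2} (hc : c ∈ D) {p : E3} (hp : ‖p‖ = 1)
    (hpc : inner ℝ p (c : E3) = 0) {r t : ℝ} (hr : 0 < r) (ht : 0 < t)
    (h : t ^ 2 < supp D p ^ 2 * (r ^ 2 + t ^ 2)) : r • p - t • (c : E3) ∈ hit D := by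
  have hcn : ‖(c : E3)‖ = 1 := mem_sphere_zero_iff_norm.1 c.2
  have hcc : inner ℝ (c : E3) (c : E3) = 1 := by
    rw [real_inner_self_eq_norm_sq, hcn]; norm_num
  have hS := supp_nonneg hc hp hpc
  have hSpos : 0 < supp D p := by
    rcases hS.lt_or_eq with h1 | h1
    · exact h1
    · rw [← h1] at h
      have : 0 < t ^ 2 := by positivity
      nlinarith
  -- a slightly smaller support value
  have hden : 0 < r ^ 2 + t ^ 2 := by positivity
  obtain ⟨X', hX'0, hX'S, hX't⟩ : ∃ X' : ℝ, 0 ≤ X' ∧ X' < supp D p ∧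
      t ^ 2 ≤ X' ^ 2 * (r ^ 2 + t ^ 2) := by
    refine ⟨Real.sqrt (t ^ 2 / (r ^ 2 + t ^ 2)), Real.sqrt_nonneg _, ?_, ?_⟩
    · rw [Real.sqrt_lt' hSpos, div_lt_iff₀ hden]
      exact h
    · rw [Real.sq_sqrt (by positivity), div_mul_cancel₀ _ hden.ne']
  obtain ⟨_, ⟨x, hx, rfl⟩, hxX⟩ := exists_lt_of_lt_csSup
    (Set.Nonempty.image _ ⟨c, hc⟩) hX'S
  refine ⟨⟨x, hx, ?_⟩, ⟨c, hc, ?_⟩⟩
  · simp only at hxX
    rw [inner_sub_left, real_inner_smul_left, real_inner_smul_left]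
    set a := inner ℝ p (x : E3) with ha
    set z := inner ℝ (c : E3) (x : E3) with hz
    have hpos : 0 < a := lt_of_le_of_lt hX'0 hxX
    have hbes : a ^ 2 + z ^ 2 ≤ 1 := by
      have hxn : ‖(x : E3)‖ = 1 := mem_sphere_zero_iff_norm.1 x.2
      have h0 : 0 ≤ ‖(x : E3) - a • p - z • (c : E3)‖ ^ 2 := sq_nonneg _
      rw [← real_inner_self_eq_norm_sq] at h0
      simp only [inner_sub_left, inner_sub_right, inner_smul_left, inner_smul_right,
        RCLike.conj_to_real] at h0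
      rw [real_inner_comm p (x : E3), real_inner_comm (c : E3) (x : E3),
        real_inner_comm p (c : E3), hpc, hcc] at h0
      rw [real_inner_self_eq_norm_sq, real_inner_self_eq_norm_sq, hxn, hp] at h0
      rw [← ha, ← hz] at h0
      nlinarith
    have h1 : t ^ 2 < a ^ 2 * (r ^ 2 + t ^ 2) := by
      have : X' ^ 2 < a ^ 2 := by nlinarith
      nlinarith
    have h2 : (t * z) ^ 2 < (r * a) ^ 2 := by
      have : (t * z) ^ 2 ≤ t ^ 2 * (1 - a ^ 2) := by
        have := sq_nonneg t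
        nlinarith
      nlinarith
    have h3 : 0 < r * a := mul_pos hr hpos
    have h4 := abs_lt_of_sq_lt_sq h2 h3.le
    have h5 := (abs_lt.1 h4).2
    linarith
  · rw [inner_sub_left, real_inner_smul_left, real_inner_smul_left, hpc, hcc]
    linarith

end Run7.h506
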