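import Mathlib

set_option autoImplicit false

namespace Run7.h506

open Set Topology MeasureTheory

theorem lint_sq : ∫⁻ ρ in Ioo (0 : ℝ) 1, ENNReal.ofReal (ρ ^ 2) = ENNReal.ofReal (1 / 3) := by
  rw [← ofReal_integral_eq_lintegral_ofReal]
  · congr 1
    rw [← integral_Ioc_eq_integral_Ioo, ← intervalIntegral.integral_of_le (by norm_num)]
    rw [integral_pow]
    norm_num
  · have : IntegrableOn (fun ρ : ℝ => ρ ^ 2) (Icc 0 1) :=
      (continuous_pow 2).continuousOn.integrableOn_Icc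
    exact this.mono_set Ioo_subset_Icc_self
  · exact Filter.Eventually.of_forall (fun ρ => sq_nonneg ρ)

theorem lint_cos {X : ℝ} (h0 : 0 ≤ X) (h1 : X ≤ 1) :
    ∫⁻ β in Ioo (0 : ℝ) (Real.arcsin X), ENNReal.ofReal (Real.cos β) = ENNReal.ofReal X := by
  have hb := Real.arcsin_nonneg.2 h0
  have hb2 := Real.arcsin_le_pi_div_two X
  rw [← ofReal_integral_eq_lintegral_ofReal]
  · congr 1
    rw [← integral_Ioc_eq_integral_Ioo, ← intervalIntegral.integral_of_le hb]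
    rw [integral_cos, Real.sin_zero, sub_zero, Real.sin_arcsin (by linarith) h1]
  · have : IntegrableOn (fun ρ : ℝ => Real.cos ρ) (Icc 0 (Real.arcsin X)) :=
      Real.continuous_cos.continuousOn.integrableOn_Icc
    exact this.mono_set Ioo_subset_Icc_self
  · rw [Filter.EventuallyLE, ae_restrict_iff' measurableSet_Ioo]
    refine Filter.Eventually.of_forall (fun β hβ => ?_)
    have hpi := Real.pi_pos
    exact Real.cos_nonneg_of_mem_Icc ⟨by linarith [hβ.1], by linarith [hβ.2]⟩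

theorem J_bound (X : ℝ) (h0 : 0 ≤ X) (h1 : X ≤ 1) :
    ENNReal.ofReal (X / 3) ≤ ∫⁻ r in Ioi (0 : ℝ), ENNReal.ofReal r *
      volume {t : ℝ | 0 < t ∧ t ^ 2 < X ^ 2 * (r ^ 2 + t ^ 2) ∧ r ^ 2 + t ^ 2 < 1} := by
  classical
  set Ω : Set (ℝ × ℝ) := {p | 0 < p.1 ∧ 0 < p.2 ∧ p.2 ^ 2 < X ^ 2 * (p.1 ^ 2 + p.2 ^ 2) ∧
    p.1 ^ 2 + p.2 ^ 2 < 1} with hΩ
  have hΩm : MeasurableSet Ω := by
    have e1 : IsOpen {p : ℝ × ℝ | 0 < p.1} := isOpen_lt (by fun_prop) (by fun_prop)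
    have e2 : IsOpen {p : ℝ × ℝ | 0 < p.2} := isOpen_lt (by fun_prop) (by fun_prop)
    have e3 : IsOpen {p : ℝ × ℝ | p.2 ^ 2 < X ^ 2 * (p.1 ^ 2 + p.2 ^ 2)} :=
      isOpen_lt (by fun_prop) (by fun_prop)
    have e4 : IsOpen {p : ℝ × ℝ | p.1 ^ 2 + p.2 ^ 2 < 1} :=
      isOpen_lt (by fun_prop) (by fun_prop)
    exact (e1.inter (e2.inter (e3.inter e4))).measurableSet
  set f : ℝ × ℝ → ENNReal := Ω.indicator (fun p => ENNReal.ofReal p.1) with hf
  have hfm : Measurable f := Measurable.indicator (by fun_prop) hΩm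
  have hR : ∫⁻ r in Ioi (0 : ℝ), ENNReal.ofReal r *
      volume {t : ℝ | 0 < t ∧ t ^ 2 < X ^ 2 * (r ^ 2 + t ^ 2) ∧ r ^ 2 + t ^ 2 < 1}
      = ∫⁻ p : ℝ × ℝ, f p := by
    rw [Measure.volume_eq_prod, lintegral_prod _ hfm.aemeasurable,
      ← lintegral_indicator measurableSet_Ioi]
    apply lintegral_congr
    intro r
    by_cases hr : r ∈ Ioi (0 : ℝ)
    · rw [indicator_of_mem hr]
      have hset : MeasurableSet
          {t : ℝ | 0 < t ∧ t ^ 2 < X ^ 2 * (r ^ 2 + t ^ 2) ∧ r ^ 2 + t ^ 2 < 1} := by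
        have e2 : IsOpen {t : ℝ | 0 < t} := isOpen_lt (by fun_prop) (by fun_prop)
        have e3 : IsOpen {t : ℝ | t ^ 2 < X ^ 2 * (r ^ 2 + t ^ 2)} :=
          isOpen_lt (by fun_prop) (by fun_prop)
        have e4 : IsOpen {t : ℝ | r ^ 2 + t ^ 2 < 1} :=
          isOpen_lt (by fun_prop) (by fun_prop)
        exact (e2.inter (e3.inter e4)).measurableSet
      rw [← lintegral_indicator_const hset]
      apply lintegral_congr
      intro t
      by_cases ht : t ∈ {t : ℝ | 0 < t ∧ t ^ 2 < X ^ 2 * (r ^ 2 + t ^ 2) ∧ r ^ 2 + t ^ 2 < 1}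
      · rw [indicator_of_mem ht, hf, indicator_of_mem (show (r, t) ∈ Ω from ⟨hr, ht⟩)]
      · rw [indicator_of_notMem ht, hf, indicator_of_notMem]
        intro hmem
        exact ht hmem.2
    · rw [indicator_of_notMem hr]
      have hz : ∀ t : ℝ, f (r, t) = 0 := by
        intro t
        rw [hf, indicator_of_notMem]
        intro hmem
        exact hr hmem.1
      simp [hz]
  rw [hR, ← lintegral_comp_polarCoord_symm]
  have hpi := Real.pi_pos
  have hb := Real.arcsin_nonneg.2 h0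
  have hb2 := Real.arcsin_le_pi_div_two X
  have hsub : Ioo (0 : ℝ) 1 ×ˢ Ioo (0 : ℝ) (Real.arcsin X) ⊆ polarCoord.target := by
    rintro ⟨ρ, β⟩ ⟨hρ, hβ⟩
    rw [polarCoord_target]
    refine ⟨hρ.1, ?_, ?_⟩
    · simp only at hβ ⊢; linarith [hβ.1]
    · simp only at hβ ⊢; linarith [hβ.2]
  refine le_trans ?_ (lintegral_mono_set hsub)
  have hcongr : ∫⁻ p in Ioo (0 : ℝ) 1 ×ˢ Ioo (0 : ℝ) (Real.arcsin X),
      ENNReal.ofReal p.1 • f (polarCoord.symm p) =
      ∫⁻ p in Ioo (0 : ℝ) 1 ×ˢ Ioo (0 : ℝ) (Real.arcsin X),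
      ENNReal.ofReal (p.1 ^ 2) * ENNReal.ofReal (Real.cos p.2) := by
    apply setLIntegral_congr_fun (measurableSet_Ioo.prod measurableSet_Ioo)
    rintro ⟨ρ, β⟩ ⟨hρ, hβ⟩
    simp only at hρ hβ
    simp only [polarCoord_symm_apply, smul_eq_mul]
    have hβ2 : β < Real.pi / 2 := by linarith [hβ.2]
    have hcos : 0 < Real.cos β := Real.cos_pos_of_mem_Ioo ⟨by linarith [hβ.1], hβ2⟩
    have hsin : 0 < Real.sin β := Real.sin_pos_of_pos_of_lt_pi hβ.1 (by linarith)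
    have hsinX : Real.sin β < X := by
      have := Real.sin_lt_sin_of_lt_of_le_pi_div_two (by linarith [hβ.1]) hb2 hβ.2
      rwa [Real.sin_arcsin (by linarith) h1] at this
    have hsq := Real.sin_sq_add_cos_sq β
    have hmem : (ρ * Real.cos β, ρ * Real.sin β) ∈ Ω := by
      have h2 : (ρ * Real.cos β) ^ 2 + (ρ * Real.sin β) ^ 2 = ρ ^ 2 := by
        have : (ρ * Real.cos β) ^ 2 + (ρ * Real.sin β) ^ 2 =
          ρ ^ 2 * (Real.sin β ^ 2 + Real.cos β ^ 2) := by ring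
        rw [this, hsq, mul_one]
      refine ⟨mul_pos hρ.1 hcos, mul_pos hρ.1 hsin, ?_, ?_⟩
      · simp only
        rw [h2]
        have h3 : Real.sin β ^ 2 < X ^ 2 := by nlinarith
        have h4 : 0 < ρ ^ 2 := by have := hρ.1; positivity
        nlinarith
      · simp only
        rw [h2]
        nlinarith [hρ.1, hρ.2]
    rw [hf, indicator_of_mem hmem]
    simp only
    rw [← ENNReal.ofReal_mul hρ.1.le, ← ENNReal.ofReal_mul (sq_nonneg ρ)]
    congr 1
    ring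
  rw [hcongr, Measure.volume_eq_prod, ← Measure.prod_restrict]
  rw [lintegral_prod_mul (f := fun ρ : ℝ => ENNReal.ofReal (ρ ^ 2))
    (g := fun β : ℝ => ENNReal.ofReal (Real.cos β)) (by fun_prop) (by fun_prop)]
  rw [lint_sq, lint_cos h0 h1, ← ENNReal.ofReal_mul (by norm_num)]
  apply le_of_eq
  congr 1
  ring

end Run7.h506
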