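import Mathlib
import Pool.Agent.Run7.h506.Coord
import Pool.Agent.Run7.h506.MeasJ
import Pool.Agent.Run7.h506.CircleHits

set_option autoImplicit false

namespace Run7.h506

open Set Topology MeasureTheory

theorem exists_basis3 (p q n : E3) (hp : ‖p‖ = 1) (hq : ‖q‖ = 1) (hn : ‖n‖ = 1)
    (hpq : inner ℝ p q = 0) (hpn : inner ℝ p n = 0) (hqn : inner ℝ q n = 0) :
    ∃ b : OrthonormalBasis (Fin 3) ℝ E3, b 0 = p ∧ b 1 = q ∧ b 2 = n := by
  have hqp : inner ℝ q p = 0 := by rw [real_inner_comm]; exact hpq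
  have hnp : inner ℝ n p = 0 := by rw [real_inner_comm]; exact hpn
  have hnq : inner ℝ n q = 0 := by rw [real_inner_comm]; exact hqn
  have hv : Orthonormal ℝ (![p, q, n] : Fin 3 → E3) := by
    constructor
    · intro i
      fin_cases i <;> simp [hp, hq, hn]
    · intro i j hij
      fin_cases i <;> fin_cases j <;> simp_all
  have hv' : Orthonormal ℝ ((Set.univ : Set (Fin 3)).domRestrict (![p, q, n] : Fin 3 → E3)) :=
    hv.comp _ Subtype.val_injective
  obtain ⟨b, hb⟩ := hv'.exists_orthonormalBasis_extension_of_card_eq (by simp)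
  exact ⟨b, by simpa using hb 0 (by simp), by simpa using hb 1 (by simp),
    by simpa using hb 2 (by simp)⟩

theorem T_meas (X r : ℝ) : MeasurableSet
    {t : ℝ | 0 < t ∧ t ^ 2 < X ^ 2 * (r ^ 2 + t ^ 2) ∧ r ^ 2 + t ^ 2 < 1} := by
  have e2 : IsOpen {t : ℝ | 0 < t} := isOpen_lt (by fun_prop) (by fun_prop)
  have e3 : IsOpen {t : ℝ | t ^ 2 < X ^ 2 * (r ^ 2 + t ^ 2)} :=
    isOpen_lt (by fun_prop) (by fun_prop)
  have e4 : IsOpen {t : ℝ | r ^ 2 + t ^ 2 < 1} :=
    isOpen_lt (by fun_prop) (by fun_prop)
  exact (e2.inter (e3.inter e4)).measurableSet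

/-- One direction contributes at least a third of the sum of two support values. -/
theorem dir_bound {D : Set S2} {c : S2} (hc : c ∈ D) {p : E3} (hp : ‖p‖ = 1)
    (hpc : inner ℝ p (c : E3) = 0) :
    ENNReal.ofReal (supp D p / 3) + ENNReal.ofReal (supp D (-p) / 3) ≤
      ∫⁻ r in Ioi (0 : ℝ), ENNReal.ofReal r *
        volume {s : ℝ | r • p + s • (c : E3) ∈ Metric.ball (0 : E3) 1 ∩ hit D} := by
  have hnp : ‖-p‖ = 1 := by rw [norm_neg, hp]
  have hnpc : inner ℝ (-p) (c : E3) = 0 := by rw [inner_neg_left, hpc, neg_zero]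
  have hcn : ‖(c : E3)‖ = 1 := mem_sphere_zero_iff_norm.1 c.2
  set S1 := supp D p
  set S2' := supp D (-p)
  have j1 := J_bound S1 (supp_nonneg hc hp hpc) (supp_le_one hc hp)
  have j2 := J_bound S2' (supp_nonneg hc hnp hnpc) (supp_le_one hc hnp)
  refine (add_le_add j1 j2).trans ((le_lintegral_add _ _).trans ?_)
  apply setLIntegral_mono' measurableSet_Ioi
  intro r hr
  rw [← mul_add]
  gcongr
  set T1 := {t : ℝ | 0 < t ∧ t ^ 2 < S1 ^ 2 * (r ^ 2 + t ^ 2) ∧ r ^ 2 + t ^ 2 < 1} with hT1
  set T2 := {t : ℝ | 0 < t ∧ t ^ 2 < S2' ^ 2 * (r ^ 2 + t ^ 2) ∧ r ^ 2 + t ^ 2 < 1} with hT2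
  have hv1 : volume T1 = volume (-T1) := (Measure.measure_neg volume T1).symm
  rw [hv1, ← measure_union _ (T_meas S2' r)]
  · apply measure_mono
    have hnorm : ∀ s : ℝ, r ^ 2 + s ^ 2 < 1 → r • p + s • (c : E3) ∈ Metric.ball (0 : E3) 1 := by
      intro s hs
      rw [mem_ball_zero_iff]
      have h0 : ‖r • p + s • (c : E3)‖ ^ 2 = r ^ 2 + s ^ 2 := by
        rw [← real_inner_self_eq_norm_sq]
        simp only [inner_add_left, inner_add_right, inner_smul_left, inner_smul_right,
          RCLike.conj_to_real]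
        rw [real_inner_comm p (c : E3), hpc, real_inner_self_eq_norm_sq,
          real_inner_self_eq_norm_sq, hp, hcn]
        ring
      have h1 := norm_nonneg (r • p + s • (c : E3))
      nlinarith
    rintro s (hs | hs)
    · rw [Set.mem_neg] at hs
      obtain ⟨h1, h2, h3⟩ := hs
      refine ⟨hnorm s (by nlinarith), ?_⟩
      have := hit_of hc hp hpc hr h1 h2
      have e : r • p - (-s) • (c : E3) = r • p + s • (c : E3) := by
        rw [neg_smul, sub_neg_eq_add]
      rwa [e] at this
    · obtain ⟨h1, h2, h3⟩ := hs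
      refine ⟨hnorm s h3, ?_⟩
      have := hit_neg (hit_of hc hnp hnpc hr h1 h2)
      have e : -(r • -p - s • (c : E3)) = r • p + s • (c : E3) := by
        rw [smul_neg]; abel
      rwa [e] at this
  · rw [Set.disjoint_left]
    intro s h1 h2
    rw [Set.mem_neg] at h1
    have := h1.1
    have := h2.1
    linarith

theorem rot_mp : MeasurePreserving (fun v : ℝ × ℝ => (-v.2, v.1)) volume volume := by
  have h1 : MeasurePreserving (Prod.swap : ℝ × ℝ → ℝ × ℝ) volume volume :=
    Measure.measurePreserving_swap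
  have h2 : MeasurePreserving (Prod.map (Neg.neg : ℝ → ℝ) (id : ℝ → ℝ))
      (volume : Measure (ℝ × ℝ)) (volume : Measure (ℝ × ℝ)) :=
    (Measure.measurePreserving_neg volume).prod (MeasurePreserving.id _)
  exact h2.comp h1

/-- A set whose tangential extents from one of its points sum to at least `W` in every
orthonormal frame is separated by at least the fraction `W / 4` of all great circles. -/
theorem hit_measure {D : Set S2} {c : S2} (hc : c ∈ D) {W : ℝ}
    (hext : ∀ b : OrthonormalBasis (Fin 3) ℝ E3, b 2 = (c : E3) →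
      W ≤ supp D (b 0) + supp D (b 1) + supp D (-b 0) + supp D (-b 1)) :
    ENNReal.ofReal (W / 4) * volume (Metric.ball (0 : E3) 1) ≤
      volume (Metric.ball (0 : E3) 1 ∩ hit D) := by
  have hcn : ‖(c : E3)‖ = 1 := mem_sphere_zero_iff_norm.1 c.2
  obtain ⟨p0, hp0, hp0c⟩ := exists_unit_orth (c : E3)
  obtain ⟨b, hb0, hb2⟩ := exists_basis_ext p0 (c : E3) hp0 hcn hp0c
  set A := Metric.ball (0 : E3) 1 ∩ hit D with hA
  have hAo : IsOpen A := Metric.isOpen_ball.inter (hit_isOpen D)
  have hAm : MeasurableSet A := hAo.measurableSet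
  have hPm : Measurable (Phi b) := (Phi_continuous b).measurable
  have hBm : MeasurableSet ((Phi b) ⁻¹' A) := hPm hAm
  set G : ℝ × ℝ → ENNReal := fun v => volume {s : ℝ | Phi b (s, v) ∈ A} with hG
  have hGm : Measurable G := measurable_measure_prodMk_right hBm
  have hvol : volume A = ∫⁻ v, G v := by
    rw [← (Phi_mp b).measure_preimage hAm.nullMeasurableSet, Measure.volume_eq_prod,
      Measure.prod_apply_symm hBm]
    rfl
  have hvol2 : volume A = ∫⁻ v : ℝ × ℝ, G (-v.2, v.1) := by
    rw [hvol, ← rot_mp.lintegral_comp hGm]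
  have hsum : volume A + volume A = ∫⁻ v : ℝ × ℝ, (G v + G (-v.2, v.1)) := by
    rw [lintegral_add_left hGm, ← hvol, ← hvol2]
  have hGm2 : Measurable (fun v : ℝ × ℝ => G v + G (-v.2, v.1)) :=
    hGm.add (hGm.comp (by fun_prop))
  have hpolar : ∫⁻ v : ℝ × ℝ, (G v + G (-v.2, v.1)) =
      ∫⁻ θ in Ioo (-Real.pi) Real.pi, ∫⁻ r in Ioi (0 : ℝ), ENNReal.ofReal r *
        (G (r * Real.cos θ, r * Real.sin θ) + G (-(r * Real.sin θ), r * Real.cos θ)) := by
    rw [← lintegral_comp_polarCoord_symm]
    simp only [polarCoord_symm_apply, polarCoord_target, smul_eq_mul]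
    rw [Measure.volume_eq_prod, ← Measure.prod_restrict, lintegral_prod_symm]
    apply Measurable.aemeasurable
    apply Measurable.mul (by fun_prop)
    exact hGm2.comp (by fun_prop)
  have hθ : ∀ θ : ℝ, ENNReal.ofReal (W / 3) ≤ ∫⁻ r in Ioi (0 : ℝ), ENNReal.ofReal r *
        (G (r * Real.cos θ, r * Real.sin θ) + G (-(r * Real.sin θ), r * Real.cos θ)) := by
    intro θ
    set p := Real.cos θ • b 0 + Real.sin θ • b 1 with hp
    set q := (-Real.sin θ) • b 0 + Real.cos θ • b 1 with hq
    have hsc := Real.sin_sq_add_cos_sq θ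
    have hpn : ‖p‖ = 1 := by
      apply norm_eq_one_of_sq
      have := norm_comb b (Real.cos θ) (Real.sin θ) 0
      rw [zero_smul, add_zero] at this
      rw [hp, this]; linarith
    have hqn : ‖q‖ = 1 := by
      apply norm_eq_one_of_sq
      have := norm_comb b (-Real.sin θ) (Real.cos θ) 0
      rw [zero_smul, add_zero] at this
      rw [hq, this]; linarith
    have h02 : inner ℝ (b 0) (c : E3) = 0 := by rw [← hb2]; exact b.orthonormal.2 (by decide)
    have h12 : inner ℝ (b 1) (c : E3) = 0 := by rw [← hb2]; exact b.orthonormal.2 (by decide)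
    have h01 : inner ℝ (b 0) (b 1) = 0 := b.orthonormal.2 (by decide)
    have h10 : inner ℝ (b 1) (b 0) = 0 := b.orthonormal.2 (by decide)
    have h00 : inner ℝ (b 0) (b 0) = 1 := by simp
    have h11 : inner ℝ (b 1) (b 1) = 1 := by simp
    have hpc : inner ℝ p (c : E3) = 0 := by
      rw [hp, inner_add_left, real_inner_smul_left, real_inner_smul_left, h02, h12]; ring
    have hqc : inner ℝ q (c : E3) = 0 := by
      rw [hq, inner_add_left, real_inner_smul_left, real_inner_smul_left, h02, h12]; ring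
    have hpq : inner ℝ p q = 0 := by
      rw [hp, hq]
      simp only [inner_add_left, inner_add_right, inner_smul_left, inner_smul_right,
        RCLike.conj_to_real, h00, h11, h01, h10]
      ring
    obtain ⟨b', hb'0, hb'1, hb'2⟩ := exists_basis3 p q (c : E3) hpn hqn hcn hpq hpc hqc
    have hW := hext b' hb'2
    rw [hb'0, hb'1] at hW
    have d1 := dir_bound hc hpn hpc
    have d2 := dir_bound hc hqn hqc
    have hnp : ‖-p‖ = 1 := by rw [norm_neg, hpn]
    have hnpc : inner ℝ (-p) (c : E3) = 0 := by rw [inner_neg_left, hpc, neg_zero]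
    have hnq : ‖-q‖ = 1 := by rw [norm_neg, hqn]
    have hnqc : inner ℝ (-q) (c : E3) = 0 := by rw [inner_neg_left, hqc, neg_zero]
    have s1 := supp_nonneg hc hpn hpc
    have s2 := supp_nonneg hc hqn hqc
    have s3 := supp_nonneg hc hnp hnpc
    have s4 := supp_nonneg hc hnq hnqc
    have hlow : ENNReal.ofReal (W / 3) ≤
        (ENNReal.ofReal (supp D p / 3) + ENNReal.ofReal (supp D (-p) / 3)) +
        (ENNReal.ofReal (supp D q / 3) + ENNReal.ofReal (supp D (-q) / 3)) := by
      rw [← ENNReal.ofReal_add (by positivity) (by positivity),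
        ← ENNReal.ofReal_add (by positivity) (by positivity),
        ← ENNReal.ofReal_add (by positivity) (by positivity)]
      apply ENNReal.ofReal_le_ofReal
      linarith
    refine hlow.trans ((add_le_add d1 d2).trans ((le_lintegral_add _ _).trans ?_))
    apply setLIntegral_mono' measurableSet_Ioi
    intro r hr
    rw [← mul_add]
    apply le_of_eq
    congr 2
    · simp only [hG]
      congr 1
      ext s
      simp only [Set.mem_ofPred_eq]
      have : r • p + s • (c : E3) = Phi b (s, r * Real.cos θ, r * Real.sin θ) := by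
        rw [hp, ← hb2]
        simp only [Phi]
        rw [smul_add, smul_smul, smul_smul]
      rw [this]
    · simp only [hG]
      congr 1
      ext s
      simp only [Set.mem_ofPred_eq]
      have : r • q + s • (c : E3) = Phi b (s, -(r * Real.sin θ), r * Real.cos θ) := by
        rw [hq, ← hb2]
        simp only [Phi]
        rw [smul_add, smul_smul, smul_smul, mul_neg]
      rw [this]
  have hfinal : ENNReal.ofReal (W / 3) * ENNReal.ofReal (2 * Real.pi) ≤ volume A + volume A := by
    rw [hsum, hpolar]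
    have hconst : ENNReal.ofReal (W / 3) * ENNReal.ofReal (2 * Real.pi) =
        ∫⁻ θ in Ioo (-Real.pi) Real.pi, ENNReal.ofReal (W / 3) := by
      rw [setLIntegral_const, Real.volume_Ioo]
      congr 2
      ring
    rw [hconst]
    exact lintegral_mono hθ
  have hpi := Real.pi_pos
  rw [EuclideanSpace.volume_ball_fin_three]
  by_cases hWs : 0 ≤ W
  · have e1 : ENNReal.ofReal (W / 4) * (ENNReal.ofReal 1 ^ 3 * ENNReal.ofReal (Real.pi * 4 / 3))
        = ENNReal.ofReal (W / 3 * Real.pi) := by
      rw [ENNReal.ofReal_one, one_pow, one_mul, ← ENNReal.ofReal_mul (by positivity)]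
      congr 1
      ring
    have e2 : ENNReal.ofReal (W / 3) * ENNReal.ofReal (2 * Real.pi) =
        ENNReal.ofReal (W / 3 * Real.pi) + ENNReal.ofReal (W / 3 * Real.pi) := by
      rw [← ENNReal.ofReal_mul (by positivity), ← ENNReal.ofReal_add (by positivity)
        (by positivity)]
      congr 1
      ring
    rw [e1]
    rw [e2] at hfinal
    by_contra hcon
    rw [not_le] at hcon
    have := ENNReal.add_lt_add hcon hcon
    exact absurd hfinal (not_le.2 this)
  · have : ENNReal.ofReal (W / 4) = 0 := ENNReal.ofReal_of_nonpos (by linarith)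
    rw [this, zero_mul]
    exact bot_le

end Run7.h506
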