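import Mathlib
import Pool.Agent.Run7.h506.CircleHits

set_option autoImplicit false

namespace Run7.h506

open Set Topology MvPolynomial Filter

/-- Second derivative test at a local maximum. -/
theorem second_deriv_nonpos {H H1 : ℝ → ℝ} {H2 : ℝ} (h1 : ∀ t, HasDerivAt H (H1 t) t)
    (h2 : HasDerivAt H1 H2 0) (hmax : IsLocalMax H 0) : H2 ≤ 0 := by
  by_contra hcon
  push Not at hcon
  have hd : deriv H = H1 := funext fun t => (h1 t).deriv
  have hdd : deriv (deriv H) 0 = H2 := by rw [hd]; exact h2.deriv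
  have hmin : IsLocalMin H 0 :=
    isLocalMin_of_deriv_deriv_pos (by rw [hdd]; exact hcon) hmax.deriv_eq_zero
      (h1 0).continuousAt
  have hconst : ∀ᶠ t in 𝓝 (0 : ℝ), H t = H 0 := by
    filter_upwards [hmax, hmin] with t ht1 ht2
    exact le_antisymm ht1 ht2
  have hzero : H1 =ᶠ[𝓝 (0 : ℝ)] fun _ => 0 := by
    have := hconst.eventually_nhds
    filter_upwards [this] with t ht
    have h3 : H =ᶠ[𝓝 t] fun _ => H 0 := ht
    have h4 : HasDerivAt H 0 t := (hasDerivAt_const t (H 0)).congr_of_eventuallyEq h3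
    exact (h1 t).unique h4
  have h5 : HasDerivAt H1 0 0 := (hasDerivAt_const (0 : ℝ) (0 : ℝ)).congr_of_eventuallyEq hzero
  have := h2.unique h5
  linarith

theorem basis_coord (e : OrthonormalBasis (Fin 3) ℝ E3) (i j : Fin 3) :
    ∑ k, (e k) i * (e k) j = if i = j then 1 else 0 := by
  have h := e.sum_inner_mul_inner (EuclideanSpace.single i (1 : ℝ)) (EuclideanSpace.single j 1)
  simp only [EuclideanSpace.inner_single_left, EuclideanSpace.inner_single_right] at h
  have h' : ∑ k, (e k) i * (e k) j = if j = i then 1 else 0 := by simpa using h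
  rw [h']
  by_cases hij : i = j
  · simp [hij]
  · simp [hij, Ne.symm hij]

theorem euler_eval {P : MvPolynomial (Fin 3) ℝ} {ℓ : ℕ} (hP : P.IsHomogeneous ℓ)
    (x : Fin 3 → ℝ) : ∑ i, x i * eval x (pderiv i P) = ℓ * eval x P := by
  have h := congrArg (eval x) hP.sum_X_mul_pderiv
  simpa using h

/-- Second derivative of a polynomial along a great circle at the base point. -/
theorem poly_second (P : MvPolynomial (Fin 3) ℝ) (x v : Fin 3 → ℝ) :
    ∃ D1 : ℝ → ℝ, (∀ t, HasDerivAt (fun s => eval (fun i => Real.cos s * x i + Real.sin s * v i) P)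
        (D1 t) t) ∧
      HasDerivAt D1 (∑ i, (-(x i) * eval x (pderiv i P) +
        v i * ∑ j, v j * eval x (pderiv j (pderiv i P)))) 0 := by
  have hcurve : ∀ (t : ℝ) (i : Fin 3),
      HasDerivAt (fun s => Real.cos s * x i + Real.sin s * v i)
        (-Real.sin t * x i + Real.cos t * v i) t := by
    intro t i
    exact ((Real.hasDerivAt_cos t).mul_const (x i)).add ((Real.hasDerivAt_sin t).mul_const (v i))
  refine ⟨fun t => ∑ i, (-Real.sin t * x i + Real.cos t * v i) *
    eval (fun i => Real.cos t * x i + Real.sin t * v i) (pderiv i P), ?_, ?_⟩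
  · intro t
    exact hasDerivAt_eval P (g := fun s i => Real.cos s * x i + Real.sin s * v i) (hcurve t)
  · have hpt : (fun i => Real.cos 0 * x i + Real.sin 0 * v i) = x := by
      funext i; simp
    have hterm : ∀ i : Fin 3, HasDerivAt (fun t => (-Real.sin t * x i + Real.cos t * v i) *
        eval (fun i => Real.cos t * x i + Real.sin t * v i) (pderiv i P))
        (-(x i) * eval x (pderiv i P) +
        v i * ∑ j, v j * eval x (pderiv j (pderiv i P))) 0 := by
      intro i
      have h1 : HasDerivAt (fun t => -Real.sin t * x i + Real.cos t * v i)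
          (-Real.cos 0 * x i + -Real.sin 0 * v i) 0 :=
        (((Real.hasDerivAt_sin 0).neg).mul_const (x i)).add
          ((Real.hasDerivAt_cos 0).mul_const (v i))
      have h2 := hasDerivAt_eval (pderiv i P)
        (g := fun s i => Real.cos s * x i + Real.sin s * v i) (t := 0) (hcurve 0)
      have h3 := h1.mul h2
      have hval : (-Real.cos 0 * x i + -Real.sin 0 * v i) *
          eval (fun i => Real.cos 0 * x i + Real.sin 0 * v i) (pderiv i P) +
          (-Real.sin 0 * x i + Real.cos 0 * v i) *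
          ∑ j, (-Real.sin 0 * x j + Real.cos 0 * v j) *
            eval (fun i => Real.cos 0 * x i + Real.sin 0 * v i) (pderiv j (pderiv i P)) =
          -(x i) * eval x (pderiv i P) +
            v i * ∑ j, v j * eval x (pderiv j (pderiv i P)) := by
        rw [hpt]; simp
      rw [← hval]
      exact h3
    exact HasDerivAt.fun_sum (fun i _ => hterm i)

/-- The spherical Laplacian of a harmonic homogeneous polynomial. -/
theorem poly_laplace {P : MvPolynomial (Fin 3) ℝ} {ℓ : ℕ} (hP : P.IsHomogeneous ℓ)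
    (hh : ∑ i : Fin 3, pderiv i (pderiv i P) = 0) (hℓ : 1 ≤ ℓ)
    (e : OrthonormalBasis (Fin 3) ℝ E3) :
    (∑ i, (-((e 0) i) * eval (fun i => (e 0) i) (pderiv i P) +
        (e 1) i * ∑ j, (e 1) j * eval (fun i => (e 0) i) (pderiv j (pderiv i P)))) +
    (∑ i, (-((e 0) i) * eval (fun i => (e 0) i) (pderiv i P) +
        (e 2) i * ∑ j, (e 2) j * eval (fun i => (e 0) i) (pderiv j (pderiv i P))))
      = - (ℓ * (ℓ + 1)) * eval (fun i => (e 0) i) P := by
  set x : Fin 3 → ℝ := fun i => (e 0) i with hx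
  have hE1 := euler_eval hP x
  have hE2 : ∀ i, ∑ j, x j * eval x (pderiv j (pderiv i P)) = (ℓ - 1) * eval x (pderiv i P) := by
    intro i
    have := euler_eval (hP.pderiv (i := i)) x
    rw [this, Nat.cast_sub hℓ]
    simp
  have hlap : ∑ i : Fin 3, eval x (pderiv i (pderiv i P)) = 0 := by
    have := congrArg (eval x) hh
    simpa using this
  have hc : ∀ i j, (e 1) i * (e 1) j + (e 2) i * (e 2) j = (if i = j then 1 else 0) - x i * x j := by
    intro i j
    have := basis_coord e i j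
    rw [Fin.sum_univ_three] at this
    simp only [hx]
    linarith
  have hsum : (∑ i, (e 1) i * ∑ j, (e 1) j * eval x (pderiv j (pderiv i P))) +
      (∑ i, (e 2) i * ∑ j, (e 2) j * eval x (pderiv j (pderiv i P))) =
      - ∑ i, x i * ∑ j, x j * eval x (pderiv j (pderiv i P)) := by
    have h1 : (∑ i, (e 1) i * ∑ j, (e 1) j * eval x (pderiv j (pderiv i P))) +
      (∑ i, (e 2) i * ∑ j, (e 2) j * eval x (pderiv j (pderiv i P))) =
      ∑ i, ∑ j, ((e 1) i * (e 1) j + (e 2) i * (e 2) j) * eval x (pderiv j (pderiv i P)) := by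
      rw [← Finset.sum_add_distrib]
      apply Finset.sum_congr rfl
      intro i _
      rw [Finset.mul_sum, Finset.mul_sum, ← Finset.sum_add_distrib]
      apply Finset.sum_congr rfl
      intro j _
      ring
    rw [h1]
    simp_rw [hc]
    have h2 : ∑ i : Fin 3, ∑ j : Fin 3, ((if i = j then (1 : ℝ) else 0) - x i * x j) *
        eval x (pderiv j (pderiv i P)) =
        ∑ i : Fin 3, eval x (pderiv i (pderiv i P)) -
        ∑ i, x i * ∑ j, x j * eval x (pderiv j (pderiv i P)) := by
      rw [← Finset.sum_sub_distrib]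
      apply Finset.sum_congr rfl
      intro i _
      simp_rw [sub_mul]
      rw [Finset.sum_sub_distrib, Finset.mul_sum]
      congr 1
      · simp
      · apply Finset.sum_congr rfl
        intro j _
        ring
    rw [h2, hlap]
    ring
  simp_rw [Finset.sum_add_distrib]
  have h3 : ∑ i, -(x i) * eval x (pderiv i P) = -(ℓ * eval x P) := by
    rw [← hE1, ← Finset.sum_neg_distrib]
    apply Finset.sum_congr rfl
    intro i _
    ring
  have h4 : ∑ i, x i * ∑ j, x j * eval x (pderiv j (pderiv i P)) = (ℓ - 1) * (ℓ * eval x P) := by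
    rw [← hE1, Finset.mul_sum]
    apply Finset.sum_congr rfl
    intro i _
    rw [hE2 i]
    ring
  rw [h3]
  have h5 : -(↑ℓ * eval x P) + ∑ i, (e 1) i * ∑ j, (e 1) j * eval x (pderiv j (pderiv i P)) +
      (-(↑ℓ * eval x P) + ∑ i, (e 2) i * ∑ j, (e 2) j * eval x (pderiv j (pderiv i P))) =
      -2 * (↑ℓ * eval x P) + ((∑ i, (e 1) i * ∑ j, (e 1) j * eval x (pderiv j (pderiv i P))) +
      (∑ i, (e 2) i * ∑ j, (e 2) j * eval x (pderiv j (pderiv i P)))) := by ring
  rw [h5, hsum, h4]
  ring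

/-- Second derivative of a product of ridge functions along a great circle. -/
theorem ridge_second {g1 g1' g1'' g2 g2' g2'' : ℝ → ℝ}
    (h1 : ∀ x, HasDerivAt g1 (g1' x) x) (h1' : ∀ x, HasDerivAt g1' (g1'' x) x)
    (h2 : ∀ x, HasDerivAt g2 (g2' x) x) (h2' : ∀ x, HasDerivAt g2' (g2'' x) x)
    (X a Y c : ℝ) :
    ∃ D1 : ℝ → ℝ, (∀ t, HasDerivAt (fun s => g1 (Real.cos s * X + Real.sin s * a) *
        g2 (Real.cos s * Y + Real.sin s * c)) (D1 t) t) ∧
      HasDerivAt D1 ((g1'' X * a ^ 2 - g1' X * X) * g2 Y + 2 * (g1' X * a) * (g2' Y * c) +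
        g1 X * (g2'' Y * c ^ 2 - g2' Y * Y)) 0 := by
  have hX : ∀ t, HasDerivAt (fun s => Real.cos s * X + Real.sin s * a)
      (-Real.sin t * X + Real.cos t * a) t := fun t =>
    ((Real.hasDerivAt_cos t).mul_const X).add ((Real.hasDerivAt_sin t).mul_const a)
  have hY : ∀ t, HasDerivAt (fun s => Real.cos s * Y + Real.sin s * c)
      (-Real.sin t * Y + Real.cos t * c) t := fun t =>
    ((Real.hasDerivAt_cos t).mul_const Y).add ((Real.hasDerivAt_sin t).mul_const c)
  have hX' : HasDerivAt (fun s => -Real.sin s * X + Real.cos s * a)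
      (-Real.cos 0 * X + -Real.sin 0 * a) 0 :=
    (((Real.hasDerivAt_sin 0).neg).mul_const X).add ((Real.hasDerivAt_cos 0).mul_const a)
  have hY' : HasDerivAt (fun s => -Real.sin s * Y + Real.cos s * c)
      (-Real.cos 0 * Y + -Real.sin 0 * c) 0 :=
    (((Real.hasDerivAt_sin 0).neg).mul_const Y).add ((Real.hasDerivAt_cos 0).mul_const c)
  refine ⟨fun t => (g1' (Real.cos t * X + Real.sin t * a) * (-Real.sin t * X + Real.cos t * a)) *
      g2 (Real.cos t * Y + Real.sin t * c) +
      g1 (Real.cos t * X + Real.sin t * a) *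
      (g2' (Real.cos t * Y + Real.sin t * c) * (-Real.sin t * Y + Real.cos t * c)), ?_, ?_⟩
  · intro t
    exact ((h1 _).comp t (hX t)).mul ((h2 _).comp t (hY t))
  · have e1 := (h1 _).comp 0 (hX 0)
    have e2 := (h2 _).comp 0 (hY 0)
    have e1' := (h1' _).comp 0 (hX 0)
    have e2' := (h2' _).comp 0 (hY 0)
    have f1 := ((e1'.mul hX').mul e2).add (e1.mul (e2'.mul hY'))
    refine HasDerivAt.congr_deriv f1 ?_
    simp [Function.comp]
    ring

theorem val_gc_inner (b e : OrthonormalBasis (Fin 3) ℝ E3) (i : Fin 3) (t : ℝ) :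
    inner ℝ (b i) (gc e t : E3) =
      Real.cos t * inner ℝ (b i) (e 0) + Real.sin t * inner ℝ (b i) (e 1) := by
  simp only [gc, inner_add_right, inner_smul_right]

theorem gc_zero (e : OrthonormalBasis (Fin 3) ℝ E3) : (gc e 0 : E3) = e 0 := by
  simp [gc]

/-- Barta type comparison: no positive nodal domain carries a strict positive supersolution of
product type. -/
theorem barta {P : MvPolynomial (Fin 3) ℝ} {ℓ : ℕ} (hP : P.IsHomogeneous ℓ)
    (hh : ∑ i : Fin 3, pderiv i (pderiv i P) = 0) (hℓ : 1 ≤ ℓ) (c : S2) (hc : 0 < ev P c)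
    (b : OrthonormalBasis (Fin 3) ℝ E3) {g1 g1' g1'' g2 g2' g2'' : ℝ → ℝ}
    (h1 : ∀ x, HasDerivAt g1 (g1' x) x) (h1' : ∀ x, HasDerivAt g1' (g1'' x) x)
    (h2 : ∀ x, HasDerivAt g2 (g2' x) x) (h2' : ∀ x, HasDerivAt g2' (g2'' x) x)
    (hpos : ∀ x ∈ closure (connectedComponentIn {y : S2 | 0 < ev P y} c),
      0 < g1 (inner ℝ (b 0) (x : E3)) ∧ 0 < g2 (inner ℝ (b 1) (x : E3)) ∧
      ∀ X Y : ℝ, X = inner ℝ (b 0) (x : E3) → Y = inner ℝ (b 1) (x : E3) →
        (ℓ * (ℓ + 1)) * (g1 X * g2 Y) +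
        (((1 - X ^ 2) * g1'' X - 2 * X * g1' X) * g2 Y +
          g1 X * ((1 - Y ^ 2) * g2'' Y - 2 * Y * g2' Y) -
          2 * X * Y * g1' X * g2' Y) < 0) : False := by
  classical
  have hcont : Continuous (fun y : S2 => ev P y) := (ev_continuous P).comp continuous_subtype_val
  have hAo : IsOpen {y : S2 | 0 < ev P y} := isOpen_lt continuous_const hcont
  set A : Set S2 := {y : S2 | 0 < ev P y} with hA
  set D := connectedComponentIn A c with hD
  have hcA : c ∈ A := hc
  have hcD : c ∈ D := mem_connectedComponentIn hcA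
  have hDo : IsOpen D := hAo.connectedComponentIn
  set K := closure D with hK
  have hKc : IsCompact K := isClosed_closure.isCompact
  have hKne : K.Nonempty := ⟨c, subset_closure hcD⟩
  set ψ : S2 → ℝ := fun x => g1 (inner ℝ (b 0) (x : E3)) * g2 (inner ℝ (b 1) (x : E3)) with hψ
  have hg1c : Continuous g1 := continuous_iff_continuousAt.2 fun x => (h1 x).continuousAt
  have hg2c : Continuous g2 := continuous_iff_continuousAt.2 fun x => (h2 x).continuousAt
  have hψc : Continuous ψ := by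
    simp only [hψ]
    apply Continuous.mul
    · exact hg1c.comp (by fun_prop)
    · exact hg2c.comp (by fun_prop)
  have hψpos : ∀ x ∈ K, 0 < ψ x := fun x hx => mul_pos (hpos x hx).1 (hpos x hx).2.1
  obtain ⟨x, hxK, hxmax⟩ := hKc.exists_isMaxOn hKne
    (f := fun y => ev P y / ψ y)
    (hcont.continuousOn.div hψc.continuousOn (fun y hy => (hψpos y hy).ne'))
  set M := ev P x / ψ x with hM
  have hMpos : 0 < M := by
    have h3 : ev P c / ψ c ≤ M := hxmax (subset_closure hcD)
    have h4 : 0 < ev P c / ψ c := div_pos hc (hψpos c (subset_closure hcD))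
    linarith
  have hxψ : 0 < ψ x := hψpos x hxK
  have hxval : ev P x = M * ψ x := by
    rw [hM]; field_simp
  have hxA : x ∈ A := by
    show 0 < ev P x
    rw [hxval]; positivity
  have hxD : x ∈ D := mem_comp_of_mem_closure hAo hxK hxA
  have hle : ∀ y ∈ K, ev P y - M * ψ y ≤ 0 := by
    intro y hy
    have h3 : ev P y / ψ y ≤ M := hxmax hy
    rw [div_le_iff₀ (hψpos y hy)] at h3
    linarith
  -- an orthonormal basis starting at x
  have hxn : ‖(x : E3)‖ = 1 := mem_sphere_zero_iff_norm.1 x.2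
  obtain ⟨n, hn1, hn2⟩ := exists_unit_orth (x : E3)
  obtain ⟨e, he0, he2⟩ := exists_basis_ext (x : E3) n hxn hn1 (by rw [real_inner_comm]; exact hn2)
  set e' := e.reindex (Equiv.swap (1 : Fin 3) 2) with he'
  have he'0 : e' 0 = e 0 := by
    rw [he', OrthonormalBasis.reindex_apply]; congr 1
  have he'1 : e' 1 = e 2 := by
    rw [he', OrthonormalBasis.reindex_apply]; congr 1
  -- local maximum along great circles
  have hlocal : ∀ f : OrthonormalBasis (Fin 3) ℝ E3, f 0 = x →
      IsLocalMax (fun t => ev P (gc f t) - M * ψ (gc f t)) 0 := by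
    intro f hf
    have hg0 : gc f 0 = x := Subtype.ext (by rw [gc_zero, hf])
    have hmem : ∀ᶠ t in 𝓝 (0 : ℝ), gc f t ∈ D := by
      apply (gc_continuous f).continuousAt.eventually_mem
      rw [hg0]
      exact hDo.mem_nhds hxD
    filter_upwards [hmem] with t ht
    have h3 := hle _ (subset_closure ht)
    have h4 : ev P (gc f 0) - M * ψ (gc f 0) = 0 := by
      rw [hg0, hxval]; ring
    rw [h4]
    exact h3
  have hsecond : ∀ f : OrthonormalBasis (Fin 3) ℝ E3, f 0 = x →
      (∑ i, (-((f 0) i) * eval (fun i => (f 0) i) (pderiv i P) +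
        (f 1) i * ∑ j, (f 1) j * eval (fun i => (f 0) i) (pderiv j (pderiv i P)))) -
      M * ((g1'' (inner ℝ (b 0) (f 0)) * (inner ℝ (b 0) (f 1)) ^ 2 -
          g1' (inner ℝ (b 0) (f 0)) * inner ℝ (b 0) (f 0)) * g2 (inner ℝ (b 1) (f 0)) +
        2 * (g1' (inner ℝ (b 0) (f 0)) * inner ℝ (b 0) (f 1)) *
          (g2' (inner ℝ (b 1) (f 0)) * inner ℝ (b 1) (f 1)) +
        g1 (inner ℝ (b 0) (f 0)) * (g2'' (inner ℝ (b 1) (f 0)) * (inner ℝ (b 1) (f 1)) ^ 2 -
          g2' (inner ℝ (b 1) (f 0)) * inner ℝ (b 1) (f 0))) ≤ 0 := by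
    intro f hf
    obtain ⟨D1, hD1, hD1'⟩ := poly_second P (fun i => (f 0) i) (fun i => (f 1) i)
    obtain ⟨G1, hG1, hG1'⟩ := ridge_second h1 h1' h2 h2' (inner ℝ (b 0) (f 0))
      (inner ℝ (b 0) (f 1)) (inner ℝ (b 1) (f 0)) (inner ℝ (b 1) (f 1))
    have hder : ∀ t, HasDerivAt (fun t => ev P (gc f t) - M * ψ (gc f t)) (D1 t - M * G1 t) t := by
      intro t
      have h3 := (hD1 t).sub ((hG1 t).const_mul M)
      have h4 : (fun t => ev P (gc f t) - M * ψ (gc f t)) =
          (fun s => eval (fun i => Real.cos s * (f 0) i + Real.sin s * (f 1) i) P) -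
          (fun s => M * (g1 (Real.cos s * inner ℝ (b 0) (f 0) + Real.sin s * inner ℝ (b 0) (f 1)) *
            g2 (Real.cos s * inner ℝ (b 1) (f 0) + Real.sin s * inner ℝ (b 1) (f 1)))) := by
        funext s
        simp only [Pi.sub_apply, hψ, val_gc_inner]
        congr 1
      rw [h4]
      exact h3
    exact second_deriv_nonpos hder (hD1'.sub (hG1'.const_mul M)) (hlocal f hf)
  have hs1 := hsecond e he0
  have hs2 := hsecond e' (he'0.trans he0)
  rw [he'0, he'1] at hs2
  have hlap := poly_laplace hP hh hℓ e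
  have hPx : eval (fun i => (e 0) i) P = M * ψ x := by
    rw [← hxval, he0]; rfl
  rw [hPx] at hlap
  -- inner product identities
  have hpar : ∀ i j : Fin 3, inner ℝ (b i) (e 0) * inner ℝ (b j) (e 0) +
      inner ℝ (b i) (e 1) * inner ℝ (b j) (e 1) + inner ℝ (b i) (e 2) * inner ℝ (b j) (e 2) =
      if i = j then 1 else 0 := by
    intro i j
    have h3 := e.sum_inner_mul_inner (b i) (b j)
    rw [Fin.sum_univ_three, real_inner_comm (b j) (e 0), real_inner_comm (b j) (e 1),
      real_inner_comm (b j) (e 2)] at h3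
    rw [h3]
    by_cases hij : i = j
    · subst hij; simp
    · rw [if_neg hij]; exact b.orthonormal.2 hij
  have hp00 := hpar 0 0
  have hp11 := hpar 1 1
  have hp01 := hpar 0 1
  simp only [if_true] at hp00 hp11
  rw [if_neg (by decide)] at hp01
  obtain ⟨-, -, hineq⟩ := hpos x hxK
  have hineq' := hineq (inner ℝ (b 0) (e 0)) (inner ℝ (b 1) (e 0)) (by rw [he0]) (by rw [he0])
  have hψx : ψ x = g1 (inner ℝ (b 0) (e 0)) * g2 (inner ℝ (b 1) (e 0)) := by
    rw [he0]
  rw [hψx] at hlap
  set X := inner ℝ (b 0) (e 0) with hX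
  set Y := inner ℝ (b 1) (e 0) with hY
  set a1 := inner ℝ (b 0) (e 1) with ha1
  set a2 := inner ℝ (b 0) (e 2) with ha2
  set c1 := inner ℝ (b 1) (e 1) with hc1
  set c2 := inner ℝ (b 1) (e 2) with hc2
  have htot := add_le_add hs1 hs2
  have key : -(↑ℓ * (↑ℓ + 1)) * (M * (g1 X * g2 Y)) - M * (((1 - X ^ 2) * g1'' X - 2 * X * g1' X) * g2 Y +
          g1 X * ((1 - Y ^ 2) * g2'' Y - 2 * Y * g2' Y) -
          2 * X * Y * g1' X * g2' Y) ≤ 0 := by
    have ha : a1 ^ 2 + a2 ^ 2 = 1 - X ^ 2 := by linarith [hp00]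
    have hcc : c1 ^ 2 + c2 ^ 2 = 1 - Y ^ 2 := by linarith [hp11]
    have hac : a1 * c1 + a2 * c2 = - (X * Y) := by linarith [hp01]
    rw [← hlap]
    rw [← ha, ← hcc]
    have h5 : 2 * X * Y * g1' X * g2' Y = -2 * (a1 * c1 + a2 * c2) * g1' X * g2' Y := by
      rw [hac]; ring
    rw [h5]
    have h6 : (0 : ℝ) + 0 = 0 := by norm_num
    rw [h6] at htot
    refine le_trans (le_of_eq ?_) htot
    ring
  have : 0 < M * -((ℓ * (ℓ + 1)) * (g1 X * g2 Y) +
        (((1 - X ^ 2) * g1'' X - 2 * X * g1' X) * g2 Y +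
          g1 X * ((1 - Y ^ 2) * g2'' Y - 2 * Y * g2' Y) -
          2 * X * Y * g1' X * g2' Y)) := mul_pos hMpos (by linarith)
  nlinarith

end Run7.h506
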