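import Mathlib
import Pool.Agent.Run7.h506.Barta

set_option autoImplicit false

namespace Run7.h506

open MvPolynomial

/-- The polynomial recentred at `z`. -/
noncomputable def sh (z : Fin 3 → ℝ) (P : MvPolynomial (Fin 3) ℝ) : MvPolynomial (Fin 3) ℝ :=
  aeval (fun i => X i + C (z i)) P

theorem sh_eval (z : Fin 3 → ℝ) (P : MvPolynomial (Fin 3) ℝ) (y : Fin 3 → ℝ) :
    eval y (sh z P) = eval (fun i => y i + z i) P := by
  induction P using MvPolynomial.induction_on with
  | C a => simp [sh]
  | add p q hp hq =>
    simp only [sh, map_add] at hp hq ⊢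
    rw [hp, hq]
  | mul_X p i hp =>
    simp only [sh, map_mul, aeval_X, map_add, eval_X, eval_C] at hp ⊢
    rw [hp]

theorem sh_pderiv (z : Fin 3 → ℝ) (P : MvPolynomial (Fin 3) ℝ) (k : Fin 3) :
    pderiv k (sh z P) = sh z (pderiv k P) := by
  induction P using MvPolynomial.induction_on with
  | C a => simp [sh]
  | add p q hp hq =>
    simp only [sh, map_add] at hp hq ⊢
    rw [hp, hq]
  | mul_X p i hp =>
    simp only [sh, map_mul, aeval_X] at hp ⊢
    rw [pderiv_mul, pderiv_mul, hp]
    simp only [map_add, map_mul, aeval_X, pderiv_C, add_zero, pderiv_X]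
    by_cases h : k = i
    · subst h
      simp
    · simp [Ne.symm h]

theorem sh_harm {z : Fin 3 → ℝ} {P : MvPolynomial (Fin 3) ℝ}
    (hh : ∑ i : Fin 3, pderiv i (pderiv i P) = 0) :
    ∑ i : Fin 3, pderiv i (pderiv i (sh z P)) = 0 := by
  have : ∑ i : Fin 3, pderiv i (pderiv i (sh z P)) = sh z (∑ i : Fin 3, pderiv i (pderiv i P)) := by
    simp only [sh_pderiv]
    unfold sh
    rw [map_sum]
  rw [this, hh]
  simp [sh]

theorem sh_ne_zero {z : Fin 3 → ℝ} {P : MvPolynomial (Fin 3) ℝ} (h : P ≠ 0) : sh z P ≠ 0 := by
  intro h0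
  apply h
  apply MvPolynomial.funext
  intro x
  have := congrArg (eval (fun i => x i - z i)) h0
  rw [sh_eval] at this
  simpa using this

theorem hc_pderiv (f : MvPolynomial (Fin 3) ℝ) (i : Fin 3) (k : ℕ) :
    pderiv i (homogeneousComponent (k + 1) f) = homogeneousComponent k (pderiv i f) := by
  induction f using MvPolynomial.induction_on' with
  | monomial d c =>
    rw [homogeneousComponent_of_mem (isHomogeneous_monomial c rfl)]
    by_cases hd : d i = 0
    · have h1 : pderiv i (monomial d c) = 0 := by
        rw [pderiv_monomial, hd]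
        simp
      rw [h1, map_zero]
      split_ifs
      · exact h1
      · simp
    · have hdeg : (d - Finsupp.single i 1).degree + 1 = d.degree := by
        have h2 : (d - Finsupp.single i 1) + Finsupp.single i 1 = d := by
          apply tsub_add_cancel_of_le
          rw [Finsupp.single_le_iff]
          omega
        have h3 := congrArg Finsupp.degree h2
        rw [map_add, Finsupp.degree_single] at h3
        exact h3
      rw [pderiv_monomial, homogeneousComponent_of_mem (isHomogeneous_monomial _ rfl)]
      by_cases hk : k + 1 = d.degree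
      · rw [if_pos hk, if_pos (by omega), pderiv_monomial]
      · rw [if_neg hk, if_neg (by omega), map_zero]
  | add p q hp hq => simp [map_add, hp, hq]

theorem hc_pderiv_zero (f : MvPolynomial (Fin 3) ℝ) (i : Fin 3) :
    pderiv i (homogeneousComponent 0 f) = 0 := by
  simp

/-- Homogeneous parts of harmonic polynomials are harmonic. -/
theorem hc_harm {f : MvPolynomial (Fin 3) ℝ}
    (hh : ∑ i : Fin 3, pderiv i (pderiv i f) = 0) (k : ℕ) :
    ∑ i : Fin 3, pderiv i (pderiv i (homogeneousComponent k f)) = 0 := by
  rcases k with _ | _ | k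
  · simp
  · have : ∀ i : Fin 3, pderiv i (pderiv i (homogeneousComponent 1 f)) = 0 := by
      intro i
      rw [hc_pderiv, hc_pderiv_zero]
    simp [this]
  · have : ∀ i : Fin 3, pderiv i (pderiv i (homogeneousComponent (k + 1 + 1) f)) =
        homogeneousComponent k (pderiv i (pderiv i f)) := by
      intro i
      rw [hc_pderiv, hc_pderiv]
    simp only [this]
    rw [← map_sum, hh, map_zero]

/-- The order of vanishing of `P` at `z`: the least degree of a nonzero homogeneous part of the
recentred polynomial. -/
noncomputable def ordAt (P : MvPolynomial (Fin 3) ℝ) (z : Fin 3 → ℝ) : ℕ :=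
  sInf {k : ℕ | homogeneousComponent k (sh z P) ≠ 0}

theorem ordAt_spec {P : MvPolynomial (Fin 3) ℝ} (h : P ≠ 0) (z : Fin 3 → ℝ) :
    homogeneousComponent (ordAt P z) (sh z P) ≠ 0 := by
  have hne : {k : ℕ | homogeneousComponent k (sh z P) ≠ 0}.Nonempty := by
    by_contra hcon
    rw [Set.not_nonempty_iff_eq_empty] at hcon
    apply sh_ne_zero (z := z) h
    rw [← sum_homogeneousComponent (sh z P)]
    apply Finset.sum_eq_zero
    intro i _
    by_contra hi
    have : i ∈ ({k : ℕ | homogeneousComponent k (sh z P) ≠ 0} : Set ℕ) := hi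
    rw [hcon] at this
    exact this
  exact Nat.sInf_mem hne

theorem ordAt_lt {P : MvPolynomial (Fin 3) ℝ} {z : Fin 3 → ℝ} {k : ℕ} (h : k < ordAt P z) :
    homogeneousComponent k (sh z P) = 0 := by
  by_contra hcon
  exact absurd (Nat.sInf_le (show k ∈ {k : ℕ | homogeneousComponent k (sh z P) ≠ 0} from hcon))
    (not_le.2 h)

theorem ordAt_pos {P : MvPolynomial (Fin 3) ℝ} (h : P ≠ 0) {z : Fin 3 → ℝ} (hz : eval z P = 0) :
    1 ≤ ordAt P z := by
  by_contra hcon
  have h0 : ordAt P z = 0 := by omega
  have h1 := ordAt_spec h z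
  rw [h0, homogeneousComponent_zero] at h1
  apply h1
  have h2 : eval 0 (sh z P) = 0 := by
    rw [sh_eval]
    simpa using hz
  rw [eval_zero, constantCoeff_eq] at h2
  rw [h2, map_zero]

theorem ordAt_le {P : MvPolynomial (Fin 3) ℝ} (h : P ≠ 0) (z : Fin 3 → ℝ) : ordAt P z ≤ (sh z P).totalDegree := by
  by_contra hcon
  exact ordAt_spec h z (homogeneousComponent_eq_zero _ _ (by omega))

theorem hc_euler (f : MvPolynomial (Fin 3) ℝ) (k : ℕ) :
    homogeneousComponent k (∑ i, X i * pderiv i f) = k • homogeneousComponent k f := by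
  induction f using MvPolynomial.induction_on' with
  | monomial d c =>
    have h1 := (isHomogeneous_monomial (σ := Fin 3) (d := d) c rfl).sum_X_mul_pderiv
    rw [h1, map_nsmul, homogeneousComponent_of_mem (isHomogeneous_monomial c rfl)]
    split_ifs with h
    · rw [h]
    · simp
  | add p q hp hq =>
    simp only [map_add, mul_add, Finset.sum_add_distrib] at hp hq ⊢
    rw [hp, hq, smul_add]

/-- Derivative of the leading part along the base point vanishes. -/
theorem lead_radial {P : MvPolynomial (Fin 3) ℝ} {ℓ : ℕ} (hP : P.IsHomogeneous ℓ)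
    (z : Fin 3 → ℝ) (k : ℕ) (hk : homogeneousComponent k (sh z P) = 0) :
    ∑ i, C (z i) * pderiv i (homogeneousComponent (k + 1) (sh z P)) = 0 := by
  have h1 : ∑ i, (X i + C (z i)) * pderiv i (sh z P) = C (ℓ : ℝ) * sh z P := by
    have h := congrArg (aeval (fun i => X i + C (z i) : Fin 3 → MvPolynomial (Fin 3) ℝ))
      hP.sum_X_mul_pderiv
    rw [map_sum] at h
    simp only [map_mul, aeval_X, nsmul_eq_mul, map_natCast] at h
    simp only [sh_pderiv]
    rw [map_natCast]
    exact h
  have h2 := congrArg (homogeneousComponent k) h1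
  rw [homogeneousComponent_C_mul, hk, mul_zero] at h2
  simp only [add_mul] at h2
  rw [Finset.sum_add_distrib, map_add, hc_euler, hk, smul_zero, zero_add, map_sum] at h2
  simp only [homogeneousComponent_C_mul] at h2
  simp only [hc_pderiv]
  exact h2

/-- Expansion of the polynomial in the distance from the base point. -/
theorem expand (P : MvPolynomial (Fin 3) ℝ) (z y : Fin 3 → ℝ) (r : ℝ) :
    eval (fun i => z i + r * y i) P =
      ∑ k ∈ Finset.range ((sh z P).totalDegree + 1),
        r ^ k * eval y (homogeneousComponent k (sh z P)) := by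
  have h1 : eval (fun i => z i + r * y i) P = eval (fun i => r * y i) (sh z P) := by
    rw [sh_eval]
    congr 2
    funext i
    ring
  rw [h1]
  conv_lhs => rw [← sum_homogeneousComponent (sh z P)]
  rw [map_sum]
  apply Finset.sum_congr rfl
  intro k _
  exact eval_scale (homogeneousComponent_isHomogeneous k _) r y

end Run7.h506
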