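import Mathlib
import Pool.Agent.Run7.h506.Shift
import Pool.Agent.Run7.h506.HitMeas

set_option autoImplicit false

namespace Run7.h506

open MvPolynomial

/-- Solutions of the harmonic oscillator equation. -/
theorem ode_cos {m : ℝ} (hm : m ≠ 0) {h h1 : ℝ → ℝ} (hd : ∀ t, HasDerivAt h (h1 t) t)
    (hd1 : ∀ t, HasDerivAt h1 (-(m ^ 2) * h t) t) (t : ℝ) :
    h t = h 0 * Real.cos (m * t) + (h1 0 / m) * Real.sin (m * t) := by
  have hc : ∀ t : ℝ, HasDerivAt (fun s => Real.cos (m * s)) (-Real.sin (m * t) * m) t := by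
    intro t
    have := ((hasDerivAt_id' t).const_mul m).cos
    rw [mul_one] at this
    exact this
  have hs : ∀ t : ℝ, HasDerivAt (fun s => Real.sin (m * s)) (Real.cos (m * t) * m) t := by
    intro t
    have := ((hasDerivAt_id' t).const_mul m).sin
    rw [mul_one] at this
    exact this
  have hA : ∀ s, HasDerivAt (fun s => h s * Real.cos (m * s) - (h1 s / m) * Real.sin (m * s))
      0 s := by
    intro s
    have h1' := ((hd s).mul (hc s)).sub (((hd1 s).div_const m).mul (hs s))
    refine h1'.congr_deriv ?_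
    field_simp
    ring
  have hB : ∀ s, HasDerivAt (fun s => h s * Real.sin (m * s) + (h1 s / m) * Real.cos (m * s))
      0 s := by
    intro s
    have h1' := ((hd s).mul (hs s)).add (((hd1 s).div_const m).mul (hc s))
    refine h1'.congr_deriv ?_
    field_simp
    ring
  have eA := is_const_of_deriv_eq_zero (fun s => (hA s).differentiableAt)
    (fun s => (hA s).deriv) t 0
  have eB := is_const_of_deriv_eq_zero (fun s => (hB s).differentiableAt)
    (fun s => (hB s).deriv) t 0
  simp only [mul_zero, Real.cos_zero, Real.sin_zero, mul_one, sub_zero, zero_add] at eA eB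
  have hsc := Real.sin_sq_add_cos_sq (m * t)
  rw [← eA, ← eB]
  have : h t = h t * (Real.sin (m * t) ^ 2 + Real.cos (m * t) ^ 2) := by rw [hsc, mul_one]
  conv_lhs => rw [this]
  ring

/-- Unit tangent direction with angle `t` in a frame. -/
noncomputable def ee (b : OrthonormalBasis (Fin 3) ℝ E3) (t : ℝ) : Fin 3 → ℝ :=
  fun i => Real.cos t * (b 0) i + Real.sin t * (b 1) i

/-- Rotated tangent direction. -/
noncomputable def et (b : OrthonormalBasis (Fin 3) ℝ E3) (t : ℝ) : Fin 3 → ℝ :=
  fun i => -Real.sin t * (b 0) i + Real.cos t * (b 1) i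

theorem ee_deriv (b : OrthonormalBasis (Fin 3) ℝ E3) (t : ℝ) (i : Fin 3) :
    HasDerivAt (fun s => ee b s i) (et b t i) t := by
  unfold ee et
  exact ((Real.hasDerivAt_cos t).mul_const _).add ((Real.hasDerivAt_sin t).mul_const _)

theorem et_deriv (b : OrthonormalBasis (Fin 3) ℝ E3) (t : ℝ) (i : Fin 3) :
    HasDerivAt (fun s => et b s i) (-(ee b t i)) t := by
  unfold ee et
  have := ((Real.hasDerivAt_sin t).neg.mul_const ((b 0) i)).add
    ((Real.hasDerivAt_cos t).mul_const ((b 1) i))
  refine this.congr_deriv ?_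
  ring

theorem ee_eval_deriv (b : OrthonormalBasis (Fin 3) ℝ E3) (Q : MvPolynomial (Fin 3) ℝ) (t : ℝ) :
    HasDerivAt (fun s => eval (ee b s) Q) (∑ i, et b t i * eval (ee b t) (pderiv i Q)) t :=
  hasDerivAt_eval Q (fun i => ee_deriv b t i)

theorem ee_eval_deriv2 (b : OrthonormalBasis (Fin 3) ℝ E3) (Q : MvPolynomial (Fin 3) ℝ) (t : ℝ) :
    HasDerivAt (fun s => ∑ i, et b s i * eval (ee b s) (pderiv i Q))
      (∑ i, (-(ee b t i) * eval (ee b t) (pderiv i Q) +
        et b t i * ∑ j, et b t j * eval (ee b t) (pderiv j (pderiv i Q)))) t := by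
  apply HasDerivAt.fun_sum
  intro i _
  exact (et_deriv b t i).mul (ee_eval_deriv b (pderiv i Q) t)

theorem frame_rot (b : OrthonormalBasis (Fin 3) ℝ E3) (t : ℝ) :
    ∃ b' : OrthonormalBasis (Fin 3) ℝ E3, b' 0 = Real.cos t • b 0 + Real.sin t • b 1 ∧
      b' 1 = (-Real.sin t) • b 0 + Real.cos t • b 1 ∧ b' 2 = b 2 := by
  have hsc := Real.sin_sq_add_cos_sq t
  have h02 : inner ℝ (b 0) (b 2) = 0 := b.orthonormal.2 (by decide)
  have h12 : inner ℝ (b 1) (b 2) = 0 := b.orthonormal.2 (by decide)
  have h01 : inner ℝ (b 0) (b 1) = 0 := b.orthonormal.2 (by decide)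
  have h10 : inner ℝ (b 1) (b 0) = 0 := b.orthonormal.2 (by decide)
  have h00 : inner ℝ (b 0) (b 0) = 1 := by simp
  have h11 : inner ℝ (b 1) (b 1) = 1 := by simp
  apply exists_basis3
  · apply norm_eq_one_of_sq
    have := norm_comb b (Real.cos t) (Real.sin t) 0
    rw [zero_smul, add_zero] at this
    rw [this]; linarith
  · apply norm_eq_one_of_sq
    have := norm_comb b (-Real.sin t) (Real.cos t) 0
    rw [zero_smul, add_zero] at this
    rw [this]; linarith
  · exact b.orthonormal.1 2
  · simp only [inner_add_left, inner_add_right, inner_smul_left, inner_smul_right,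
      RCLike.conj_to_real, h00, h11, h01, h10]
    ring
  · rw [inner_add_left, real_inner_smul_left, real_inner_smul_left, h02, h12]; ring
  · rw [inner_add_left, real_inner_smul_left, real_inner_smul_left, h02, h12]; ring

/-- The leading part satisfies the oscillator equation on the tangential circle. -/
theorem lead_ode {Q : MvPolynomial (Fin 3) ℝ} {m : ℕ} (hQ : Q.IsHomogeneous m)
    (hh : ∑ i : Fin 3, pderiv i (pderiv i Q) = 0) (hm : 1 ≤ m)
    (b : OrthonormalBasis (Fin 3) ℝ E3)
    (hz : ∑ i, C ((b 2) i) * pderiv i Q = 0) (t : ℝ) :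
    (∑ i, (-(ee b t i) * eval (ee b t) (pderiv i Q) +
        et b t i * ∑ j, et b t j * eval (ee b t) (pderiv j (pderiv i Q)))) =
      -((m : ℝ) ^ 2) * eval (ee b t) Q := by
  obtain ⟨b', hb0, hb1, hb2⟩ := frame_rot b t
  have hl := poly_laplace hQ hh hm b'
  have e0 : (fun i => (b' 0) i) = ee b t := by
    funext i
    rw [hb0]
    simp [ee]
  have e1 : ∀ i, (b' 1) i = et b t i := by
    intro i
    rw [hb1]
    simp [et]
  have e0' : ∀ i, (b' 0) i = ee b t i := fun i => congrFun e0 i
  rw [e0] at hl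
  simp only [e1, e0', hb2] at hl
  have hE := euler_eval hQ (ee b t)
  have hzz : ∑ i, (b 2) i * ∑ j, (b 2) j * eval (ee b t) (pderiv j (pderiv i Q)) = 0 := by
    have h1 : ∀ j : Fin 3, ∑ i, (b 2) i * eval (ee b t) (pderiv j (pderiv i Q)) = 0 := by
      intro j
      have h2 := congrArg (fun q => eval (ee b t) (pderiv j q)) hz
      simp only [map_sum, map_zero] at h2
      rw [← h2]
      apply Finset.sum_congr rfl
      intro i _
      rw [pderiv_mul, pderiv_C]
      simp
    have h3 : ∑ i, (b 2) i * ∑ j, (b 2) j * eval (ee b t) (pderiv j (pderiv i Q)) =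
        ∑ j, (b 2) j * ∑ i, (b 2) i * eval (ee b t) (pderiv j (pderiv i Q)) := by
      simp only [Finset.mul_sum]
      rw [Finset.sum_comm]
      apply Finset.sum_congr rfl
      intro j _
      apply Finset.sum_congr rfl
      intro i _
      ring
    rw [h3]
    simp [h1]
  rw [Finset.sum_add_distrib (f := fun i => -(ee b t i) * eval (ee b t) (pderiv i Q))
    (g := fun i => (b 2) i * ∑ j, (b 2) j * eval (ee b t) (pderiv j (pderiv i Q))), hzz,
    add_zero] at hl
  have h5 : ∑ i, -(ee b t i) * eval (ee b t) (pderiv i Q) = -((m : ℝ) * eval (ee b t) Q) := by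
    rw [← hE, ← Finset.sum_neg_distrib]
    apply Finset.sum_congr rfl
    intro i _
    ring
  rw [h5] at hl
  linarith

/-- A function annihilated by the derivative along `z` is invariant along `z`. -/
theorem shift_inv {Q : MvPolynomial (Fin 3) ℝ} {z : Fin 3 → ℝ}
    (hz : ∑ i, C (z i) * pderiv i Q = 0) (x : Fin 3 → ℝ) (s : ℝ) :
    eval (fun i => x i + s * z i) Q = eval x Q := by
  have hd : ∀ t : ℝ, HasDerivAt (fun t : ℝ => eval (fun i => x i + t * z i) Q) 0 t := by
    intro t
    have h1 := hasDerivAt_eval Q (g := fun t i => x i + t * z i) (g' := z) (t := t)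
      (fun i => (hasDerivAt_mul_const (x := t) (z i)).const_add (x i))
    refine h1.congr_deriv ?_
    have h2 := congrArg (eval (fun i => x i + t * z i)) hz
    simpa using h2
  have h := is_const_of_deriv_eq_zero (fun t => (hd t).differentiableAt)
    (fun t => (hd t).deriv) s 0
  simpa using h

theorem polar_exists (c0 c1 : ℝ) : ∃ r t : ℝ, 0 ≤ r ∧ c0 = r * Real.cos t ∧ c1 = r * Real.sin t := by
  refine ⟨‖(⟨c0, c1⟩ : ℂ)‖, Complex.arg ⟨c0, c1⟩, norm_nonneg _, ?_, ?_⟩
  · rw [Complex.norm_mul_cos_arg]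
  · rw [Complex.norm_mul_sin_arg]

theorem lead_frame {Q : MvPolynomial (Fin 3) ℝ} {m : ℕ} (hQ : Q.IsHomogeneous m)
    (hh : ∑ i : Fin 3, pderiv i (pderiv i Q) = 0) (hm : 1 ≤ m) (hQ0 : Q ≠ 0) (z : E3)
    (hzn : ‖z‖ = 1) (hz : ∑ i, C (z i) * pderiv i Q = 0) :
    ∃ b : OrthonormalBasis (Fin 3) ℝ E3, b 2 = z ∧ ∃ R : ℝ, 0 < R ∧
      ∀ t, eval (ee b t) Q = R * Real.cos (m * t) := by
  obtain ⟨p0, hp0, hp0c⟩ := exists_unit_orth z
  obtain ⟨b, hb0, hb2⟩ := exists_basis_ext p0 z hp0 hzn hp0c
  have hmR : (m : ℝ) ≠ 0 := by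
    have : (1 : ℝ) ≤ m := by exact_mod_cast hm
    linarith
  have hz' : ∑ i, C ((b 2) i) * pderiv i Q = 0 := by rw [hb2]; exact hz
  set A := eval (ee b 0) Q with hA
  set B := (∑ i, et b 0 i * eval (ee b 0) (pderiv i Q)) / m with hB
  have hsol : ∀ t, eval (ee b t) Q = A * Real.cos (m * t) + B * Real.sin (m * t) := by
    intro t
    exact ode_cos hmR (h := fun t => eval (ee b t) Q) (ee_eval_deriv b Q) (fun t => by
      have := ee_eval_deriv2 b Q t
      rw [lead_ode hQ hh hm b hz' t] at this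
      exact this) t
  obtain ⟨R, β, hR, hAR, hBR⟩ := polar_exists A B
  have hRpos : 0 < R := by
    rcases hR.lt_or_eq with h | h
    · exact h
    · exfalso
      apply hQ0
      apply MvPolynomial.funext
      intro x
      rw [map_zero]
      have hzero : ∀ t, eval (ee b t) Q = 0 := by
        intro t
        rw [hsol t, hAR, hBR, ← h]
        ring
      set y : E3 := WithLp.toLp 2 x with hy
      have hsum := b.sum_repr' y
      rw [Fin.sum_univ_three] at hsum
      set c0 := inner ℝ (b 0) y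
      set c1 := inner ℝ (b 1) y
      set c2 := inner ℝ (b 2) y
      obtain ⟨r, t, hr, h0, h1⟩ := polar_exists c0 c1
      have hx : x = fun i => (r * ee b t i) + c2 * z i := by
        funext i
        have h2 : x i = y i := rfl
        rw [h2, ← hsum, h0, h1, hb2]
        simp [ee]
        ring
      rw [hx, shift_inv hz, eval_scale hQ, hzero, mul_zero]
  obtain ⟨b', hb'0, hb'1, hb'2⟩ := frame_rot b (β / m)
  refine ⟨b', by rw [hb'2, hb2], R, hRpos, ?_⟩
  intro t
  have he : ee b' t = ee b (t + β / m) := by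
    funext i
    simp only [ee, hb'0, hb'1]
    rw [Real.cos_add, Real.sin_add]
    simp
    ring
  rw [he, hsol, hAR, hBR]
  have h1 : (m : ℝ) * (t + β / m) = m * t + β := by
    field_simp
  rw [h1, Real.cos_add, Real.sin_add]
  have h2 := Real.sin_sq_add_cos_sq β
  have h3 : R * Real.cos β * (Real.cos (m * t) * Real.cos β - Real.sin (m * t) * Real.sin β) +
      R * Real.sin β * (Real.sin (m * t) * Real.cos β + Real.cos (m * t) * Real.sin β) =
      R * Real.cos (m * t) * (Real.sin β ^ 2 + Real.cos β ^ 2) := by ring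
  rw [h3, h2, mul_one]

end Run7.h506
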