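import Mathlib
import Pool.Agent.Run7.h506.Lead

set_option autoImplicit false

namespace Run7.h506

open MvPolynomial Set Topology

theorem ee_periodic (b : OrthonormalBasis (Fin 3) ℝ E3) (t : ℝ) :
    ee b (t + 2 * Real.pi) = ee b t := by
  funext i
  simp [ee]

theorem et_periodic (b : OrthonormalBasis (Fin 3) ℝ E3) (t : ℝ) :
    et b (t + 2 * Real.pi) = et b t := by
  funext i
  simp [et]

theorem ee_cont (b : OrthonormalBasis (Fin 3) ℝ E3) : Continuous (ee b) := by
  unfold ee
  fun_prop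

theorem et_cont (b : OrthonormalBasis (Fin 3) ℝ E3) : Continuous (et b) := by
  unfold et
  fun_prop

/-- The local expansion divided by the leading power. -/
noncomputable def FF (P : MvPolynomial (Fin 3) ℝ) (z : Fin 3 → ℝ) (m : ℕ)
    (b : OrthonormalBasis (Fin 3) ℝ E3) (r t : ℝ) : ℝ :=
  ∑ k ∈ Finset.range ((sh z P).totalDegree + 1),
    r ^ (k - m) * eval (ee b t) (homogeneousComponent k (sh z P))

/-- Its angular derivative. -/
noncomputable def FF' (P : MvPolynomial (Fin 3) ℝ) (z : Fin 3 → ℝ) (m : ℕ)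
    (b : OrthonormalBasis (Fin 3) ℝ E3) (r t : ℝ) : ℝ :=
  ∑ k ∈ Finset.range ((sh z P).totalDegree + 1),
    r ^ (k - m) * ∑ i, et b t i * eval (ee b t) (pderiv i (homogeneousComponent k (sh z P)))

theorem FF_deriv (P : MvPolynomial (Fin 3) ℝ) (z : Fin 3 → ℝ) (m : ℕ)
    (b : OrthonormalBasis (Fin 3) ℝ E3) (r t : ℝ) :
    HasDerivAt (FF P z m b r) (FF' P z m b r t) t := by
  unfold FF FF'
  apply HasDerivAt.fun_sum
  intro k _
  exact (ee_eval_deriv b _ t).const_mul _

theorem FF_cont (P : MvPolynomial (Fin 3) ℝ) (z : Fin 3 → ℝ) (m : ℕ)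
    (b : OrthonormalBasis (Fin 3) ℝ E3) :
    Continuous (fun x : ℝ × ℝ => FF P z m b x.1 x.2) := by
  unfold FF
  apply continuous_finsetSum
  intro k _
  apply Continuous.mul (by fun_prop)
  exact (MvPolynomial.continuous_eval _).comp ((ee_cont b).comp continuous_snd)

theorem FF'_cont (P : MvPolynomial (Fin 3) ℝ) (z : Fin 3 → ℝ) (m : ℕ)
    (b : OrthonormalBasis (Fin 3) ℝ E3) :
    Continuous (fun x : ℝ × ℝ => FF' P z m b x.1 x.2) := by
  unfold FF'
  apply continuous_finsetSum
  intro k _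
  apply Continuous.mul (by fun_prop)
  apply continuous_finsetSum
  intro i _
  apply Continuous.mul
  · exact (continuous_apply i).comp ((et_cont b).comp continuous_snd)
  · exact (MvPolynomial.continuous_eval _).comp ((ee_cont b).comp continuous_snd)

theorem FF_eval {P : MvPolynomial (Fin 3) ℝ} (z : Fin 3 → ℝ)
    (b : OrthonormalBasis (Fin 3) ℝ E3) (r t : ℝ) :
    eval (fun i => z i + r * ee b t i) P =
      r ^ (ordAt P z) * FF P z (ordAt P z) b r t := by
  rw [expand, FF, Finset.mul_sum]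
  apply Finset.sum_congr rfl
  intro k _
  by_cases hk : k < ordAt P z
  · rw [ordAt_lt hk]
    simp
  · rw [← mul_assoc, ← pow_add]
    congr 2
    omega

theorem FF_zero {P : MvPolynomial (Fin 3) ℝ} (h : P ≠ 0) (z : Fin 3 → ℝ)
    (b : OrthonormalBasis (Fin 3) ℝ E3) (t : ℝ) :
    FF P z (ordAt P z) b 0 t =
      eval (ee b t) (homogeneousComponent (ordAt P z) (sh z P)) := by
  unfold FF
  rw [Finset.sum_eq_single (ordAt P z)]
  · simp
  · intro k _ hk
    by_cases hk' : k < ordAt P z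
    · rw [ordAt_lt hk']
      simp
    · have : k - ordAt P z ≠ 0 := by omega
      rw [zero_pow this, zero_mul]
  · intro hk
    exfalso
    apply hk
    rw [Finset.mem_range]
    have := ordAt_le h z
    omega

theorem FF_periodic (P : MvPolynomial (Fin 3) ℝ) (z : Fin 3 → ℝ) (m : ℕ)
    (b : OrthonormalBasis (Fin 3) ℝ E3) (r t : ℝ) :
    FF P z m b r (t + 2 * Real.pi) = FF P z m b r t := by
  unfold FF
  simp only [ee_periodic]

theorem FF'_periodic (P : MvPolynomial (Fin 3) ℝ) (z : Fin 3 → ℝ) (m : ℕ)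
    (b : OrthonormalBasis (Fin 3) ℝ E3) (r t : ℝ) :
    FF' P z m b r (t + 2 * Real.pi) = FF' P z m b r t := by
  unfold FF'
  simp only [ee_periodic, et_periodic]

/-- The local polar description of a homogeneous harmonic polynomial near one of its zeros. -/
theorem local_pack {P : MvPolynomial (Fin 3) ℝ} {ℓ : ℕ} (hP : P.IsHomogeneous ℓ)
    (hh : ∑ i : Fin 3, pderiv i (pderiv i P) = 0) (hP0 : P ≠ 0) (z : S2) (hz : ev P z = 0) :
    ∃ b : OrthonormalBasis (Fin 3) ℝ E3, b 2 = (z : E3) ∧ ∃ R ρ0 : ℝ, 0 < R ∧ 0 < ρ0 ∧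
      ∀ r, 0 ≤ r → r ≤ ρ0 → ∀ t,
        |FF P (fun i => (z : E3) i) (ordAt P (fun i => (z : E3) i)) b r t -
          R * Real.cos ((ordAt P (fun i => (z : E3) i) : ℝ) * t)| < R / 4 ∧
        |FF' P (fun i => (z : E3) i) (ordAt P (fun i => (z : E3) i)) b r t +
          (ordAt P (fun i => (z : E3) i) : ℝ) * R *
            Real.sin ((ordAt P (fun i => (z : E3) i) : ℝ) * t)| <
          (ordAt P (fun i => (z : E3) i) : ℝ) * R / 4 := by
  set z' : Fin 3 → ℝ := fun i => (z : E3) i with hz'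
  have hzn : ‖(z : E3)‖ = 1 := mem_sphere_zero_iff_norm.1 z.2
  set m := ordAt P z' with hm
  have hm1 : 1 ≤ m := ordAt_pos hP0 hz
  have hmR : (1 : ℝ) ≤ m := by exact_mod_cast hm1
  set Q := homogeneousComponent m (sh z' P) with hQ
  have hQh : Q.IsHomogeneous m := homogeneousComponent_isHomogeneous _ _
  have hQharm := hc_harm (sh_harm (z := z') hh) m
  have hQ0 : Q ≠ 0 := ordAt_spec hP0 z'
  have hrad : ∑ i, C ((z : E3) i) * pderiv i Q = 0 := by
    have h1 := lead_radial hP z' (m - 1) (ordAt_lt (by omega))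
    have h2 : m - 1 + 1 = m := by omega
    rw [h2] at h1
    exact h1
  obtain ⟨b, hb2, R, hR, hsol⟩ := lead_frame hQh hQharm hm1 hQ0 (z : E3) hzn hrad
  have hF0 : ∀ t, FF P z' m b 0 t = R * Real.cos (m * t) := by
    intro t
    rw [hm, FF_zero hP0, ← hm, ← hQ]
    exact hsol t
  have hF0' : ∀ t, FF' P z' m b 0 t = -(m * R * Real.sin (m * t)) := by
    intro t
    have h1 := FF_deriv P z' m b 0 t
    have h2 : HasDerivAt (fun t => R * Real.cos (m * t)) (-(m * R * Real.sin (m * t))) t := by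
      have h3 := (((hasDerivAt_id' t).const_mul (m : ℝ)).cos).const_mul R
      refine h3.congr_deriv ?_
      ring
    have h3 : FF P z' m b 0 = fun t => R * Real.cos (m * t) := funext hF0
    rw [h3] at h1
    exact h1.unique h2
  set n : Set (ℝ × ℝ) := {x | |FF P z' m b x.1 x.2 - R * Real.cos (m * x.2)| < R / 4 ∧
    |FF' P z' m b x.1 x.2 + m * R * Real.sin (m * x.2)| < m * R / 4} with hn
  have hno : IsOpen n := by
    have h1 : IsOpen {x : ℝ × ℝ | |FF P z' m b x.1 x.2 - R * Real.cos (m * x.2)| < R / 4} := by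
      apply isOpen_lt _ continuous_const
      exact ((FF_cont P z' m b).sub (by fun_prop)).abs
    have h2 : IsOpen {x : ℝ × ℝ |
        |FF' P z' m b x.1 x.2 + m * R * Real.sin (m * x.2)| < m * R / 4} := by
      apply isOpen_lt _ continuous_const
      exact ((FF'_cont P z' m b).add (by fun_prop)).abs
    exact h1.inter h2
  have hsub : ({0} : Set ℝ) ×ˢ (Icc (0 : ℝ) (2 * Real.pi)) ⊆ n := by
    rintro ⟨r, t⟩ ⟨hr, _⟩
    rw [mem_singleton_iff] at hr
    simp only at hr
    subst hr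
    constructor
    · simp only
      rw [hF0, sub_self, abs_zero]
      positivity
    · simp only
      rw [hF0', neg_add_cancel, abs_zero]
      positivity
  obtain ⟨u, v, hu, hv, hu0, hv0, huv⟩ := generalized_tube_lemma isCompact_singleton
    isCompact_Icc hno hsub
  obtain ⟨ε, hε, hball⟩ := Metric.isOpen_iff.1 hu 0 (hu0 rfl)
  refine ⟨b, hb2, R, ε / 2, hR, by positivity, ?_⟩
  intro r hr0 hr1 t
  have hru : r ∈ u := by
    apply hball
    rw [Metric.mem_ball, Real.dist_eq, sub_zero, abs_of_nonneg hr0]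
    linarith
  -- periodicity
  have hper : Function.Periodic (fun t => (|FF P z' m b r t - R * Real.cos (m * t)|,
      |FF' P z' m b r t + m * R * Real.sin (m * t)|)) (2 * Real.pi) := by
    intro t
    simp only
    rw [FF_periodic, FF'_periodic, mul_add, Real.cos_add_nat_mul_two_pi,
      Real.sin_add_nat_mul_two_pi]
  obtain ⟨y, hy, hyt⟩ := hper.exists_mem_Ico₀ (by positivity) t
  have hmem : ((r, y) : ℝ × ℝ) ∈ n := huv ⟨hru, hv0 ⟨hy.1, hy.2.le⟩⟩
  rw [Prod.mk.injEq] at hyt
  rw [hyt.1, hyt.2]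
  exact hmem

end Run7.h506
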