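import Mathlib

set_option autoImplicit false

namespace Run7.h506

open Set

/-- A function that is close, together with its derivative, to a multiple of the cosine. -/
def Gd (R : ℝ) (g g' : ℝ → ℝ) : Prop :=
  (∀ t, HasDerivAt g (g' t) t) ∧ (∀ t, |g t - R * Real.cos t| < R / 4) ∧
    (∀ t, |g' t + R * Real.sin t| < R / 4)

theorem Gd.pos {R : ℝ} {g g' : ℝ → ℝ} (h : Gd R g g') : 0 < R := by
  have := h.2.1 0
  have h2 := abs_nonneg (g 0 - R * Real.cos 0)
  linarith

theorem Gd.reflect {R : ℝ} {g g' : ℝ → ℝ} (h : Gd R g g') :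
    Gd R (fun t => g (-t)) (fun t => -g' (-t)) := by
  refine ⟨?_, ?_, ?_⟩
  · intro t
    have h1 := (h.1 (-t)).comp t (hasDerivAt_neg t)
    refine h1.congr_deriv ?_
    ring
  · intro t
    have h1 := h.2.1 (-t)
    rw [Real.cos_neg] at h1
    exact h1
  · intro t
    have h1 := h.2.2 (-t)
    rw [Real.sin_neg] at h1
    rw [← abs_neg]
    convert h1 using 2
    ring

theorem Gd.shift {R : ℝ} {g g' : ℝ → ℝ} (h : Gd R g g') (k : ℤ) :
    Gd R (fun t => g (t + k * (2 * Real.pi))) (fun t => g' (t + k * (2 * Real.pi))) := by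
  refine ⟨?_, ?_, ?_⟩
  · intro t
    exact (h.1 (t + k * (2 * Real.pi))).comp_add_const t _
  · intro t
    have h1 := h.2.1 (t + k * (2 * Real.pi))
    rw [Real.cos_add_int_mul_two_pi] at h1
    exact h1
  · intro t
    have h1 := h.2.2 (t + k * (2 * Real.pi))
    rw [Real.sin_add_int_mul_two_pi] at h1
    exact h1

theorem Gd.flip {R : ℝ} {g g' : ℝ → ℝ} (h : Gd R g g') :
    Gd R (fun t => -g (t + Real.pi)) (fun t => -g' (t + Real.pi)) := by
  refine ⟨?_, ?_, ?_⟩
  · intro t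
    exact ((h.1 (t + Real.pi)).comp_add_const t _).neg
  · intro t
    have h1 := h.2.1 (t + Real.pi)
    rw [Real.cos_add_pi] at h1
    rw [← abs_neg]
    convert h1 using 2
    ring
  · intro t
    have h1 := h.2.2 (t + Real.pi)
    rw [Real.sin_add_pi] at h1
    rw [← abs_neg]
    convert h1 using 2
    ring

theorem cos_ge_half {t : ℝ} (h1 : -(Real.pi / 3) ≤ t) (h2 : t ≤ Real.pi / 3) :
    1 / 2 ≤ Real.cos t := by
  have hpi := Real.pi_pos
  rw [← Real.cos_pi_div_three, ← Real.cos_abs t]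
  apply Real.cos_le_cos_of_nonneg_of_le_pi (abs_nonneg t) (by linarith)
  exact abs_le.2 ⟨h1, h2⟩

theorem cos_le_neg_half {t : ℝ} (h1 : 2 * Real.pi / 3 ≤ t) (h2 : t ≤ 4 * Real.pi / 3) :
    Real.cos t ≤ -(1 / 2) := by
  have := cos_ge_half (t := t - Real.pi) (by linarith) (by linarith)
  rw [Real.cos_sub_pi] at this
  linarith

theorem sin_ge_half {t : ℝ} (h1 : Real.pi / 3 ≤ t) (h2 : t ≤ 2 * Real.pi / 3) :
    1 / 2 ≤ Real.sin t := by
  have hpi := Real.pi_pos
  have := cos_ge_half (t := t - Real.pi / 2) (by linarith) (by linarith)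
  rw [Real.cos_sub_pi_div_two] at this
  exact this

theorem Gd.pos_of {R : ℝ} {g g' : ℝ → ℝ} (h : Gd R g g') {t : ℝ} (ht : 1 / 2 ≤ Real.cos t) :
    0 < g t := by
  have h1 := (abs_lt.1 (h.2.1 t)).1
  have hR := h.pos
  nlinarith

theorem Gd.neg_of {R : ℝ} {g g' : ℝ → ℝ} (h : Gd R g g') {t : ℝ} (ht : Real.cos t ≤ -(1 / 2)) :
    g t < 0 := by
  have h1 := (abs_lt.1 (h.2.1 t)).2
  have hR := h.pos
  nlinarith

theorem Gd.anti {R : ℝ} {g g' : ℝ → ℝ} (h : Gd R g g') :
    StrictAntiOn g (Icc (Real.pi / 3) (2 * Real.pi / 3)) := by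
  apply strictAntiOn_of_deriv_neg (convex_Icc _ _)
  · intro s _
    exact (h.1 s).continuousAt.continuousWithinAt
  · intro s hs
    rw [interior_Icc] at hs
    rw [(h.1 s).deriv]
    have h1 := (abs_lt.1 (h.2.2 s)).2
    have hR := h.pos
    have h2 := sin_ge_half hs.1.le hs.2.le
    nlinarith

theorem Gd.mono {R : ℝ} {g g' : ℝ → ℝ} (h : Gd R g g') :
    StrictMonoOn g (Icc (4 * Real.pi / 3) (5 * Real.pi / 3)) := by
  intro s hs t ht hst
  have h1 := (h.reflect.shift (-1)).anti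
    (show -t + 2 * Real.pi ∈ Icc (Real.pi / 3) (2 * Real.pi / 3) from
      ⟨by linarith [ht.2], by linarith [ht.1]⟩)
    (show -s + 2 * Real.pi ∈ Icc (Real.pi / 3) (2 * Real.pi / 3) from
      ⟨by linarith [hs.2], by linarith [hs.1]⟩)
    (by linarith)
  have e1 : -(-s + 2 * Real.pi + ((-1 : ℤ) : ℝ) * (2 * Real.pi)) = s := by push_cast; ring
  have e2 : -(-t + 2 * Real.pi + ((-1 : ℤ) : ℝ) * (2 * Real.pi)) = t := by push_cast; ring
  rw [e1, e2] at h1
  exact h1

/-- Moving towards the centre of a positive sector keeps the sign (right half). -/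
theorem Gd.sector_right {R : ℝ} {g g' : ℝ → ℝ} (h : Gd R g g') {α : ℝ}
    (hα1 : α ≤ Real.pi) (hg : 0 < g α) {β : ℝ} (hβ0 : 0 ≤ β) (hβ : β ≤ α) :
    0 < g β := by
  have hpi := Real.pi_pos
  have hα : α < 2 * Real.pi / 3 := by
    by_contra hcon
    push Not at hcon
    have := h.neg_of (cos_le_neg_half hcon (by linarith))
    linarith
  by_cases hb : β ≤ Real.pi / 3
  · exact h.pos_of (cos_ge_half (by linarith) hb)
  · push Not at hb
    rcases hβ.eq_or_lt with he | hl
    · rw [he]; exact hg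
    · have := h.anti ⟨hb.le, by linarith⟩ ⟨by linarith, hα.le⟩ hl
      linarith

/-- Moving towards the centre of a positive sector keeps the sign. -/
theorem Gd.sector {R : ℝ} {g g' : ℝ → ℝ} (h : Gd R g g') {α : ℝ}
    (hα0 : -Real.pi ≤ α) (hα1 : α ≤ Real.pi) (hg : 0 < g α) {θ : ℝ} (h0 : 0 ≤ θ) (h1 : θ ≤ 1) :
    0 < g (θ * α) := by
  by_cases hs : 0 ≤ α
  · exact h.sector_right hα1 hg (mul_nonneg h0 hs) (by nlinarith)
  · push Not at hs
    have hg' : 0 < (fun t => g (-t)) (-α) := by simpa using hg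
    have := h.reflect.sector_right (α := -α) (by linarith) hg' (β := θ * (-α))
      (by nlinarith) (by nlinarith)
    have e : -(θ * -α) = θ * α := by ring
    rwa [e] at this

/-- Between consecutive zeros the function is negative (model interval). -/
theorem Gd.between {R : ℝ} {g g' : ℝ → ℝ} (h : Gd R g g') {a b : ℝ}
    (ha : a ∈ Icc (Real.pi / 3) (2 * Real.pi / 3)) (hb : b ∈ Icc (4 * Real.pi / 3) (5 * Real.pi / 3))
    (hga : g a = 0) (hgb : g b = 0) {t : ℝ} (h1 : a < t) (h2 : t < b) : g t < 0 := by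
  have hpi := Real.pi_pos
  by_cases c1 : t ≤ 2 * Real.pi / 3
  · have := h.anti ha ⟨by linarith [ha.1], c1⟩ h1
    linarith
  · push Not at c1
    by_cases c2 : t ≤ 4 * Real.pi / 3
    · exact h.neg_of (cos_le_neg_half c1.le c2)
    · push Not at c2
      have := h.mono ⟨c2.le, by linarith [hb.2]⟩ hb h2
      linarith

theorem Gd.zero_exists {R : ℝ} {g g' : ℝ → ℝ} (h : Gd R g g') :
    ∃ a ∈ Icc (Real.pi / 3) (2 * Real.pi / 3), g a = 0 := by
  have hpi := Real.pi_pos
  have hc : ContinuousOn g (Icc (Real.pi / 3) (2 * Real.pi / 3)) :=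
    fun s _ => (h.1 s).continuousAt.continuousWithinAt
  have h1 : 0 < g (Real.pi / 3) := h.pos_of (cos_ge_half (by linarith) le_rfl)
  have h2 : g (2 * Real.pi / 3) < 0 := h.neg_of (cos_le_neg_half le_rfl (by linarith))
  obtain ⟨a, ha, hga⟩ := intermediate_value_Icc' (by linarith) hc ⟨h2.le, h1.le⟩
  exact ⟨a, ha, hga⟩

/-- Shift by a multiple of `π` with the corresponding sign. -/
theorem Gd.shiftN {R : ℝ} {g g' : ℝ → ℝ} (h : Gd R g g') (j : ℕ) :
    Gd R (fun t => (-1) ^ j * g (t + j * Real.pi)) (fun t => (-1) ^ j * g' (t + j * Real.pi)) := by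
  induction j with
  | zero => simpa using h
  | succ j ih =>
    have h1 := ih.flip
    have e1 : (fun t => (-1 : ℝ) ^ (j + 1) * g (t + ((j + 1 : ℕ) : ℝ) * Real.pi)) =
        (fun t => -((-1 : ℝ) ^ j * g (t + Real.pi + j * Real.pi))) := by
      funext t
      have : t + ((j + 1 : ℕ) : ℝ) * Real.pi = t + Real.pi + j * Real.pi := by
        push_cast; ring
      rw [this, pow_succ]
      ring
    have e2 : (fun t => (-1 : ℝ) ^ (j + 1) * g' (t + ((j + 1 : ℕ) : ℝ) * Real.pi)) =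
        (fun t => -((-1 : ℝ) ^ j * g' (t + Real.pi + j * Real.pi))) := by
      funext t
      have : t + ((j + 1 : ℕ) : ℝ) * Real.pi = t + Real.pi + j * Real.pi := by
        push_cast; ring
      rw [this, pow_succ]
      ring
    rw [e1, e2]
    exact h1

/-- The chain of zeros and the sign pattern over one full turn. -/
theorem Gd.chain {R : ℝ} {g g' : ℝ → ℝ} (h : Gd R g g') (m : ℕ) (hm : 1 ≤ m)
    (hper : ∀ t, g (t + m * (2 * Real.pi)) = g t) :
    ∃ τ : ℕ → ℝ, τ (2 * m) = τ 0 + m * (2 * Real.pi) ∧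
      (∀ j ≤ 2 * m, g (τ j) = 0 ∧ j * Real.pi + Real.pi / 3 ≤ τ j ∧
        τ j ≤ j * Real.pi + 2 * Real.pi / 3) ∧
      (∀ j < 2 * m, ∀ t, τ j < t → t < τ (j + 1) →
        (Even j → g t < 0) ∧ (¬ Even j → 0 < g t)) := by
  have hpi := Real.pi_pos
  have hz : ∀ j : ℕ, ∃ a, g a = 0 ∧ j * Real.pi + Real.pi / 3 ≤ a ∧
      a ≤ j * Real.pi + 2 * Real.pi / 3 := by
    intro j
    obtain ⟨a, ha, hga⟩ := (h.shiftN j).zero_exists
    refine ⟨a + j * Real.pi, ?_, by linarith [ha.1], by linarith [ha.2]⟩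
    have : ((-1 : ℝ) ^ j) ≠ 0 := by
      apply pow_ne_zero; norm_num
    exact (mul_eq_zero.1 hga).resolve_left this
  choose a ha1 ha2 ha3 using hz
  set τ : ℕ → ℝ := fun j => if j = 2 * m then a 0 + m * (2 * Real.pi) else a j with hτ
  have hτ0 : τ 0 = a 0 := by
    simp only [hτ]
    rw [if_neg (by omega)]
  have hτz : ∀ j ≤ 2 * m, g (τ j) = 0 ∧ j * Real.pi + Real.pi / 3 ≤ τ j ∧
        τ j ≤ j * Real.pi + 2 * Real.pi / 3 := by
    intro j _
    by_cases hj : j = 2 * m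
    · simp only [hτ, if_pos hj]
      refine ⟨by rw [hper, ha1], ?_, ?_⟩
      · have := ha2 0
        rw [hj]; push_cast at this ⊢; linarith
      · have := ha3 0
        rw [hj]; push_cast at this ⊢; linarith
    · simp only [hτ, if_neg hj]
      exact ⟨ha1 j, ha2 j, ha3 j⟩
  refine ⟨τ, by rw [hτ0]; simp [hτ], hτz, ?_⟩
  intro j hj t h1 h2
  obtain ⟨z1, z2, z3⟩ := hτz j hj.le
  obtain ⟨w1, w2, w3⟩ := hτz (j + 1) hj
  push_cast at w2 w3
  have hb := (h.shiftN j).between (a := τ j - j * Real.pi) (b := τ (j + 1) - j * Real.pi)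
    ⟨by linarith, by linarith⟩ ⟨by linarith, by linarith⟩
    (by simp [z1]) (by simp [w1]) (t := t - j * Real.pi) (by linarith) (by linarith)
  simp only [sub_add_cancel] at hb
  constructor
  · intro he
    rw [he.neg_one_pow, one_mul] at hb
    exact hb
  · intro he
    rw [Nat.not_even_iff_odd] at he
    rw [he.neg_one_pow] at hb
    linarith

end Run7.h506
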