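import Mathlib
import Pool.Agent.Run7.h506.Polar
import Pool.Agent.Run7.h506.Sector
import Pool.Agent.Run7.h506.Local

set_option autoImplicit false

namespace Run7.h506

open Set Topology MvPolynomial

/-- Spherical coordinates about the third vector of a frame. -/
noncomputable def sp (b : OrthonormalBasis (Fin 3) ℝ E3) (ψ φ : ℝ) : S2 :=
  ⟨(Real.sin ψ * Real.cos φ) • b 0 + (Real.sin ψ * Real.sin φ) • b 1 + Real.cos ψ • b 2, by
    rw [mem_sphere_zero_iff_norm]
    apply norm_eq_one_of_sq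
    rw [norm_comb b]
    have h1 := Real.sin_sq_add_cos_sq ψ
    have h2 := Real.sin_sq_add_cos_sq φ
    have : (Real.sin ψ * Real.cos φ) ^ 2 + (Real.sin ψ * Real.sin φ) ^ 2
        = Real.sin ψ ^ 2 * (Real.sin φ ^ 2 + Real.cos φ ^ 2) := by ring
    rw [this, h2]
    linarith⟩

theorem sp_cont (b : OrthonormalBasis (Fin 3) ℝ E3) :
    Continuous (fun x : ℝ × ℝ => sp b x.1 x.2) := by
  unfold sp
  apply Continuous.subtype_mk
  fun_prop

theorem sp_per (b : OrthonormalBasis (Fin 3) ℝ E3) (ψ φ : ℝ) (k : ℤ) :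
    sp b ψ (φ + k * (2 * Real.pi)) = sp b ψ φ := by
  apply Subtype.ext
  simp only [sp, Real.cos_add_int_mul_two_pi, Real.sin_add_int_mul_two_pi]

theorem sp_inner (b : OrthonormalBasis (Fin 3) ℝ E3) (ψ φ : ℝ) :
    inner ℝ (b 2) (sp b ψ φ : E3) = Real.cos ψ := by
  have h22 : inner ℝ (b 2) (b 2) = 1 := by simp
  have h20 : inner ℝ (b 2) (b 0) = 0 := b.orthonormal.2 (by decide)
  have h21 : inner ℝ (b 2) (b 1) = 0 := b.orthonormal.2 (by decide)
  simp only [sp, inner_add_right, inner_smul_right, h22, h20, h21]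
  ring

theorem sp_zero {b : OrthonormalBasis (Fin 3) ℝ E3} {z : S2} (hb : b 2 = (z : E3)) (φ : ℝ) :
    sp b 0 φ = z := by
  apply Subtype.ext
  simp [sp, hb]

/-- Every point is given by spherical coordinates. -/
theorem sp_surj (b : OrthonormalBasis (Fin 3) ℝ E3) (x : S2) :
    ∃ φ : ℝ, sp b (Real.arccos (inner ℝ (b 2) (x : E3))) φ = x := by
  have hsum := b.sum_repr' (x : E3)
  rw [Fin.sum_univ_three] at hsum
  set c0 := inner ℝ (b 0) (x : E3)
  set c1 := inner ℝ (b 1) (x : E3)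
  set c2 := inner ℝ (b 2) (x : E3) with hc2
  have hxn : ‖(x : E3)‖ = 1 := mem_sphere_zero_iff_norm.1 x.2
  have hn := norm_comb b c0 c1 c2
  rw [hsum, hxn] at hn
  have hbd : -1 ≤ c2 ∧ c2 ≤ 1 := by
    constructor <;> nlinarith [sq_nonneg c0, sq_nonneg c1]
  obtain ⟨r, t, hr, h0, h1⟩ := polar_exists c0 c1
  have hsc := Real.sin_sq_add_cos_sq t
  have hr2 : r ^ 2 = 1 - c2 ^ 2 := by
    rw [h0, h1] at hn
    have : (r * Real.cos t) ^ 2 + (r * Real.sin t) ^ 2 =
      r ^ 2 * (Real.sin t ^ 2 + Real.cos t ^ 2) := by ring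
    rw [this, hsc] at hn
    linarith
  have hrs : r = Real.sqrt (1 - c2 ^ 2) := by
    rw [← hr2, Real.sqrt_sq hr]
  refine ⟨t, ?_⟩
  apply Subtype.ext
  simp only [sp]
  rw [Real.cos_arccos hbd.1 hbd.2, Real.sin_arccos, ← hrs, ← h0, ← h1]
  exact hsum

theorem ev_sp {P : MvPolynomial (Fin 3) ℝ} {ℓ : ℕ} (hP : P.IsHomogeneous ℓ) {z : S2}
    {b : OrthonormalBasis (Fin 3) ℝ E3} (hb : b 2 = (z : E3)) {ψ : ℝ} (hψ : Real.cos ψ ≠ 0)
    (φ : ℝ) :
    ev P (sp b ψ φ) = Real.cos ψ ^ ℓ *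
      (Real.tan ψ ^ (ordAt P (fun i => (z : E3) i)) *
        FF P (fun i => (z : E3) i) (ordAt P (fun i => (z : E3) i)) b (Real.tan ψ) φ) := by
  rw [← FF_eval, ← eval_scale hP]
  unfold ev
  congr 2
  funext i
  simp only [sp, ee, hb]
  rw [Real.tan_eq_sin_div_cos]
  simp
  field_simp
  ring

/-- Circles of constant distance to the pole lift to closed paths. -/
theorem sp_null (b : OrthonormalBasis (Fin 3) ℝ E3) (ψ1 : ℝ) (m : ℕ) (hm : 1 ≤ m) (a : ℝ)
    (h : S2 → Circle) (hh : Continuous h) :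
    ∃ θ : ℝ → ℝ, Continuous θ ∧ (∀ t, Circle.exp (θ t) = h (sp b ψ1 (t / m))) ∧
      θ a = θ (a + m * (2 * Real.pi)) := by
  have hmR : (m : ℝ) ≠ 0 := by
    have : (1 : ℝ) ≤ m := by exact_mod_cast hm
    linarith
  have hc : Continuous (fun x : ℝ × ℝ => h (sp b x.1 (x.2 / m))) := by
    apply hh.comp
    exact (sp_cont b).comp (by fun_prop : Continuous (fun x : ℝ × ℝ => (x.1, x.2 / (m : ℝ))))
  obtain ⟨e0, he0⟩ := Circle.exp_surjective (h (sp b 0 (0 / m)))
  obtain ⟨G, ⟨-, hG⟩, -⟩ := Circle.isCoveringMap_exp.existsUnique_continuousMap_lifts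
    (⟨fun x : ℝ × ℝ => h (sp b x.1 (x.2 / m)), hc⟩ : C(ℝ × ℝ, Circle)) (0, 0) e0 he0
  have hG' : ∀ x : ℝ × ℝ, Circle.exp (G x) = h (sp b x.1 (x.2 / m)) := fun x => congrFun hG x
  have hGc : Continuous G := G.continuous
  refine ⟨fun t => G (ψ1, t), by fun_prop, ?_, ?_⟩
  · intro t
    exact hG' (ψ1, t)
  · have hpi := Real.pi_pos
    have hpos : 0 < (m : ℝ) * (2 * Real.pi) := by positivity
    set a' := a + m * (2 * Real.pi) with ha'
    have key : ∀ x y : ℝ, x ≤ y → G (x, a) - G (x, a') = G (y, a) - G (y, a') := by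
      intro x y hxy
      exact phase_const (φ := fun s => G (s, a) - G (s, a'))
        (a := x) (b := y) hxy (by fun_prop) (by
          intro s _
          rw [Circle.exp_sub, hG', hG']
          have : sp b s (a' / m) = sp b s (a / m) := by
            have e : a' / m = a / m + ((1 : ℤ) : ℝ) * (2 * Real.pi) := by
              rw [ha']; push_cast; field_simp
            rw [e, sp_per]
          simp only
          rw [this, div_self'])
    have key' : G (ψ1, a) - G (ψ1, a') = G (0, a) - G (0, a') := by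
      rcases le_total ψ1 0 with h1 | h1
      · exact key _ _ h1
      · exact (key _ _ h1).symm
    have h2 := phase_const (φ := fun t => G (0, t) - G (0, a'))
      (a := a) (b := a') (by linarith) (by fun_prop) (by
        intro s _
        rw [Circle.exp_sub, hG', hG']
        have : sp b 0 (s / m) = sp b 0 (a' / m) := by
          apply Subtype.ext
          simp [sp]
        simp only
        rw [this, div_self'])
    change G (ψ1, a) = G (ψ1, a')
    linarith

/-- The fold map that reflects the cap `⟪b 2, x⟫ > c` to the outside. -/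
noncomputable def fold (b : OrthonormalBasis (Fin 3) ℝ E3) (c : ℝ) (x : S2) : S2 :=
  rad x ((x : E3) - (2 / (1 - c) * max 0 (inner ℝ (b 2) (x : E3) - c)) • b 2)

theorem fold_arg_ne {b : OrthonormalBasis (Fin 3) ℝ E3} {c : ℝ} (hc1 : c < 1) (x : S2) :
    (x : E3) - (2 / (1 - c) * max 0 (inner ℝ (b 2) (x : E3) - c)) • b 2 ≠ 0 := by
  intro h
  rw [sub_eq_zero] at h
  set w := inner ℝ (b 2) (x : E3) with hw
  have h22 : inner ℝ (b 2) (b 2) = 1 := by simp
  have hxn : ‖(x : E3)‖ = 1 := mem_sphere_zero_iff_norm.1 x.2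
  have hbn : ‖b 2‖ = 1 := b.orthonormal.1 2
  set κ := 2 / (1 - c) * max 0 (w - c) with hκ
  have h1 : w = κ := by
    have := congrArg (fun y => inner ℝ (b 2) y) h
    simp only [inner_smul_right, h22, mul_one] at this
    rw [← hw] at this
    exact this
  have h2 : |κ| = 1 := by
    have := congrArg norm h
    rw [norm_smul, hxn, hbn, mul_one, Real.norm_eq_abs] at this
    exact this.symm
  have hc1' : 0 < 1 - c := by linarith
  have h3 : 0 ≤ κ := by
    rw [hκ]
    positivity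
  rw [abs_of_nonneg h3] at h2
  rw [h2] at h1
  rw [h1] at hκ
  have h4 : max 0 (1 - c) = 1 - c := max_eq_right hc1'.le
  rw [h4, div_mul_cancel₀ _ hc1'.ne', h2] at hκ
  norm_num at hκ

theorem fold_cont {b : OrthonormalBasis (Fin 3) ℝ E3} {c : ℝ} (hc1 : c < 1) :
    Continuous (fold b c) := by
  have h1 : Continuous (fun x : S2 =>
      (x : E3) - (2 / (1 - c) * max 0 (inner ℝ (b 2) (x : E3) - c)) • b 2) := by
    fun_prop
  rw [Topology.IsInducing.subtypeVal.continuous_iff]
  have h2 : Continuous (fun x : S2 =>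
      ‖(x : E3) - (2 / (1 - c) * max 0 (inner ℝ (b 2) (x : E3) - c)) • b 2‖⁻¹ •
      ((x : E3) - (2 / (1 - c) * max 0 (inner ℝ (b 2) (x : E3) - c)) • b 2)) := by
    exact (h1.norm.inv₀ (fun x => norm_ne_zero_iff.2 (fold_arg_ne hc1 x))).smul h1
  convert h2 using 1
  funext x
  simp only [Function.comp, fold]
  exact rad_val _ (fold_arg_ne hc1 x)

theorem fold_id {b : OrthonormalBasis (Fin 3) ℝ E3} {c : ℝ} {x : S2}
    (h : inner ℝ (b 2) (x : E3) ≤ c) : fold b c x = x := by
  unfold fold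
  rw [max_eq_left (by linarith), mul_zero, zero_smul, sub_zero]
  exact rad_self x x

theorem fold_alg {c d : ℝ} (hc0 : 0 < c) (hc1 : c < 1) (hd0 : 0 ≤ d) (hd1 : c + d ≤ 1)
    (hg : 0 ≤ (c + d) - 2 / (1 - c) * d) :
    ((c + d) - 2 / (1 - c) * d) ^ 2 * (1 - c ^ 2) ≤ c ^ 2 * (1 - (c + d) ^ 2) := by
  have h1 : 0 < 1 - c := by linarith
  set g := (c + d) - 2 / (1 - c) * d with hgdef
  have hg1 : g * (1 - c) = c * (1 - c) - d * (1 + c) := by
    rw [hgdef]
    field_simp
    ring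
  set A := c * (1 - c) with hA
  set D := d * (1 + c) with hD
  have hDA : D ≤ A := by nlinarith
  have hD0 : 0 ≤ D := by rw [hD]; positivity
  have hA0 : 0 < A := by rw [hA]; positivity
  -- multiply by (1 - c)
  have key : (A - D) ^ 2 * (1 + c) ≤ c ^ 2 * (1 - c) * (1 - (c + d) ^ 2) := by
    have s1 : (A - D) ^ 2 ≤ A ^ 2 - A * D := by nlinarith
    have s2 : (A ^ 2 - A * D) * (1 + c) ≤ c ^ 2 * (1 - c) * (1 - (c + d) ^ 2) := by
      have e : c ^ 2 * (1 - c) * (1 - (c + d) ^ 2) - (A ^ 2 - A * D) * (1 + c) =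
          c * (1 - c) * d * ((1 + c) ^ 2 - c * (2 * c + d)) := by
        rw [hA, hD]; ring
      have f : 0 ≤ (1 + c) ^ 2 - c * (2 * c + d) := by nlinarith
      have f2 : 0 ≤ c * (1 - c) * d * ((1 + c) ^ 2 - c * (2 * c + d)) := by positivity
      linarith
    have s3 : (A - D) ^ 2 * (1 + c) ≤ (A ^ 2 - A * D) * (1 + c) :=
      mul_le_mul_of_nonneg_right s1 (by linarith)
    linarith
  have h2 : g ^ 2 * (1 - c ^ 2) * (1 - c) = (A - D) ^ 2 * (1 + c) := by
    rw [← hg1]; ring
  have h3 : g ^ 2 * (1 - c ^ 2) * (1 - c) ≤ c ^ 2 * (1 - (c + d) ^ 2) * (1 - c) := by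
    rw [h2]; linarith
  exact le_of_mul_le_mul_right h3 h1

theorem fold_out {b : OrthonormalBasis (Fin 3) ℝ E3} {c : ℝ} (hc0 : 0 < c) (hc1 : c < 1)
    (x : S2) : inner ℝ (b 2) (fold b c x : E3) ≤ c := by
  by_cases hx : inner ℝ (b 2) (x : E3) ≤ c
  · rw [fold_id hx]; exact hx
  · push Not at hx
    have hne := fold_arg_ne (b := b) hc1 x
    have hv : (fold b c x : E3) = _ := rad_val x hne
    rw [hv, inner_smul_right]
    have hxn : ‖(x : E3)‖ = 1 := mem_sphere_zero_iff_norm.1 x.2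
    have hbn : ‖b 2‖ = 1 := b.orthonormal.1 2
    have h22 : inner ℝ (b 2) (b 2) = 1 := by simp
    set w := inner ℝ (b 2) (x : E3) with hw
    have hw1 : w ≤ 1 := by
      have := real_inner_le_norm (b 2) (x : E3)
      rw [hbn, hxn] at this
      linarith
    rw [max_eq_right (by linarith : (0 : ℝ) ≤ w - c)] at hne ⊢
    set κ := 2 / (1 - c) * (w - c) with hκ
    have hin : inner ℝ (b 2) ((x : E3) - κ • b 2) = w - κ := by
      rw [inner_sub_right, inner_smul_right, h22, mul_one]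
    have hnsq : ‖(x : E3) - κ • b 2‖ ^ 2 = (w - κ) ^ 2 + (1 - w ^ 2) := by
      rw [← real_inner_self_eq_norm_sq]
      simp only [inner_sub_left, inner_sub_right, inner_smul_left, inner_smul_right,
        RCLike.conj_to_real, h22]
      rw [real_inner_comm (b 2) (x : E3), ← hw, real_inner_self_eq_norm_sq, hxn]
      ring
    rw [hin]
    have hnpos : 0 < ‖(x : E3) - κ • b 2‖ := norm_pos_iff.2 hne
    set N := ‖(x : E3) - κ • b 2‖ with hN
    rw [inv_mul_le_iff₀ hnpos]
    by_cases hg : w - κ ≤ 0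
    · have : 0 ≤ N * c := by positivity
      linarith
    · push Not at hg
      have ha := fold_alg hc0 hc1 (d := w - c) (by linarith) (by linarith)
        (by
          have e : c + (w - c) - 2 / (1 - c) * (w - c) = w - κ := by rw [hκ]; ring
          rw [e]; exact hg.le)
      have e : c + (w - c) - 2 / (1 - c) * (w - c) = w - κ := by rw [hκ]; ring
      have e2 : c + (w - c) = w := by ring
      rw [e, e2] at ha
      have hsq : (w - κ) ^ 2 ≤ (N * c) ^ 2 := by
        rw [mul_pow, hnsq]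
        nlinarith
      have hNc : 0 ≤ N * c := by positivity
      exact abs_le_of_sq_le_sq' hsq hNc |>.2

end Run7.h506
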