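import Mathlib

set_option autoImplicit false

namespace Run7.h506

/-- Truncated power series of the radial eigenfunction, in the squared radius. -/
noncomputable def gp (s : ℝ) : ℝ :=
  1 - s / 4 + s ^ 2 / 64 - s ^ 3 / 2304 + s ^ 4 / 147456 - s ^ 5 / 14745600

/-- First derivative. -/
noncomputable def gp1 (s : ℝ) : ℝ :=
  -1 / 4 + s / 32 - s ^ 2 / 768 + s ^ 3 / 36864 - s ^ 4 / 2949120

/-- Second derivative. -/
noncomputable def gp2 (s : ℝ) : ℝ :=
  1 / 32 - s / 384 + s ^ 2 / 12288 - s ^ 3 / 737280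

theorem gp_deriv (s : ℝ) : HasDerivAt gp (gp1 s) s := by
  unfold gp gp1
  have h1 := (hasDerivAt_id' s).div_const 4
  have h2 := (hasDerivAt_pow 2 s).div_const 64
  have h3 := (hasDerivAt_pow 3 s).div_const 2304
  have h4 := (hasDerivAt_pow 4 s).div_const 147456
  have h5 := (hasDerivAt_pow 5 s).div_const 14745600
  have h := ((((hasDerivAt_const s (1 : ℝ)).sub h1).add h2).sub h3).add h4 |>.sub h5
  refine h.congr_deriv ?_
  norm_num
  ring

theorem gp1_deriv (s : ℝ) : HasDerivAt gp1 (gp2 s) s := by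
  unfold gp1 gp2
  have h1 := (hasDerivAt_id' s).div_const 32
  have h2 := (hasDerivAt_pow 2 s).div_const 768
  have h3 := (hasDerivAt_pow 3 s).div_const 36864
  have h4 := (hasDerivAt_pow 4 s).div_const 2949120
  have h := ((((hasDerivAt_const s (-1 / 4 : ℝ)).add h1).sub h2).add h3).sub h4
  refine h.congr_deriv ?_
  norm_num
  ring

theorem gp_super {s : ℝ} (h0 : 0 ≤ s) : 4 * s * gp2 s + 4 * gp1 s ≤ -gp s := by
  unfold gp gp1 gp2
  have : 0 ≤ s ^ 5 := by positivity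
  nlinarith

theorem gp2_nonneg {s : ℝ} (h1 : s ≤ 1442401 / 250000) : 0 ≤ gp2 s := by
  unfold gp2
  have h2 : 0 ≤ s ^ 2 * (60 - s) := mul_nonneg (by positivity) (by linarith)
  nlinarith

theorem gp2_le {s : ℝ} (h0 : 0 ≤ s) (h1 : s ≤ 1442401 / 250000) : gp2 s ≤ 1 / 32 := by
  unfold gp2
  have h2 : 0 ≤ s * (32 - s) := mul_nonneg h0 (by linarith)
  have h3 : 0 ≤ s ^ 3 := by positivity
  nlinarith

theorem gp1_nonpos {s : ℝ} (h0 : 0 ≤ s) (h1 : s ≤ 1442401 / 250000) : gp1 s ≤ 0 := by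
  unfold gp1
  have h2 : 0 ≤ s ^ 2 := by positivity
  have h3 : 0 ≤ s ^ 4 := by positivity
  have h4 : s ^ 3 ≤ 6 ^ 3 := pow_le_pow_left₀ h0 (by linarith) 3
  nlinarith

theorem gp1_ge {s : ℝ} (h0 : 0 ≤ s) (h1 : s ≤ 1442401 / 250000) : -1 / 4 ≤ gp1 s := by
  unfold gp1
  have h2 : 0 ≤ s * (24 - s) := mul_nonneg h0 (by linarith)
  have h3 : 0 ≤ s ^ 3 * (80 - s) := mul_nonneg (by positivity) (by linarith)
  nlinarith

theorem gp_pos {s : ℝ} (h1 : s ≤ 1442401 / 250000) : 1 / 1000 ≤ gp s := by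
  obtain ⟨t, ht, rfl⟩ : ∃ t : ℝ, 0 ≤ t ∧ s = 1442401 / 250000 - t :=
    ⟨1442401 / 250000 - s, by linarith, by ring⟩
  unfold gp
  have h1 : 0 ≤ t ^ 2 := by positivity
  have h2 : 0 ≤ t ^ 3 := by positivity
  have h3 : 0 ≤ t ^ 4 := by positivity
  have h4 : 0 ≤ t ^ 5 := by positivity
  ring_nf
  nlinarith

end Run7.h506
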