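import Mathlib
import Pool.Agent.Run7.h506.GPoly
import Pool.Agent.Run7.h506.Disc

set_option autoImplicit false

namespace Run7.h506

open Set Topology Filter

/-- Second order necessary condition at a local maximum, local version. -/
theorem second_deriv_local {H H1 : ℝ → ℝ} {H2 : ℝ} (h1 : ∀ᶠ t in 𝓝 (0 : ℝ), HasDerivAt H (H1 t) t)
    (h2 : HasDerivAt H1 H2 0) (hmax : IsLocalMax H 0) : H2 ≤ 0 := by
  by_contra hcon
  push Not at hcon
  have hd : deriv H =ᶠ[𝓝 0] H1 := by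
    filter_upwards [h1] with t ht
    exact ht.deriv
  have hdd : deriv (deriv H) 0 = H2 := by rw [hd.deriv_eq]; exact h2.deriv
  have hmin : IsLocalMin H 0 :=
    isLocalMin_of_deriv_deriv_pos (by rw [hdd]; exact hcon) hmax.deriv_eq_zero
      h1.self_of_nhds.continuousAt
  have hconst : ∀ᶠ t in 𝓝 (0 : ℝ), H t = H 0 := by
    filter_upwards [hmax, hmin] with t ht1 ht2
    exact le_antisymm ht1 ht2
  have hz : deriv H =ᶠ[𝓝 0] fun _ => 0 := by
    have h3 : H =ᶠ[𝓝 0] fun _ => H 0 := hconst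
    have h4 := h3.deriv
    filter_upwards [h4] with t ht
    rw [ht]
    simp
  have h5 : deriv (deriv H) 0 = 0 := by
    rw [hz.deriv_eq]; simp
  rw [hdd] at h5
  linarith

/-- Derivative of a logarithm near a point of positivity. -/
theorem log_ev {h h1 : ℝ → ℝ} (hd : ∀ t, HasDerivAt h (h1 t) t) (hpos : 0 < h 0) :
    ∀ᶠ t in 𝓝 (0 : ℝ), HasDerivAt (fun t => Real.log (h t)) (h1 t / h t) t := by
  have hc : ContinuousAt h 0 := (hd 0).continuousAt
  have : ∀ᶠ t in 𝓝 (0 : ℝ), 0 < h t := hc.eventually (lt_mem_nhds hpos)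
  filter_upwards [this] with t ht
  exact (hd t).log ht.ne'

theorem log_second {h h1 : ℝ → ℝ} {h2 : ℝ} (hd : ∀ t, HasDerivAt h (h1 t) t)
    (hd2 : HasDerivAt h1 h2 0) (hpos : 0 < h 0) :
    HasDerivAt (fun t => h1 t / h t) (h2 / h 0 - (h1 0 / h 0) ^ 2) 0 := by
  refine (hd2.div (hd 0) hpos.ne').congr_deriv ?_
  field_simp

/-- The second order test inequality for the multi-point maximum principle. -/
theorem test_ineq {ι : Type*} [Fintype ι] (h h1 : ι → ℝ → ℝ) (h2 : ι → ℝ)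
    (hd : ∀ j t, HasDerivAt (h j) (h1 j t) t) (hd2 : ∀ j, HasDerivAt (h1 j) (h2 j) 0)
    (hpos : ∀ j, 0 < h j 0) {G G1 : ℝ → ℝ} {G2 n : ℝ} (gd : ∀ t, HasDerivAt G (G1 t) t)
    (gd2 : HasDerivAt G1 G2 0) (gpos : 0 < G 0)
    (hmax : ∀ᶠ t in 𝓝 (0 : ℝ), ∑ j, Real.log (h j t) - n * Real.log (G t) ≤
      ∑ j, Real.log (h j 0) - n * Real.log (G 0)) :
    ∑ j, (h2 j / h j 0 - (h1 j 0 / h j 0) ^ 2) - n * (G2 / G 0 - (G1 0 / G 0) ^ 2) ≤ 0 := by
  apply second_deriv_local (H := fun t => ∑ j, Real.log (h j t) - n * Real.log (G t))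
    (H1 := fun t => ∑ j, h1 j t / h j t - n * (G1 t / G t))
  · have e1 : ∀ᶠ t in 𝓝 (0 : ℝ), ∀ j, HasDerivAt (fun t => Real.log (h j t))
        (h1 j t / h j t) t := by
      rw [eventually_all]
      exact fun j => log_ev (hd j) (hpos j)
    filter_upwards [e1, log_ev gd gpos] with t ht1 ht2
    have h3 : HasDerivAt (fun t => ∑ j, Real.log (h j t)) (∑ j, h1 j t / h j t) t := by
      apply HasDerivAt.fun_sum
      intro j _
      exact ht1 j
    exact h3.sub (ht2.const_mul n)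
  · have h3 : HasDerivAt (fun t => ∑ j, h1 j t / h j t)
        (∑ j, (h2 j / h j 0 - (h1 j 0 / h j 0) ^ 2)) 0 := by
      apply HasDerivAt.fun_sum
      intro j _
      exact log_second (hd j) (hd2 j) (hpos j)
    exact h3.sub ((log_second gd gd2 gpos).const_mul n)
  · exact hmax

/-- First order condition when a single point moves. -/
theorem test_first {h h1 : ℝ → ℝ} (hd : ∀ t, HasDerivAt h (h1 t) t)
    (hpos : 0 < h 0) {G G1 : ℝ → ℝ} {n C : ℝ} (gd : ∀ t, HasDerivAt G (G1 t) t)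
    (gpos : 0 < G 0)
    (hmax : ∀ᶠ t in 𝓝 (0 : ℝ), C + Real.log (h t) - n * Real.log (G t) ≤
      C + Real.log (h 0) - n * Real.log (G 0)) :
    h1 0 / h 0 = n * (G1 0 / G 0) := by
  have h3 : HasDerivAt (fun t => C + Real.log (h t) - n * Real.log (G t))
      (h1 0 / h 0 - n * (G1 0 / G 0)) 0 := by
    have := (((hd 0).log hpos.ne').const_add C).sub (((gd 0).log gpos.ne').const_mul n)
    exact this
  have h4 : IsLocalMax (fun t => C + Real.log (h t) - n * Real.log (G t)) 0 := hmax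
  have := h4.hasDerivAt_eq_zero h3
  linarith

/-- A vector whose products with the vertices directions of a regular polygon are bounded. -/
theorem ngon {N : ℕ} (hN : 1 ≤ N) {Y1 Y2 m : ℝ}
    (h : ∀ j : ℕ, Real.cos (2 * Real.pi * j / N) * Y1 + Real.sin (2 * Real.pi * j / N) * Y2 ≤ m) :
    Real.sqrt (Y1 ^ 2 + Y2 ^ 2) * Real.cos (Real.pi / N) ≤ m := by
  have hpi := Real.pi_pos
  have hNR : (1 : ℝ) ≤ N := by exact_mod_cast hN
  have hN0 : (N : ℝ) ≠ 0 := by linarith
  obtain ⟨ρ, φ, hρ, h1, h2⟩ := polar_exists Y1 Y2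
  have hsq : Real.sqrt (Y1 ^ 2 + Y2 ^ 2) = ρ := by
    have : Y1 ^ 2 + Y2 ^ 2 = ρ ^ 2 := by
      rw [h1, h2]
      have := Real.sin_sq_add_cos_sq φ
      nlinarith
    rw [this, Real.sqrt_sq hρ]
  rw [hsq]
  set k : ℤ := round (φ * N / (2 * Real.pi)) with hk
  have hr := abs_sub_round (φ * N / (2 * Real.pi))
  rw [← hk] at hr
  have hkey : |φ - 2 * Real.pi * k / N| ≤ Real.pi / N := by
    have e : φ - 2 * Real.pi * k / N = (φ * N / (2 * Real.pi) - k) * (2 * Real.pi / N) := by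
      field_simp
    rw [e, abs_mul, abs_of_pos (by positivity : (0 : ℝ) < 2 * Real.pi / N)]
    calc |φ * N / (2 * Real.pi) - k| * (2 * Real.pi / N) ≤ 1 / 2 * (2 * Real.pi / N) := by
          gcongr
      _ = Real.pi / N := by field_simp
  have hNz : (0 : ℤ) < N := by exact_mod_cast hN
  have q1 := Int.emod_nonneg k hNz.ne'
  have q2 : (((k % N).toNat : ℕ) : ℝ) = ((k % N : ℤ) : ℝ) := by
    rw [← Int.cast_natCast, Int.toNat_of_nonneg q1]
  have q3 : (k : ℝ) = ((k % N : ℤ) : ℝ) + N * ((k / N : ℤ) : ℝ) := by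
    have := Int.emod_add_mul_ediv k N
    exact_mod_cast this.symm
  have q4 : 2 * Real.pi * k / N = 2 * Real.pi * (((k % N).toNat : ℕ) : ℝ) / N +
      ((k / N : ℤ) : ℝ) * (2 * Real.pi) := by
    rw [q2, q3]
    field_simp
  have hj := h (k % N).toNat
  have c1 : Real.cos (2 * Real.pi * (((k % N).toNat : ℕ) : ℝ) / N) =
      Real.cos (2 * Real.pi * k / N) := by
    rw [q4, Real.cos_add_int_mul_two_pi]
  have c2 : Real.sin (2 * Real.pi * (((k % N).toNat : ℕ) : ℝ) / N) =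
      Real.sin (2 * Real.pi * k / N) := by
    rw [q4, Real.sin_add_int_mul_two_pi]
  rw [c1, c2, h1, h2] at hj
  have hc : Real.cos (Real.pi / N) ≤ Real.cos (φ - 2 * Real.pi * k / N) := by
    rw [← Real.cos_abs (φ - 2 * Real.pi * k / N)]
    apply Real.cos_le_cos_of_nonneg_of_le_pi (abs_nonneg _) _ hkey
    rw [div_le_iff₀ (by linarith)]
    nlinarith
  have hfin : Real.cos (2 * Real.pi * k / N) * (ρ * Real.cos φ) +
      Real.sin (2 * Real.pi * k / N) * (ρ * Real.sin φ) =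
      ρ * Real.cos (φ - 2 * Real.pi * k / N) := by
    rw [Real.cos_sub]; ring
  rw [hfin] at hj
  exact (mul_le_mul_of_nonneg_left hc hρ).trans hj

end Run7.h506
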