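import Mathlib
import Pool.Agent.Run7.h506.NPa

set_option autoImplicit false

namespace Run7.h506

open Set Topology Filter

/-- A near-identity pair of rows barely changes the sum of squared products. -/
theorem quad_near {a11 a12 a21 a22 δ Y1 Y2 : ℝ} (h0 : 0 ≤ δ) (h1 : δ ≤ 1)
    (b11 : |a11 - 1| ≤ δ) (b12 : |a12| ≤ δ) (b21 : |a21| ≤ δ) (b22 : |a22 - 1| ≤ δ) :
    |(Y1 * a11 + Y2 * a12) ^ 2 + (Y1 * a21 + Y2 * a22) ^ 2 - (Y1 ^ 2 + Y2 ^ 2)| ≤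
      8 * δ * (Y1 ^ 2 + Y2 ^ 2) := by
  set S := |Y1| + |Y2| with hS
  set A := Y1 * (a11 - 1) + Y2 * a12 with hA
  set B := Y1 * a21 + Y2 * (a22 - 1) with hB
  have hAb : |A| ≤ δ * S := by
    calc |A| ≤ |Y1 * (a11 - 1)| + |Y2 * a12| := abs_add_le _ _
      _ = |Y1| * |a11 - 1| + |Y2| * |a12| := by rw [abs_mul, abs_mul]
      _ ≤ |Y1| * δ + |Y2| * δ := by gcongr
      _ = δ * S := by rw [hS]; ring
  have hBb : |B| ≤ δ * S := by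
    calc |B| ≤ |Y1 * a21| + |Y2 * (a22 - 1)| := abs_add_le _ _
      _ = |Y1| * |a21| + |Y2| * |a22 - 1| := by rw [abs_mul, abs_mul]
      _ ≤ |Y1| * δ + |Y2| * δ := by gcongr
      _ = δ * S := by rw [hS]; ring
  have e : (Y1 * a11 + Y2 * a12) ^ 2 + (Y1 * a21 + Y2 * a22) ^ 2 - (Y1 ^ 2 + Y2 ^ 2) =
      2 * Y1 * A + 2 * Y2 * B + A ^ 2 + B ^ 2 := by rw [hA, hB]; ring
  have hS0 : 0 ≤ S := by positivity
  have hS2 : S ^ 2 ≤ 2 * (Y1 ^ 2 + Y2 ^ 2) := by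
    rw [hS, ← sq_abs Y1, ← sq_abs Y2]
    nlinarith [sq_nonneg (|Y1| - |Y2|)]
  have hδS : 0 ≤ δ * S := by positivity
  have hA2 : A ^ 2 ≤ (δ * S) ^ 2 := sq_le_sq' (by linarith [(abs_le.1 hAb).1]) (abs_le.1 hAb).2
  have hB2 : B ^ 2 ≤ (δ * S) ^ 2 := sq_le_sq' (by linarith [(abs_le.1 hBb).1]) (abs_le.1 hBb).2
  have hYA : |Y1 * A| ≤ |Y1| * (δ * S) := by rw [abs_mul]; gcongr
  have hYB : |Y2 * B| ≤ |Y2| * (δ * S) := by rw [abs_mul]; gcongr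
  have hsum : |Y1| * (δ * S) + |Y2| * (δ * S) = δ * S ^ 2 := by rw [hS]; ring
  have hδ2 : (δ * S) ^ 2 ≤ δ * S ^ 2 := by
    have : (δ * S) ^ 2 = δ * (δ * S ^ 2) := by ring
    rw [this]
    apply mul_le_mul_of_nonneg_left _ h0
    nlinarith [sq_nonneg S]
  have hfin : δ * S ^ 2 ≤ δ * (2 * (Y1 ^ 2 + Y2 ^ 2)) := mul_le_mul_of_nonneg_left hS2 h0
  rw [e, abs_le]
  have := abs_le.1 hYA
  have := abs_le.1 hYB
  constructor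
  · nlinarith [sq_nonneg A, sq_nonneg B]
  · nlinarith [sq_nonneg A, sq_nonneg B]

/-- Squared lengths of near-identity rows. -/
theorem len_near {a11 a12 a21 a22 δ : ℝ} (h0 : 0 ≤ δ)
    (b11 : |a11 - 1| ≤ δ) (b22 : |a22 - 1| ≤ δ) (h1 : δ ≤ 1) :
    2 - 4 * δ ≤ (a11 ^ 2 + a12 ^ 2) + (a21 ^ 2 + a22 ^ 2) := by
  have h2 := (abs_le.1 b11).1
  have h3 := (abs_le.1 b22).1
  nlinarith [sq_nonneg a12, sq_nonneg a21, sq_nonneg (a11 - 1), sq_nonneg (a22 - 1)]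

/-- The final numerical contradiction. -/
theorem final_num {Λ μ n s g g1 g2 δ S2p Sb WW Q : ℝ} (hn : 1 ≤ n)
    (hs : s = μ ^ 2 * Q) (hs0 : 0 ≤ s) (hs1 : s ≤ 1442401 / 250000) (hg : 1 / 1000 ≤ g)
    (hg1 : -1 / 4 ≤ g1) (hg1' : g1 ≤ 0) (hg2 : 0 ≤ g2) (hg2' : g2 ≤ 1 / 32)
    (hsup : 4 * s * g2 + 4 * g1 ≤ -g) (hδ : 0 ≤ δ) (hμδ : μ ^ 2 * δ ≤ n ^ 2 * (1442401 / 250000))
    (h1 : S2p - Sb ≤ 16 * δ * Q) (h2 : Sb ≤ Q * (1 + 8 * δ)) (h3 : 2 - 4 * δ ≤ WW)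
    (hmain : 0 ≤ Λ + 4 * μ ^ 4 * (g1 / g) ^ 2 * (S2p - Sb) + (g2 / g) * 4 * μ ^ 4 * Sb +
      (g1 / g) * μ ^ 2 * (2 * WW - 4 * Q)) :
    μ ^ 2 < Λ + 150000000 * n ^ 2 := by
  have hgpos : 0 < g := by linarith
  set ρ := g1 / g with hρ
  set r := g2 / g with hr
  have hρ0 : ρ ≤ 0 := div_nonpos_of_nonpos_of_nonneg hg1' hgpos.le
  have hρ1 : -250 ≤ ρ := by
    rw [hρ, le_div_iff₀ hgpos]; nlinarith
  have hr0 : 0 ≤ r := div_nonneg hg2 hgpos.le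
  have hr1 : r ≤ 125 / 4 := by
    rw [hr, div_le_iff₀ hgpos]; nlinarith
  have hsup' : 4 * (s * r) + 4 * ρ ≤ -1 := by
    have e : 4 * (s * r) + 4 * ρ = (4 * s * g2 + 4 * g1) / g := by
      rw [hρ, hr]; field_simp
    rw [e, div_le_iff₀ hgpos]
    linarith
  have hρ2 : ρ ^ 2 ≤ 62500 := by nlinarith
  have hμ2 : 0 ≤ μ ^ 2 := sq_nonneg μ
  have hμ4 : 0 ≤ μ ^ 4 := by positivity
  set D := μ ^ 2 * δ with hD
  have hD0 : 0 ≤ D := mul_nonneg hμ2 hδ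
  -- first term
  have t1 : 4 * μ ^ 4 * ρ ^ 2 * (S2p - Sb) ≤ 64 * 62500 * (1442401 / 250000) * D := by
    have e1 : 4 * μ ^ 4 * ρ ^ 2 * (S2p - Sb) ≤ 4 * μ ^ 4 * ρ ^ 2 * (16 * δ * Q) :=
      mul_le_mul_of_nonneg_left h1 (by positivity)
    have e2 : 4 * μ ^ 4 * ρ ^ 2 * (16 * δ * Q) = 64 * ρ ^ 2 * (s * D) := by
      rw [hs, hD]; ring
    have e3 : s * D ≤ (1442401 / 250000) * D := mul_le_mul_of_nonneg_right hs1 hD0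
    have e4 : 0 ≤ s * D := mul_nonneg hs0 hD0
    have e5 : ρ ^ 2 * (s * D) ≤ 62500 * (s * D) := mul_le_mul_of_nonneg_right hρ2 e4
    nlinarith
  -- second term
  have t2 : r * 4 * μ ^ 4 * Sb ≤ μ ^ 2 * (4 * (s * r)) + 32 * (125 / 4) * (1442401 / 250000) * D := by
    have e1 : r * 4 * μ ^ 4 * Sb ≤ r * 4 * μ ^ 4 * (Q * (1 + 8 * δ)) :=
      mul_le_mul_of_nonneg_left h2 (by positivity)
    have e2 : r * 4 * μ ^ 4 * (Q * (1 + 8 * δ)) = μ ^ 2 * (4 * (s * r)) + 32 * (r * (s * D)) := by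
      rw [hs, hD]; ring
    have e3 : s * D ≤ (1442401 / 250000) * D := mul_le_mul_of_nonneg_right hs1 hD0
    have e4 : 0 ≤ s * D := mul_nonneg hs0 hD0
    have e5 : r * (s * D) ≤ 125 / 4 * (s * D) := mul_le_mul_of_nonneg_right hr1 e4
    nlinarith
  -- third term
  have t3 : ρ * μ ^ 2 * (2 * WW - 4 * Q) ≤ μ ^ 2 * (4 * ρ) + 2000 * D + 5770 := by
    have e1 : (-ρ * μ ^ 2) * (2 * (2 - 4 * δ)) ≤ (-ρ * μ ^ 2) * (2 * WW) :=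
      mul_le_mul_of_nonneg_left (by linarith) (mul_nonneg (by linarith) hμ2)
    have e2 : ρ * μ ^ 2 * (2 * WW - 4 * Q) = -((-ρ * μ ^ 2) * (2 * WW)) + 4 * (-ρ * s) := by
      rw [hs]; ring
    have e3 : (-ρ * μ ^ 2) * (2 * (2 - 4 * δ)) = -(μ ^ 2 * (4 * ρ)) - 8 * (-ρ * D) := by
      rw [hD]; ring
    have e4 : -ρ * D ≤ 250 * D := mul_le_mul_of_nonneg_right (by linarith) hD0
    have e5 : -ρ * s ≤ 250 * (1442401 / 250000) := by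
      have : -ρ * s ≤ 250 * s := mul_le_mul_of_nonneg_right (by linarith) hs0
      linarith
    rw [e2]
    linarith
  have t4 : μ ^ 2 * (4 * (s * r)) + μ ^ 2 * (4 * ρ) ≤ -μ ^ 2 := by
    have : μ ^ 2 * (4 * (s * r) + 4 * ρ) ≤ μ ^ 2 * (-1) := mul_le_mul_of_nonneg_left hsup' hμ2
    linarith
  have hn2 : 1 ≤ n ^ 2 := by nlinarith
  nlinarith

end Run7.h506
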