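import Mathlib
import Pool.Agent.Run7.h506.NPb

set_option autoImplicit false

namespace Run7.h506

open Set Topology Filter

/-- Transport of a frame to a nearby point of the sphere. -/
theorem transport (B : OrthonormalBasis (Fin 3) ℝ E3) (x : S2)
    (hw : 0 < inner ℝ (B 2) (x : E3)) :
    ∃ f g : OrthonormalBasis (Fin 3) ℝ E3, f 0 = x ∧ g 0 = x ∧ f 1 = g 2 ∧ f 2 = g 1 ∧
      inner ℝ (B 0) (f 1) = 1 - inner ℝ (B 0) (x : E3) ^ 2 / (1 + inner ℝ (B 2) (x : E3)) ∧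
      inner ℝ (B 1) (f 1) = -(inner ℝ (B 0) (x : E3) * inner ℝ (B 1) (x : E3)) /
        (1 + inner ℝ (B 2) (x : E3)) ∧
      inner ℝ (B 0) (g 1) = -(inner ℝ (B 0) (x : E3) * inner ℝ (B 1) (x : E3)) /
        (1 + inner ℝ (B 2) (x : E3)) ∧
      inner ℝ (B 1) (g 1) = 1 - inner ℝ (B 1) (x : E3) ^ 2 / (1 + inner ℝ (B 2) (x : E3)) := by
  have h00 : inner ℝ (B 0) (B 0) = 1 := by simp
  have h11 : inner ℝ (B 1) (B 1) = 1 := by simp
  have h22 : inner ℝ (B 2) (B 2) = 1 := by simp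
  have h01 : inner ℝ (B 0) (B 1) = 0 := B.orthonormal.2 (by decide)
  have h02 : inner ℝ (B 0) (B 2) = 0 := B.orthonormal.2 (by decide)
  have h12 : inner ℝ (B 1) (B 2) = 0 := B.orthonormal.2 (by decide)
  have h10 : inner ℝ (B 1) (B 0) = 0 := B.orthonormal.2 (by decide)
  have h20 : inner ℝ (B 2) (B 0) = 0 := B.orthonormal.2 (by decide)
  have h21 : inner ℝ (B 2) (B 1) = 0 := B.orthonormal.2 (by decide)
  have hxn : ‖(x : E3)‖ = 1 := mem_sphere_zero_iff_norm.1 x.2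
  have hxx : inner ℝ (x : E3) (x : E3) = 1 := by
    rw [real_inner_self_eq_norm_sq, hxn]; norm_num
  set y1 := inner ℝ (B 0) (x : E3) with hy1
  set y2 := inner ℝ (B 1) (x : E3) with hy2
  set w := inner ℝ (B 2) (x : E3) with hw'
  have hx0 : inner ℝ (x : E3) (B 0) = y1 := by rw [real_inner_comm]
  have hx1 : inner ℝ (x : E3) (B 1) = y2 := by rw [real_inner_comm]
  have hx2 : inner ℝ (x : E3) (B 2) = w := by rw [real_inner_comm]
  have hw1 : 1 + w ≠ 0 := by linarith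
  set τ1 : E3 := B 0 - (y1 / (1 + w)) • (B 2 + x) with hτ1
  set τ2 : E3 := B 1 - (y2 / (1 + w)) • (B 2 + x) with hτ2
  have n1 : ‖τ1‖ = 1 := by
    apply norm_eq_one_of_sq
    rw [← real_inner_self_eq_norm_sq, hτ1]
    simp only [inner_sub_left, inner_sub_right, inner_smul_left, inner_smul_right, inner_add_left,
      inner_add_right, RCLike.conj_to_real, h00, h02, h20, h22, hx0, hx2, hxx, ← hy1, ← hw']
    field_simp
    ring
  have n2 : ‖τ2‖ = 1 := by
    apply norm_eq_one_of_sq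
    rw [← real_inner_self_eq_norm_sq, hτ2]
    simp only [inner_sub_left, inner_sub_right, inner_smul_left, inner_smul_right, inner_add_left,
      inner_add_right, RCLike.conj_to_real, h11, h12, h21, h22, hx1, hx2, hxx, ← hy2, ← hw']
    field_simp
    ring
  have o1 : inner ℝ (x : E3) τ1 = 0 := by
    rw [hτ1]
    simp only [inner_sub_right, inner_smul_right, inner_add_right, hx0, hx2, hxx]
    field_simp
    ring
  have o2 : inner ℝ (x : E3) τ2 = 0 := by
    rw [hτ2]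
    simp only [inner_sub_right, inner_smul_right, inner_add_right, hx1, hx2, hxx]
    field_simp
    ring
  have o3 : inner ℝ τ1 τ2 = 0 := by
    rw [hτ1, hτ2]
    simp only [inner_sub_left, inner_sub_right, inner_smul_left, inner_smul_right, inner_add_left,
      inner_add_right, RCLike.conj_to_real, h01, h02, h21, h22, hx1, hx2, hxx, ← hy1, ← hw']
    field_simp
    ring
  have o3' : inner ℝ τ2 τ1 = 0 := by rw [real_inner_comm]; exact o3
  obtain ⟨f, hf0, hf1, hf2⟩ := exists_basis3 (x : E3) τ1 τ2 hxn n1 n2 o1 o2 o3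
  obtain ⟨g, hg0, hg1, hg2⟩ := exists_basis3 (x : E3) τ2 τ1 hxn n2 n1 o2 o1 o3'
  refine ⟨f, g, hf0, hg0, by rw [hf1, hg2], by rw [hf2, hg1], ?_, ?_, ?_, ?_⟩
  · rw [hf1, hτ1]
    simp only [inner_sub_right, inner_smul_right, inner_add_right, h00, h02, ← hy1]
    ring
  · rw [hf1, hτ1]
    simp only [inner_sub_right, inner_smul_right, inner_add_right, h10, h12, ← hy2]
    ring
  · rw [hg1, hτ2]
    simp only [inner_sub_right, inner_smul_right, inner_add_right, h01, h02, ← hy1]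
    ring
  · rw [hg1, hτ2]
    simp only [inner_sub_right, inner_smul_right, inner_add_right, h11, h12, ← hy2]
    ring

/-- Derivatives of the radial comparison function along trigonometric curves. -/
theorem radial_deriv (μ α1 β1 γ1 α2 β2 γ2 : ℝ) :
    ∃ G1 : ℝ → ℝ, (∀ t, HasDerivAt (fun t => gp (μ ^ 2 *
        ((α1 + β1 * Real.cos t + γ1 * Real.sin t) ^ 2 +
          (α2 + β2 * Real.cos t + γ2 * Real.sin t) ^ 2))) (G1 t) t) ∧
      G1 0 = gp1 (μ ^ 2 * ((α1 + β1) ^ 2 + (α2 + β2) ^ 2)) *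
        (2 * μ ^ 2 * ((α1 + β1) * γ1 + (α2 + β2) * γ2)) ∧
      HasDerivAt G1 (gp2 (μ ^ 2 * ((α1 + β1) ^ 2 + (α2 + β2) ^ 2)) *
        (2 * μ ^ 2 * ((α1 + β1) * γ1 + (α2 + β2) * γ2)) ^ 2 +
        gp1 (μ ^ 2 * ((α1 + β1) ^ 2 + (α2 + β2) ^ 2)) *
          (2 * μ ^ 2 * (γ1 ^ 2 + γ2 ^ 2 - (α1 + β1) * β1 - (α2 + β2) * β2))) 0 := by
  have hA : ∀ α β γ t : ℝ, HasDerivAt (fun t => α + β * Real.cos t + γ * Real.sin t)
      (-β * Real.sin t + γ * Real.cos t) t := by
    intro α β γ t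
    have := (((Real.hasDerivAt_cos t).const_mul β).const_add α).add
      ((Real.hasDerivAt_sin t).const_mul γ)
    refine this.congr_deriv ?_
    ring
  have hA' : ∀ β γ t : ℝ, HasDerivAt (fun t => -β * Real.sin t + γ * Real.cos t)
      (-β * Real.cos t - γ * Real.sin t) t := by
    intro β γ t
    have := ((Real.hasDerivAt_sin t).const_mul (-β)).add ((Real.hasDerivAt_cos t).const_mul γ)
    refine this.congr_deriv ?_
    ring
  set A1 : ℝ → ℝ := fun t => α1 + β1 * Real.cos t + γ1 * Real.sin t with hA1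
  set A2 : ℝ → ℝ := fun t => α2 + β2 * Real.cos t + γ2 * Real.sin t with hA2
  set A1' : ℝ → ℝ := fun t => -β1 * Real.sin t + γ1 * Real.cos t with hA1'
  set A2' : ℝ → ℝ := fun t => -β2 * Real.sin t + γ2 * Real.cos t with hA2'
  have d1 : ∀ t, HasDerivAt A1 (A1' t) t := fun t => hA α1 β1 γ1 t
  have d2 : ∀ t, HasDerivAt A2 (A2' t) t := fun t => hA α2 β2 γ2 t
  have d1' : ∀ t, HasDerivAt A1' (-β1 * Real.cos t - γ1 * Real.sin t) t := fun t => hA' β1 γ1 t
  have d2' : ∀ t, HasDerivAt A2' (-β2 * Real.cos t - γ2 * Real.sin t) t := fun t => hA' β2 γ2 t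
  have dS : ∀ t, HasDerivAt (fun t => μ ^ 2 * (A1 t ^ 2 + A2 t ^ 2))
      (2 * μ ^ 2 * (A1 t * A1' t + A2 t * A2' t)) t := by
    intro t
    have := (((d1 t).pow 2).add ((d2 t).pow 2)).const_mul (μ ^ 2)
    refine this.congr_deriv ?_
    norm_num
    ring
  have dS' : HasDerivAt (fun t => 2 * μ ^ 2 * (A1 t * A1' t + A2 t * A2' t))
      (2 * μ ^ 2 * (γ1 ^ 2 + γ2 ^ 2 - (α1 + β1) * β1 - (α2 + β2) * β2)) 0 := by
    have := (((d1 0).mul (d1' 0)).add ((d2 0).mul (d2' 0))).const_mul (2 * μ ^ 2)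
    refine this.congr_deriv ?_
    simp only [hA1, hA2, hA1', hA2', Real.cos_zero, Real.sin_zero]
    ring
  refine ⟨fun t => gp1 (μ ^ 2 * (A1 t ^ 2 + A2 t ^ 2)) *
    (2 * μ ^ 2 * (A1 t * A1' t + A2 t * A2' t)), ?_, ?_, ?_⟩
  · intro t
    exact (gp_deriv _).comp t (dS t)
  · simp only [hA1, hA2, hA1', hA2', Real.cos_zero, Real.sin_zero]
    norm_num
  · have e1 := (gp1_deriv (μ ^ 2 * (A1 0 ^ 2 + A2 0 ^ 2))).comp 0 (dS 0)
    have e2 := e1.mul dS'
    refine e2.congr_deriv ?_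
    simp only [hA1, hA2, hA1', hA2', Real.cos_zero, Real.sin_zero, Function.comp]
    norm_num
    ring

end Run7.h506
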