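import Mathlib
import Pool.Agent.Run7.h506.NPc

set_option autoImplicit false

namespace Run7.h506

open Set Topology Filter MvPolynomial

/-- First coordinate of the averaged point. -/
noncomputable def YA {N : ℕ} (B : Fin N → OrthonormalBasis (Fin 3) ℝ E3) (i : Fin 3)
    (x : Fin N → S2) : ℝ :=
  (∑ k, inner ℝ (B k i) (x k : E3)) / N

/-- Squared scaled length of the averaged point. -/
noncomputable def sA {N : ℕ} (μ : ℝ) (B : Fin N → OrthonormalBasis (Fin 3) ℝ E3)
    (x : Fin N → S2) : ℝ :=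
  μ ^ 2 * (YA B 0 x ^ 2 + YA B 1 x ^ 2)

theorem gc_inner (f : OrthonormalBasis (Fin 3) ℝ E3) (v : E3) (t : ℝ) :
    inner ℝ v (gc f t : E3) = inner ℝ v (f 0) * Real.cos t + inner ℝ v (f 1) * Real.sin t := by
  simp only [gc, inner_add_right, inner_smul_right]
  ring

theorem gc_zero' {f : OrthonormalBasis (Fin 3) ℝ E3} {x : S2} (h : f 0 = (x : E3)) :
    gc f 0 = x := by
  apply Subtype.ext
  simp [gc, h]

theorem ev_gc_ee (P : MvPolynomial (Fin 3) ℝ) (f : OrthonormalBasis (Fin 3) ℝ E3) (t : ℝ) :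
    ev P (gc f t) = eval (ee f t) P := by
  rw [ev_gc]
  rfl

theorem gc_ev_deriv (P : MvPolynomial (Fin 3) ℝ) (f : OrthonormalBasis (Fin 3) ℝ E3) (t : ℝ) :
    HasDerivAt (fun t => ev P (gc f t)) (∑ i, et f t i * eval (ee f t) (pderiv i P)) t := by
  have h : (fun t => ev P (gc f t)) = fun t => eval (ee f t) P := funext (ev_gc_ee P f)
  rw [h]
  exact ee_eval_deriv f P t

/-- The sum of the two second derivatives in a transported frame. -/
theorem lap_pair {P : MvPolynomial (Fin 3) ℝ} {ℓ : ℕ} (hP : P.IsHomogeneous ℓ)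
    (hh : ∑ i : Fin 3, pderiv i (pderiv i P) = 0) (hℓ : 1 ≤ ℓ)
    {f g : OrthonormalBasis (Fin 3) ℝ E3} {x : S2} (hf : f 0 = (x : E3)) (hg : g 0 = (x : E3))
    (hfg : f 2 = g 1) :
    (∑ i, (-(ee f 0 i) * eval (ee f 0) (pderiv i P) +
        et f 0 i * ∑ j, et f 0 j * eval (ee f 0) (pderiv j (pderiv i P)))) +
    (∑ i, (-(ee g 0 i) * eval (ee g 0) (pderiv i P) +
        et g 0 i * ∑ j, et g 0 j * eval (ee g 0) (pderiv j (pderiv i P)))) =
      -((ℓ : ℝ) * (ℓ + 1)) * ev P x := by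
  have h := poly_laplace hP hh hℓ f
  have e1 : ee f 0 = fun i => (f 0) i := by funext i; simp [ee]
  have e2 : ee g 0 = fun i => (f 0) i := by funext i; simp [ee, hg, hf]
  have e3 : ∀ i, et f 0 i = (f 1) i := by intro i; simp [et]
  have e4 : ∀ i, et g 0 i = (f 2) i := by intro i; simp [et, hfg]
  have e5 : ev P x = eval (fun i => (f 0) i) P := by rw [hf]; rfl
  rw [e1, e2, e5]
  simp only [e3, e4]
  exact h

end Run7.h506
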