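import Mathlib
import Pool.Agent.Run7.h506.NPd

set_option autoImplicit false

namespace Run7.h506

open Set Topology Filter MvPolynomial

/-- Comparison with an arbitrary positive strict supersolution whose second derivatives along
great circles are known. -/
theorem barta_gen {P : MvPolynomial (Fin 3) ℝ} {ℓ : ℕ} (hP : P.IsHomogeneous ℓ)
    (hh : ∑ i : Fin 3, pderiv i (pderiv i P) = 0) (hℓ : 1 ≤ ℓ) (c : S2) (hc : 0 < ev P c)
    {ψ : S2 → ℝ} (hψc : Continuous ψ)
    (hpos : ∀ x ∈ closure (connectedComponentIn {y : S2 | 0 < ev P y} c), 0 < ψ x)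
    (hder : ∀ (x : S2) (f g : OrthonormalBasis (Fin 3) ℝ E3), f 0 = (x : E3) → g 0 = (x : E3) →
      f 2 = g 1 → ∃ (F1 G1 : ℝ → ℝ) (F2 G2 : ℝ),
        (∀ t, HasDerivAt (fun t => ψ (gc f t)) (F1 t) t) ∧ HasDerivAt F1 F2 0 ∧
        (∀ t, HasDerivAt (fun t => ψ (gc g t)) (G1 t) t) ∧ HasDerivAt G1 G2 0 ∧
        F2 + G2 + (ℓ : ℝ) * (ℓ + 1) * ψ x < 0) : False := by
  classical
  have hcont : Continuous (fun y : S2 => ev P y) := (ev_continuous P).comp continuous_subtype_val
  have hAo : IsOpen {y : S2 | 0 < ev P y} := isOpen_lt continuous_const hcont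
  set A : Set S2 := {y : S2 | 0 < ev P y} with hA
  set D := connectedComponentIn A c with hD
  have hcA : c ∈ A := hc
  have hcD : c ∈ D := mem_connectedComponentIn hcA
  have hDo : IsOpen D := hAo.connectedComponentIn
  set K := closure D with hK
  have hKc : IsCompact K := isClosed_closure.isCompact
  have hKne : K.Nonempty := ⟨c, subset_closure hcD⟩
  obtain ⟨x, hxK, hxmax⟩ := hKc.exists_isMaxOn hKne
    (f := fun y => ev P y / ψ y)
    (hcont.continuousOn.div hψc.continuousOn (fun y hy => (hpos y hy).ne'))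
  set M := ev P x / ψ x with hM
  have hMpos : 0 < M := by
    have h3 : ev P c / ψ c ≤ M := hxmax (subset_closure hcD)
    have h4 : 0 < ev P c / ψ c := div_pos hc (hpos c (subset_closure hcD))
    linarith
  have hxψ : 0 < ψ x := hpos x hxK
  have hxval : ev P x = M * ψ x := by
    rw [hM]; field_simp
  have hxA : x ∈ A := by
    show 0 < ev P x
    rw [hxval]; positivity
  have hxD : x ∈ D := mem_comp_of_mem_closure hAo hxK hxA
  have hle : ∀ y ∈ K, ev P y - M * ψ y ≤ 0 := by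
    intro y hy
    have h3 : ev P y / ψ y ≤ M := hxmax hy
    rw [div_le_iff₀ (hpos y hy)] at h3
    linarith
  -- an orthonormal basis starting at x
  have hxn : ‖(x : E3)‖ = 1 := mem_sphere_zero_iff_norm.1 x.2
  obtain ⟨n, hn1, hn2⟩ := exists_unit_orth (x : E3)
  obtain ⟨e, he0, he2⟩ := exists_basis_ext (x : E3) n hxn hn1 (by rw [real_inner_comm]; exact hn2)
  set e' := e.reindex (Equiv.swap (1 : Fin 3) 2) with he'
  have he'0 : e' 0 = (x : E3) := by
    rw [he', OrthonormalBasis.reindex_apply, ← he0]; congr 1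
  have he'1 : e' 1 = e 2 := by
    rw [he', OrthonormalBasis.reindex_apply]; congr 1
  have hlocal : ∀ f : OrthonormalBasis (Fin 3) ℝ E3, f 0 = x →
      IsLocalMax (fun t => ev P (gc f t) - M * ψ (gc f t)) 0 := by
    intro f hf
    have hg0 : gc f 0 = x := gc_zero' hf
    have hmem : ∀ᶠ t in 𝓝 (0 : ℝ), gc f t ∈ D := by
      apply (gc_continuous f).continuousAt.eventually_mem
      rw [hg0]
      exact hDo.mem_nhds hxD
    filter_upwards [hmem] with t ht
    have h3 := hle _ (subset_closure ht)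
    have h4 : ev P (gc f 0) - M * ψ (gc f 0) = 0 := by
      rw [hg0, hxval]; ring
    rw [h4]
    exact h3
  obtain ⟨F1, G1, F2, G2, hF1, hF2, hG1, hG2, hlt⟩ := hder x e e' he0 he'0 he'1.symm
  have k1 := second_deriv_local (H := fun t => ev P (gc e t) - M * ψ (gc e t))
    (H1 := fun t => ∑ i, et e t i * eval (ee e t) (pderiv i P) - M * F1 t)
    (Eventually.of_forall (fun t => (gc_ev_deriv P e t).sub ((hF1 t).const_mul M)))
    ((ee_eval_deriv2 e P 0).sub (hF2.const_mul M)) (hlocal e he0)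
  have k2 := second_deriv_local (H := fun t => ev P (gc e' t) - M * ψ (gc e' t))
    (H1 := fun t => ∑ i, et e' t i * eval (ee e' t) (pderiv i P) - M * G1 t)
    (Eventually.of_forall (fun t => (gc_ev_deriv P e' t).sub ((hG1 t).const_mul M)))
    ((ee_eval_deriv2 e' P 0).sub (hG2.const_mul M)) (hlocal e' he'0)
  have hlap := lap_pair hP hh hℓ he0 he'0 he'1.symm
  rw [hxval] at hlap
  have h5 : M * (F2 + G2 + (ℓ : ℝ) * (ℓ + 1) * ψ x) < 0 := mul_neg_of_pos_of_neg hMpos hlt
  nlinarith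

/-- Second derivatives of the ridge barrier along a great circle. -/
theorem ridge_deriv (z0 z1 w : ℂ) (ℓ : ℕ) :
    ∃ F1 : ℝ → ℝ, (∀ t : ℝ, HasDerivAt (fun t : ℝ => (w * (z0 * Real.cos t + z1 * Real.sin t) ^ ℓ).im)
      (F1 t) t) ∧ HasDerivAt F1
        (w * (ℓ * (ℓ - 1 : ℕ) * z0 ^ (ℓ - 1 - 1) * z1 ^ 2 - ℓ * z0 ^ (ℓ - 1) * z0)).im 0 := by
  have hz : ∀ t : ℝ, HasDerivAt (fun t : ℝ => z0 * Real.cos t + z1 * Real.sin t)
      (-z0 * Real.sin t + z1 * Real.cos t) t := by
    intro t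
    have h1 : HasDerivAt (fun t : ℝ => ((Real.cos t : ℝ) : ℂ)) ((-Real.sin t : ℝ) : ℂ) t :=
      (Real.hasDerivAt_cos t).ofReal_comp
    have h2 : HasDerivAt (fun t : ℝ => ((Real.sin t : ℝ) : ℂ)) ((Real.cos t : ℝ) : ℂ) t :=
      (Real.hasDerivAt_sin t).ofReal_comp
    refine ((h1.const_mul z0).add (h2.const_mul z1)).congr_deriv ?_
    push_cast
    ring
  have hz' : ∀ t : ℝ, HasDerivAt (fun t : ℝ => -z0 * Real.sin t + z1 * Real.cos t)
      (-(z0 * Real.cos t + z1 * Real.sin t)) t := by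
    intro t
    have h1 : HasDerivAt (fun t : ℝ => ((Real.cos t : ℝ) : ℂ)) ((-Real.sin t : ℝ) : ℂ) t :=
      (Real.hasDerivAt_cos t).ofReal_comp
    have h2 : HasDerivAt (fun t : ℝ => ((Real.sin t : ℝ) : ℂ)) ((Real.cos t : ℝ) : ℂ) t :=
      (Real.hasDerivAt_sin t).ofReal_comp
    refine ((h2.const_mul (-z0)).add (h1.const_mul z1)).congr_deriv ?_
    push_cast
    ring
  have him : ∀ {f : ℝ → ℂ} {f' : ℂ} {t : ℝ}, HasDerivAt f f' t →
      HasDerivAt (fun t => (f t).im) f'.im t := by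
    intro f f' t h
    exact (Complex.imCLM.hasFDerivAt.comp_hasDerivAt t h)
  refine ⟨fun t => (w * (ℓ * (z0 * Real.cos t + z1 * Real.sin t) ^ (ℓ - 1) *
    (-z0 * Real.sin t + z1 * Real.cos t))).im, ?_, ?_⟩
  · intro t
    apply him
    exact ((hz t).pow ℓ).const_mul w
  · apply him
    have h3 := ((((hz 0).pow (ℓ - 1)).const_mul (ℓ : ℂ)).mul (hz' 0)).const_mul w
    refine h3.congr_deriv ?_
    simp only [Pi.pow_apply, Real.cos_zero, Real.sin_zero, Complex.ofReal_one,
      Complex.ofReal_zero, mul_one, mul_zero, add_zero, zero_add]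
    ring

end Run7.h506
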