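import Mathlib
import Pool.Agent.Run7.h506.Bgen

set_option autoImplicit false

namespace Run7.h506

open Set Topology Filter MvPolynomial

/-- Complex coordinate in the plane orthogonal to the axis `b 2`. -/
noncomputable def zc (b : OrthonormalBasis (Fin 3) ℝ E3) (x : E3) : ℂ :=
  ⟨inner ℝ (b 0) x, inner ℝ (b 1) x⟩

theorem zc_gc (b f : OrthonormalBasis (Fin 3) ℝ E3) (t : ℝ) :
    zc b (gc f t) = zc b (f 0) * Real.cos t + zc b (f 1) * Real.sin t := by
  apply Complex.ext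
  · simp only [zc, gc_inner, Complex.add_re, Complex.mul_re, Complex.ofReal_re, Complex.ofReal_im]
    ring
  · simp only [zc, gc_inner, Complex.add_im, Complex.mul_im, Complex.ofReal_re, Complex.ofReal_im]
    ring

theorem zc_sum (b f : OrthonormalBasis (Fin 3) ℝ E3) :
    zc b (f 0) ^ 2 + zc b (f 1) ^ 2 + zc b (f 2) ^ 2 = 0 := by
  have h00 := f.sum_inner_mul_inner (b 0) (b 0)
  have h11 := f.sum_inner_mul_inner (b 1) (b 1)
  have h01 := f.sum_inner_mul_inner (b 0) (b 1)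
  rw [Fin.sum_univ_three] at h00 h11 h01
  have o01 : inner ℝ (b 0) (b 1) = 0 := b.orthonormal.2 (by decide)
  rw [o01] at h01
  have n0 : inner ℝ (b 0) (b 0) = 1 := by simp
  have n1 : inner ℝ (b 1) (b 1) = 1 := by simp
  rw [n0] at h00
  rw [n1] at h11
  have c0 : ∀ j, inner ℝ (f j) (b 0) = inner ℝ (b 0) (f j) := fun j => real_inner_comm _ _
  have c1 : ∀ j, inner ℝ (f j) (b 1) = inner ℝ (b 1) (f j) := fun j => real_inner_comm _ _
  simp only [c0] at h00
  simp only [c1] at h11 h01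
  apply Complex.ext
  · simp only [zc, sq, Complex.add_re, Complex.mul_re, Complex.zero_re]
    linarith
  · simp only [zc, sq, Complex.add_im, Complex.mul_im, Complex.zero_im]
    linarith

theorem zc_normSq (b : OrthonormalBasis (Fin 3) ℝ E3) (x : S2) :
    ‖zc b (x : E3)‖ ^ 2 = 1 - inner ℝ (b 2) (x : E3) ^ 2 := by
  have h1 := b.sum_sq_inner_right (x : E3)
  rw [Fin.sum_univ_three] at h1
  have hxn : ‖(x : E3)‖ = 1 := mem_sphere_zero_iff_norm.1 x.2
  rw [hxn] at h1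
  rw [← Complex.normSq_eq_norm_sq, Complex.normSq_apply]
  simp only [zc]
  linarith

theorem zc_continuous (b : OrthonormalBasis (Fin 3) ℝ E3) :
    Continuous (fun x : S2 => zc b (x : E3)) := by
  have h : (fun x : S2 => zc b (x : E3)) = fun x : S2 =>
      ((inner ℝ (b 0) (x : E3) : ℝ) : ℂ) + ((inner ℝ (b 1) (x : E3) : ℝ) : ℂ) * Complex.I := by
    funext x
    apply Complex.ext <;> simp [zc]
  rw [h]
  fun_prop

/-- No positive nodal domain lies in a lune of angle less than `π / ℓ`. -/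
theorem no_narrow {P : MvPolynomial (Fin 3) ℝ} {ℓ : ℕ} (hP : P.IsHomogeneous ℓ)
    (hh : ∑ i : Fin 3, pderiv i (pderiv i P) = 0) (hℓ : 2 ≤ ℓ) (c : S2) (hc : 0 < ev P c)
    (b : OrthonormalBasis (Fin 3) ℝ E3) (w : ℂ) {κ : ℝ} (hκ : 0 < κ)
    (hlow : ∀ x ∈ connectedComponentIn {y : S2 | 0 < ev P y} c,
      κ * ‖zc b (x : E3)‖ ^ ℓ ≤ (w * zc b (x : E3) ^ ℓ).im) : False := by
  have hℓR : (2 : ℝ) ≤ ℓ := by exact_mod_cast hℓ
  set Λ : ℝ := (ℓ : ℝ) * (ℓ + 1) with hΛ
  have hΛ6 : 6 ≤ Λ := by rw [hΛ]; nlinarith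
  set D := connectedComponentIn {y : S2 | 0 < ev P y} c with hD
  have hzc := zc_continuous b
  have hP1c : Continuous (fun x : S2 => (w * zc b (x : E3) ^ ℓ).im) :=
    Complex.continuous_im.comp (continuous_const.mul (hzc.pow ℓ))
  have hcl : ∀ x ∈ closure D, κ * ‖zc b (x : E3)‖ ^ ℓ ≤ (w * zc b (x : E3) ^ ℓ).im := by
    intro x hx
    have hclosed : IsClosed {x : S2 | κ * ‖zc b (x : E3)‖ ^ ℓ ≤ (w * zc b (x : E3) ^ ℓ).im} :=
      isClosed_le (continuous_const.mul (hzc.norm.pow ℓ)) hP1c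
    exact closure_minimal (fun y hy => hlow y hy) hclosed hx
  -- the size of the correction
  set r0 : ℝ := 1 / (2 * Λ) with hr0
  have hr0pos : 0 < r0 := by rw [hr0]; positivity
  set ε : ℝ := κ * r0 ^ ℓ / (2 * Λ) with hε
  have hεpos : 0 < ε := by rw [hε]; positivity
  set ψ : S2 → ℝ := fun x => (w * zc b (x : E3) ^ ℓ).im +
    ε * (1 - Λ + Λ * inner ℝ (b 2) (x : E3) ^ 2) with hψ
  have hψc : Continuous ψ := by
    simp only [hψ]
    apply hP1c.add
    fun_prop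
  refine barta_gen hP hh (by omega) c hc hψc ?_ ?_
  · intro x hx
    have h1 := hcl x hx
    have h2 := zc_normSq b x
    set n := ‖zc b (x : E3)‖ with hn
    have hn0 : 0 ≤ n := norm_nonneg _
    have h3 : 1 - Λ + Λ * inner ℝ (b 2) (x : E3) ^ 2 = 1 - Λ * n ^ 2 := by
      rw [h2]; ring
    simp only [hψ]
    rw [h3]
    have hn1 : n ^ 2 ≤ 1 := by
      rw [h2]; nlinarith [sq_nonneg (inner ℝ (b 2) (x : E3))]
    by_cases hcase : n ≤ r0
    · have h4 : 0 ≤ κ * n ^ ℓ := by positivity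
      have h5 : Λ * n ^ 2 ≤ 1 / 2 := by
        have h6 : n ^ 2 ≤ r0 ^ 2 := pow_le_pow_left₀ hn0 hcase 2
        have h7 : Λ * r0 ^ 2 = r0 / 2 := by
          rw [hr0]; field_simp
        have h8 : r0 ≤ 1 := by
          rw [hr0, div_le_one (by positivity)]; linarith
        nlinarith
      nlinarith
    · push Not at hcase
      have h4 : r0 ^ ℓ < n ^ ℓ := pow_lt_pow_left₀ hcase hr0pos.le (by omega)
      have h5 : ε * (2 * Λ) = κ * r0 ^ ℓ := by
        rw [hε]; field_simp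
      have h6 : κ * r0 ^ ℓ < κ * n ^ ℓ := mul_lt_mul_of_pos_left h4 hκ
      have h7 : -(ε * Λ) ≤ ε * (1 - Λ * n ^ 2) := by
        have : -Λ ≤ 1 - Λ * n ^ 2 := by nlinarith
        nlinarith
      nlinarith
  · intro x f g hf hg hfg
    obtain ⟨F1, hF1, hF2⟩ := ridge_deriv (zc b (f 0)) (zc b (f 1)) w ℓ
    obtain ⟨G1, hG1, hG2⟩ := ridge_deriv (zc b (g 0)) (zc b (g 1)) w ℓ
    -- the quadratic part
    have hq : ∀ (Z0 Z1 t : ℝ), HasDerivAt
        (fun t : ℝ => ε * (1 - Λ + Λ * (Z0 * Real.cos t + Z1 * Real.sin t) ^ 2))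
        (ε * (Λ * (2 * (Z0 * Real.cos t + Z1 * Real.sin t) *
          (-Z0 * Real.sin t + Z1 * Real.cos t)))) t := by
      intro Z0 Z1 t
      have h1 : HasDerivAt (fun t : ℝ => Z0 * Real.cos t + Z1 * Real.sin t)
          (-Z0 * Real.sin t + Z1 * Real.cos t) t := by
        refine (((Real.hasDerivAt_cos t).const_mul Z0).add
          ((Real.hasDerivAt_sin t).const_mul Z1)).congr_deriv ?_
        ring
      refine ((((h1.pow 2).const_mul Λ).const_add (1 - Λ)).const_mul ε).congr_deriv ?_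
      norm_num
    have hq' : ∀ (Z0 Z1 : ℝ), HasDerivAt
        (fun t : ℝ => ε * (Λ * (2 * (Z0 * Real.cos t + Z1 * Real.sin t) *
          (-Z0 * Real.sin t + Z1 * Real.cos t))))
        (ε * (Λ * (2 * (Z1 ^ 2 - Z0 ^ 2)))) 0 := by
      intro Z0 Z1
      have h1 : HasDerivAt (fun t : ℝ => Z0 * Real.cos t + Z1 * Real.sin t)
          (-Z0 * Real.sin 0 + Z1 * Real.cos 0) 0 := by
        refine (((Real.hasDerivAt_cos 0).const_mul Z0).add
          ((Real.hasDerivAt_sin 0).const_mul Z1)).congr_deriv ?_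
        ring
      have h2 : HasDerivAt (fun t : ℝ => -Z0 * Real.sin t + Z1 * Real.cos t)
          (-Z0 * Real.cos 0 - Z1 * Real.sin 0) 0 := by
        refine (((Real.hasDerivAt_sin 0).const_mul (-Z0)).add
          ((Real.hasDerivAt_cos 0).const_mul Z1)).congr_deriv ?_
        ring
      refine ((((h1.const_mul 2).mul h2).const_mul Λ).const_mul ε).congr_deriv ?_
      simp only [Real.cos_zero, Real.sin_zero]
      ring
    have eψ : ∀ (F : OrthonormalBasis (Fin 3) ℝ E3) (t : ℝ), ψ (gc F t) =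
        (w * (zc b (F 0) * Real.cos t + zc b (F 1) * Real.sin t) ^ ℓ).im +
        ε * (1 - Λ + Λ * (inner ℝ (b 2) (F 0) * Real.cos t +
          inner ℝ (b 2) (F 1) * Real.sin t) ^ 2) := by
      intro F t
      simp only [hψ]
      rw [zc_gc, gc_inner]
    refine ⟨fun t => F1 t + ε * (Λ * (2 * (inner ℝ (b 2) (f 0) * Real.cos t +
        inner ℝ (b 2) (f 1) * Real.sin t) *
        (-inner ℝ (b 2) (f 0) * Real.sin t + inner ℝ (b 2) (f 1) * Real.cos t))),
      fun t => G1 t + ε * (Λ * (2 * (inner ℝ (b 2) (g 0) * Real.cos t +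
        inner ℝ (b 2) (g 1) * Real.sin t) *
        (-inner ℝ (b 2) (g 0) * Real.sin t + inner ℝ (b 2) (g 1) * Real.cos t))),
      _, _, ?_, hF2.add (hq' _ _), ?_, hG2.add (hq' _ _), ?_⟩
    · intro t
      have : (fun t => ψ (gc f t)) = fun t =>
        (w * (zc b (f 0) * Real.cos t + zc b (f 1) * Real.sin t) ^ ℓ).im +
        ε * (1 - Λ + Λ * (inner ℝ (b 2) (f 0) * Real.cos t +
          inner ℝ (b 2) (f 1) * Real.sin t) ^ 2) := funext (eψ f)
      rw [this]
      exact (hF1 t).add (hq _ _ t)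
    · intro t
      have : (fun t => ψ (gc g t)) = fun t =>
        (w * (zc b (g 0) * Real.cos t + zc b (g 1) * Real.sin t) ^ ℓ).im +
        ε * (1 - Λ + Λ * (inner ℝ (b 2) (g 0) * Real.cos t +
          inner ℝ (b 2) (g 1) * Real.sin t) ^ 2) := funext (eψ g)
      rw [this]
      exact (hG1 t).add (hq _ _ t)
    · -- the strict inequality
      have hz := zc_sum b f
      rw [hfg] at hz
      have hgf : g 0 = f 0 := by rw [hg, hf]
      rw [hgf]
      obtain ⟨k, rfl⟩ : ∃ k, ℓ = k + 2 := ⟨ℓ - 2, by omega⟩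
      have hx0 : ψ x = (w * zc b (f 0) ^ (k + 2)).im +
          ε * (1 - Λ + Λ * inner ℝ (b 2) (f 0) ^ 2) := by
        simp only [hψ]
        rw [hf]
      rw [hx0]
      have hZ := f.sum_sq_inner_left (b 2)
      rw [Fin.sum_univ_three] at hZ
      have hb2 : ‖b 2‖ = 1 := b.orthonormal.1 2
      rw [hb2, hfg] at hZ
      have e1 : (w * (((k + 2 : ℕ) : ℂ) * ((k + 2 - 1 : ℕ) : ℂ) * zc b (f 0) ^ (k + 2 - 1 - 1) *
          zc b (f 1) ^ 2 - ((k + 2 : ℕ) : ℂ) * zc b (f 0) ^ (k + 2 - 1) * zc b (f 0))) +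
          (w * (((k + 2 : ℕ) : ℂ) * ((k + 2 - 1 : ℕ) : ℂ) * zc b (f 0) ^ (k + 2 - 1 - 1) *
          zc b (g 1) ^ 2 - ((k + 2 : ℕ) : ℂ) * zc b (f 0) ^ (k + 2 - 1) * zc b (f 0))) =
          ((-Λ : ℝ) : ℂ) * (w * zc b (f 0) ^ (k + 2)) := by
        have e2 : k + 2 - 1 = k + 1 := by omega
        have e3 : k + 2 - 1 - 1 = k := by omega
        rw [e3, e2, hΛ]
        push_cast
        linear_combination (w * (k + 2) * (k + 1) * zc b (f 0) ^ k) * hz
      have e4 := congrArg Complex.im e1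
      rw [Complex.add_im, Complex.im_ofReal_mul] at e4
      have hZ1 : inner ℝ (b 2) (f 0) ^ 2 ≤ 1 := by
        nlinarith [sq_nonneg (inner ℝ (b 2) (f 1)), sq_nonneg (inner ℝ (b 2) (g 1))]
      set Z := inner ℝ (b 2) (f 0) with hZd
      set Z1 := inner ℝ (b 2) (f 1) with hZ1d
      set Z2 := inner ℝ (b 2) (g 1) with hZ2d
      have hfin : ε * (Λ * (2 * (Z1 ^ 2 - Z ^ 2))) + ε * (Λ * (2 * (Z2 ^ 2 - Z ^ 2))) +
          Λ * (ε * (1 - Λ + Λ * Z ^ 2)) < 0 := by
        have h8 : ε * (Λ * (2 * (Z1 ^ 2 - Z ^ 2))) + ε * (Λ * (2 * (Z2 ^ 2 - Z ^ 2))) +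
          Λ * (ε * (1 - Λ + Λ * Z ^ 2)) = ε * (Λ * (3 - Λ + (Λ - 6) * Z ^ 2)) := by
          have : Z1 ^ 2 + Z2 ^ 2 = 1 - Z ^ 2 := by linarith
          linear_combination (2 * ε * Λ) * this
        rw [h8]
        apply mul_neg_of_pos_of_neg hεpos
        apply mul_neg_of_pos_of_neg (by linarith)
        nlinarith
      linarith

end Run7.h506
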