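import Mathlib

set_option autoImplicit false

namespace Run7.h506

/-- The vertex inequality. -/
theorem vertex_pos (P Q : ℝ) (hP : |P| < 1) (hQ : |Q| < 1) :
    0 < (1 - Q ^ 2) * (18 * P ^ 2 - 8 * P - 2) + (1 - P ^ 2) * (18 * Q ^ 2 - 8 * Q - 2)
      + 8 * P * Q * (P + 1) * (Q + 1) + 9 * (1 - P ^ 2) * (1 - Q ^ 2) := by
  rw [abs_lt] at hP hQ
  set p := 1 + P with hp
  set q := 1 + Q with hq
  have hPp : P = p - 1 := by rw [hp]; ring
  have hQq : Q = q - 1 := by rw [hq]; ring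
  have hp0 : 0 < p := by linarith [hP.1]
  have hp2 : p < 2 := by linarith [hP.2]
  have hq0 : 0 < q := by linarith [hQ.1]
  have hq2 : q < 2 := by linarith [hQ.2]
  set s := p + q with hs
  set t := p * q with ht
  have hexpr : (1 - Q ^ 2) * (18 * P ^ 2 - 8 * P - 2) + (1 - P ^ 2) * (18 * Q ^ 2 - 8 * Q - 2)
      + 8 * P * Q * (P + 1) * (Q + 1) + 9 * (1 - P ^ 2) * (1 - Q ^ 2)
      = 48 * s - 24 * s ^ 2 - 84 * t + 54 * t * s - 19 * t ^ 2 := by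
    rw [hPp, hQq, hs, ht]; ring
  rw [hexpr]
  have hs0 : 0 < s := by positivity
  have hs4 : s < 4 := by linarith
  have ht0 : 0 < t := by positivity
  have ht1 : 2 * s - 4 < t := by
    have : 0 < (2 - p) * (2 - q) := mul_pos (by linarith) (by linarith)
    nlinarith
  have ht2 : t ≤ s ^ 2 / 4 := by
    nlinarith [sq_nonneg (p - q)]
  have hphi : 0 < 768 - 720 * s + 216 * s ^ 2 - 19 * s ^ 3 := by
    nlinarith [mul_nonneg (by linarith : (0 : ℝ) ≤ 4 - s) (sq_nonneg (s - 5 / 2)),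
      sq_nonneg (s - 59 / 24)]
  have hE2 : 0 < 48 * s - 24 * s ^ 2 - 84 * (s ^ 2 / 4) + 54 * (s ^ 2 / 4) * s
      - 19 * (s ^ 2 / 4) ^ 2 := by
    have : 48 * s - 24 * s ^ 2 - 84 * (s ^ 2 / 4) + 54 * (s ^ 2 / 4) * s
      - 19 * (s ^ 2 / 4) ^ 2 = s * (768 - 720 * s + 216 * s ^ 2 - 19 * s ^ 3) / 16 := by ring
    rw [this]
    positivity
  -- interpolation between t1 and t2
  have hinterp : ∀ t1 t2 : ℝ, t1 < t → t ≤ t2 →
      0 ≤ 48 * s - 24 * s ^ 2 - 84 * t1 + 54 * t1 * s - 19 * t1 ^ 2 →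
      0 < 48 * s - 24 * s ^ 2 - 84 * t2 + 54 * t2 * s - 19 * t2 ^ 2 →
      0 < 48 * s - 24 * s ^ 2 - 84 * t + 54 * t * s - 19 * t ^ 2 := by
    intro t1 t2 h1 h2 h3 h4
    have h5 : 0 < (t2 - t1) * (48 * s - 24 * s ^ 2 - 84 * t + 54 * t * s - 19 * t ^ 2) := by
      have h6 : (t2 - t1) * (48 * s - 24 * s ^ 2 - 84 * t + 54 * t * s - 19 * t ^ 2) =
        (48 * s - 24 * s ^ 2 - 84 * t1 + 54 * t1 * s - 19 * t1 ^ 2) * (t2 - t) +
        (48 * s - 24 * s ^ 2 - 84 * t2 + 54 * t2 * s - 19 * t2 ^ 2) * (t - t1) +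
        19 * ((t - t1) * (t2 - t) * (t2 - t1)) := by ring
      rw [h6]
      have h7 : 0 ≤ (48 * s - 24 * s ^ 2 - 84 * t1 + 54 * t1 * s - 19 * t1 ^ 2) * (t2 - t) :=
        mul_nonneg h3 (by linarith)
      have h8 : 0 < (48 * s - 24 * s ^ 2 - 84 * t2 + 54 * t2 * s - 19 * t2 ^ 2) * (t - t1) :=
        mul_pos h4 (by linarith)
      have h9 : 0 ≤ (t - t1) * (t2 - t) * (t2 - t1) :=
        mul_nonneg (mul_nonneg (by linarith) (by linarith)) (by linarith)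
      linarith
    exact (pos_iff_pos_of_mul_pos h5).1 (by linarith)
  rcases le_total s 2 with h | h
  · apply hinterp 0 (s ^ 2 / 4) ht0 ht2 _ hE2
    nlinarith
  · apply hinterp (2 * s - 4) (s ^ 2 / 4) ht1 ht2 _ hE2
    nlinarith [sq_nonneg (s - 2)]

/-- The key polynomial inequality for the product supersolution. -/
theorem key_poly (a b m P Q x y : ℝ) (ha : 24 ≤ a) (hb : 24 ≤ b) (hm : 9 ≤ m)
    (hP : |P| < 1) (hQ : |Q| < 1) (hx : |x| ≤ 1) (hy : |y| ≤ 1) :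
    0 < (1 - Q ^ 2) * ((a - 6) * P ^ 2 - 8 * P * x - 2 * x ^ 2)
      + (1 - P ^ 2) * ((b - 6) * Q ^ 2 - 8 * Q * y - 2 * y ^ 2)
      + 8 * P * Q * (P + x) * (Q + y) + m * (1 - P ^ 2) * (1 - Q ^ 2) := by
  have hP' := abs_lt.1 hP
  have hQ' := abs_lt.1 hQ
  have hx' := abs_le.1 hx
  have hy' := abs_le.1 hy
  have hP2 : 0 < 1 - P ^ 2 := by nlinarith
  have hQ2 : 0 < 1 - Q ^ 2 := by nlinarith
  -- values with y = ±1 and x = ±1
  set Φ : ℝ → ℝ → ℝ := fun x y => (1 - Q ^ 2) * (18 * P ^ 2 - 8 * P * x - 2 * x ^ 2)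
      + (1 - P ^ 2) * (18 * Q ^ 2 - 8 * Q * y - 2 * y ^ 2)
      + 8 * P * Q * (P + x) * (Q + y) + 9 * (1 - P ^ 2) * (1 - Q ^ 2) with hΦ
  have v11 : 0 < Φ 1 1 := by
    have := vertex_pos P Q hP hQ
    simp only [hΦ]; nlinarith
  have v1n : 0 < Φ 1 (-1) := by
    have := vertex_pos P (-Q) hP (by rwa [abs_neg])
    simp only [hΦ]; nlinarith
  have vn1 : 0 < Φ (-1) 1 := by
    have := vertex_pos (-P) Q (by rwa [abs_neg]) hQ
    simp only [hΦ]; nlinarith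
  have vnn : 0 < Φ (-1) (-1) := by
    have := vertex_pos (-P) (-Q) (by rwa [abs_neg]) (by rwa [abs_neg])
    simp only [hΦ]; nlinarith
  have hy1 : ∀ x, Φ x y = (1 + y) / 2 * Φ x 1 + (1 - y) / 2 * Φ x (-1)
      + 2 * (1 - P ^ 2) * (1 - y ^ 2) := by
    intro x; simp only [hΦ]; ring
  have hx1 : ∀ y, Φ x y = (1 + x) / 2 * Φ 1 y + (1 - x) / 2 * Φ (-1) y
      + 2 * (1 - Q ^ 2) * (1 - x ^ 2) := by
    intro y; simp only [hΦ]; ring
  have hy2 : 0 ≤ 1 - y ^ 2 := by nlinarith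
  have hx2 : 0 ≤ 1 - x ^ 2 := by nlinarith
  have hpos : ∀ u v w : ℝ, 0 < v → 0 < w → -1 ≤ u → u ≤ 1 →
      0 < (1 + u) / 2 * v + (1 - u) / 2 * w := by
    intro u v w hv hw h1 h2
    rcases le_total u 0 with h | h
    · have : 0 < (1 - u) / 2 * w := mul_pos (by linarith) hw
      have : 0 ≤ (1 + u) / 2 * v := mul_nonneg (by linarith) hv.le
      linarith
    · have : 0 < (1 + u) / 2 * v := mul_pos (by linarith) hv
      have : 0 ≤ (1 - u) / 2 * w := mul_nonneg (by linarith) hw.le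
      linarith
  have hA : 0 < Φ 1 y := by
    rw [hy1 1]
    have h1 := hpos y _ _ v11 v1n hy'.1 hy'.2
    have h2 : 0 ≤ 2 * (1 - P ^ 2) * (1 - y ^ 2) := by positivity
    linarith
  have hB : 0 < Φ (-1) y := by
    rw [hy1 (-1)]
    have h1 := hpos y _ _ vn1 vnn hy'.1 hy'.2
    have h2 : 0 ≤ 2 * (1 - P ^ 2) * (1 - y ^ 2) := by positivity
    linarith
  have hC : 0 < Φ x y := by
    rw [hx1 y]
    have h1 := hpos x _ _ hA hB hx'.1 hx'.2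
    have h2 : 0 ≤ 2 * (1 - Q ^ 2) * (1 - x ^ 2) := by positivity
    linarith
  have hD : (1 - Q ^ 2) * ((a - 6) * P ^ 2 - 8 * P * x - 2 * x ^ 2)
      + (1 - P ^ 2) * ((b - 6) * Q ^ 2 - 8 * Q * y - 2 * y ^ 2)
      + 8 * P * Q * (P + x) * (Q + y) + m * (1 - P ^ 2) * (1 - Q ^ 2)
      = Φ x y + (a - 24) * ((1 - Q ^ 2) * P ^ 2) + (b - 24) * ((1 - P ^ 2) * Q ^ 2)
        + (m - 9) * ((1 - P ^ 2) * (1 - Q ^ 2)) := by
    simp only [hΦ]; ring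
  rw [hD]
  have h1 : 0 ≤ (a - 24) * ((1 - Q ^ 2) * P ^ 2) :=
    mul_nonneg (by linarith) (by positivity)
  have h2 : 0 ≤ (b - 24) * ((1 - P ^ 2) * Q ^ 2) :=
    mul_nonneg (by linarith) (by positivity)
  have h3 : 0 ≤ (m - 9) * ((1 - P ^ 2) * (1 - Q ^ 2)) :=
    mul_nonneg (by linarith) (by positivity)
  linarith

end Run7.h506
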