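import Mathlib
import Pool.Agent.Run7.h506.Barta
import Pool.Agent.Run7.h506.KeyPoly

set_option autoImplicit false

namespace Run7.h506

open Set Topology MvPolynomial Filter

theorem quad_hasDeriv (α xc : ℝ) (x : ℝ) :
    HasDerivAt (fun x => 1 - α / 2 * (x - xc) ^ 2) (-α * (x - xc)) x := by
  have h := (((hasDerivAt_id x).sub_const xc).pow 2).const_mul (α / 2)
  have h2 := h.const_sub 1
  refine HasDerivAt.congr_deriv h2 ?_
  simp
  ring

theorem quad_hasDeriv' (α xc : ℝ) (x : ℝ) :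
    HasDerivAt (fun x => -α * (x - xc)) (-α) x := by
  have h := ((hasDerivAt_id x).sub_const xc).const_mul (-α)
  simpa using h

/-- Algebraic identity behind the product supersolution. -/
theorem prod_identity (w1 w2 P Q x y lam : ℝ) (h1 : w1 ≠ 0) (h2 : w2 ≠ 0) :
    lam * ((1 - (8 / w1 ^ 2) / 2 * (w1 * (P + x) / 2 - w1 * x / 2) ^ 2) *
        (1 - (8 / w2 ^ 2) / 2 * (w2 * (Q + y) / 2 - w2 * y / 2) ^ 2)) +
      (((1 - (w1 * (P + x) / 2) ^ 2) * (-(8 / w1 ^ 2)) -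
          2 * (w1 * (P + x) / 2) * (-(8 / w1 ^ 2) * (w1 * (P + x) / 2 - w1 * x / 2))) *
        (1 - (8 / w2 ^ 2) / 2 * (w2 * (Q + y) / 2 - w2 * y / 2) ^ 2) +
        (1 - (8 / w1 ^ 2) / 2 * (w1 * (P + x) / 2 - w1 * x / 2) ^ 2) *
        ((1 - (w2 * (Q + y) / 2) ^ 2) * (-(8 / w2 ^ 2)) -
          2 * (w2 * (Q + y) / 2) * (-(8 / w2 ^ 2) * (w2 * (Q + y) / 2 - w2 * y / 2))) -
        2 * (w1 * (P + x) / 2) * (w2 * (Q + y) / 2) *
          (-(8 / w1 ^ 2) * (w1 * (P + x) / 2 - w1 * x / 2)) *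
          (-(8 / w2 ^ 2) * (w2 * (Q + y) / 2 - w2 * y / 2))) =
    -((1 - Q ^ 2) * ((8 / w1 ^ 2 - 6) * P ^ 2 - 8 * P * x - 2 * x ^ 2)
      + (1 - P ^ 2) * ((8 / w2 ^ 2 - 6) * Q ^ 2 - 8 * Q * y - 2 * y ^ 2)
      + 8 * P * Q * (P + x) * (Q + y)
      + (8 / w1 ^ 2 + 8 / w2 ^ 2 - lam) * (1 - P ^ 2) * (1 - Q ^ 2)) := by
  field_simp
  ring

/-- Algebraic identity behind the one-variable supersolution. -/
theorem single_identity (w2 Q y lam : ℝ) (h2 : w2 ≠ 0) :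
    lam * (1 - (8 / w2 ^ 2) / 2 * (w2 * (Q + y) / 2 - w2 * y / 2) ^ 2) +
        ((1 - (w2 * (Q + y) / 2) ^ 2) * (-(8 / w2 ^ 2)) -
          2 * (w2 * (Q + y) / 2) * (-(8 / w2 ^ 2) * (w2 * (Q + y) / 2 - w2 * y / 2))) =
    -((8 / w2 ^ 2 - lam) + (lam - 6) * Q ^ 2 - 8 * Q * y - 2 * y ^ 2) := by
  field_simp
  ring

theorem sum_inv_sq_ge {w1 w2 N : ℝ} (h1 : 0 < w1) (h2 : 0 < w2) (hN : 0 < N)
    (hs : w1 + w2 = 8 / N) : N ^ 2 ≤ 8 / w1 ^ 2 + 8 / w2 ^ 2 := by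
  have hN' : N * (w1 + w2) = 8 := by rw [hs]; field_simp
  have h3 : N = 8 / (w1 + w2) := by
    have : w1 + w2 ≠ 0 := by positivity
    field_simp
    linarith
  rw [h3, div_pow, div_add_div _ _ (by positivity) (by positivity),
    div_le_div_iff₀ (by positivity) (by positivity)]
  have h4 : 2 * (w1 * w2) ≤ w1 ^ 2 + w2 ^ 2 := by nlinarith [sq_nonneg (w1 - w2)]
  have h5 : 4 * (w1 * w2) ≤ (w1 + w2) ^ 2 := by nlinarith [sq_nonneg (w1 - w2)]
  have h6 : 0 < w1 * w2 := by positivity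
  have h7 : (2 * (w1 * w2)) * (4 * (w1 * w2)) ≤ (w1 ^ 2 + w2 ^ 2) * (w1 + w2) ^ 2 :=
    mul_le_mul h4 h5 (by positivity) (by positivity)
  nlinarith

/-- The unbalanced case: the other side is short. -/
theorem unbalanced {w1 w2 : ℝ} {ℓ : ℕ} (hℓ : 8 ≤ ℓ) (h2 : 0 < w2)
    (hs : w1 + w2 = 8 / ((ℓ : ℝ) + 1)) (hw : 0 < w1) (h1 : 1 / 3 < w1 ^ 2) :
    (ℓ : ℝ) * (ℓ + 1) + 3 ≤ 8 / w2 ^ 2 := by
  have hw1 : 0.577 < w1 := by
    by_contra hcon
    push Not at hcon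
    nlinarith
  have hN : (0 : ℝ) < (ℓ : ℝ) + 1 := by positivity
  have hle : ℓ ≤ 12 := by
    by_contra hcon
    push Not at hcon
    have h13 : (13 : ℝ) ≤ ℓ := by exact_mod_cast hcon
    have h3 : 8 / ((ℓ : ℝ) + 1) ≤ 8 / 14 := by
      apply div_le_div_of_nonneg_left (by norm_num) (by norm_num)
      linarith
    have : (8 : ℝ) / 14 < 0.577 := by norm_num
    linarith
  rw [le_div_iff₀ (by positivity)]
  interval_cases ℓ
  all_goals norm_num at hs ⊢
  · have h3 : w2 < 0.3119 := by linarith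
    nlinarith
  · have h3 : w2 < 0.2231 := by linarith
    nlinarith
  · have h3 : w2 < 0.1504 := by linarith
    nlinarith
  · have h3 : w2 < 0.0898 := by linarith
    nlinarith
  · have h3 : w2 < 0.0385 := by linarith
    nlinarith

theorem single_pos {ℓ : ℕ} (hℓ : 8 ≤ ℓ) {β Q y : ℝ} (hβ : (ℓ : ℝ) * (ℓ + 1) + 3 ≤ β)
    (hy : |y| ≤ 1) :
    0 < (β - (ℓ : ℝ) * (ℓ + 1)) + ((ℓ : ℝ) * (ℓ + 1) - 6) * Q ^ 2 - 8 * Q * y - 2 * y ^ 2 := by
  have h8 : (8 : ℝ) ≤ ℓ := by exact_mod_cast hℓ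
  have hlam : (72 : ℝ) ≤ (ℓ : ℝ) * (ℓ + 1) := by nlinarith
  have hy' := abs_le.1 hy
  have hy2 : y ^ 2 ≤ 1 := by nlinarith
  have h1 : 66 * Q ^ 2 ≤ ((ℓ : ℝ) * (ℓ + 1) - 6) * Q ^ 2 :=
    mul_le_mul_of_nonneg_right (by linarith) (sq_nonneg Q)
  nlinarith [sq_nonneg (8 * Q - y), sq_nonneg Q]

/-- Bounds valid on a set persist on its closure. -/
theorem inner_le_closure {D : Set S2} {v : E3} {X : ℝ} (h : ∀ x ∈ D, inner ℝ v (x : E3) ≤ X) :
    ∀ x ∈ closure D, inner ℝ v (x : E3) ≤ X := by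
  intro x hx
  have hcl : IsClosed {y : S2 | inner ℝ v (y : E3) ≤ X} :=
    isClosed_le (by fun_prop) continuous_const
  exact closure_minimal (fun y hy => h y hy) hcl hx

/-- The sum of the four extents of a positive nodal domain seen from one of its points is at
least `8 / (ℓ + 1)`. -/
theorem extents {P : MvPolynomial (Fin 3) ℝ} {ℓ : ℕ} (hP : P.IsHomogeneous ℓ)
    (hh : ∑ i : Fin 3, pderiv i (pderiv i P) = 0) (hℓ : 8 ≤ ℓ) (c : S2) (hc : 0 < ev P c)
    (b : OrthonormalBasis (Fin 3) ℝ E3) (hb : b 2 = c) (X0 X1 X2 X3 : ℝ)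
    (hX0 : ∀ x ∈ connectedComponentIn {y : S2 | 0 < ev P y} c, inner ℝ (b 0) (x : E3) ≤ X0)
    (hX1 : ∀ x ∈ connectedComponentIn {y : S2 | 0 < ev P y} c, inner ℝ (b 1) (x : E3) ≤ X1)
    (hX2 : ∀ x ∈ connectedComponentIn {y : S2 | 0 < ev P y} c, -X2 ≤ inner ℝ (b 0) (x : E3))
    (hX3 : ∀ x ∈ connectedComponentIn {y : S2 | 0 < ev P y} c, -X3 ≤ inner ℝ (b 1) (x : E3)) :
    8 / ((ℓ : ℝ) + 1) ≤ X0 + X1 + X2 + X3 := by
  by_contra hcon
  push Not at hcon
  set D := connectedComponentIn {y : S2 | 0 < ev P y} c with hD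
  have hcD : c ∈ D := mem_connectedComponentIn hc
  have hi0 : inner ℝ (b 0) (c : E3) = 0 := by rw [← hb]; exact b.orthonormal.2 (by decide)
  have hi1 : inner ℝ (b 1) (c : E3) = 0 := by rw [← hb]; exact b.orthonormal.2 (by decide)
  have p0 := hX0 c hcD
  have p1 := hX1 c hcD
  have p2 := hX2 c hcD
  have p3 := hX3 c hcD
  rw [hi0] at p0 p2
  rw [hi1] at p1 p3
  have hX2' : ∀ x ∈ D, inner ℝ (-(b 0)) (x : E3) ≤ X2 := by
    intro x hx
    rw [inner_neg_left]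
    linarith [hX2 x hx]
  have hX3' : ∀ x ∈ D, inner ℝ (-(b 1)) (x : E3) ≤ X3 := by
    intro x hx
    rw [inner_neg_left]
    linarith [hX3 x hx]
  have q0 := inner_le_closure hX0
  have q1 := inner_le_closure hX1
  have q2 := inner_le_closure hX2'
  have q3 := inner_le_closure hX3'
  have h8 : (8 : ℝ) ≤ ℓ := by exact_mod_cast hℓ
  have hℓ1 : 1 ≤ ℓ := by omega
  set N : ℝ := (ℓ : ℝ) + 1 with hN
  have hNpos : 0 < N := by positivity
  set δ := (8 / N - (X0 + X1 + X2 + X3)) / 2 with hδ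
  have hδpos : 0 < δ := by rw [hδ]; linarith
  set w1 := X0 + X2 + δ with hw1
  set w2 := X1 + X3 + δ with hw2
  have hw1pos : 0 < w1 := by rw [hw1]; linarith
  have hw2pos : 0 < w2 := by rw [hw2]; linarith
  have hsum : w1 + w2 = 8 / N := by rw [hw1, hw2, hδ]; ring
  set xi := (X0 - X2) / w1 with hxi
  set eta := (X1 - X3) / w2 with heta
  have hxc : w1 * xi / 2 = (X0 - X2) / 2 := by rw [hxi]; field_simp
  have hyc : w2 * eta / 2 = (X1 - X3) / 2 := by rw [heta]; field_simp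
  have hxi1 : |xi| ≤ 1 := by
    rw [hxi, abs_div, abs_of_pos hw1pos, div_le_one hw1pos, abs_le]
    constructor <;> linarith
  have heta1 : |eta| ≤ 1 := by
    rw [heta, abs_div, abs_of_pos hw2pos, div_le_one hw2pos, abs_le]
    constructor <;> linarith
  -- normalised coordinates of points of the closure
  have hPn : ∀ x ∈ closure D, ∃ p : ℝ, |p| < 1 ∧ inner ℝ (b 0) (x : E3) = w1 * (p + xi) / 2 := by
    intro x hx
    refine ⟨2 * (inner ℝ (b 0) (x : E3) - (X0 - X2) / 2) / w1, ?_, ?_⟩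
    · rw [abs_div, abs_of_pos hw1pos, div_lt_one hw1pos, abs_lt]
      have h1 := q0 x hx
      have h2 := q2 x hx
      rw [inner_neg_left] at h2
      constructor <;> linarith
    · rw [hxi]; field_simp; ring
  have hQn : ∀ x ∈ closure D, ∃ p : ℝ, |p| < 1 ∧ inner ℝ (b 1) (x : E3) = w2 * (p + eta) / 2 := by
    intro x hx
    refine ⟨2 * (inner ℝ (b 1) (x : E3) - (X1 - X3) / 2) / w2, ?_, ?_⟩
    · rw [abs_div, abs_of_pos hw2pos, div_lt_one hw2pos, abs_lt]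
      have h1 := q1 x hx
      have h2 := q3 x hx
      rw [inner_neg_left] at h2
      constructor <;> linarith
    · rw [heta]; field_simp; ring
  have hgpos : ∀ w p z : ℝ, 0 < w → |p| < 1 →
      0 < 1 - (8 / w ^ 2) / 2 * (w * (p + z) / 2 - w * z / 2) ^ 2 := by
    intro w p z hw hp
    have h1 : 1 - (8 / w ^ 2) / 2 * (w * (p + z) / 2 - w * z / 2) ^ 2 = 1 - p ^ 2 := by
      field_simp
      ring
    rw [h1]
    have := abs_lt.1 hp
    nlinarith
  by_cases hA1 : 1 / 3 < w1 ^ 2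
  · -- one-variable supersolution in the second coordinate
    have hβ := unbalanced hℓ hw2pos hsum hw1pos hA1
    refine barta hP hh hℓ1 c hc b (g1 := fun _ => 1) (g1' := fun _ => 0) (g1'' := fun _ => 0)
      (g2 := fun x => 1 - (8 / w2 ^ 2) / 2 * (x - w2 * eta / 2) ^ 2)
      (g2' := fun x => -(8 / w2 ^ 2) * (x - w2 * eta / 2)) (g2'' := fun _ => -(8 / w2 ^ 2))
      (fun x => hasDerivAt_const x 1) (fun x => hasDerivAt_const x 0)
      (fun x => quad_hasDeriv _ _ x) (fun x => quad_hasDeriv' _ _ x) ?_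
    intro x hx
    obtain ⟨q, hq, hqe⟩ := hQn x hx
    refine ⟨by norm_num, ?_, ?_⟩
    · rw [hqe]; exact hgpos w2 q eta hw2pos hq
    · intro X Y hXe hYe
      rw [hqe] at hYe
      subst hYe
      have h1 := single_identity w2 q eta ((ℓ : ℝ) * (ℓ + 1)) hw2pos.ne'
      have h2 := single_pos (Q := q) hℓ hβ heta1
      simp only [one_mul, mul_zero, sub_zero, zero_mul, zero_add]
      linarith
  · by_cases hA2 : 1 / 3 < w2 ^ 2
    · have hβ := unbalanced hℓ hw1pos (by rw [add_comm]; exact hsum) hw2pos hA2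
      refine barta hP hh hℓ1 c hc b (g2 := fun _ => 1) (g2' := fun _ => 0) (g2'' := fun _ => 0)
        (g1 := fun x => 1 - (8 / w1 ^ 2) / 2 * (x - w1 * xi / 2) ^ 2)
        (g1' := fun x => -(8 / w1 ^ 2) * (x - w1 * xi / 2)) (g1'' := fun _ => -(8 / w1 ^ 2))
        (fun x => quad_hasDeriv _ _ x) (fun x => quad_hasDeriv' _ _ x)
        (fun x => hasDerivAt_const x 1) (fun x => hasDerivAt_const x 0) ?_
      intro x hx
      obtain ⟨q, hq, hqe⟩ := hPn x hx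
      refine ⟨?_, by norm_num, ?_⟩
      · rw [hqe]; exact hgpos w1 q xi hw1pos hq
      · intro X Y hXe hYe
        rw [hqe] at hXe
        subst hXe
        have h1 := single_identity w1 q xi ((ℓ : ℝ) * (ℓ + 1)) hw1pos.ne'
        have h2 := single_pos (Q := q) hℓ hβ hxi1
        simp only [mul_one, mul_zero, sub_zero, add_zero]
        linarith
    · push Not at hA1 hA2
      have ha : 24 ≤ 8 / w1 ^ 2 := by
        rw [le_div_iff₀ (by positivity)]; linarith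
      have hb' : 24 ≤ 8 / w2 ^ 2 := by
        rw [le_div_iff₀ (by positivity)]; linarith
      have hm : 9 ≤ 8 / w1 ^ 2 + 8 / w2 ^ 2 - (ℓ : ℝ) * (ℓ + 1) := by
        have := sum_inv_sq_ge hw1pos hw2pos hNpos hsum
        rw [hN] at this
        nlinarith
      refine barta hP hh hℓ1 c hc b
        (g1 := fun x => 1 - (8 / w1 ^ 2) / 2 * (x - w1 * xi / 2) ^ 2)
        (g1' := fun x => -(8 / w1 ^ 2) * (x - w1 * xi / 2)) (g1'' := fun _ => -(8 / w1 ^ 2))
        (g2 := fun x => 1 - (8 / w2 ^ 2) / 2 * (x - w2 * eta / 2) ^ 2)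
        (g2' := fun x => -(8 / w2 ^ 2) * (x - w2 * eta / 2)) (g2'' := fun _ => -(8 / w2 ^ 2))
        (fun x => quad_hasDeriv _ _ x) (fun x => quad_hasDeriv' _ _ x)
        (fun x => quad_hasDeriv _ _ x) (fun x => quad_hasDeriv' _ _ x) ?_
      intro x hx
      obtain ⟨p, hp, hpe⟩ := hPn x hx
      obtain ⟨q, hq, hqe⟩ := hQn x hx
      refine ⟨?_, ?_, ?_⟩
      · rw [hpe]; exact hgpos w1 p xi hw1pos hp
      · rw [hqe]; exact hgpos w2 q eta hw2pos hq
      · intro X Y hXe hYe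
        rw [hpe] at hXe
        rw [hqe] at hYe
        subst hXe hYe
        have h1 := prod_identity w1 w2 p q xi eta ((ℓ : ℝ) * (ℓ + 1)) hw1pos.ne' hw2pos.ne'
        have h2 := key_poly _ _ _ p q xi eta ha hb' hm hp hq hxi1 heta1
        linarith

end Run7.h506
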