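import Mathlib
import Pool.Agent.Run7.h506.NPd

set_option autoImplicit false

namespace Run7.h506

open Set Topology Filter MvPolynomial

theorem YA_update {N : ℕ} (B : Fin N → OrthonormalBasis (Fin 3) ℝ E3) (i : Fin 3)
    (x : Fin N → S2) (j : Fin N) (y : S2) :
    YA B i (Function.update x j y) =
      YA B i x - inner ℝ (B j i) (x j : E3) / N + inner ℝ (B j i) (y : E3) / N := by
  unfold YA
  have h1 : (fun k => inner ℝ (B k i) ((Function.update x j y k : S2) : E3)) =
      Function.update (fun k => inner ℝ (B k i) (x k : E3)) j (inner ℝ (B j i) (y : E3)) := by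
    funext k
    by_cases hk : k = j
    · subst hk; simp
    · simp [Function.update_of_ne hk]
  have h2 : ∑ k, inner ℝ (B k i) ((Function.update x j y k : S2) : E3) =
      inner ℝ (B j i) (y : E3) + ∑ k ∈ Finset.univ \ {j}, inner ℝ (B k i) (x k : E3) := by
    have := Finset.sum_update_of_mem (Finset.mem_univ j)
      (fun k => inner ℝ (B k i) (x k : E3)) (inner ℝ (B j i) (y : E3))
    rw [← this, ← h1]
  have h3 : ∑ k, inner ℝ (B k i) (x k : E3) =
      inner ℝ (B j i) (x j : E3) + ∑ k ∈ Finset.univ \ {j}, inner ℝ (B k i) (x k : E3) := by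
    rw [← Finset.erase_eq]
    exact (Finset.add_sum_erase Finset.univ (fun k => inner ℝ (B k i) (x k : E3))
      (Finset.mem_univ j)).symm
  rw [h2, h3]
  ring

theorem log_update {N : ℕ} (P : MvPolynomial (Fin 3) ℝ) (x : Fin N → S2) (j : Fin N) (y : S2) :
    ∑ k, Real.log (ev P (Function.update x j y k : S2)) =
      (∑ k ∈ Finset.univ \ {j}, Real.log (ev P (x k))) + Real.log (ev P y) := by
  have h1 : (fun k => Real.log (ev P (Function.update x j y k : S2))) =
      Function.update (fun k => Real.log (ev P (x k))) j (Real.log (ev P y)) := by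
    funext k
    by_cases hk : k = j
    · subst hk; simp
    · simp [Function.update_of_ne hk]
  have := Finset.sum_update_of_mem (Finset.mem_univ j)
    (fun k => Real.log (ev P (x k))) (Real.log (ev P y))
  rw [add_comm, ← this, ← h1]

/-- First-order condition for a single moving point. -/
theorem first_order {N : ℕ} {P : MvPolynomial (Fin 3) ℝ} {D : Set S2} (hDo : IsOpen D)
    (hDpos : ∀ y ∈ D, 0 < ev P y) (B : Fin N → OrthonormalBasis (Fin 3) ℝ E3) (x : Fin N → S2)
    (hx : ∀ k, x k ∈ D) {μ : ℝ} (hs : sA μ B x ≤ 1442401 / 250000)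
    (hmax : ∀ y : Fin N → S2, (∀ k, y k ∈ D) →
      ∑ k, Real.log (ev P (y k)) - N * Real.log (gp (sA μ B y)) ≤
        ∑ k, Real.log (ev P (x k)) - N * Real.log (gp (sA μ B x)))
    (j : Fin N) (F : OrthonormalBasis (Fin 3) ℝ E3) (hF : F 0 = (x j : E3)) :
    (∑ i, et F 0 i * eval (ee F 0) (pderiv i P)) / ev P (x j) =
      N * ((gp1 (sA μ B x) * (2 * μ ^ 2 * (YA B 0 x * (inner ℝ (B j 0) (F 1) / N) +
        YA B 1 x * (inner ℝ (B j 1) (F 1) / N)))) / gp (sA μ B x)) := by
  set γ0 := inner ℝ (B j 0) (F 1) / (N : ℝ) with hγ0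
  set γ1 := inner ℝ (B j 1) (F 1) / (N : ℝ) with hγ1
  set β0 := inner ℝ (B j 0) (x j : E3) / (N : ℝ) with hβ0
  set β1 := inner ℝ (B j 1) (x j : E3) / (N : ℝ) with hβ1
  obtain ⟨G1, gd, gd0, -⟩ := radial_deriv μ (YA B 0 x - β0) β0 γ0 (YA B 1 x - β1) β1 γ1
  rw [sub_add_cancel, sub_add_cancel] at gd0
  have hsx : μ ^ 2 * (YA B 0 x ^ 2 + YA B 1 x ^ 2) = sA μ B x := rfl
  rw [hsx] at gd0
  have hgc0 := gc_zero' hF
  have hcurve : ∀ t, sA μ B (Function.update x j (gc F t)) =
      μ ^ 2 * ((YA B 0 x - β0 + β0 * Real.cos t + γ0 * Real.sin t) ^ 2 +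
        (YA B 1 x - β1 + β1 * Real.cos t + γ1 * Real.sin t) ^ 2) := by
    intro t
    unfold sA
    rw [YA_update, YA_update, gc_inner, gc_inner, hF]
    congr 2
    · congr 1
      rw [hβ0, hγ0]
      ring
    · congr 1
      rw [hβ1, hγ1]
      ring
  have hself : Function.update x j (gc F 0) = x := by rw [hgc0]; exact Function.update_eq_self j x
  have hG0 : gp (μ ^ 2 * ((YA B 0 x - β0 + β0 * Real.cos 0 + γ0 * Real.sin 0) ^ 2 +
      (YA B 1 x - β1 + β1 * Real.cos 0 + γ1 * Real.sin 0) ^ 2)) = gp (sA μ B x) := by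
    have := hcurve 0
    rw [hself] at this
    rw [this]
  have hpos0 : 0 < ev P (gc F 0) := by rw [hgc0]; exact hDpos _ (hx j)
  have hgpos : 0 < gp (sA μ B x) := by linarith [gp_pos hs]
  have key := test_first (h := fun t => ev P (gc F t))
    (h1 := fun t => ∑ i, et F t i * eval (ee F t) (pderiv i P)) (n := (N : ℝ))
    (C := ∑ k ∈ Finset.univ \ {j}, Real.log (ev P (x k)))
    (fun t => gc_ev_deriv P F t) hpos0 gd (by rw [hG0]; exact hgpos) (by
      have hev : ∀ᶠ t in 𝓝 (0 : ℝ), gc F t ∈ D := by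
        apply (gc_continuous F).continuousAt.eventually_mem
        rw [hgc0]
        exact hDo.mem_nhds (hx j)
      filter_upwards [hev] with t ht
      have h := hmax (Function.update x j (gc F t)) (by
        intro k
        by_cases hk : k = j
        · subst hk; simpa using ht
        · rw [Function.update_of_ne hk]; exact hx k)
      rw [log_update, hcurve] at h
      have h0 := log_update P x j (gc F 0)
      rw [hself] at h0
      rw [h0] at h
      rw [hG0]
      exact h)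
  rw [hG0, gd0, hgc0] at key
  exact key

theorem YA_gc {N : ℕ} (B : Fin N → OrthonormalBasis (Fin 3) ℝ E3) (i : Fin 3)
    (x : Fin N → S2) (F : Fin N → OrthonormalBasis (Fin 3) ℝ E3)
    (hF : ∀ k, F k 0 = (x k : E3)) (t : ℝ) :
    YA B i (fun k => gc (F k) t) =
      YA B i x * Real.cos t + (∑ k, inner ℝ (B k i) (F k 1)) / N * Real.sin t := by
  unfold YA
  simp only [gc_inner, hF]
  rw [Finset.sum_add_distrib, ← Finset.sum_mul, ← Finset.sum_mul]
  ring

/-- Second-order condition for a simultaneous rotation of all points. -/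
theorem second_order {N : ℕ} {P : MvPolynomial (Fin 3) ℝ} {D : Set S2} (hDo : IsOpen D)
    (hDpos : ∀ y ∈ D, 0 < ev P y) (B : Fin N → OrthonormalBasis (Fin 3) ℝ E3) (x : Fin N → S2)
    (hx : ∀ k, x k ∈ D) {μ : ℝ} (hs : sA μ B x ≤ 1442401 / 250000)
    (hmax : ∀ y : Fin N → S2, (∀ k, y k ∈ D) →
      ∑ k, Real.log (ev P (y k)) - N * Real.log (gp (sA μ B y)) ≤
        ∑ k, Real.log (ev P (x k)) - N * Real.log (gp (sA μ B x)))
    (F : Fin N → OrthonormalBasis (Fin 3) ℝ E3) (hF : ∀ k, F k 0 = (x k : E3)) :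
    ∑ k, ((∑ i, (-(ee (F k) 0 i) * eval (ee (F k) 0) (pderiv i P) +
        et (F k) 0 i * ∑ j, et (F k) 0 j * eval (ee (F k) 0) (pderiv j (pderiv i P)))) /
          ev P (x k) -
        ((∑ i, et (F k) 0 i * eval (ee (F k) 0) (pderiv i P)) / ev P (x k)) ^ 2) -
      N * ((gp2 (sA μ B x) * (2 * μ ^ 2 * (YA B 0 x * ((∑ k, inner ℝ (B k 0) (F k 1)) / N) +
        YA B 1 x * ((∑ k, inner ℝ (B k 1) (F k 1)) / N))) ^ 2 +
        gp1 (sA μ B x) * (2 * μ ^ 2 * (((∑ k, inner ℝ (B k 0) (F k 1)) / N) ^ 2 +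
          ((∑ k, inner ℝ (B k 1) (F k 1)) / N) ^ 2 - YA B 0 x * YA B 0 x -
            YA B 1 x * YA B 1 x))) / gp (sA μ B x) -
        (gp1 (sA μ B x) * (2 * μ ^ 2 * (YA B 0 x * ((∑ k, inner ℝ (B k 0) (F k 1)) / N) +
          YA B 1 x * ((∑ k, inner ℝ (B k 1) (F k 1)) / N))) / gp (sA μ B x)) ^ 2) ≤ 0 := by
  set W0 := (∑ k, inner ℝ (B k 0) (F k 1)) / (N : ℝ) with hW0
  set W1 := (∑ k, inner ℝ (B k 1) (F k 1)) / (N : ℝ) with hW1
  obtain ⟨G1, gd, gd0, gd2⟩ := radial_deriv μ 0 (YA B 0 x) W0 0 (YA B 1 x) W1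
  simp only [zero_add] at gd gd0 gd2
  have hsx : μ ^ 2 * (YA B 0 x ^ 2 + YA B 1 x ^ 2) = sA μ B x := rfl
  rw [hsx] at gd0 gd2
  have hgc0 : ∀ k, gc (F k) 0 = x k := fun k => gc_zero' (hF k)
  have hcurve : ∀ t, sA μ B (fun k => gc (F k) t) =
      μ ^ 2 * ((YA B 0 x * Real.cos t + W0 * Real.sin t) ^ 2 +
        (YA B 1 x * Real.cos t + W1 * Real.sin t) ^ 2) := by
    intro t
    unfold sA
    rw [YA_gc B 0 x F hF, YA_gc B 1 x F hF]
  have hself : (fun k => gc (F k) 0) = x := funext hgc0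
  have hG0 : gp (μ ^ 2 * ((YA B 0 x * Real.cos 0 + W0 * Real.sin 0) ^ 2 +
      (YA B 1 x * Real.cos 0 + W1 * Real.sin 0) ^ 2)) = gp (sA μ B x) := by
    have := hcurve 0
    rw [hself] at this
    rw [this]
  have hgpos : 0 < gp (sA μ B x) := by linarith [gp_pos hs]
  have key := test_ineq (h := fun k t => ev P (gc (F k) t))
    (h1 := fun k t => ∑ i, et (F k) t i * eval (ee (F k) t) (pderiv i P))
    (h2 := fun k => ∑ i, (-(ee (F k) 0 i) * eval (ee (F k) 0) (pderiv i P) +
        et (F k) 0 i * ∑ j, et (F k) 0 j * eval (ee (F k) 0) (pderiv j (pderiv i P))))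
    (n := (N : ℝ))
    (fun k t => gc_ev_deriv P (F k) t) (fun k => ee_eval_deriv2 (F k) P 0)
    (fun k => by rw [hgc0]; exact hDpos _ (hx k)) gd gd2 (by rw [hG0]; exact hgpos) (by
      have hev : ∀ᶠ t in 𝓝 (0 : ℝ), ∀ k, gc (F k) t ∈ D := by
        rw [eventually_all]
        intro k
        apply (gc_continuous (F k)).continuousAt.eventually_mem
        rw [hgc0]
        exact hDo.mem_nhds (hx k)
      filter_upwards [hev] with t ht
      have h := hmax (fun k => gc (F k) t) ht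
      rw [hcurve] at h
      rw [hG0]
      simp only [hgc0]
      exact h)
  rw [hG0, gd0] at key
  simp only [hgc0] at key
  exact key

end Run7.h506
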