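import Mathlib
import Pool.Agent.Run7.h506.NPe

set_option autoImplicit false

namespace Run7.h506

open Set Topology Filter MvPolynomial

theorem avg_near {N : ℕ} (hN : 1 ≤ N) {a : Fin N → ℝ} {c δ : ℝ} (h : ∀ k, |a k - c| ≤ δ) :
    |(∑ k, a k) / N - c| ≤ δ := by
  have hNR : (0 : ℝ) < N := by exact_mod_cast hN
  have e : (∑ k, a k) / N - c = (∑ k, (a k - c)) / N := by
    rw [Finset.sum_sub_distrib]
    simp
    field_simp
  rw [e, abs_div, abs_of_pos hNR, div_le_iff₀ hNR]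
  calc |∑ k, (a k - c)| ≤ ∑ k, |a k - c| := Finset.abs_sum_le_sum_abs _ _
    _ ≤ ∑ _k : Fin N, δ := Finset.sum_le_sum (fun k _ => h k)
    _ = δ * N := by simp [mul_comm]

theorem pair_bounds {y1 y2 w δ : ℝ} (hw : 0 < w) (hδ : y1 ^ 2 + y2 ^ 2 ≤ δ) :
    |(1 - y1 ^ 2 / (1 + w)) - 1| ≤ δ ∧ |-(y1 * y2) / (1 + w)| ≤ δ ∧
      |(1 - y2 ^ 2 / (1 + w)) - 1| ≤ δ := by
  have h1 : 0 < 1 + w := by linarith
  have e1 : ∀ z : ℝ, 0 ≤ z → z / (1 + w) ≤ z := by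
    intro z hz
    rw [div_le_iff₀ h1]
    nlinarith
  refine ⟨?_, ?_, ?_⟩
  · have e : (1 - y1 ^ 2 / (1 + w)) - 1 = -(y1 ^ 2 / (1 + w)) := by ring
    rw [e, abs_neg, abs_of_nonneg (by positivity)]
    have := e1 (y1 ^ 2) (by positivity)
    nlinarith [sq_nonneg y2]
  · rw [abs_div, abs_neg, abs_of_pos h1]
    have := e1 |y1 * y2| (abs_nonneg _)
    have h3 : |y1 * y2| ≤ y1 ^ 2 + y2 ^ 2 := by
      rw [abs_mul]
      have h4 := sq_abs y1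
      have h5 := sq_abs y2
      nlinarith [sq_nonneg (|y1| - |y2|), sq_nonneg y1, sq_nonneg y2]
    linarith
  · have e : (1 - y2 ^ 2 / (1 + w)) - 1 = -(y2 ^ 2 / (1 + w)) := by ring
    rw [e, abs_neg, abs_of_nonneg (by positivity)]
    have := e1 (y2 ^ 2) (by positivity)
    nlinarith [sq_nonneg y1]

/-- Local form of the multi-point maximum principle. -/
theorem core {N : ℕ} (hN : 1 ≤ N) {P : MvPolynomial (Fin 3) ℝ} {ℓ : ℕ} (hP : P.IsHomogeneous ℓ)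
    (hh : ∑ i : Fin 3, pderiv i (pderiv i P) = 0) (hℓ : 1 ≤ ℓ) {D : Set S2} (hDo : IsOpen D)
    (hDpos : ∀ y ∈ D, 0 < ev P y) (B : Fin N → OrthonormalBasis (Fin 3) ℝ E3) (x : Fin N → S2)
    (hx : ∀ k, x k ∈ D) (hw : ∀ k, 0 < inner ℝ (B k 2) (x k : E3)) {δ μ : ℝ}
    (hδ : ∀ k, inner ℝ (B k 0) (x k : E3) ^ 2 + inner ℝ (B k 1) (x k : E3) ^ 2 ≤ δ)
    (hδ1 : δ ≤ 1) (hs : sA μ B x ≤ 1442401 / 250000) (hμδ : μ ^ 2 * δ ≤ (N : ℝ) ^ 2 * (1442401 / 250000))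
    (hmax : ∀ y : Fin N → S2, (∀ k, y k ∈ D) →
      ∑ k, Real.log (ev P (y k)) - N * Real.log (gp (sA μ B y)) ≤
        ∑ k, Real.log (ev P (x k)) - N * Real.log (gp (sA μ B x))) :
    μ ^ 2 < (ℓ : ℝ) * (ℓ + 1) + 150000000 * (N : ℝ) ^ 2 := by
  have hNR : (1 : ℝ) ≤ N := by exact_mod_cast hN
  have hN0 : (N : ℝ) ≠ 0 := by positivity
  have hδ0 : 0 ≤ δ := by
    have := hδ ⟨0, hN⟩
    nlinarith [sq_nonneg (inner ℝ (B ⟨0, hN⟩ 0) (x ⟨0, hN⟩ : E3)),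
      sq_nonneg (inner ℝ (B ⟨0, hN⟩ 1) (x ⟨0, hN⟩ : E3))]
  choose f g hf0 hg0 hf1 hf2 ha11 ha21 ha12 ha22 using fun k => transport (B k) (x k) (hw k)
  set a11 : Fin N → ℝ := fun k => inner ℝ (B k 0) (f k 1) with da11
  set a21 : Fin N → ℝ := fun k => inner ℝ (B k 1) (f k 1) with da21
  set a12 : Fin N → ℝ := fun k => inner ℝ (B k 0) (g k 1) with da12
  set a22 : Fin N → ℝ := fun k => inner ℝ (B k 1) (g k 1) with da22
  have b11 : ∀ k, |a11 k - 1| ≤ δ := by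
    intro k
    have := (pair_bounds (hw k) (hδ k)).1
    simp only [da11]
    rw [ha11 k]; exact this
  have b21 : ∀ k, |a21 k| ≤ δ := by
    intro k
    have := (pair_bounds (hw k) (hδ k)).2.1
    simp only [da21]
    rw [ha21 k]; exact this
  have b12 : ∀ k, |a12 k| ≤ δ := by
    intro k
    have := (pair_bounds (hw k) (hδ k)).2.1
    simp only [da12]
    rw [ha12 k]; exact this
  have b22 : ∀ k, |a22 k - 1| ≤ δ := by
    intro k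
    have := (pair_bounds (hw k) (hδ k)).2.2
    simp only [da22]
    rw [ha22 k]; exact this
  set A11 := (∑ k, a11 k) / (N : ℝ) with dA11
  set A21 := (∑ k, a21 k) / (N : ℝ) with dA21
  set A12 := (∑ k, a12 k) / (N : ℝ) with dA12
  set A22 := (∑ k, a22 k) / (N : ℝ) with dA22
  have c11 : |A11 - 1| ≤ δ := avg_near hN b11
  have c22 : |A22 - 1| ≤ δ := avg_near hN b22
  have c21 : |A21| ≤ δ := by
    have := avg_near hN (a := a21) (c := 0) (δ := δ) (fun k => by rw [sub_zero]; exact b21 k)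
    rwa [sub_zero] at this
  have c12 : |A12| ≤ δ := by
    have := avg_near hN (a := a12) (c := 0) (δ := δ) (fun k => by rw [sub_zero]; exact b12 k)
    rwa [sub_zero] at this
  set Y0 := YA B 0 x with hY0
  set Y1 := YA B 1 x with hY1
  set s := sA μ B x with hs'
  have hsQ : s = μ ^ 2 * (Y0 ^ 2 + Y1 ^ 2) := rfl
  have hs0 : 0 ≤ s := by rw [hsQ]; positivity
  have hgpos : 0 < gp s := by linarith [gp_pos hs]
  set ρ := gp1 s / gp s with hρ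
  set r := gp2 s / gp s with hr
  -- first order
  have f1 : ∀ k, (∑ i, et (f k) 0 i * eval (ee (f k) 0) (pderiv i P)) / ev P (x k) =
      2 * μ ^ 2 * ρ * (Y0 * a11 k + Y1 * a21 k) := by
    intro k
    rw [first_order hDo hDpos B x hx hs hmax k (f k) (hf0 k)]
    simp only [da11, da21]
    rw [← hY0, ← hY1, ← hs', hρ]
    field_simp
  have f2 : ∀ k, (∑ i, et (g k) 0 i * eval (ee (g k) 0) (pderiv i P)) / ev P (x k) =
      2 * μ ^ 2 * ρ * (Y0 * a12 k + Y1 * a22 k) := by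
    intro k
    rw [first_order hDo hDpos B x hx hs hmax k (g k) (hg0 k)]
    simp only [da12, da22]
    rw [← hY0, ← hY1, ← hs', hρ]
    field_simp
  have s1 := second_order hDo hDpos B x hx hs hmax f hf0
  have s2 := second_order hDo hDpos B x hx hs hmax g hg0
  simp only [f1] at s1
  simp only [f2] at s2
  rw [← hs', ← hY0, ← hY1] at s1 s2
  have eA11 : (∑ k, inner ℝ (B k 0) (f k 1)) / (N : ℝ) = A11 := rfl
  have eA21 : (∑ k, inner ℝ (B k 1) (f k 1)) / (N : ℝ) = A21 := rfl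
  have eA12 : (∑ k, inner ℝ (B k 0) (g k 1)) / (N : ℝ) = A12 := rfl
  have eA22 : (∑ k, inner ℝ (B k 1) (g k 1)) / (N : ℝ) = A22 := rfl
  rw [eA11, eA21] at s1
  rw [eA12, eA22] at s2
  set h2f : Fin N → ℝ := fun k => ∑ i, (-(ee (f k) 0 i) * eval (ee (f k) 0) (pderiv i P) +
        et (f k) 0 i * ∑ j, et (f k) 0 j * eval (ee (f k) 0) (pderiv j (pderiv i P)))
    with dh2f
  set h2g : Fin N → ℝ := fun k => ∑ i, (-(ee (g k) 0 i) * eval (ee (g k) 0) (pderiv i P) +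
        et (g k) 0 i * ∑ j, et (g k) 0 j * eval (ee (g k) 0) (pderiv j (pderiv i P)))
    with dh2g
  have hlap : ∀ k, h2f k / ev P (x k) + h2g k / ev P (x k) = -((ℓ : ℝ) * (ℓ + 1)) := by
    intro k
    have hpos := hDpos _ (hx k)
    have := lap_pair hP hh hℓ (hf0 k) (hg0 k) (hf2 k)
    rw [← add_div]
    rw [div_eq_iff hpos.ne']
    exact this
  set S2p := (∑ k, ((Y0 * a11 k + Y1 * a21 k) ^ 2 + (Y0 * a12 k + Y1 * a22 k) ^ 2)) / (N : ℝ)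
    with dS2p
  set Sb := (Y0 * A11 + Y1 * A21) ^ 2 + (Y0 * A12 + Y1 * A22) ^ 2 with dSb
  set WW := (A11 ^ 2 + A21 ^ 2) + (A12 ^ 2 + A22 ^ 2) with dWW
  set Q := Y0 ^ 2 + Y1 ^ 2 with dQ
  have hQ0 : 0 ≤ Q := by positivity
  have q1 : |Sb - Q| ≤ 8 * δ * Q := quad_near hδ0 hδ1 c11 c21 c12 c22
  have q2 : |S2p - Q| ≤ 8 * δ * Q :=
    avg_near hN (fun k => quad_near hδ0 hδ1 (b11 k) (b21 k) (b12 k) (b22 k))
  have q3 : 2 - 4 * δ ≤ WW := len_near (a12 := A21) (a21 := A12) hδ0 c11 c22 hδ1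
  have hmain : 0 ≤ (ℓ : ℝ) * (ℓ + 1) + 4 * μ ^ 4 * ρ ^ 2 * (S2p - Sb) + r * 4 * μ ^ 4 * Sb +
      ρ * μ ^ 2 * (2 * WW - 4 * Q) := by
    have t1 : ∑ k, (h2f k / ev P (x k) - (2 * μ ^ 2 * ρ * (Y0 * a11 k + Y1 * a21 k)) ^ 2) +
        ∑ k, (h2g k / ev P (x k) - (2 * μ ^ 2 * ρ * (Y0 * a12 k + Y1 * a22 k)) ^ 2) =
        N * (-((ℓ : ℝ) * (ℓ + 1)) - 4 * μ ^ 4 * ρ ^ 2 * S2p) := by
      rw [← Finset.sum_add_distrib]
      have e1 : ∀ k, (h2f k / ev P (x k) - (2 * μ ^ 2 * ρ * (Y0 * a11 k + Y1 * a21 k)) ^ 2) +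
          (h2g k / ev P (x k) - (2 * μ ^ 2 * ρ * (Y0 * a12 k + Y1 * a22 k)) ^ 2) =
          -((ℓ : ℝ) * (ℓ + 1)) - (4 * μ ^ 4 * ρ ^ 2) *
            ((Y0 * a11 k + Y1 * a21 k) ^ 2 + (Y0 * a12 k + Y1 * a22 k) ^ 2) := by
        intro k
        have := hlap k
        linear_combination this
      simp only [e1]
      rw [Finset.sum_sub_distrib, ← Finset.mul_sum]
      rw [dS2p]
      simp
      field_simp
    have t2 : ∀ u v : ℝ, (gp2 s * (2 * μ ^ 2 * (Y0 * u + Y1 * v)) ^ 2 +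
        gp1 s * (2 * μ ^ 2 * (u ^ 2 + v ^ 2 - Y0 * Y0 - Y1 * Y1))) / gp s -
        (gp1 s * (2 * μ ^ 2 * (Y0 * u + Y1 * v)) / gp s) ^ 2 =
        r * (2 * μ ^ 2 * (Y0 * u + Y1 * v)) ^ 2 +
          ρ * (2 * μ ^ 2 * (u ^ 2 + v ^ 2 - Y0 * Y0 - Y1 * Y1)) -
          (ρ * (2 * μ ^ 2 * (Y0 * u + Y1 * v))) ^ 2 := by
      intro u v
      rw [hr, hρ]
      field_simp
    rw [t2] at s1 s2
    have t3 : (N : ℝ) * (-((ℓ : ℝ) * (ℓ + 1)) - 4 * μ ^ 4 * ρ ^ 2 * S2p -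
        (r * (2 * μ ^ 2 * (Y0 * A11 + Y1 * A21)) ^ 2 +
          ρ * (2 * μ ^ 2 * (A11 ^ 2 + A21 ^ 2 - Y0 * Y0 - Y1 * Y1)) -
          (ρ * (2 * μ ^ 2 * (Y0 * A11 + Y1 * A21))) ^ 2) -
        (r * (2 * μ ^ 2 * (Y0 * A12 + Y1 * A22)) ^ 2 +
          ρ * (2 * μ ^ 2 * (A12 ^ 2 + A22 ^ 2 - Y0 * Y0 - Y1 * Y1)) -
          (ρ * (2 * μ ^ 2 * (Y0 * A12 + Y1 * A22))) ^ 2)) ≤ 0 := by
      have := add_le_add s1 s2
      rw [add_zero] at this
      refine le_trans (le_of_eq ?_) this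
      linear_combination -t1
    have hNpos : (0 : ℝ) < N := by linarith
    have t4 := nonpos_of_mul_nonpos_right t3 hNpos
    rw [dSb, dWW, dQ]
    linarith
  have hg := gp_pos hs
  exact final_num (Λ := (ℓ : ℝ) * (ℓ + 1)) (μ := μ) (n := (N : ℝ)) (s := s) (g := gp s)
    (g1 := gp1 s) (g2 := gp2 s) (δ := δ) (S2p := S2p) (Sb := Sb) (WW := WW) (Q := Q)
    hNR hsQ hs0 hs hg (gp1_ge hs0 hs) (gp1_nonpos hs0 hs) (gp2_nonneg hs) (gp2_le hs0 hs)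
    (gp_super hs0) hδ0 hμδ (by have := abs_le.1 q1; have := abs_le.1 q2; linarith)
    (by have := abs_le.1 q1; nlinarith) q3 hmain

end Run7.h506
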