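import Mathlib
import Pool.Agent.Run7.h506.NPf
import Pool.Agent.Run7.h506.Extents

set_option autoImplicit false

namespace Run7.h506

open Set Topology Filter MvPolynomial

theorem sum_shift_one {N : ℕ} {X : ℕ → ℝ} (hper : ∀ k, X (k + N) = X k) :
    ∑ k ∈ Finset.range N, X (k + 1) = ∑ k ∈ Finset.range N, X k := by
  have h1 := Finset.sum_range_succ X N
  have h2 := Finset.sum_range_succ' X N
  have h3 := hper 0
  rw [zero_add] at h3
  rw [h3] at h1
  linarith

theorem sum_shift {N : ℕ} {X : ℕ → ℝ} (hper : ∀ k, X (k + N) = X k) (j : ℕ) :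
    ∑ k ∈ Finset.range N, X (k + j) = ∑ k ∈ Finset.range N, X k := by
  induction j with
  | zero => simp
  | succ j ih =>
    have h1 := sum_shift_one (N := N) (X := fun k => X (k + j)) (fun k => by
      have := hper (k + j)
      rw [← this]; congr 1; omega)
    rw [← ih, ← h1]
    apply Finset.sum_congr rfl
    intro k _
    congr 1
    omega

/-- The direction at angle `θ` in the tangent plane. -/
noncomputable def dirp (b : OrthonormalBasis (Fin 3) ℝ E3) (θ : ℝ) : E3 :=
  Real.cos θ • b 0 + Real.sin θ • b 1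

theorem dirp_norm (b : OrthonormalBasis (Fin 3) ℝ E3) (θ : ℝ) : ‖dirp b θ‖ = 1 := by
  have hsc := Real.sin_sq_add_cos_sq θ
  apply norm_eq_one_of_sq
  have := norm_comb b (Real.cos θ) (Real.sin θ) 0
  rw [zero_smul, add_zero] at this
  unfold dirp
  rw [this]; linarith

theorem dirp_orth (b : OrthonormalBasis (Fin 3) ℝ E3) (θ : ℝ) : inner ℝ (dirp b θ) (b 2) = 0 := by
  have h02 : inner ℝ (b 0) (b 2) = 0 := b.orthonormal.2 (by decide)
  have h12 : inner ℝ (b 1) (b 2) = 0 := b.orthonormal.2 (by decide)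
  unfold dirp
  rw [inner_add_left, real_inner_smul_left, real_inner_smul_left, h02, h12]; ring

theorem dirp_periodic (b : OrthonormalBasis (Fin 3) ℝ E3) (θ : ℝ) :
    dirp b (θ + 2 * Real.pi) = dirp b θ := by
  unfold dirp
  rw [Real.cos_add_two_pi, Real.sin_add_two_pi]

theorem npoint {N : ℕ} (hN : 3 ≤ N) {P : MvPolynomial (Fin 3) ℝ} {ℓ : ℕ} (hP : P.IsHomogeneous ℓ)
    (hh : ∑ i : Fin 3, pderiv i (pderiv i P) = 0) (hℓ : 1 ≤ ℓ) {μ : ℝ} (hμ : 0 < μ)
    (hμ2 : (ℓ : ℝ) * (ℓ + 1) + 150000000 * (N : ℝ) ^ 2 ≤ μ ^ 2) (c : S2) (hc : 0 < ev P c)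
    (b : OrthonormalBasis (Fin 3) ℝ E3) (hb : b 2 = c) :
    (N : ℝ) * (1201 / 500 * Real.cos (Real.pi / N) / μ) ≤
      ∑ k ∈ Finset.range N, supp (connectedComponentIn {y : S2 | 0 < ev P y} c)
        (dirp b (2 * Real.pi * k / N)) := by
  by_contra hcon
  push Not at hcon
  have hN1 : 1 ≤ N := by omega
  have hNR : (3 : ℝ) ≤ N := by exact_mod_cast hN
  have hNpos : (0 : ℝ) < N := by linarith
  have hN0 : (N : ℝ) ≠ 0 := hNpos.ne'
  have hpi := Real.pi_pos
  have hcospos : 0 < Real.cos (Real.pi / N) := by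
    apply Real.cos_pos_of_mem_Ioo
    constructor
    · have : 0 < Real.pi / N := by positivity
      linarith
    · rw [div_lt_div_iff_of_pos_left hpi hNpos (by norm_num)]
      linarith
  have hcont : Continuous (fun y : S2 => ev P y) := (ev_continuous P).comp continuous_subtype_val
  have hAo : IsOpen {y : S2 | 0 < ev P y} := isOpen_lt continuous_const hcont
  set U : Set S2 := {y : S2 | 0 < ev P y} with hU
  set D := connectedComponentIn U c with hD
  have hcU : c ∈ U := hc
  have hcD : c ∈ D := mem_connectedComponentIn hcU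
  have hDo : IsOpen D := hAo.connectedComponentIn
  have hDU : D ⊆ U := connectedComponentIn_subset _ _
  set A : ℕ → ℝ := fun j => supp D (dirp b (2 * Real.pi * j / N)) with hA
  have hAper : ∀ k, A (k + N) = A k := by
    intro k
    simp only [hA]
    have : 2 * Real.pi * ((k + N : ℕ) : ℝ) / N = 2 * Real.pi * k / N + 2 * Real.pi := by
      push_cast
      field_simp
    rw [this, dirp_periodic]
  have hA0 : ∀ k, 0 ≤ A k := fun k => supp_nonneg hcD (dirp_norm _ _) (by rw [← hb]; exact dirp_orth b _)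
  set M := ∑ k ∈ Finset.range N, A k with hM
  have hM' : M < N * (1201 / 500 * Real.cos (Real.pi / N) / μ) := hcon
  have hAle : ∀ j, A j ≤ M := by
    intro j
    have h1 := sum_shift hAper j
    rw [hM, ← h1]
    have h2 := Finset.single_le_sum (f := fun k => A (k + j)) (s := Finset.range N)
      (fun k _ => hA0 _) (Finset.mem_range.2 (by omega : 0 < N))
    simpa using h2
  have hDA : ∀ j : ℕ, ∀ x ∈ closure D, inner ℝ (dirp b (2 * Real.pi * j / N)) (x : E3) ≤ A j :=
    fun j => inner_le_closure (fun x hx => le_supp (dirp_norm _ _) hx)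
  have hdir : ∀ (θ : ℝ) (x : S2), inner ℝ (dirp b θ) (x : E3) =
      Real.cos θ * inner ℝ (b 0) (x : E3) + Real.sin θ * inner ℝ (b 1) (x : E3) := by
    intro θ x
    unfold dirp
    rw [inner_add_left, real_inner_smul_left, real_inner_smul_left]
  -- size of the domain
  set δ : ℝ := (N : ℝ) ^ 2 * (1442401 / 250000) / μ ^ 2 with hδ
  have hμ2pos : 0 < μ ^ 2 := by positivity
  have hδ1 : δ < 1 := by
    rw [hδ, div_lt_one hμ2pos]
    have : (0 : ℝ) ≤ (ℓ : ℝ) * (ℓ + 1) := by positivity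
    nlinarith [sq_nonneg (N : ℝ)]
  have hsize : ∀ x ∈ D, inner ℝ (b 0) (x : E3) ^ 2 + inner ℝ (b 1) (x : E3) ^ 2 ≤ δ := by
    intro x hx
    have h1 := ngon hN1 (Y1 := inner ℝ (b 0) (x : E3)) (Y2 := inner ℝ (b 1) (x : E3)) (m := M)
      (fun j => by
        have := (hDA j x (subset_closure hx)).trans (hAle j)
        rwa [hdir] at this)
    have h2 : Real.sqrt (inner ℝ (b 0) (x : E3) ^ 2 + inner ℝ (b 1) (x : E3) ^ 2) ≤
        N * (1201 / 500) / μ := by
      have h3 : Real.sqrt (inner ℝ (b 0) (x : E3) ^ 2 + inner ℝ (b 1) (x : E3) ^ 2) *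
          Real.cos (Real.pi / N) ≤ (N * (1201 / 500) / μ) * Real.cos (Real.pi / N) := by
        refine (h1.trans hM'.le).trans (le_of_eq ?_)
        field_simp
      exact le_of_mul_le_mul_right h3 hcospos
    have h4 : 0 ≤ inner ℝ (b 0) (x : E3) ^ 2 + inner ℝ (b 1) (x : E3) ^ 2 := by positivity
    have h5 := Real.sq_sqrt h4
    have h6 := Real.sqrt_nonneg (inner ℝ (b 0) (x : E3) ^ 2 + inner ℝ (b 1) (x : E3) ^ 2)
    have h7 : δ = (N * (1201 / 500) / μ) ^ 2 := by
      rw [hδ]; field_simp; norm_num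
    rw [h7, ← h5]
    exact pow_le_pow_left₀ h6 h2 2
  -- positivity of the last coordinate
  have hsum3 : ∀ x : S2, inner ℝ (b 0) (x : E3) ^ 2 + inner ℝ (b 1) (x : E3) ^ 2 +
      inner ℝ (b 2) (x : E3) ^ 2 = 1 := by
    intro x
    have h1 := b.sum_sq_inner_right (x : E3)
    rw [Fin.sum_univ_three] at h1
    have hxn : ‖(x : E3)‖ = 1 := mem_sphere_zero_iff_norm.1 x.2
    rw [hxn] at h1
    linarith
  have hlast : ∀ x ∈ D, 0 < inner ℝ (b 2) (x : E3) := by
    intro x hx
    by_contra hneg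
    push Not at hneg
    have hc1 : inner ℝ (b 2) (c : E3) = 1 := by
      rw [← hb]; simp
    have hcont2 : Continuous (fun z : S2 => inner ℝ (b 2) (z : E3)) := by fun_prop
    obtain ⟨z, hz, hz0⟩ := (isPreconnected_connectedComponentIn (x := c) (F := U)).intermediate_value
      hx hcD hcont2.continuousOn (show (0 : ℝ) ∈ Icc _ _ from ⟨hneg, by
        show (0 : ℝ) ≤ inner ℝ (b 2) (c : E3)
        rw [hc1]; norm_num⟩)
    simp only at hz0
    have h1 := hsum3 z
    have h2 := hsize z hz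
    rw [hz0] at h1
    nlinarith
  -- frames
  choose B hB0 hB1 hB2 using fun k : Fin N => frame_rot b (2 * Real.pi * (k : ℕ) / N)
  have hB0' : ∀ (k : Fin N) (x : S2), inner ℝ (B k 0) (x : E3) =
      Real.cos (2 * Real.pi * (k : ℕ) / N) * inner ℝ (b 0) (x : E3) +
      Real.sin (2 * Real.pi * (k : ℕ) / N) * inner ℝ (b 1) (x : E3) := by
    intro k x
    rw [hB0, inner_add_left, real_inner_smul_left, real_inner_smul_left]
  have hB1' : ∀ (k : Fin N) (x : S2), inner ℝ (B k 1) (x : E3) =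
      -Real.sin (2 * Real.pi * (k : ℕ) / N) * inner ℝ (b 0) (x : E3) +
      Real.cos (2 * Real.pi * (k : ℕ) / N) * inner ℝ (b 1) (x : E3) := by
    intro k x
    rw [hB1, inner_add_left, real_inner_smul_left, real_inner_smul_left]
  have hBδ : ∀ (k : Fin N), ∀ x ∈ D,
      inner ℝ (B k 0) (x : E3) ^ 2 + inner ℝ (B k 1) (x : E3) ^ 2 ≤ δ := by
    intro k x hx
    refine le_trans (le_of_eq ?_) (hsize x hx)
    rw [hB0', hB1']
    have := Real.sin_sq_add_cos_sq (2 * Real.pi * (k : ℕ) / N)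
    linear_combination (inner ℝ (b 0) (x : E3) ^ 2 + inner ℝ (b 1) (x : E3) ^ 2) * this
  -- the averaged point stays in the disc
  have hsA : ∀ y : Fin N → S2, (∀ k, y k ∈ closure D) → sA μ B y < 1442401 / 250000 := by
    intro y hy
    have h1 := ngon hN1 (Y1 := YA B 0 y) (Y2 := YA B 1 y) (m := M / N) (fun j => by
      have e1 : Real.cos (2 * Real.pi * j / N) * YA B 0 y +
          Real.sin (2 * Real.pi * j / N) * YA B 1 y =
          (∑ k : Fin N, inner ℝ (dirp b (2 * Real.pi * (((k : ℕ) + j : ℕ) : ℝ) / N))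
            (y k : E3)) / N := by
        unfold YA
        rw [mul_div_assoc', mul_div_assoc', ← add_div, Finset.mul_sum, Finset.mul_sum,
          ← Finset.sum_add_distrib]
        congr 1
        apply Finset.sum_congr rfl
        intro k _
        have e2 : 2 * Real.pi * (((k : ℕ) + j : ℕ) : ℝ) / N =
            2 * Real.pi * (k : ℕ) / N + 2 * Real.pi * j / N := by
          push_cast
          ring
        rw [hdir, e2, Real.cos_add, Real.sin_add, hB0', hB1']
        ring
      rw [e1]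
      gcongr
      calc ∑ k : Fin N, inner ℝ (dirp b (2 * Real.pi * (((k : ℕ) + j : ℕ) : ℝ) / N)) (y k : E3)
          ≤ ∑ k : Fin N, A ((k : ℕ) + j) :=
            Finset.sum_le_sum (fun k _ => hDA ((k : ℕ) + j) _ (hy k))
        _ = ∑ k ∈ Finset.range N, A (k + j) := Fin.sum_univ_eq_sum_range (fun k => A (k + j)) N
        _ = M := sum_shift hAper j)
    have h2 : M / N < 1201 / 500 * Real.cos (Real.pi / N) / μ := by
      rw [div_lt_iff₀ hNpos]
      linarith
    have h3 : Real.sqrt (YA B 0 y ^ 2 + YA B 1 y ^ 2) < 1201 / 500 / μ := by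
      have h4 : Real.sqrt (YA B 0 y ^ 2 + YA B 1 y ^ 2) * Real.cos (Real.pi / N) <
          1201 / 500 / μ * Real.cos (Real.pi / N) := by
        refine lt_of_le_of_lt h1 (lt_of_lt_of_eq h2 ?_)
        ring
      exact lt_of_mul_lt_mul_right h4 hcospos.le
    have h5 := Real.sq_sqrt (by positivity : 0 ≤ YA B 0 y ^ 2 + YA B 1 y ^ 2)
    have h6 := Real.sqrt_nonneg (YA B 0 y ^ 2 + YA B 1 y ^ 2)
    have h7 : YA B 0 y ^ 2 + YA B 1 y ^ 2 < (1201 / 500 / μ) ^ 2 := by
      rw [← h5]
      exact pow_lt_pow_left₀ h3 h6 (by norm_num)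
    unfold sA
    calc μ ^ 2 * (YA B 0 y ^ 2 + YA B 1 y ^ 2) < μ ^ 2 * (1201 / 500 / μ) ^ 2 := by gcongr
      _ = 1442401 / 250000 := by field_simp; norm_num
  -- the maximum
  have hYAc : ∀ i, Continuous (fun y : Fin N → S2 => YA B i y) := by
    intro i
    unfold YA
    fun_prop
  have hgpc : Continuous gp := continuous_iff_continuousAt.2 fun s => (gp_deriv s).continuousAt
  have hsAc : Continuous (fun y : Fin N → S2 => sA μ B y) := by
    unfold sA
    exact continuous_const.mul (((hYAc 0).pow 2).add ((hYAc 1).pow 2))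
  set K : Set (Fin N → S2) := Set.pi Set.univ (fun _ => closure D) with hK
  have hKc : IsCompact K := isCompact_univ_pi (fun _ => isClosed_closure.isCompact)
  have hKm : ∀ y : Fin N → S2, y ∈ K ↔ ∀ k, y k ∈ closure D := by
    intro y; simp [hK, Set.mem_pi]
  have hcK : (fun _ : Fin N => c) ∈ K := (hKm _).2 (fun _ => subset_closure hcD)
  have hgpos : ∀ y ∈ K, 0 < gp (sA μ B y) := by
    intro y hy
    have := gp_pos (hsA y ((hKm y).1 hy)).le
    linarith
  have hprodc : Continuous (fun y : Fin N → S2 => ∏ k, ev P (y k)) := by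
    apply continuous_finsetProd
    intro k _
    exact hcont.comp (continuous_apply k)
  obtain ⟨x, hxK, hxmax⟩ := hKc.exists_isMaxOn ⟨_, hcK⟩
    (f := fun y : Fin N → S2 => (∏ k, ev P (y k)) / gp (sA μ B y) ^ N)
    (hprodc.continuousOn.div ((hgpc.comp hsAc).pow N).continuousOn
      (fun y hy => (pow_pos (hgpos y hy) N).ne'))
  have hxval : 0 < (∏ k, ev P (x k)) / gp (sA μ B x) ^ N := by
    have h1 : (∏ _k : Fin N, ev P c) / gp (sA μ B (fun _ => c)) ^ N ≤
        (∏ k, ev P (x k)) / gp (sA μ B x) ^ N := hxmax hcK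
    have h2 : 0 < (∏ _k : Fin N, ev P c) / gp (sA μ B (fun _ => c)) ^ N :=
      div_pos (Finset.prod_pos (fun _ _ => hc)) (pow_pos (hgpos _ hcK) N)
    linarith
  have hxprod : 0 < ∏ k, ev P (x k) := by
    have := pow_pos (hgpos x hxK) N
    exact (div_pos_iff_of_pos_right this).1 hxval
  have hxne : ∀ k, ev P (x k) ≠ 0 := by
    intro k hk
    exact hxprod.ne' (Finset.prod_eq_zero (Finset.mem_univ k) hk)
  have hnn : ∀ y ∈ closure D, 0 ≤ ev P y := by
    intro y hy
    have hcl : IsClosed {z : S2 | 0 ≤ ev P z} := isClosed_le continuous_const hcont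
    have hsub : D ⊆ {z : S2 | 0 ≤ ev P z} := by
      intro z hz
      have h3 : 0 < ev P z := hDU hz
      exact h3.le
    exact closure_minimal hsub hcl hy
  have hxD : ∀ k, x k ∈ D := by
    intro k
    have h1 := (hKm x).1 hxK k
    have h2 : 0 < ev P (x k) := lt_of_le_of_ne (hnn _ h1) (hxne k).symm
    exact mem_comp_of_mem_closure hAo h1 h2
  have hDpos : ∀ y ∈ D, 0 < ev P y := fun y hy => hDU hy
  have hlog : ∀ y : Fin N → S2, (∀ k, y k ∈ D) →
      Real.log ((∏ k, ev P (y k)) / gp (sA μ B y) ^ N) =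
      ∑ k, Real.log (ev P (y k)) - N * Real.log (gp (sA μ B y)) := by
    intro y hy
    have hyK : y ∈ K := (hKm y).2 (fun k => subset_closure (hy k))
    rw [Real.log_div (Finset.prod_pos (fun k _ => hDpos _ (hy k))).ne'
      (pow_pos (hgpos y hyK) N).ne', Real.log_prod (fun k _ => (hDpos _ (hy k)).ne'),
      Real.log_pow]
  have hfin := core hN1 hP hh hℓ hDo hDpos B x hxD
    (fun k => by rw [hB2 k]; exact hlast _ (hxD k)) (δ := δ) (μ := μ)
    (fun k => hBδ k _ (hxD k)) hδ1.le (hsA x (fun k => subset_closure (hxD k))).le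
    (by rw [hδ]; apply le_of_eq; field_simp) (by
      intro y hy
      have hyK : y ∈ K := (hKm y).2 (fun k => subset_closure (hy k))
      rw [← hlog y hy, ← hlog x hxD]
      apply Real.log_le_log
      · exact div_pos (Finset.prod_pos (fun k _ => hDpos _ (hy k))) (pow_pos (hgpos y hyK) N)
      · exact hxmax hyK)
  linarith

end Run7.h506
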