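import Mathlib
import Pool.Agent.Run7.h506.NPg
import Pool.Agent.Run7.h506.HitMeas

set_option autoImplicit false

namespace Run7.h506

open Set Topology Filter MeasureTheory

theorem supp_lip {D : Set S2} {c : S2} (hc : c ∈ D) {p q : E3} (hq : ‖q‖ = 1) :
    supp D p ≤ supp D q + ‖p - q‖ := by
  apply csSup_le (Set.Nonempty.image _ ⟨c, hc⟩)
  rintro _ ⟨x, hx, rfl⟩
  simp only
  have hxn : ‖(x : E3)‖ = 1 := mem_sphere_zero_iff_norm.1 x.2
  have h1 : inner ℝ p (x : E3) = inner ℝ q (x : E3) + inner ℝ (p - q) (x : E3) := by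
    rw [inner_sub_left]; ring
  have h2 := real_inner_le_norm (p - q) (x : E3)
  rw [hxn, mul_one] at h2
  have h3 := le_supp hq hx
  linarith

theorem dirp_continuous (b : OrthonormalBasis (Fin 3) ℝ E3) : Continuous (dirp b) := by
  unfold dirp
  fun_prop

theorem supp_dirp_continuous {D : Set S2} {c : S2} (hc : c ∈ D)
    (b : OrthonormalBasis (Fin 3) ℝ E3) : Continuous (fun θ => supp D (dirp b θ)) := by
  rw [continuous_iff_continuousAt]
  intro θ0
  unfold ContinuousAt
  rw [tendsto_iff_dist_tendsto_zero]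
  have h1 : Tendsto (fun θ => ‖dirp b θ - dirp b θ0‖) (𝓝 θ0) (𝓝 0) := by
    have := ((dirp_continuous b).sub (continuous_const (y := dirp b θ0))).norm.tendsto θ0
    simpa using this
  refine squeeze_zero (fun _ => dist_nonneg) (fun θ => ?_) h1
  rw [Real.dist_eq, abs_le]
  have h2 := supp_lip hc (p := dirp b θ) (dirp_norm b θ0)
  have h3 := supp_lip hc (p := dirp b θ0) (dirp_norm b θ)
  rw [norm_sub_rev] at h3
  constructor <;> linarith

theorem dirp_frame {b b' : OrthonormalBasis (Fin 3) ℝ E3} {t : ℝ}
    (h0 : b' 0 = Real.cos t • b 0 + Real.sin t • b 1)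
    (h1 : b' 1 = (-Real.sin t) • b 0 + Real.cos t • b 1) (φ : ℝ) :
    dirp b' φ = dirp b (t + φ) := by
  unfold dirp
  rw [h0, h1, Real.cos_add, Real.sin_add]
  module

theorem dirp_add_pi (b : OrthonormalBasis (Fin 3) ℝ E3) (θ : ℝ) :
    dirp b (θ + Real.pi) = -dirp b θ := by
  unfold dirp
  rw [Real.cos_add_pi, Real.sin_add_pi]
  module

/-- If in every frame the average of the support values over a regular polygon of directions is
at least `κ` then the set is separated by at least the fraction `κ` of all great circles. -/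
theorem hit_measure_N {D : Set S2} {c : S2} (hc : c ∈ D) {N : ℕ} (hN : 1 ≤ N) {κ : ℝ}
    (hκ : 0 ≤ κ)
    (hext : ∀ b : OrthonormalBasis (Fin 3) ℝ E3, b 2 = (c : E3) →
      (N : ℝ) * κ ≤ ∑ k ∈ Finset.range N, supp D (dirp b (2 * Real.pi * k / N))) :
    ENNReal.ofReal κ * volume (Metric.ball (0 : E3) 1) ≤
      volume (Metric.ball (0 : E3) 1 ∩ hit D) := by
  have hpi := Real.pi_pos
  have hNpos : (0 : ℝ) < N := by exact_mod_cast hN
  have hcn : ‖(c : E3)‖ = 1 := mem_sphere_zero_iff_norm.1 c.2
  obtain ⟨p0, hp0, hp0c⟩ := exists_unit_orth (c : E3)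
  obtain ⟨b, hb0, hb2⟩ := exists_basis_ext p0 (c : E3) hp0 hcn hp0c
  set S : ℝ → ℝ := fun θ => supp D (dirp b θ) with hS
  have hSc : Continuous S := supp_dirp_continuous hc b
  have hSper : Function.Periodic S (2 * Real.pi) := by
    intro θ
    simp only [hS, dirp_periodic]
  have hpc : ∀ θ, inner ℝ (dirp b θ) (c : E3) = 0 := by
    intro θ; rw [← hb2]; exact dirp_orth b θ
  have hS0 : ∀ θ, 0 ≤ S θ := fun θ => supp_nonneg hc (dirp_norm b θ) (hpc θ)
  -- the mean value
  have hmean : 2 * Real.pi * κ ≤ ∫ θ in (-Real.pi)..Real.pi, S θ := by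
    have h1 : ∀ θ : ℝ, (N : ℝ) * κ ≤ ∑ k ∈ Finset.range N, S (θ + 2 * Real.pi * k / N) := by
      intro θ
      obtain ⟨b', h0, h1, h2⟩ := frame_rot b θ
      have h3 := hext b' (by rw [h2, hb2])
      refine h3.trans (le_of_eq ?_)
      apply Finset.sum_congr rfl
      intro k _
      rw [dirp_frame h0 h1]
    have h2 : ∫ θ in (-Real.pi)..Real.pi, (N : ℝ) * κ ≤
        ∫ θ in (-Real.pi)..Real.pi, ∑ k ∈ Finset.range N, S (θ + 2 * Real.pi * k / N) := by
      apply intervalIntegral.integral_mono_on (by linarith)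
      · exact intervalIntegrable_const
      · apply Continuous.intervalIntegrable
        apply continuous_finsetSum
        intro k _
        exact hSc.comp (by fun_prop)
      · intro θ _
        exact h1 θ
    rw [intervalIntegral.integral_finsetSum] at h2
    · have h3 : ∀ k ∈ Finset.range N, ∫ θ in (-Real.pi)..Real.pi, S (θ + 2 * Real.pi * k / N) =
          ∫ θ in (-Real.pi)..Real.pi, S θ := by
        intro k _
        rw [intervalIntegral.integral_comp_add_right (f := S)]
        have h4 := hSper.intervalIntegral_add_eq (-Real.pi + 2 * Real.pi * k / N) (-Real.pi)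
        have e1 : -Real.pi + 2 * Real.pi * k / N + 2 * Real.pi = Real.pi + 2 * Real.pi * k / N := by
          ring
        have e2 : -Real.pi + 2 * Real.pi = Real.pi := by ring
        rw [e1, e2] at h4
        exact h4
      rw [Finset.sum_congr rfl h3] at h2
      rw [intervalIntegral.integral_const] at h2
      simp only [Finset.sum_const, Finset.card_range, smul_eq_mul, nsmul_eq_mul] at h2
      have h5 : (N : ℝ) * (2 * Real.pi * κ) ≤ N * ∫ θ in (-Real.pi)..Real.pi, S θ := by
        refine le_trans (le_of_eq ?_) h2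
        ring
      exact le_of_mul_le_mul_left h5 hNpos
    · intro k _
      apply Continuous.intervalIntegrable
      exact hSc.comp (by fun_prop)
  set A := Metric.ball (0 : E3) 1 ∩ hit D with hA
  have hAo : IsOpen A := Metric.isOpen_ball.inter (hit_isOpen D)
  have hAm : MeasurableSet A := hAo.measurableSet
  have hPm : Measurable (Phi b) := (Phi_continuous b).measurable
  have hBm : MeasurableSet ((Phi b) ⁻¹' A) := hPm hAm
  set G : ℝ × ℝ → ENNReal := fun v => volume {s : ℝ | Phi b (s, v) ∈ A} with hG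
  have hGm : Measurable G := measurable_measure_prodMk_right hBm
  have hvol : volume A = ∫⁻ v, G v := by
    rw [← (Phi_mp b).measure_preimage hAm.nullMeasurableSet, Measure.volume_eq_prod,
      Measure.prod_apply_symm hBm]
    rfl
  have hpolar : ∫⁻ v : ℝ × ℝ, G v =
      ∫⁻ θ in Ioo (-Real.pi) Real.pi, ∫⁻ r in Ioi (0 : ℝ), ENNReal.ofReal r *
        G (r * Real.cos θ, r * Real.sin θ) := by
    rw [← lintegral_comp_polarCoord_symm]
    simp only [polarCoord_symm_apply, polarCoord_target, smul_eq_mul]
    rw [Measure.volume_eq_prod, ← Measure.prod_restrict, lintegral_prod_symm]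
    apply Measurable.aemeasurable
    apply Measurable.mul (by fun_prop)
    exact hGm.comp (by fun_prop)
  have hθ : ∀ θ : ℝ, ENNReal.ofReal (S θ / 3) + ENNReal.ofReal (S (θ + Real.pi) / 3) ≤
      ∫⁻ r in Ioi (0 : ℝ), ENNReal.ofReal r * G (r * Real.cos θ, r * Real.sin θ) := by
    intro θ
    have h := dir_bound hc (dirp_norm b θ) (hpc θ)
    simp only [hS]
    rw [dirp_add_pi]
    refine h.trans (le_of_eq ?_)
    apply lintegral_congr
    intro r
    congr 1
    simp only [hG]
    congr 1
    ext s
    simp only [Set.mem_ofPred_eq]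
    have : r • dirp b θ + s • (c : E3) = Phi b (s, r * Real.cos θ, r * Real.sin θ) := by
      rw [← hb2]
      simp only [Phi, dirp]
      rw [smul_add, smul_smul, smul_smul]
    rw [this]
  have hlow : ENNReal.ofReal (2 / 3 * (2 * Real.pi * κ)) ≤ volume A := by
    rw [hvol, hpolar]
    refine le_trans ?_ (lintegral_mono hθ)
    rw [lintegral_add_left (by fun_prop)]
    have hint : ∀ a : ℝ, ∫⁻ θ in Ioo (-Real.pi) Real.pi, ENNReal.ofReal (S (θ + a) / 3) =
        ENNReal.ofReal (∫ θ in (-Real.pi)..Real.pi, S (θ + a) / 3) := by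
      intro a
      have hc2 : Continuous (fun θ => S (θ + a) / 3) := (hSc.comp (by fun_prop)).div_const 3
      rw [intervalIntegral.integral_of_le (by linarith), ← integral_Ioc_eq_integral_Ioo.symm,
        ofReal_integral_eq_lintegral_ofReal]
      · exact (hc2.integrableOn_Icc).mono_set Ioo_subset_Icc_self
      · exact Eventually.of_forall (fun θ => div_nonneg (hS0 _) (by norm_num))
    have h0 := hint 0
    simp only [add_zero] at h0
    rw [h0, hint Real.pi]
    have hsh : ∫ θ in (-Real.pi)..Real.pi, S (θ + Real.pi) / 3 =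
        ∫ θ in (-Real.pi)..Real.pi, S θ / 3 := by
      rw [intervalIntegral.integral_comp_add_right (f := fun θ => S θ / 3)]
      have hper3 : Function.Periodic (fun θ => S θ / 3) (2 * Real.pi) := by
        intro θ
        simp only
        rw [hSper]
      have h4 := hper3.intervalIntegral_add_eq (-Real.pi + Real.pi) (-Real.pi)
      have e1 : -Real.pi + Real.pi + 2 * Real.pi = Real.pi + Real.pi := by ring
      have e2 : -Real.pi + 2 * Real.pi = Real.pi := by ring
      rw [e1, e2] at h4
      exact h4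
    rw [hsh]
    have hdiv : ∫ θ in (-Real.pi)..Real.pi, S θ / 3 =
        (∫ θ in (-Real.pi)..Real.pi, S θ) / 3 := intervalIntegral.integral_div 3 S
    have hnn : 0 ≤ ∫ θ in (-Real.pi)..Real.pi, S θ / 3 := by
      rw [hdiv]
      have : 0 ≤ 2 * Real.pi * κ := by positivity
      linarith
    rw [← ENNReal.ofReal_add hnn hnn]
    apply ENNReal.ofReal_le_ofReal
    rw [hdiv]
    linarith
  rw [EuclideanSpace.volume_ball_fin_three, ENNReal.ofReal_one, one_pow, one_mul,
    ← ENNReal.ofReal_mul hκ]
  refine le_trans (le_of_eq ?_) hlow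
  congr 1
  ring

end Run7.h506
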