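import Mathlib
import Pool.Agent.Run7.h506.Lune
import Pool.Agent.Run7.h506.Shift
import Pool.Agent.Run7.h506.NPh

set_option autoImplicit false

namespace Run7.h506

open Set Topology Filter

/-- Restriction to a half meridian starting at a zero of high order, in the cotangent
parameter. -/
theorem mer_poly {P : MvPolynomial (Fin 3) ℝ} {ℓ m : ℕ} (hP : P.IsHomogeneous ℓ)
    (z e : Fin 3 → ℝ) (hz : ∀ k < m, MvPolynomial.homogeneousComponent k (sh z P) = 0) :
    ∃ q : Polynomial ℝ, q.natDegree ≤ ℓ - m ∧
      ∀ c : ℝ, q.eval c = MvPolynomial.eval (fun i => c * z i + e i) P := by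
  set ρ : Polynomial ℝ := MvPolynomial.aeval
    (fun i => Polynomial.C (z i) + Polynomial.C (e i) * Polynomial.X) P with hρ
  have hdeg : ρ.natDegree ≤ ℓ := by
    have : ρ.natDegree ≤ ℓ * 1 := by
      apply MvPolynomial.aeval_natDegree_le P hP.totalDegree_le
      intro i
      compute_degree!
    linarith
  have hev : ∀ r : ℝ, ρ.eval r = MvPolynomial.eval (fun i => z i + r * e i) P := by
    intro r
    rw [hρ]
    have h := (MvPolynomial.comp_aeval_apply (φ := Polynomial.aeval (R := ℝ) r)
      (fun i => Polynomial.C (z i) + Polynomial.C (e i) * Polynomial.X) P)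
    rw [Polynomial.coe_aeval_eq_eval] at h
    rw [h, MvPolynomial.aeval_eq_eval]
    congr 2
    ext i
    simp
    ring
  have hρeq : ρ = ∑ k ∈ Finset.range ((sh z P).totalDegree + 1),
      Polynomial.C (MvPolynomial.eval e (MvPolynomial.homogeneousComponent k (sh z P))) *
        Polynomial.X ^ k := by
    apply Polynomial.funext
    intro r
    rw [hev, expand, Polynomial.eval_finsetSum]
    apply Finset.sum_congr rfl
    intro k _
    simp
    ring
  have hcoeff : ∀ k < m, ρ.coeff k = 0 := by
    intro k hk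
    rw [hρeq, Polynomial.finsetSum_coeff]
    apply Finset.sum_eq_zero
    intro j _
    rw [Polynomial.coeff_C_mul, Polynomial.coeff_X_pow]
    split_ifs with h
    · subst h
      rw [hz k hk]
      simp
    · simp
  refine ⟨Polynomial.reflect ℓ ρ, ?_, ?_⟩
  · rw [Polynomial.natDegree_le_iff_coeff_eq_zero]
    intro i hi
    rw [Polynomial.coeff_reflect]
    by_cases hiℓ : i ≤ ℓ
    · rw [Polynomial.revAt_le hiℓ]
      apply hcoeff
      omega
    · rw [Polynomial.revAt_eq_self_of_lt (by omega)]
      apply Polynomial.coeff_eq_zero_of_natDegree_lt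
      omega
  · have hne : ∀ c : ℝ, c ≠ 0 → (Polynomial.reflect ℓ ρ).eval c =
        MvPolynomial.eval (fun i => c * z i + e i) P := by
      intro c hc
      let _ : Invertible c⁻¹ := invertibleOfNonzero (inv_ne_zero hc)
      have h1 := Polynomial.eval₂_reflect_mul_pow (RingHom.id ℝ) (c⁻¹) ℓ ρ hdeg
      rw [invOf_eq_inv, inv_inv, Polynomial.eval₂_id, Polynomial.eval₂_id, hev] at h1
      have h2 := eval_scale hP c (fun i => z i + c⁻¹ * e i)
      have h3 : (fun i => c * (z i + c⁻¹ * e i)) = fun i => c * z i + e i := by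
        funext i
        field_simp
      rw [h3] at h2
      have h4 : c ^ ℓ * c⁻¹ ^ ℓ = 1 := by rw [← mul_pow, mul_inv_cancel₀ hc, one_pow]
      rw [h2, ← h1]
      linear_combination (-(Polynomial.reflect ℓ ρ).eval c) * h4
    have hcont1 : Continuous (fun c : ℝ => (Polynomial.reflect ℓ ρ).eval c) :=
      Polynomial.continuous _
    have hcont2 : Continuous (fun c : ℝ => MvPolynomial.eval (fun i => c * z i + e i) P) := by
      have h1 : Continuous (fun f : Fin 3 → ℝ => MvPolynomial.eval f P) :=
        MvPolynomial.continuous_eval P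
      exact h1.comp (by fun_prop)
    intro c
    have hdense : Dense {c : ℝ | c ≠ 0} := dense_compl_singleton 0
    have := hcont1.ext_on hdense hcont2 (fun c hc => hne c hc)
    exact congrFun this c

/-- Point of the half meridian in direction `φ` with cotangent parameter `c`. -/
noncomputable def mer (b : OrthonormalBasis (Fin 3) ℝ E3) (φ c : ℝ) : S2 :=
  ⟨(1 / Real.sqrt (1 + c ^ 2)) • (c • b 2 + dirp b φ), by
    rw [mem_sphere_zero_iff_norm]
    apply norm_eq_one_of_sq
    rw [norm_smul, mul_pow]
    have h1 : ‖c • b 2 + dirp b φ‖ ^ 2 = 1 + c ^ 2 := by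
      rw [← real_inner_self_eq_norm_sq]
      simp only [inner_add_left, inner_add_right, inner_smul_left, inner_smul_right,
        RCLike.conj_to_real]
      have h2 : inner ℝ (b 2) (dirp b φ) = 0 := by rw [real_inner_comm]; exact dirp_orth b φ
      rw [dirp_orth, h2, real_inner_self_eq_norm_sq,
        real_inner_self_eq_norm_sq, dirp_norm, b.orthonormal.1 2]
      ring
    have h2 : 0 < 1 + c ^ 2 := by positivity
    rw [h1, Real.norm_eq_abs, sq_abs, div_pow, Real.sq_sqrt h2.le]
    field_simp⟩

theorem mer_continuous (b : OrthonormalBasis (Fin 3) ℝ E3) :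
    Continuous (fun v : ℝ × ℝ => mer b v.1 v.2) := by
  unfold mer
  apply Continuous.subtype_mk
  have h1 : Continuous (fun v : ℝ × ℝ => 1 / Real.sqrt (1 + v.2 ^ 2)) := by
    apply Continuous.div continuous_const (by fun_prop)
    intro v
    have : 0 < 1 + v.2 ^ 2 := by positivity
    exact (Real.sqrt_pos.2 this).ne'
  have h2 : Continuous (fun v : ℝ × ℝ => v.2 • b 2 + dirp b v.1) := by
    have h3 : Continuous (fun v : ℝ × ℝ => dirp b v.1) := (dirp_continuous b).comp continuous_fst
    fun_prop
  exact h1.smul h2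

theorem zc_mer (b : OrthonormalBasis (Fin 3) ℝ E3) (φ c : ℝ) :
    zc b (mer b φ c : E3) = ((1 / Real.sqrt (1 + c ^ 2) : ℝ) : ℂ) *
      Complex.exp (φ * Complex.I) := by
  have h00 : inner ℝ (b 0) (b 0) = 1 := by simp
  have h11 : inner ℝ (b 1) (b 1) = 1 := by simp
  have h01 : inner ℝ (b 0) (b 1) = 0 := b.orthonormal.2 (by decide)
  have h10 : inner ℝ (b 1) (b 0) = 0 := b.orthonormal.2 (by decide)
  have h02 : inner ℝ (b 0) (b 2) = 0 := b.orthonormal.2 (by decide)
  have h12 : inner ℝ (b 1) (b 2) = 0 := b.orthonormal.2 (by decide)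
  rw [Complex.exp_mul_I, ← Complex.ofReal_cos, ← Complex.ofReal_sin]
  apply Complex.ext
  · simp only [zc, mer, dirp, inner_smul_right, inner_add_right, h00, h01, h02, Complex.mul_re,
      Complex.add_re, Complex.ofReal_re, Complex.ofReal_im, Complex.I_re, Complex.I_im,
      Complex.mul_im, Complex.add_im]
    ring
  · simp only [zc, mer, dirp, inner_smul_right, inner_add_right, h10, h11, h12, Complex.mul_re,
      Complex.add_re, Complex.ofReal_re, Complex.ofReal_im, Complex.I_re, Complex.I_im,
      Complex.mul_im, Complex.add_im]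
    ring

/-- Every point off the axis lies on the half meridian of its argument. -/
theorem exists_mer (b : OrthonormalBasis (Fin 3) ℝ E3) (x : S2) {ρ φ : ℝ} (hρ : 0 < ρ)
    (h : zc b (x : E3) = (ρ : ℂ) * Complex.exp (φ * Complex.I)) : ∃ c : ℝ, mer b φ c = x := by
  have hre : inner ℝ (b 0) (x : E3) = ρ * Real.cos φ := by
    have := congrArg Complex.re h
    rw [Complex.exp_mul_I, ← Complex.ofReal_cos, ← Complex.ofReal_sin] at this
    simp only [zc, Complex.mul_re, Complex.add_re, Complex.ofReal_re, Complex.ofReal_im,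
      Complex.I_re, Complex.I_im, Complex.mul_im, Complex.add_im] at this
    linarith
  have him : inner ℝ (b 1) (x : E3) = ρ * Real.sin φ := by
    have := congrArg Complex.im h
    rw [Complex.exp_mul_I, ← Complex.ofReal_cos, ← Complex.ofReal_sin] at this
    simp only [zc, Complex.mul_re, Complex.add_re, Complex.ofReal_re, Complex.ofReal_im,
      Complex.I_re, Complex.I_im, Complex.mul_im, Complex.add_im] at this
    linarith
  have hsum := b.sum_sq_inner_right (x : E3)
  rw [Fin.sum_univ_three] at hsum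
  have hxn : ‖(x : E3)‖ = 1 := mem_sphere_zero_iff_norm.1 x.2
  rw [hxn, hre, him] at hsum
  set Z := inner ℝ (b 2) (x : E3) with hZ
  have hZ2 : ρ ^ 2 + Z ^ 2 = 1 := by
    have := Real.sin_sq_add_cos_sq φ
    nlinarith
  refine ⟨Z / ρ, ?_⟩
  apply Subtype.ext
  have hs : Real.sqrt (1 + (Z / ρ) ^ 2) = 1 / ρ := by
    have : 1 + (Z / ρ) ^ 2 = (1 / ρ) ^ 2 := by
      field_simp
      linarith
    rw [this, Real.sqrt_sq (by positivity)]
  have hx := b.sum_repr' (x : E3)
  rw [Fin.sum_univ_three, hre, him, ← hZ] at hx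
  simp only [mer]
  rw [hs, ← hx]
  unfold dirp
  have hρ0 := hρ.ne'
  rw [one_div_one_div, smul_add, smul_add, smul_smul, smul_smul, smul_smul]
  have : ρ * (Z / ρ) = Z := by field_simp
  rw [this]
  abel

theorem ev_mer {P : MvPolynomial (Fin 3) ℝ} {ℓ : ℕ} (hP : P.IsHomogeneous ℓ)
    (b : OrthonormalBasis (Fin 3) ℝ E3) (φ c : ℝ) :
    ev P (mer b φ c : E3) = (1 / Real.sqrt (1 + c ^ 2)) ^ ℓ *
      MvPolynomial.eval (fun i => c * (b 2) i + (dirp b φ) i) P := by
  simp only [mer]
  rw [ev_smul hP]
  rfl

end Run7.h506
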