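import Mathlib
import Pool.Agent.Run7.h506.Mer

set_option autoImplicit false

namespace Run7.h506

open Set Topology Filter MeasureTheory

/-- Component of the nonvanishing set at a positive point. -/
theorem comp_pos_eq (P : MvPolynomial (Fin 3) ℝ) {x : S2} (hx : 0 < ev P x) :
    connectedComponentIn {y : S2 | ev P y ≠ 0} x = connectedComponentIn {y : S2 | 0 < ev P y} x := by
  have hcont : Continuous (fun y : S2 => ev P y) := (ev_continuous P).comp continuous_subtype_val
  apply Subset.antisymm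
  · have hxm : x ∈ {y : S2 | ev P y ≠ 0} := ne_of_gt hx
    have hpre : IsPreconnected (connectedComponentIn {y : S2 | ev P y ≠ 0} x) :=
      isPreconnected_connectedComponentIn
    apply hpre.subset_connectedComponentIn (mem_connectedComponentIn hxm)
    intro y hy
    by_contra hneg
    simp only [Set.mem_ofPred_eq, not_lt] at hneg
    obtain ⟨z, hz, hz0⟩ := hpre.intermediate_value hy (mem_connectedComponentIn hxm)
      hcont.continuousOn (show (0 : ℝ) ∈ Icc (ev P y) (ev P x) from ⟨hneg, hx.le⟩)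
    exact (connectedComponentIn_subset _ _ hz) hz0
  · apply connectedComponentIn_mono
    intro y hy
    exact ne_of_gt hy

/-- A half meridian issuing from a zero of order `m` meets at most `ℓ - m + 1` domains. -/
theorem mer_hits {P : MvPolynomial (Fin 3) ℝ} {ℓ m : ℕ} (hP : P.IsHomogeneous ℓ)
    (b : OrthonormalBasis (Fin 3) ℝ E3)
    (hz : ∀ k < m, MvPolynomial.homogeneousComponent k (sh (fun i => (b 2) i) P) = 0) (φ : ℝ)
    (F' : Finset (Set S2))
    (hF : ∀ D ∈ F', ∃ x : S2, ev P x ≠ 0 ∧ D = connectedComponentIn {y : S2 | ev P y ≠ 0} x)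
    (hhit : ∀ D ∈ F', ∃ c : ℝ, mer b φ c ∈ D) :
    F'.card ≤ ℓ - m + 1 := by
  classical
  obtain ⟨q, hqdeg, hqev⟩ := mer_poly hP (fun i => (b 2) i) (fun i => (dirp b φ) i) hz
  have hsgn : ∀ c : ℝ, ev P (mer b φ c : E3) ≠ 0 ↔ q.eval c ≠ 0 := by
    intro c
    rw [ev_mer hP, hqev]
    have : (1 / Real.sqrt (1 + c ^ 2)) ^ ℓ ≠ 0 := by
      apply pow_ne_zero
      have : 0 < 1 + c ^ 2 := by positivity
      exact (one_div_pos.2 (Real.sqrt_pos.2 this)).ne'
    constructor
    · intro h h0
      exact h (by rw [h0, mul_zero])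
    · intro h
      exact mul_ne_zero this h
  rcases F'.eq_empty_or_nonempty with hemp | ⟨D0, hD0⟩
  · rw [hemp]; simp
  choose! cc hcc using hhit
  have hcomp : ∀ D ∈ F', D = connectedComponentIn {y : S2 | ev P y ≠ 0} (mer b φ (cc D)) := by
    intro D hD
    obtain ⟨x, hx, hDx⟩ := hF D hD
    have h1 := (Set.ext_iff.1 hDx _).1 (hcc D hD)
    rw [← connectedComponentIn_eq h1]
    exact hDx
  have hne : ∀ D ∈ F', q.eval (cc D) ≠ 0 := by
    intro D hD
    obtain ⟨x, hx, hDx⟩ := hF D hD
    have h1 := (Set.ext_iff.1 hDx _).1 (hcc D hD)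
    exact (hsgn _).1 (connectedComponentIn_subset _ _ h1)
  have hq0 : q ≠ 0 := by
    intro h0
    apply hne D0 hD0
    rw [h0]; simp
  have hmerc : Continuous (fun c => mer b φ c) :=
    (mer_continuous b).comp (by fun_prop : Continuous (fun c : ℝ => (φ, c)))
  have hsep : ∀ x y : ℝ, x < y → (∀ z ∈ Ioo x y, q.eval z ≠ 0) → q.eval x ≠ 0 → q.eval y ≠ 0 →
      connectedComponentIn {y : S2 | ev P y ≠ 0} (mer b φ x) =
        connectedComponentIn {y : S2 | ev P y ≠ 0} (mer b φ y) := by
    intro x y hxy hin hx hy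
    have hpre : IsPreconnected ((fun c => mer b φ c) '' Icc x y) :=
      isPreconnected_Icc.image _ hmerc.continuousOn
    have hsub : (fun c => mer b φ c) '' Icc x y ⊆ {y : S2 | ev P y ≠ 0} := by
      rintro _ ⟨c, hc, rfl⟩
      apply (hsgn c).2
      rcases eq_or_lt_of_le hc.1 with h | h
      · rw [← h]; exact hx
      rcases eq_or_lt_of_le hc.2 with h' | h'
      · rw [h']; exact hy
      exact hin c ⟨h, h'⟩
    have m1 : mer b φ x ∈ (fun c => mer b φ c) '' Icc x y := ⟨x, ⟨le_rfl, hxy.le⟩, rfl⟩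
    have m2 : mer b φ y ∈ (fun c => mer b φ c) '' Icc x y := ⟨y, ⟨hxy.le, le_rfl⟩, rfl⟩
    exact connectedComponentIn_eq (hpre.subset_connectedComponentIn m1 hsub m2)
  have hinj : Set.InjOn cc (F' : Set (Set S2)) := by
    intro D hD D' hD' h
    rw [hcomp D hD, hcomp D' hD', h]
  have hcard : (F'.image cc).card = F'.card := Finset.card_image_of_injOn hinj
  rw [← hcard]
  have hle : (F'.image cc).card ≤ q.roots.toFinset.card + 1 := by
    apply Finset.card_le_of_interleaved
    intro x hx y hy hxy hadj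
    rw [Finset.mem_image] at hx hy
    obtain ⟨D, hD, rfl⟩ := hx
    obtain ⟨D', hD', rfl⟩ := hy
    by_contra hcon
    push Not at hcon
    have h1 : ∀ z ∈ Ioo (cc D) (cc D'), q.eval z ≠ 0 := by
      intro z hz h0
      have hzr : z ∈ q.roots.toFinset := by
        rw [Multiset.mem_toFinset, Polynomial.mem_roots hq0]
        exact h0
      exact absurd hz.2 (not_lt.2 (hcon z hzr hz.1))
    have h2 := hsep _ _ hxy h1 (hne D hD) (hne D' hD')
    rw [← hcomp D hD, ← hcomp D' hD'] at h2
    rw [h2] at hxy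
    exact lt_irrefl _ hxy
  have hroots : q.roots.toFinset.card ≤ ℓ - m :=
    (Multiset.toFinset_card_le _).trans ((Polynomial.card_roots' q).trans hqdeg)
  omega

/-- The directions of half meridians meeting a set. -/
def ang (b : OrthonormalBasis (Fin 3) ℝ E3) (D : Set S2) : Set ℝ := {φ | ∃ c : ℝ, mer b φ c ∈ D}

theorem ang_open (b : OrthonormalBasis (Fin 3) ℝ E3) {D : Set S2} (hD : IsOpen D) :
    IsOpen (ang b D) := by
  have : ang b D = ⋃ c : ℝ, (fun φ => mer b φ c) ⁻¹' D := by
    ext φ; simp [ang]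
  rw [this]
  apply isOpen_iUnion
  intro c
  exact hD.preimage ((mer_continuous b).comp (by fun_prop : Continuous (fun φ : ℝ => (φ, c))))

theorem mer_periodic (b : OrthonormalBasis (Fin 3) ℝ E3) (φ c : ℝ) (n : ℤ) :
    mer b (φ + n * (2 * Real.pi)) c = mer b φ c := by
  unfold mer dirp
  simp only [Real.cos_add_int_mul_two_pi, Real.sin_add_int_mul_two_pi]

/-- Averaging the number of domains over all half meridians. -/
theorem ang_sum {P : MvPolynomial (Fin 3) ℝ} {ℓ m : ℕ} (hP : P.IsHomogeneous ℓ)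
    (b : OrthonormalBasis (Fin 3) ℝ E3)
    (hz : ∀ k < m, MvPolynomial.homogeneousComponent k (sh (fun i => (b 2) i) P) = 0)
    (F : Finset (Set S2))
    (hF : ∀ D ∈ F, ∃ x : S2, ev P x ≠ 0 ∧ D = connectedComponentIn {y : S2 | ev P y ≠ 0} x) :
    ∑ D ∈ F, volume (ang b D ∩ Ioc (-Real.pi) Real.pi) ≤
      ((ℓ - m + 1 : ℕ) : ENNReal) * ENNReal.ofReal (2 * Real.pi) := by
  classical
  have hcont : Continuous (fun y : S2 => ev P y) := (ev_continuous P).comp continuous_subtype_val
  have hUo : IsOpen {y : S2 | ev P y ≠ 0} := isOpen_ne_fun hcont continuous_const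
  have hDo : ∀ D ∈ F, IsOpen D := by
    intro D hD
    obtain ⟨x, _, rfl⟩ := hF D hD
    exact hUo.connectedComponentIn
  have h1 : ∀ D ∈ F, volume (ang b D ∩ Ioc (-Real.pi) Real.pi) =
      ∫⁻ φ in Ioc (-Real.pi) Real.pi, (ang b D).indicator 1 φ := by
    intro D hD
    have hm := (ang_open b (hDo D hD)).measurableSet
    rw [lintegral_indicator_one hm, Measure.restrict_apply hm]
  rw [Finset.sum_congr rfl h1, ← lintegral_finsetSum']
  · have hpt : ∀ φ : ℝ, ∑ D ∈ F, (ang b D).indicator (1 : ℝ → ENNReal) φ ≤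
        ((ℓ - m + 1 : ℕ) : ENNReal) := by
      intro φ
      have e1 : ∑ D ∈ F, (ang b D).indicator (1 : ℝ → ENNReal) φ =
          ((F.filter (fun D => φ ∈ ang b D)).card : ENNReal) := by
        rw [Finset.card_filter, Nat.cast_sum]
        apply Finset.sum_congr rfl
        intro D _
        by_cases h : φ ∈ ang b D <;> simp [h]
      rw [e1, Nat.cast_le]
      apply mer_hits hP b hz φ
      · intro D hD
        exact hF D (Finset.mem_filter.1 hD).1
      · intro D hD
        exact (Finset.mem_filter.1 hD).2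
    calc ∫⁻ φ in Ioc (-Real.pi) Real.pi, ∑ D ∈ F, (ang b D).indicator (1 : ℝ → ENNReal) φ
        ≤ ∫⁻ _φ in Ioc (-Real.pi) Real.pi, ((ℓ - m + 1 : ℕ) : ENNReal) := lintegral_mono hpt
      _ = _ := by
          rw [setLIntegral_const, Real.volume_Ioc]
          congr 2
          ring
  · intro D hD
    exact (measurable_one.indicator (ang_open b (hDo D hD)).measurableSet).aemeasurable

end Run7.h506
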