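import Mathlib
import Pool.Agent.Run7.h506.HZa

set_option autoImplicit false

namespace Run7.h506

open Set Topology Filter MeasureTheory

theorem sin_ge_of_mem {κ θ : ℝ} (hκ : 0 ≤ κ) (h1 : κ ≤ θ) (h2 : θ ≤ Real.pi - κ) :
    Real.sin κ ≤ Real.sin θ := by
  have hpi := Real.pi_pos
  by_cases h : θ ≤ Real.pi / 2
  · exact Real.sin_le_sin_of_le_of_le_pi_div_two (by linarith) h h1
  · push Not at h
    rw [← Real.sin_pi_sub θ]
    exact Real.sin_le_sin_of_le_of_le_pi_div_two (by linarith) (by linarith) (by linarith)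

theorem ang_volume_shift (b : OrthonormalBasis (Fin 3) ℝ E3) {D : Set S2} (hD : IsOpen D)
    (β : ℝ) : volume (ang b D ∩ Ioc β (β + 2 * Real.pi)) =
      volume (ang b D ∩ Ioc (-Real.pi) Real.pi) := by
  have hT : 0 < 2 * Real.pi := by positivity
  have h1 := isAddFundamentalDomain_Ioc hT β
  have h2 := isAddFundamentalDomain_Ioc hT (-Real.pi)
  have e : -Real.pi + 2 * Real.pi = Real.pi := by ring
  rw [e] at h2
  apply h1.measure_set_eq h2 (ang_open b hD).measurableSet
  intro g
  obtain ⟨n, hn⟩ := g.2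
  ext φ
  simp only [ang, Set.mem_preimage, Set.mem_ofPred_eq]
  have hg : (g +ᵥ φ : ℝ) = φ + n * (2 * Real.pi) := by
    rw [AddSubgroup.vadd_def, ← hn]
    simp
    ring
  rw [hg]
  simp only [mer_periodic]

theorem ang_width {P : MvPolynomial (Fin 3) ℝ} {ℓ : ℕ} (hP : P.IsHomogeneous ℓ)
    (hh : ∑ i : Fin 3, MvPolynomial.pderiv i (MvPolynomial.pderiv i P) = 0) (hℓ : 2 ≤ ℓ)
    (b : OrthonormalBasis (Fin 3) ℝ E3) (hp : ev P (b 2) = 0)
    (c : S2) (hc : 0 < ev P c) :
    ENNReal.ofReal (Real.pi / ℓ) ≤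
      volume (ang b (connectedComponentIn {y : S2 | 0 < ev P y} c) ∩
        Ioc (-Real.pi) Real.pi) := by
  have hpi := Real.pi_pos
  have hℓR : (2 : ℝ) ≤ ℓ := by exact_mod_cast hℓ
  have hℓpos : (0 : ℝ) < ℓ := by linarith
  have hcont : Continuous (fun y : S2 => ev P y) := (ev_continuous P).comp continuous_subtype_val
  have hAo : IsOpen {y : S2 | 0 < ev P y} := isOpen_lt continuous_const hcont
  set D := connectedComponentIn {y : S2 | 0 < ev P y} c with hD
  have hcD : c ∈ D := mem_connectedComponentIn hc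
  have hDo : IsOpen D := hAo.connectedComponentIn
  have hDpos : ∀ y ∈ D, 0 < ev P y := by
    intro y hy
    have h1 : y ∈ {y : S2 | 0 < ev P y} := connectedComponentIn_subset _ _ hy
    exact h1
  by_contra hcon
  push Not at hcon
  -- a missed direction
  obtain ⟨φs, hφs1, hφs2⟩ : ∃ φ ∈ Ioc (-Real.pi) Real.pi, φ ∉ ang b D := by
    by_contra hall
    push Not at hall
    have h1 : ang b D ∩ Ioc (-Real.pi) Real.pi = Ioc (-Real.pi) Real.pi :=
      inter_eq_right.2 hall
    rw [h1, Real.volume_Ioc] at hcon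
    have h2 : Real.pi / ℓ ≤ Real.pi - -Real.pi := by
      rw [div_le_iff₀ hℓpos]; nlinarith
    exact absurd (ENNReal.ofReal_le_ofReal h2) (not_le.2 hcon)
  set β := φs - Real.pi with hβ
  obtain ⟨b', hb0, hb1, hb2⟩ := frame_rot b β
  have hmer : ∀ φ d, mer b' φ d = mer b (β + φ) d := by
    intro φ d
    apply Subtype.ext
    simp only [mer]
    rw [hb2, dirp_frame hb0 hb1]
  have hang : ∀ φ, φ ∈ ang b' D ↔ β + φ ∈ ang b D := by
    intro φ
    unfold ang
    simp only [Set.mem_ofPred_eq, hmer]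
  have hpi' : Real.pi ∉ ang b' D := by
    rw [hang]
    have : β + Real.pi = φs := by rw [hβ]; ring
    rw [this]; exact hφs2
  -- the argument function
  have hz0 : ∀ x ∈ D, zc b' (x : E3) ≠ 0 := by
    intro x hx h0
    have h1 := zc_normSq b' x
    rw [h0, hb2] at h1
    have h2 : inner ℝ (b 2) (x : E3) ^ 2 = 1 := by
      simp at h1; linarith
    have hre : inner ℝ (b' 0) (x : E3) = 0 := congrArg Complex.re h0
    have him : inner ℝ (b' 1) (x : E3) = 0 := congrArg Complex.im h0
    have hx2 := b'.sum_repr' (x : E3)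
    rw [Fin.sum_univ_three, hre, him, zero_smul, zero_smul, zero_add, zero_add, hb2] at hx2
    have h3 := hDpos x hx
    rw [← hx2, ev_smul hP, hp, mul_zero] at h3
    exact lt_irrefl _ h3
  have harg : ∀ x ∈ D, Complex.arg (zc b' (x : E3)) ∈ ang b' D := by
    intro x hx
    have hne := hz0 x hx
    obtain ⟨d, hd⟩ := exists_mer b' x (norm_pos_iff.2 hne) (Complex.norm_mul_exp_arg_mul_I _).symm
    exact ⟨d, by rw [hd]; exact hx⟩
  have hslit : ∀ x ∈ D, zc b' (x : E3) ∈ Complex.slitPlane := by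
    intro x hx
    rw [Complex.mem_slitPlane_iff_arg]
    refine ⟨fun h => ?_, hz0 x hx⟩
    have := harg x hx
    rw [h] at this
    exact hpi' this
  set a : S2 → ℝ := fun x => Complex.arg (zc b' (x : E3)) with ha
  have hac : ContinuousOn a D := by
    intro x hx
    apply ContinuousAt.continuousWithinAt
    have h1 : ContinuousAt (fun y : S2 => zc b' (y : E3)) x := (zc_continuous b').continuousAt
    exact ContinuousAt.comp (f := fun y : S2 => zc b' (y : E3)) (g := Complex.arg)
      (Complex.continuousAt_arg (hslit x hx)) h1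
  have hApre : IsPreconnected (a '' D) := isPreconnected_connectedComponentIn.image _ hac
  set V := volume (ang b D ∩ Ioc (-Real.pi) Real.pi) with hV
  have hVtop : V ≠ ⊤ := (lt_of_lt_of_le hcon le_top).ne
  set w := V.toReal with hw
  have hw0 : 0 ≤ w := ENNReal.toReal_nonneg
  have hwlt : w < Real.pi / ℓ := by
    have := (ENNReal.toReal_lt_toReal hVtop ENNReal.ofReal_ne_top).2 hcon
    rwa [ENNReal.toReal_ofReal (by positivity)] at this
  have hspan : ∀ a1 ∈ a '' D, ∀ a2 ∈ a '' D, a1 ≤ a2 → a2 - a1 ≤ w := by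
    intro a1 h1 a2 h2 h12
    have hsub : Icc (β + a1) (β + a2) ⊆ ang b D ∩ Ioc (β - Real.pi) (β - Real.pi + 2 * Real.pi) := by
      intro φ hφ
      have hmem : φ - β ∈ a '' D :=
        hApre.Icc_subset h1 h2 ⟨by linarith [hφ.1], by linarith [hφ.2]⟩
      obtain ⟨x, hx, hxa⟩ := hmem
      have h3 := harg x hx
      have h4 : Complex.arg (zc b' (x : E3)) = φ - β := hxa
      rw [h4, hang] at h3
      have e1 : β + (φ - β) = φ := by ring
      rw [e1] at h3
      have h5 := Complex.arg_mem_Ioc (zc b' (x : E3))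
      rw [h4] at h5
      exact ⟨h3, ⟨by linarith [h5.1], by linarith [h5.2]⟩⟩
    have h3 := measure_mono (μ := volume) hsub
    rw [ang_volume_shift b hDo, Real.volume_Icc] at h3
    have h4 : β + a2 - (β + a1) = a2 - a1 := by ring
    rw [h4] at h3
    rw [hw]
    exact (ENNReal.ofReal_le_iff_le_toReal hVtop).1 h3
  set α := sInf (a '' D) with hα
  have hbdd : BddBelow (a '' D) := by
    refine ⟨-Real.pi, ?_⟩
    rintro _ ⟨x, _, rfl⟩
    exact (Complex.neg_pi_lt_arg _).le
  have hne : (a '' D).Nonempty := ⟨a c, c, hcD, rfl⟩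
  have hlo : ∀ x ∈ D, α ≤ a x := fun x hx => csInf_le hbdd ⟨x, hx, rfl⟩
  have hhi : ∀ x ∈ D, a x ≤ α + w := by
    intro x hx
    have : a x - w ≤ α := by
      apply le_csInf hne
      intro a' ha'
      rcases le_total a' (a x) with h | h
      · have := hspan a' ha' (a x) ⟨x, hx, rfl⟩ h
        linarith
      · linarith
    linarith
  have hℓw : ℓ * w < Real.pi := by
    rw [lt_div_iff₀ hℓpos] at hwlt
    linarith
  set κ := (Real.pi - ℓ * w) / 2 with hκ
  have hκpos : 0 < κ := by rw [hκ]; linarith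
  have hκle : κ ≤ Real.pi / 2 := by
    rw [hκ]; nlinarith
  have hsin : 0 < Real.sin κ := Real.sin_pos_of_pos_of_lt_pi hκpos (by linarith)
  set η := κ - ℓ * α with hη
  refine no_narrow hP hh hℓ c hc b' (Complex.exp (η * Complex.I)) hsin ?_
  intro x hx
  have hx' : x ∈ D := hx
  set z := zc b' (x : E3) with hz
  have hzr : z = (‖z‖ : ℂ) * Complex.exp (a x * Complex.I) :=
    (Complex.norm_mul_exp_arg_mul_I z).symm
  have hpow : Complex.exp (η * Complex.I) * z ^ ℓ =
      ((‖z‖ ^ ℓ : ℝ) : ℂ) * Complex.exp (((η + ℓ * a x : ℝ) : ℂ) * Complex.I) := by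
    conv_lhs => rw [hzr]
    rw [mul_pow, ← Complex.exp_nat_mul]
    push_cast
    have : Complex.exp ((η + ℓ * a x) * Complex.I) =
        Complex.exp (η * Complex.I) * Complex.exp (ℓ * (a x * Complex.I)) := by
      rw [← Complex.exp_add]
      congr 1
      ring
    rw [this]
    ring
  rw [hpow, Complex.im_ofReal_mul, Complex.exp_ofReal_mul_I_im]
  rw [mul_comm]
  apply mul_le_mul_of_nonneg_left _ (by positivity)
  apply sin_ge_of_mem hκpos.le
  · have := hlo x hx'
    rw [hη]
    nlinarith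
  · have := hhi x hx'
    rw [hη]
    have h6 : (ℓ : ℝ) * a x ≤ ℓ * (α + w) := mul_le_mul_of_nonneg_left this hℓpos.le
    have h7 : Real.pi - κ = κ + ℓ * w := by rw [hκ]; ring
    rw [h7]
    nlinarith

end Run7.h506
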