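import Mathlib
import Pool.Agent.Run7.h506.HitMeas
import Pool.Agent.Run7.h506.Extents

set_option autoImplicit false

namespace Run7.h506

open Set Topology MeasureTheory MvPolynomial

/-- Every positive nodal domain is separated by at least `2/(ℓ+1)` of all great circles. -/
theorem hit_frac {P : MvPolynomial (Fin 3) ℝ} {ℓ : ℕ} (hP : P.IsHomogeneous ℓ)
    (hh : ∑ i : Fin 3, pderiv i (pderiv i P) = 0) (hℓ : 8 ≤ ℓ) (c : S2) (hc : 0 < ev P c) :
    ENNReal.ofReal (2 / ((ℓ : ℝ) + 1)) * volume (Metric.ball (0 : E3) 1) ≤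
      volume (Metric.ball (0 : E3) 1 ∩ hit (connectedComponentIn {y : S2 | 0 < ev P y} c)) := by
  have hcD : c ∈ connectedComponentIn {y : S2 | 0 < ev P y} c := mem_connectedComponentIn hc
  have h := hit_measure hcD (W := 8 / ((ℓ : ℝ) + 1)) (fun b hb => by
    have e0 : ‖b 0‖ = 1 := b.orthonormal.1 0
    have e1 : ‖b 1‖ = 1 := b.orthonormal.1 1
    have n0 : ‖-b 0‖ = 1 := by rw [norm_neg, e0]
    have n1 : ‖-b 1‖ = 1 := by rw [norm_neg, e1]
    refine extents hP hh hℓ c hc b hb _ _ _ _ (fun x hx => le_supp e0 hx)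
      (fun x hx => le_supp e1 hx) (fun x hx => ?_) (fun x hx => ?_)
    · have := le_supp n0 hx
      rw [inner_neg_left] at this
      linarith
    · have := le_supp n1 hx
      rw [inner_neg_left] at this
      linarith)
  have e : (8 / ((ℓ : ℝ) + 1)) / 4 = 2 / ((ℓ : ℝ) + 1) := by ring
  rwa [e] at h

theorem ev_neg (P : MvPolynomial (Fin 3) ℝ) (x : E3) : ev (-P) x = -ev P x := by
  simp [ev]

theorem harm_neg {P : MvPolynomial (Fin 3) ℝ}
    (hh : ∑ i : Fin 3, pderiv i (pderiv i P) = 0) :
    ∑ i : Fin 3, pderiv i (pderiv i (-P)) = 0 := by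
  simp only [map_neg, Finset.sum_neg_distrib, hh, neg_zero]

/-- The counting theorem: positive nodal domains together with those components of the closed
set where the polynomial is non-positive that contain a strictly negative point. -/
theorem count_main {P : MvPolynomial (Fin 3) ℝ} {ℓ : ℕ} (hP : P.IsHomogeneous ℓ)
    (hh : ∑ i : Fin 3, pderiv i (pderiv i P) = 0) (hℓ : 8 ≤ ℓ) (FA FB : Finset (Set S2))
    (hFA : ∀ C ∈ FA, ∃ x : S2, 0 < ev P x ∧
      C = connectedComponentIn {y : S2 | 0 < ev P y} x)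
    (hFB : ∀ C ∈ FB, ∃ x : S2, ev P x < 0 ∧
      C = connectedComponentIn {y : S2 | 0 < ev P y}ᶜ x) :
    2 * (FA.card + FB.card) ≤ (ℓ + 1) ^ 2 := by
  classical
  have hneS : Nonempty S2 := (NormedSpace.sphere_nonempty.2 zero_le_one).to_subtype
  choose! xA hxA1 hxA2 using hFA
  choose! xB hxB1 hxB2 using hFB
  set DA : Set S2 → Set S2 := fun C => connectedComponentIn {y : S2 | 0 < ev P y} (xA C) with hDA
  set DB : Set S2 → Set S2 := fun C => connectedComponentIn {y : S2 | 0 < ev (-P) y} (xB C)
    with hDB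
  have hP' : (-P).IsHomogeneous ℓ := hP.neg
  have hh' := harm_neg hh
  set B := Metric.ball (0 : E3) 1 with hB
  have hBm : MeasurableSet B := Metric.isOpen_ball.measurableSet
  set κ := ENNReal.ofReal (2 / ((ℓ : ℝ) + 1)) with hκ
  have hlowA : ∀ C ∈ FA, κ * volume B ≤ ∫⁻ n in B, (hit (DA C)).indicator 1 n := by
    intro C hC
    rw [lintegral_indicator_one (hit_isOpen _).measurableSet,
      Measure.restrict_apply (hit_isOpen _).measurableSet, inter_comm]
    exact hit_frac hP hh hℓ (xA C) (hxA1 C hC)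
  have hlowB : ∀ C ∈ FB, κ * volume B ≤ ∫⁻ n in B, (hit (DB C)).indicator 1 n := by
    intro C hC
    rw [lintegral_indicator_one (hit_isOpen _).measurableSet,
      Measure.restrict_apply (hit_isOpen _).measurableSet, inter_comm]
    have h0 : 0 < ev (-P) (xB C) := by rw [ev_neg]; linarith [hxB1 C hC]
    exact hit_frac hP' hh' hℓ (xB C) h0
  have hpt : ∀ n : E3, n ≠ 0 → ∑ C ∈ FA, (hit (DA C)).indicator (1 : E3 → ENNReal) n +
      ∑ C ∈ FB, (hit (DB C)).indicator (1 : E3 → ENNReal) n ≤ ((ℓ + 1 : ℕ) : ENNReal) := by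
    intro n hn
    have e1 : ∑ C ∈ FA, (hit (DA C)).indicator (1 : E3 → ENNReal) n =
        ((FA.filter (fun C => n ∈ hit (DA C))).card : ENNReal) := by
      rw [Finset.card_filter, Nat.cast_sum]
      apply Finset.sum_congr rfl
      intro C _
      by_cases h : n ∈ hit (DA C) <;> simp [h]
    have e2 : ∑ C ∈ FB, (hit (DB C)).indicator (1 : E3 → ENNReal) n =
        ((FB.filter (fun C => n ∈ hit (DB C))).card : ENNReal) := by
      rw [Finset.card_filter, Nat.cast_sum]
      apply Finset.sum_congr rfl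
      intro C _
      by_cases h : n ∈ hit (DB C) <;> simp [h]
    rw [e1, e2, ← Nat.cast_add, Nat.cast_le]
    apply circle_hits hP n hn
    · intro C hC
      rw [Finset.mem_filter] at hC
      obtain ⟨hC1, hC2⟩ := hC
      obtain ⟨x, hx1, hx2⟩ := hit_exists isPreconnected_connectedComponentIn hC2
      have hx3 : x ∈ {y : S2 | 0 < ev P y} := connectedComponentIn_subset _ _ hx1
      refine ⟨x, by rw [real_inner_comm]; exact hx2, hx3, ?_⟩
      rw [← connectedComponentIn_eq hx1]
      exact hxA2 C hC1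
    · intro C hC
      rw [Finset.mem_filter] at hC
      obtain ⟨hC1, hC2⟩ := hC
      obtain ⟨x, hx1, hx2⟩ := hit_exists isPreconnected_connectedComponentIn hC2
      have hx4 : x ∈ {y : S2 | 0 < ev (-P) y} := connectedComponentIn_subset _ _ hx1
      have hx3 : 0 < ev (-P) x := hx4
      rw [ev_neg] at hx3
      refine ⟨x, by rw [real_inner_comm]; exact hx2, by linarith, ?_⟩
      have hsub : DB C ⊆ connectedComponentIn {y : S2 | 0 < ev P y}ᶜ (xB C) := by
        apply connectedComponentIn_mono
        intro y hy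
        simp only [Set.mem_ofPred_eq, Set.mem_compl_iff] at hy ⊢
        rw [ev_neg] at hy
        linarith
      rw [← connectedComponentIn_eq (hsub hx1)]
      exact hxB2 C hC1
  have hint : ∫⁻ n in B, (∑ C ∈ FA, (hit (DA C)).indicator (1 : E3 → ENNReal) n +
      ∑ C ∈ FB, (hit (DB C)).indicator (1 : E3 → ENNReal) n) ≤
      ((ℓ + 1 : ℕ) : ENNReal) * volume B := by
    have h1 : ∫⁻ n in B, ((ℓ + 1 : ℕ) : ENNReal) = ((ℓ + 1 : ℕ) : ENNReal) * volume B := by
      rw [setLIntegral_const]
    rw [← h1]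
    apply lintegral_mono_ae
    apply ae_restrict_of_ae
    have h0 : ∀ᵐ n : E3 ∂volume, n ≠ 0 := by
      have : volume ({0} : Set E3) = 0 := by simp
      rw [ae_iff]
      simp
    filter_upwards [h0] with n hn
    exact hpt n hn
  rw [lintegral_add_left, lintegral_finsetSum, lintegral_finsetSum] at hint
  · have hsum : ((FA.card : ENNReal) + FB.card) * (κ * volume B) ≤
        ((ℓ + 1 : ℕ) : ENNReal) * volume B := by
      refine le_trans ?_ hint
      rw [add_mul]
      apply add_le_add
      · rw [← nsmul_eq_mul]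
        exact Finset.card_nsmul_le_sum _ _ _ hlowA
      · rw [← nsmul_eq_mul]
        exact Finset.card_nsmul_le_sum _ _ _ hlowB
    have hvB : volume B ≠ 0 := by
      rw [hB, EuclideanSpace.volume_ball_fin_three]
      have := Real.pi_pos
      simp
      positivity
    have hvB' : volume B ≠ ⊤ := by
      rw [hB]
      exact measure_ball_lt_top.ne
    rw [← mul_assoc] at hsum
    have hs2 := (ENNReal.mul_le_mul_iff_left hvB hvB').1 hsum
    have hs3 : ((FA.card : ℝ) + FB.card) * (2 / ((ℓ : ℝ) + 1)) ≤ (ℓ : ℝ) + 1 := by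
      have e3 : ((FA.card : ENNReal) + FB.card) * κ =
          ENNReal.ofReal (((FA.card : ℝ) + FB.card) * (2 / ((ℓ : ℝ) + 1))) := by
        rw [hκ, ENNReal.ofReal_mul (by positivity), ENNReal.ofReal_add (by positivity)
          (by positivity), ENNReal.ofReal_natCast, ENNReal.ofReal_natCast]
      have e4 : ((ℓ + 1 : ℕ) : ENNReal) = ENNReal.ofReal ((ℓ : ℝ) + 1) := by
        rw [← ENNReal.ofReal_natCast]
        push_cast
        rfl
      rw [e3, e4] at hs2
      exact (ENNReal.ofReal_le_ofReal_iff (by positivity)).1 hs2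
    have hpos : (0 : ℝ) < (ℓ : ℝ) + 1 := by positivity
    have hs4 : (2 * ((FA.card : ℝ) + FB.card)) ≤ ((ℓ : ℝ) + 1) ^ 2 := by
      have : ((FA.card : ℝ) + FB.card) * (2 / ((ℓ : ℝ) + 1)) * ((ℓ : ℝ) + 1) =
          2 * ((FA.card : ℝ) + FB.card) := by
        field_simp
      rw [← this, sq]
      exact mul_le_mul_of_nonneg_right hs3 hpos.le
    exact_mod_cast hs4
  · intro C _
    exact (measurable_one.indicator (hit_isOpen _).measurableSet)
  · intro C _
    exact (measurable_one.indicator (hit_isOpen _).measurableSet)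
  · apply Finset.measurable_sum
    intro C _
    exact (measurable_one.indicator (hit_isOpen _).measurableSet)

end Run7.h506
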