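import Mathlib
import Pool.Agent.Run7.h506.Avg
import Pool.Agent.Run7.h506.Local

set_option autoImplicit false

namespace Run7.h506

open Set Topology MeasureTheory MvPolynomial

/-- The nonvanishing set on the coordinate sphere. -/
abbrev NV (P : MvPolynomial (Fin 3) ℝ) : Type :=
  {x : Fin 3 → ℝ // ∑ i : Fin 3, x i ^ 2 = 1 ∧ eval x P ≠ 0}

/-- Coordinate points as points of the sphere. -/
noncomputable def toS {P : MvPolynomial (Fin 3) ℝ} (x : NV P) : S2 :=
  ⟨WithLp.toLp 2 x.1, by
    rw [mem_sphere_zero_iff_norm]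
    apply norm_eq_one_of_sq
    rw [EuclideanSpace.norm_sq_eq]
    have := x.2.1
    simpa using this⟩

theorem toS_ev {P : MvPolynomial (Fin 3) ℝ} (x : NV P) : ev P (toS x) = eval x.1 P := rfl

/-- Points of the sphere with nonzero value as coordinate points. -/
noncomputable def ofS {P : MvPolynomial (Fin 3) ℝ} (y : {y : S2 // ev P y ≠ 0}) : NV P :=
  ⟨fun i => (y.1 : E3) i, by
    constructor
    · have h : ‖(y.1 : E3)‖ = 1 := mem_sphere_zero_iff_norm.1 y.1.2
      have h2 := EuclideanSpace.norm_sq_eq (y.1 : E3)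
      rw [h] at h2
      simpa using h2.symm
    · exact y.2⟩

theorem ofS_continuous {P : MvPolynomial (Fin 3) ℝ} :
    Continuous (ofS : {y : S2 // ev P y ≠ 0} → NV P) := by
  unfold ofS
  apply Continuous.subtype_mk
  fun_prop

theorem ofS_toS {P : MvPolynomial (Fin 3) ℝ} (x : NV P) (h : ev P (toS x) ≠ 0) :
    ofS ⟨toS x, h⟩ = x := by
  apply Subtype.ext
  rfl

theorem preimage_preconn {α : Type*} [TopologicalSpace α] {p : α → Prop} {K : Set α}
    (hK : IsPreconnected K) (h : ∀ y ∈ K, p y) :
    IsPreconnected ((Subtype.val : {y // p y} → α) ⁻¹' K) := by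
  have hKK : (Subtype.val : {y // p y} → α) '' ((Subtype.val : {y // p y} → α) ⁻¹' K) = K := by
    ext y
    constructor
    · rintro ⟨z, hz, rfl⟩
      exact hz
    · intro hy
      exact ⟨⟨y, h y hy⟩, hy, rfl⟩
  have hi : Topology.IsInducing (Subtype.val : {y // p y} → α) :=
    Topology.IsInducing.subtypeVal
  apply (hi.isPreconnected_image).1
  rw [hKK]
  exact hK

/-- A preconnected set of nonvanishing points of the sphere stays in one component. -/
theorem same_comp {P : MvPolynomial (Fin 3) ℝ} {K : Set S2} (hK : IsPreconnected K)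
    (hKs : ∀ y ∈ K, ev P y ≠ 0) (x x' : NV P) (hx : toS x ∈ K) (hx' : toS x' ∈ K) :
    (x : ConnectedComponents (NV P)) = x' := by
  set K' : Set {y : S2 // ev P y ≠ 0} := Subtype.val ⁻¹' K with hK'
  have h1 : IsPreconnected K' := preimage_preconn hK hKs
  have h2 : IsPreconnected (ofS '' K') := h1.image _ ofS_continuous.continuousOn
  have m1 : x ∈ ofS '' K' := ⟨⟨toS x, hKs _ hx⟩, hx, ofS_toS x _⟩
  have m2 : x' ∈ ofS '' K' := ⟨⟨toS x', hKs _ hx'⟩, hx', ofS_toS x' _⟩
  rw [ConnectedComponents.coe_eq_coe']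
  exact h2.subset_connectedComponent m2 m1

/-- Every finite family of nodal domains of a nonsingular harmonic has at most
`(ℓ+1)²/2` members. -/
theorem finset_bound {P : MvPolynomial (Fin 3) ℝ} {ℓ : ℕ} (hP : P.IsHomogeneous ℓ)
    (hh : ∑ i : Fin 3, pderiv i (pderiv i P) = 0) (hℓ : 8 ≤ ℓ)
    (hreg : ∀ z : S2, ev P z = 0 → ∃ i, eval (fun j => (z : E3) j) (pderiv i P) ≠ 0)
    (S : Finset (ConnectedComponents (NV P))) : 2 * S.card ≤ (ℓ + 1) ^ 2 := by
  classical
  -- representatives
  have hrep : ∀ C : ConnectedComponents (NV P), ∃ x : NV P, (x : ConnectedComponents (NV P)) = C :=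
    ConnectedComponents.surjective_coe
  choose r hr using hrep
  set SA := S.filter (fun C => 0 < ev P (toS (r C))) with hSA
  set SB := S.filter (fun C => ¬ 0 < ev P (toS (r C))) with hSB
  have hcard : SA.card + SB.card = S.card := Finset.card_filter_add_card_filter_not _
  have hSBneg : ∀ C ∈ SB, ev P (toS (r C)) < 0 := by
    intro C hC
    rw [hSB, Finset.mem_filter] at hC
    have h1 : ev P (toS (r C)) ≠ 0 := (r C).2.2
    exact lt_of_le_of_ne (not_lt.1 hC.2) h1
  set FA := SA.image (fun C => connectedComponentIn {y : S2 | 0 < ev P y} (toS (r C))) with hFA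
  set FB := SB.image (fun C => connectedComponentIn {y : S2 | 0 < ev P y}ᶜ (toS (r C))) with hFB
  have cA : FA.card = SA.card := by
    apply Finset.card_image_of_injOn
    intro C hC C' hC' h
    simp only at h
    have hC1 : C ∈ SA := hC
    have hC1' : C' ∈ SA := hC'
    rw [hSA, Finset.mem_filter] at hC1 hC1'
    have m1 : toS (r C) ∈ connectedComponentIn {y : S2 | 0 < ev P y} (toS (r C)) :=
      mem_connectedComponentIn hC1.2
    have m2 : toS (r C') ∈ connectedComponentIn {y : S2 | 0 < ev P y} (toS (r C)) := by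
      rw [h]; exact mem_connectedComponentIn hC1'.2
    rw [← hr C, ← hr C']
    apply same_comp isPreconnected_connectedComponentIn _ _ _ m1 m2
    intro y hy
    have : y ∈ {y : S2 | 0 < ev P y} := connectedComponentIn_subset _ _ hy
    exact ne_of_gt this
  have cB : FB.card = SB.card := by
    apply Finset.card_image_of_injOn
    intro C hC C' hC' h
    simp only at h
    have hC1 := hSBneg C hC
    have hC1' := hSBneg C' hC'
    have h2 := comp_inj hP hreg _ _ hC1 hC1' h
    have m1 : toS (r C) ∈ connectedComponentIn {y : S2 | ev P y < 0} (toS (r C)) :=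
      mem_connectedComponentIn hC1
    have m2 : toS (r C') ∈ connectedComponentIn {y : S2 | ev P y < 0} (toS (r C)) := by
      rw [h2]; exact mem_connectedComponentIn hC1'
    rw [← hr C, ← hr C']
    apply same_comp isPreconnected_connectedComponentIn _ _ _ m1 m2
    intro y hy
    have : y ∈ {y : S2 | ev P y < 0} := connectedComponentIn_subset _ _ hy
    exact ne_of_lt this
  have hmain := count_main hP hh hℓ FA FB
    (fun D hD => by
      rw [hFA, Finset.mem_image] at hD
      obtain ⟨C, hC, rfl⟩ := hD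
      rw [hSA, Finset.mem_filter] at hC
      exact ⟨toS (r C), hC.2, rfl⟩)
    (fun D hD => by
      rw [hFB, Finset.mem_image] at hD
      obtain ⟨C, hC, rfl⟩ := hD
      exact ⟨toS (r C), hSBneg C hC, rfl⟩)
  rw [cA, cB, hcard] at hmain
  exact hmain

/-- From bounds on finite families to finiteness and a bound on the cardinality. -/
theorem finite_card {α : Type*} {N : ℕ} (h : ∀ S : Finset α, 2 * S.card ≤ N) :
    Finite α ∧ 2 * Nat.card α ≤ N := by
  have hfin : Finite α := by
    by_contra hinf
    rw [not_finite_iff_infinite] at hinf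
    obtain ⟨S, hS⟩ := Infinite.exists_subset_card_eq α (N + 1)
    have := h S
    omega
  refine ⟨hfin, ?_⟩
  have := Fintype.ofFinite α
  rw [Nat.card_eq_fintype_card]
  exact h Finset.univ

theorem nonsingular_bound {P : MvPolynomial (Fin 3) ℝ} {ℓ : ℕ} (hP : P.IsHomogeneous ℓ)
    (hh : ∑ i : Fin 3, pderiv i (pderiv i P) = 0) (hℓ : 8 ≤ ℓ)
    (hreg : ∀ x : Fin 3 → ℝ, ∑ i : Fin 3, x i ^ 2 = 1 → eval x P = 0 →
      ∃ i, eval x (pderiv i P) ≠ 0) :
    Finite (ConnectedComponents (NV P)) ∧
      2 * Nat.card (ConnectedComponents (NV P)) ≤ (ℓ + 1) ^ 2 := by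
  apply finite_card
  apply finset_bound hP hh hℓ
  intro z hz
  apply hreg _ _ hz
  have h : ‖(z : E3)‖ = 1 := mem_sphere_zero_iff_norm.1 z.2
  have h2 := EuclideanSpace.norm_sq_eq (z : E3)
  rw [h] at h2
  simpa using h2.symm

end Run7.h506
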