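import Mathlib
import Pool.Agent.Run7.h506.HZb
import Pool.Agent.Run7.h506.Transfer

set_option autoImplicit false

namespace Run7.h506

open Set Topology Filter MeasureTheory

theorem value_zero_of_order {P : MvPolynomial (Fin 3) ℝ} {m : ℕ} (hm : 1 ≤ m) (z : Fin 3 → ℝ)
    (hz : ∀ k < m, MvPolynomial.homogeneousComponent k (sh z P) = 0) :
    MvPolynomial.eval z P = 0 := by
  have h0 := hz 0 (by omega)
  rw [MvPolynomial.homogeneousComponent_zero] at h0
  have h1 : MvPolynomial.eval 0 (sh z P) = MvPolynomial.eval z P := by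
    rw [sh_eval]
    simp
  rw [← h1, MvPolynomial.eval_zero, MvPolynomial.constantCoeff_eq]
  exact MvPolynomial.C_injective _ _ (by rw [h0, map_zero])

theorem high_order_finset {P : MvPolynomial (Fin 3) ℝ} {ℓ m : ℕ} (hP : P.IsHomogeneous ℓ)
    (hh : ∑ i : Fin 3, MvPolynomial.pderiv i (MvPolynomial.pderiv i P) = 0) (hℓ : 2 ≤ ℓ)
    (hm : 1 ≤ m) (p : Fin 3 → ℝ) (hp : ∑ i, p i ^ 2 = 1)
    (hz : ∀ k < m, MvPolynomial.homogeneousComponent k (sh p P) = 0)
    (S : Finset (ConnectedComponents (NV P))) : S.card ≤ 2 * ℓ * (ℓ - m + 1) := by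
  classical
  have hpi := Real.pi_pos
  have hℓR : (2 : ℝ) ≤ ℓ := by exact_mod_cast hℓ
  have hℓpos : (0 : ℝ) < ℓ := by linarith
  set c : E3 := WithLp.toLp 2 p with hc
  have hcn : ‖c‖ = 1 := by
    apply norm_eq_one_of_sq
    rw [EuclideanSpace.norm_sq_eq]
    simpa [hc] using hp
  obtain ⟨p0, hp0, hp0c⟩ := exists_unit_orth c
  obtain ⟨b, hb0, hb2⟩ := exists_basis_ext p0 c hp0 hcn hp0c
  have hb2' : (fun i => (b 2) i) = p := by
    rw [hb2]
  have hz' : ∀ k < m, MvPolynomial.homogeneousComponent k (sh (fun i => (b 2) i) P) = 0 := by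
    rw [hb2']; exact hz
  have hev : ev P (b 2) = 0 := by
    unfold ev
    rw [hb2']
    exact value_zero_of_order hm p hz
  choose r hr using (ConnectedComponents.surjective_coe (α := NV P))
  have hrne : ∀ C, ev P (toS (r C)) ≠ 0 := fun C => (r C).2.2
  set F := S.image (fun C => connectedComponentIn {y : S2 | ev P y ≠ 0} (toS (r C))) with hF
  have hcard : F.card = S.card := by
    apply Finset.card_image_of_injOn
    intro C _ C' _ h
    simp only at h
    have m1 : toS (r C) ∈ connectedComponentIn {y : S2 | ev P y ≠ 0} (toS (r C)) :=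
      mem_connectedComponentIn (hrne C)
    have m2 : toS (r C') ∈ connectedComponentIn {y : S2 | ev P y ≠ 0} (toS (r C)) := by
      rw [h]; exact mem_connectedComponentIn (hrne C')
    rw [← hr C, ← hr C']
    apply same_comp isPreconnected_connectedComponentIn _ _ _ m1 m2
    intro y hy
    have : y ∈ {y : S2 | ev P y ≠ 0} := connectedComponentIn_subset _ _ hy
    exact this
  have hFm : ∀ D ∈ F, ∃ x : S2, ev P x ≠ 0 ∧
      D = connectedComponentIn {y : S2 | ev P y ≠ 0} x := by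
    intro D hD
    rw [hF, Finset.mem_image] at hD
    obtain ⟨C, _, rfl⟩ := hD
    exact ⟨toS (r C), hrne C, rfl⟩
  have hsum := ang_sum hP b hz' F hFm
  have hwidth : ∀ D ∈ F, ENNReal.ofReal (Real.pi / ℓ) ≤
      volume (ang b D ∩ Ioc (-Real.pi) Real.pi) := by
    intro D hD
    obtain ⟨x, hx, rfl⟩ := hFm D hD
    rcases lt_or_gt_of_ne hx with h | h
    · have e1 : {y : S2 | ev P y ≠ 0} = {y : S2 | ev (-P) y ≠ 0} := by
        ext y
        simp only [Set.mem_ofPred_eq, ev_neg]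
        exact neg_ne_zero.symm
      have h' : 0 < ev (-P) x := by rw [ev_neg]; linarith
      rw [e1, comp_pos_eq (-P) h']
      exact ang_width hP.neg (harm_neg hh) hℓ b (by rw [ev_neg, hev, neg_zero]) x h'
    · rw [comp_pos_eq P h]
      exact ang_width hP hh hℓ b hev x h
  have h1 : F.card • ENNReal.ofReal (Real.pi / ℓ) ≤
      ((ℓ - m + 1 : ℕ) : ENNReal) * ENNReal.ofReal (2 * Real.pi) :=
    (Finset.card_nsmul_le_sum _ _ _ hwidth).trans hsum
  obtain ⟨n, hn⟩ : ∃ n : ℕ, n = ℓ - m + 1 := ⟨_, rfl⟩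
  rw [← hn] at h1 ⊢
  have e3 : F.card • ENNReal.ofReal (Real.pi / ℓ) =
      ENNReal.ofReal ((S.card : ℝ) * (Real.pi / ℓ)) := by
    rw [nsmul_eq_mul, ENNReal.ofReal_mul (Nat.cast_nonneg _), ENNReal.ofReal_natCast, hcard]
  have e4 : (n : ENNReal) * ENNReal.ofReal (2 * Real.pi) =
      ENNReal.ofReal ((n : ℝ) * (2 * Real.pi)) := by
    rw [ENNReal.ofReal_mul (Nat.cast_nonneg _), ENNReal.ofReal_natCast]
  rw [e3, e4, ENNReal.ofReal_le_ofReal_iff (by positivity)] at h1
  have h2 : (S.card : ℝ) ≤ ((2 * ℓ * n : ℕ) : ℝ) := by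
    rw [mul_div_assoc', div_le_iff₀ hℓpos] at h1
    have h3 : (S.card : ℝ) * Real.pi ≤ ((2 * ℓ * n : ℕ) : ℝ) * Real.pi := by
      refine h1.trans (le_of_eq ?_)
      push_cast
      ring
    exact le_of_mul_le_mul_right h3 hpi
  exact_mod_cast h2

theorem high_order {P : MvPolynomial (Fin 3) ℝ} {ℓ m : ℕ} (hP : P.IsHomogeneous ℓ)
    (hh : ∑ i : Fin 3, MvPolynomial.pderiv i (MvPolynomial.pderiv i P) = 0) (hℓ : 2 ≤ ℓ)
    (hm : 1 ≤ m) (p : Fin 3 → ℝ) (hp : ∑ i, p i ^ 2 = 1)
    (hz : ∀ k < m, MvPolynomial.homogeneousComponent k (sh p P) = 0) :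
    Finite (ConnectedComponents (NV P)) ∧
      Nat.card (ConnectedComponents (NV P)) ≤ 2 * ℓ * (ℓ - m + 1) := by
  have h := high_order_finset hP hh hℓ hm p hp hz
  have hfin : Finite (ConnectedComponents (NV P)) := by
    by_contra hinf
    rw [not_finite_iff_infinite] at hinf
    obtain ⟨S, hS⟩ := Infinite.exists_subset_card_eq (ConnectedComponents (NV P))
      (2 * ℓ * (ℓ - m + 1) + 1)
    have := h S
    omega
  refine ⟨hfin, ?_⟩
  have := Fintype.ofFinite (ConnectedComponents (NV P))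
  rw [Nat.card_eq_fintype_card]
  exact h Finset.univ

end Run7.h506
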