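import Mathlib
import Pool.Agent.Run7.h506.Disc

set_option autoImplicit false

namespace Run7.h506

open Set Topology

theorem sp_curve_cont (b : OrthonormalBasis (Fin 3) ℝ E3) (ψ c : ℝ) :
    Continuous (fun t : ℝ => sp b ψ (t / c)) := by
  unfold sp
  apply Continuous.subtype_mk
  fun_prop

theorem cover_intervals (τ : ℕ → ℝ) : ∀ n : ℕ, 1 ≤ n → ∀ t, τ 0 ≤ t → t ≤ τ n →
    ∃ j < n, τ j ≤ t ∧ t ≤ τ (j + 1) := by
  intro n
  induction n with
  | zero => intro h; omega
  | succ n ih =>
    intro _ t h1 h2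
    by_cases hn : τ n ≤ t
    · exact ⟨n, by omega, hn, h2⟩
    · push Not at hn
      rcases Nat.eq_zero_or_pos n with h0 | h0
      · subst h0
        exact absurd h1 (not_le.2 hn)
      · obtain ⟨j, hj, h3, h4⟩ := ih h0 t h1 hn.le
        exact ⟨j, by omega, h3, h4⟩

theorem exists_reps {β : Type*} [DecidableEq β] (m : ℕ) (f : ℕ → β) :
    ∃ E : Finset ℕ, E ⊆ Finset.range m ∧ E.card ≤ ((Finset.range m).image f).card ∧
      ∀ k < m, ∃ k' ∈ E, f k = f k' := by
  classical
  have h : ∀ y ∈ (Finset.range m).image f, ∃ k, k < m ∧ f k = y := by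
    intro y hy
    rw [Finset.mem_image] at hy
    obtain ⟨k, hk, rfl⟩ := hy
    exact ⟨k, Finset.mem_range.1 hk, rfl⟩
  choose! rep h1 h2 using h
  refine ⟨((Finset.range m).image f).image rep, ?_, Finset.card_image_le, ?_⟩
  · intro k hk
    rw [Finset.mem_image] at hk
    obtain ⟨y, hy, rfl⟩ := hk
    exact Finset.mem_range.2 (h1 y hy)
  · intro k hk
    have hy : f k ∈ (Finset.range m).image f :=
      Finset.mem_image_of_mem _ (Finset.mem_range.2 hk)
    exact ⟨rep (f k), Finset.mem_image_of_mem _ hy, (h2 _ hy).symm⟩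

/-- The local form of planarity at a zero of order `m`. -/
theorem local_planar (b : OrthonormalBasis (Fin 3) ℝ E3) {ψ1 : ℝ} (h0 : 0 < ψ1)
    (h1 : ψ1 < Real.pi / 2) (m : ℕ) (hm : 1 ≤ m) {R : ℝ} {g g' : ℝ → ℝ} (hg : Gd R g g')
    (hper : ∀ t, g (t + m * (2 * Real.pi)) = g t) {A : Set S2} (hA : IsOpen A)
    (hAg : ∀ α : ℝ, sp b ψ1 (α / m) ∈ A ↔ 0 < g α) :
    ∃ E F : Finset ℕ, E ⊆ Finset.range m ∧ F ⊆ Finset.range m ∧ E.card + F.card ≤ m + 1 ∧
      (∀ k < m, ∃ k' ∈ E,
        connectedComponentIn A (sp b ψ1 ((2 * Real.pi * ((k : ℝ) + 1)) / m)) =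
        connectedComponentIn A (sp b ψ1 ((2 * Real.pi * ((k' : ℝ) + 1)) / m))) ∧
      (∀ k < m, ∃ k' ∈ F,
        connectedComponentIn (A ∪ {x : S2 | Real.cos ψ1 < inner ℝ (b 2) (x : E3)})ᶜ
          (sp b ψ1 (((2 * (k : ℝ) + 1) * Real.pi) / m)) =
        connectedComponentIn (A ∪ {x : S2 | Real.cos ψ1 < inner ℝ (b 2) (x : E3)})ᶜ
          (sp b ψ1 (((2 * (k' : ℝ) + 1) * Real.pi) / m))) := by
  classical
  have hpi := Real.pi_pos
  have hc0 : 0 < Real.cos ψ1 := Real.cos_pos_of_mem_Ioo ⟨by linarith, h1⟩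
  have hc1 : Real.cos ψ1 < 1 := by
    rw [← Real.cos_zero]
    exact Real.cos_lt_cos_of_nonneg_of_le_pi le_rfl (by linarith) h0
  set c := Real.cos ψ1 with hc
  set r := fold b c with hr
  have hrc : Continuous r := fold_cont hc1
  set γ : ℝ → S2 := fun t => sp b ψ1 (t / m) with hγ
  have hγc : Continuous γ := sp_curve_cont b ψ1 m
  have hrγ : ∀ t, r (γ t) = γ t := fun t => fold_id (by rw [hγ]; simp only; rw [sp_inner])
  set A' : Set S2 := r ⁻¹' A with hA'
  have hA'o : IsOpen A' := hA.preimage hrc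
  have hmem : ∀ t, γ t ∈ A' ↔ 0 < g t := by
    intro t
    rw [hA', mem_preimage, hrγ]
    exact hAg t
  obtain ⟨τ, hτm, hτz, hτs⟩ := hg.chain m hm hper
  have hinc : ∀ j < 2 * m, τ j < τ (j + 1) := by
    intro j hj
    have e1 := (hτz j hj.le).2.2
    have e2 := (hτz (j + 1) hj).2.1
    push_cast at e2
    linarith
  set P : ℕ → S2 := fun k => sp b ψ1 ((2 * Real.pi * ((k : ℝ) + 1)) / m) with hP
  set Q : ℕ → S2 := fun k => sp b ψ1 (((2 * (k : ℝ) + 1) * Real.pi) / m) with hQ
  have hPγ : ∀ k : ℕ, P k = γ (2 * Real.pi * ((k : ℝ) + 1)) := fun k => rfl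
  have hQγ : ∀ k : ℕ, Q k = γ ((2 * (k : ℝ) + 1) * Real.pi) := fun k => rfl
  have hgP : ∀ k : ℕ, 0 < g (2 * Real.pi * ((k : ℝ) + 1)) := by
    intro k
    apply hg.pos_of
    have : 2 * Real.pi * ((k : ℝ) + 1) = 0 + ((k + 1 : ℕ) : ℝ) * (2 * Real.pi) := by
      push_cast; ring
    rw [this, Real.cos_add_nat_mul_two_pi, Real.cos_zero]
    norm_num
  have hgQ : ∀ k : ℕ, g ((2 * (k : ℝ) + 1) * Real.pi) < 0 := by
    intro k
    apply hg.neg_of
    have : (2 * (k : ℝ) + 1) * Real.pi = Real.pi + (k : ℝ) * (2 * Real.pi) := by ring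
    rw [this, Real.cos_add_nat_mul_two_pi, Real.cos_pi]
    norm_num
  have hτ0 := hτz 0 (by omega)
  have hcount := comps_le hA'o hγc (a := τ 0) (b := τ 0 + m * (2 * Real.pi))
    (fun h hh => sp_null b ψ1 m hm (τ 0) h hh) (2 * m) τ rfl hτm hinc (fun j => ¬ Even j)
    (fun j hj => by
      rw [hmem, (hτz j hj).1]; exact lt_irrefl _)
    (fun j hj hp t h3 h4 => by
      rw [hmem]
      exact (hτs j hj t h3 h4).2 hp)
    (fun j hj hp t h3 h4 => by
      rw [hmem]
      rw [not_not] at hp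
      rcases h3.eq_or_lt with he | hl
      · rw [← he, (hτz j hj.le).1]; exact lt_irrefl _
      · rcases h4.eq_or_lt with he' | hl'
        · rw [he', (hτz (j + 1) hj).1]; exact lt_irrefl _
        · exact not_lt.2 ((hτs j hj t hl hl').1 hp).le)
    (fun t h3 h4 => cover_intervals τ (2 * m) (by omega) t h3 (by rw [hτm]; exact h4))
    ((Finset.range m).image (fun k => connectedComponentIn A' (P k)))
    ((Finset.range m).image (fun k => connectedComponentIn A'ᶜ (Q k)))
    (fun C hC => by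
      rw [Finset.mem_image] at hC
      obtain ⟨k, hk, rfl⟩ := hC
      rw [Finset.mem_range] at hk
      have hk' : (k : ℝ) + 1 ≤ m := by exact_mod_cast hk
      refine ⟨2 * Real.pi * ((k : ℝ) + 1), ?_, ?_, ?_, ?_⟩
      · have := hτ0.2.2
        push_cast at this
        have hk0 : (0 : ℝ) ≤ k := Nat.cast_nonneg k
        nlinarith
      · have := hτ0.2.1
        push_cast at this
        nlinarith
      · rw [hmem]; exact hgP k
      · rw [hPγ])
    (fun C hC => by
      rw [Finset.mem_image] at hC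
      obtain ⟨k, hk, rfl⟩ := hC
      rw [Finset.mem_range] at hk
      have hk' : (k : ℝ) + 1 ≤ m := by exact_mod_cast hk
      refine ⟨(2 * (k : ℝ) + 1) * Real.pi, ?_, ?_, ?_, ?_⟩
      · have := hτ0.2.2
        push_cast at this
        have hk0 : (0 : ℝ) ≤ k := Nat.cast_nonneg k
        nlinarith
      · have := hτ0.2.1
        push_cast at this
        nlinarith
      · rw [hmem]; exact not_lt.2 (hgQ k).le
      · rw [hQγ])
  have hodd : ((Finset.range (2 * m)).filter (fun j => ¬ Even j)).card = m := by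
    clear hcount hτs hτz hinc hτm
    have : ∀ n : ℕ, ((Finset.range (2 * n)).filter (fun j => ¬ Even j)).card = n := by
      intro n
      induction n with
      | zero => simp
      | succ n ih =>
        have e : 2 * (n + 1) = 2 * n + 1 + 1 := by ring
        rw [e, Finset.range_add_one, Finset.range_add_one, Finset.filter_insert,
          Finset.filter_insert, if_pos (by simp), if_neg (by simp),
          Finset.card_insert_of_notMem (by simp), ih]
    exact this m
  rw [hodd] at hcount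
  obtain ⟨E, hE1, hE2, hE3⟩ := exists_reps m (fun k => connectedComponentIn A' (P k))
  obtain ⟨F, hF1, hF2, hF3⟩ := exists_reps m (fun k => connectedComponentIn A'ᶜ (Q k))
  refine ⟨E, F, hE1, hF1, by omega, ?_, ?_⟩
  · intro k hk
    obtain ⟨k', hk', he⟩ := hE3 k hk
    refine ⟨k', hk', ?_⟩
    have m1 : P k ∈ connectedComponentIn A' (P k) := by
      apply mem_connectedComponentIn
      rw [hPγ, hmem]; exact hgP k
    have m2 : P k' ∈ connectedComponentIn A' (P k) := by
      rw [he]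
      apply mem_connectedComponentIn
      rw [hPγ, hmem]; exact hgP k'
    have hpre : IsPreconnected (r '' connectedComponentIn A' (P k)) :=
      isPreconnected_connectedComponentIn.image _ hrc.continuousOn
    have hsub : r '' connectedComponentIn A' (P k) ⊆ A := by
      rintro _ ⟨x, hx, rfl⟩
      exact connectedComponentIn_subset A' (P k) hx
    have n1 : P k ∈ r '' connectedComponentIn A' (P k) := ⟨P k, m1, by rw [hPγ, hrγ]⟩
    have n2 : P k' ∈ r '' connectedComponentIn A' (P k) := ⟨P k', m2, by rw [hPγ, hrγ]⟩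
    exact connectedComponentIn_eq (hpre.subset_connectedComponentIn n1 hsub n2)
  · intro k hk
    obtain ⟨k', hk', he⟩ := hF3 k hk
    refine ⟨k', hk', ?_⟩
    have m1 : Q k ∈ connectedComponentIn A'ᶜ (Q k) := by
      apply mem_connectedComponentIn
      rw [mem_compl_iff, hQγ, hmem]; exact not_lt.2 (hgQ k).le
    have m2 : Q k' ∈ connectedComponentIn A'ᶜ (Q k) := by
      rw [he]
      apply mem_connectedComponentIn
      rw [mem_compl_iff, hQγ, hmem]; exact not_lt.2 (hgQ k').le
    have hpre : IsPreconnected (r '' connectedComponentIn A'ᶜ (Q k)) :=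
      isPreconnected_connectedComponentIn.image _ hrc.continuousOn
    have hsub : r '' connectedComponentIn A'ᶜ (Q k) ⊆
        (A ∪ {x : S2 | c < inner ℝ (b 2) (x : E3)})ᶜ := by
      rintro _ ⟨x, hx, rfl⟩
      have hx' : x ∈ A'ᶜ := connectedComponentIn_subset A'ᶜ (Q k) hx
      rintro (h | h)
      · exact hx' h
      · exact absurd h (not_lt.2 (fold_out hc0 hc1 x))
    have n1 : Q k ∈ r '' connectedComponentIn A'ᶜ (Q k) := ⟨Q k, m1, by rw [hQγ, hrγ]⟩
    have n2 : Q k' ∈ r '' connectedComponentIn A'ᶜ (Q k) := ⟨Q k', m2, by rw [hQγ, hrγ]⟩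
    exact connectedComponentIn_eq (hpre.subset_connectedComponentIn n1 hsub n2)

end Run7.h506
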