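import Mathlib
import Pool.Agent.Run7.h506.Planar

set_option autoImplicit false

namespace Run7.h506

open Set Topology MvPolynomial

theorem sp_idx (b : OrthonormalBasis (Fin 3) ℝ E3) (α0 : ℝ) (m : ℕ) (hm : 1 ≤ m) (k : ℤ) :
    ∃ k' : ℕ, k' < m ∧ ∀ ψ : ℝ, sp b ψ ((2 * Real.pi * (k : ℝ) + α0) / m) =
      sp b ψ ((2 * Real.pi * (k' : ℝ) + α0) / m) := by
  have hmz : (0 : ℤ) < m := by exact_mod_cast hm
  have hmR : (m : ℝ) ≠ 0 := by
    have : (1 : ℝ) ≤ m := by exact_mod_cast hm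
    linarith
  have h1 := Int.emod_nonneg k hmz.ne'
  have h2 := Int.emod_lt_of_pos k hmz
  refine ⟨(k % m).toNat, by omega, ?_⟩
  intro ψ
  have h3 : (((k % m).toNat : ℕ) : ℤ) = k % m := Int.toNat_of_nonneg h1
  have h4 : (((k % m).toNat : ℕ) : ℝ) = ((k % m : ℤ) : ℝ) := by
    rw [← Int.cast_natCast, h3]
  have h5 : (k : ℝ) = ((k % m : ℤ) : ℝ) + m * ((k / m : ℤ) : ℝ) := by
    have := Int.emod_add_mul_ediv k m
    exact_mod_cast this.symm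
  have h6 : (2 * Real.pi * (k : ℝ) + α0) / m =
      (2 * Real.pi * (((k % m).toNat : ℕ) : ℝ) + α0) / m + ((k / m : ℤ) : ℝ) * (2 * Real.pi) := by
    rw [h4, h5]
    field_simp
    ring
  rw [h6, sp_per]

/-- Points of a sector are connected to its central ray. -/
theorem sector_conn (b : OrthonormalBasis (Fin 3) ℝ E3) {A : Set S2} {ψ0 α0 R : ℝ} {m : ℕ}
    (g g' : ℝ → ℝ → ℝ)
    (hg : ∀ ψ, 0 < ψ → ψ ≤ ψ0 → Gd R (g ψ) (g' ψ))
    (hA : ∀ ψ, 0 < ψ → ψ ≤ ψ0 → ∀ α : ℝ, sp b ψ ((α + α0) / m) ∈ A ↔ 0 < g ψ α)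
    {ψ : ℝ} (h0 : 0 < ψ) (h1 : ψ ≤ ψ0) {α : ℝ} (hα : sp b ψ ((α + α0) / m) ∈ A) :
    ∃ k : ℤ, ∀ ψ', 0 < ψ' → ψ' ≤ ψ0 → connectedComponentIn A (sp b ψ ((α + α0) / m)) =
      connectedComponentIn A (sp b ψ' ((2 * Real.pi * (k : ℝ) + α0) / m)) := by
  have hpi := Real.pi_pos
  set k : ℤ := round (α / (2 * Real.pi)) with hk
  have hr := abs_sub_round (α / (2 * Real.pi))
  rw [← hk] at hr
  have hr2 := abs_le.1 hr
  have e1 : α - k * (2 * Real.pi) = (α / (2 * Real.pi) - k) * (2 * Real.pi) := by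
    field_simp
  have b1 : -Real.pi ≤ α - k * (2 * Real.pi) := by
    rw [e1]; nlinarith [hr2.1]
  have b2 : α - k * (2 * Real.pi) ≤ Real.pi := by
    rw [e1]; nlinarith [hr2.2]
  refine ⟨k, ?_⟩
  intro ψ' h0' h1'
  -- the two connected pieces
  set c1 : ℝ → S2 := fun θ => sp b ψ ((k * (2 * Real.pi) + θ * (α - k * (2 * Real.pi)) + α0) / m)
    with hc1
  set c2 : ℝ → S2 := fun s => sp b s ((2 * Real.pi * (k : ℝ) + α0) / m) with hc2
  have hc1c : Continuous c1 := by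
    rw [hc1]; unfold sp
    apply Continuous.subtype_mk
    fun_prop
  have hc2c : Continuous c2 := by
    rw [hc2]; unfold sp
    apply Continuous.subtype_mk
    fun_prop
  have p1 : IsPreconnected (c1 '' Icc 0 1) := isPreconnected_Icc.image _ hc1c.continuousOn
  have p2 : IsPreconnected (c2 '' Ioc 0 ψ0) := isPreconnected_Ioc.image _ hc2c.continuousOn
  have s1 : c1 '' Icc 0 1 ⊆ A := by
    rintro _ ⟨θ, hθ, rfl⟩
    have hgα : 0 < (fun t => g ψ (t + k * (2 * Real.pi))) (α - k * (2 * Real.pi)) := by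
      simp only [sub_add_cancel]
      exact (hA ψ h0 h1 α).1 hα
    have := ((hg ψ h0 h1).shift k).sector b1 b2 hgα hθ.1 hθ.2
    have h3 := (hA ψ h0 h1 (k * (2 * Real.pi) + θ * (α - k * (2 * Real.pi)))).2
      (by
        have e : k * (2 * Real.pi) + θ * (α - k * (2 * Real.pi)) =
          θ * (α - k * (2 * Real.pi)) + k * (2 * Real.pi) := by ring
        rw [e]; exact this)
    exact h3
  have s2 : c2 '' Ioc 0 ψ0 ⊆ A := by
    rintro _ ⟨s, hs, rfl⟩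
    apply (hA s hs.1 hs.2 (2 * Real.pi * (k : ℝ))).2
    apply (hg s hs.1 hs.2).pos_of
    have : 2 * Real.pi * (k : ℝ) = 0 + k * (2 * Real.pi) := by ring
    rw [this, Real.cos_add_int_mul_two_pi, Real.cos_zero]
    norm_num
  have q1 : c1 1 = sp b ψ ((α + α0) / m) := by
    simp only [hc1]
    congr 2
    ring
  have q2 : c1 0 = c2 ψ := by
    simp only [hc1, hc2]
    congr 2
    ring
  have hK : IsPreconnected (c1 '' Icc 0 1 ∪ c2 '' Ioc 0 ψ0) :=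
    IsPreconnected.union (c1 0) ⟨0, ⟨le_rfl, zero_le_one⟩, rfl⟩ ⟨ψ, ⟨h0, h1⟩, q2.symm⟩ p1 p2
  have m1 : sp b ψ ((α + α0) / m) ∈ c1 '' Icc 0 1 ∪ c2 '' Ioc 0 ψ0 :=
    Or.inl ⟨1, ⟨zero_le_one, le_rfl⟩, q1⟩
  have m2 : c2 ψ' ∈ c1 '' Icc 0 1 ∪ c2 '' Ioc 0 ψ0 := Or.inr ⟨ψ', ⟨h0', h1'⟩, rfl⟩
  exact connectedComponentIn_eq (hK.subset_connectedComponentIn m1 (union_subset s1 s2) m2)

/-- The base point is in the closure of every sector component. -/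
theorem sector_closure (b : OrthonormalBasis (Fin 3) ℝ E3) {A : Set S2} {ψ0 α0 R : ℝ} {m : ℕ}
    (g g' : ℝ → ℝ → ℝ)
    (hg : ∀ ψ, 0 < ψ → ψ ≤ ψ0 → Gd R (g ψ) (g' ψ))
    (hA : ∀ ψ, 0 < ψ → ψ ≤ ψ0 → ∀ α : ℝ, sp b ψ ((α + α0) / m) ∈ A ↔ 0 < g ψ α)
    {z : S2} (hb : b 2 = (z : E3)) {ψ : ℝ} (h0 : 0 < ψ) (h1 : ψ ≤ ψ0) (k : ℤ) :
    z ∈ closure (connectedComponentIn A (sp b ψ ((2 * Real.pi * (k : ℝ) + α0) / m))) := by
  set c2 : ℝ → S2 := fun s => sp b s ((2 * Real.pi * (k : ℝ) + α0) / m) with hc2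
  have hc2c : Continuous c2 := by
    rw [hc2]; unfold sp
    apply Continuous.subtype_mk
    fun_prop
  have p2 : IsPreconnected (c2 '' Ioc 0 ψ0) := isPreconnected_Ioc.image _ hc2c.continuousOn
  have s2 : c2 '' Ioc 0 ψ0 ⊆ A := by
    rintro _ ⟨s, hs, rfl⟩
    apply (hA s hs.1 hs.2 (2 * Real.pi * (k : ℝ))).2
    apply (hg s hs.1 hs.2).pos_of
    have : 2 * Real.pi * (k : ℝ) = 0 + k * (2 * Real.pi) := by ring
    rw [this, Real.cos_add_int_mul_two_pi, Real.cos_zero]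
    norm_num
  have hsub := p2.subset_connectedComponentIn (⟨ψ, ⟨h0, h1⟩, rfl⟩ : c2 ψ ∈ c2 '' Ioc 0 ψ0) s2
  have ht : Filter.Tendsto c2 (𝓝[>] 0) (𝓝 z) := by
    have h2 := hc2c.tendsto 0
    have h3 : c2 0 = z := by rw [hc2]; exact sp_zero hb _
    rw [h3] at h2
    exact h2.mono_left nhdsWithin_le_nhds
  apply mem_closure_of_tendsto ht
  have hmem : Ioc (0 : ℝ) ψ0 ∈ 𝓝[>] (0 : ℝ) := Ioc_mem_nhdsGT (lt_of_lt_of_le h0 h1)
  filter_upwards [hmem] with s hs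
  exact hsub ⟨s, hs, rfl⟩

end Run7.h506
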