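import Mathlib
import Pool.Agent.Run7.h506.Germ

set_option autoImplicit false

namespace Run7.h506

open Set Topology MvPolynomial

/-- Polar description of the sign of the polynomial near one of its zeros. -/
theorem germ_basic {P : MvPolynomial (Fin 3) ℝ} {ℓ : ℕ} (hP : P.IsHomogeneous ℓ)
    (hh : ∑ i : Fin 3, pderiv i (pderiv i P) = 0) (hP0 : P ≠ 0) (z : S2) (hz : ev P z = 0) :
    ∃ b : OrthonormalBasis (Fin 3) ℝ E3, b 2 = (z : E3) ∧ ∃ ψ0 R : ℝ, 0 < ψ0 ∧
      ψ0 < Real.pi / 2 ∧ ∃ g g' : ℝ → ℝ → ℝ, ∀ ψ, 0 < ψ → ψ ≤ ψ0 →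
        Gd R (g ψ) (g' ψ) ∧
        (∀ t, g ψ (t + (ordAt P (fun i => (z : E3) i) : ℝ) * (2 * Real.pi)) = g ψ t) ∧
        (∀ α : ℝ, (0 < ev P (sp b ψ (α / (ordAt P (fun i => (z : E3) i) : ℝ))) ↔ 0 < g ψ α) ∧
          (ev P (sp b ψ (α / (ordAt P (fun i => (z : E3) i) : ℝ))) < 0 ↔ g ψ α < 0)) ∧
        (∀ φ : ℝ, ev P (sp b ψ φ) = 0 →
          ∃ i, eval (fun j => (sp b ψ φ : E3) j) (pderiv i P) ≠ 0) := by
  obtain ⟨b, hb2, R, ρ0, hR, hρ0, hpack⟩ := local_pack hP hh hP0 z hz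
  set z' : Fin 3 → ℝ := fun i => (z : E3) i with hz'
  set m := ordAt P z' with hm
  have hm1 : 1 ≤ m := ordAt_pos hP0 hz
  have hmR : (1 : ℝ) ≤ m := by exact_mod_cast hm1
  have hm0 : (m : ℝ) ≠ 0 := by linarith
  have hpi := Real.pi_pos
  refine ⟨b, hb2, Real.arctan ρ0, R, Real.arctan_pos.2 hρ0, Real.arctan_lt_pi_div_two _,
    fun ψ α => FF P z' m b (Real.tan ψ) (α / m),
    fun ψ α => FF' P z' m b (Real.tan ψ) (α / m) / m, ?_⟩
  intro ψ h0 h1
  have hψ2 : ψ < Real.pi / 2 := lt_of_le_of_lt h1 (Real.arctan_lt_pi_div_two _)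
  have hcos : 0 < Real.cos ψ := Real.cos_pos_of_mem_Ioo ⟨by linarith, hψ2⟩
  have htan0 : 0 < Real.tan ψ := Real.tan_pos_of_pos_of_lt_pi_div_two h0 hψ2
  have htan1 : Real.tan ψ ≤ ρ0 := by
    rw [← Real.tan_arctan ρ0]
    rcases h1.eq_or_lt with he | hl
    · rw [he]
    · exact (Real.tan_lt_tan_of_lt_of_lt_pi_div_two (by linarith)
        (Real.arctan_lt_pi_div_two _) hl).le
  have hfac : 0 < Real.cos ψ ^ ℓ * Real.tan ψ ^ m := by positivity
  have hev : ∀ φ, ev P (sp b ψ φ) =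
      (Real.cos ψ ^ ℓ * Real.tan ψ ^ m) * FF P z' m b (Real.tan ψ) φ := by
    intro φ
    rw [ev_sp hP hb2 hcos.ne', mul_assoc]
  refine ⟨⟨?_, ?_, ?_⟩, ?_, ?_, ?_⟩
  · intro t
    have h2 := (FF_deriv P z' m b (Real.tan ψ) (t / m)).comp t ((hasDerivAt_id' t).div_const (m : ℝ))
    refine h2.congr_deriv ?_
    field_simp
  · intro t
    have h2 := (hpack (Real.tan ψ) htan0.le htan1 (t / m)).1
    have h3 : (m : ℝ) * (t / m) = t := by field_simp
    rw [h3] at h2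
    exact h2
  · intro t
    have h2 := (hpack (Real.tan ψ) htan0.le htan1 (t / m)).2
    have h3 : (m : ℝ) * (t / m) = t := by field_simp
    rw [h3] at h2
    have h4 : FF' P z' m b (Real.tan ψ) (t / m) / m + R * Real.sin t =
        (FF' P z' m b (Real.tan ψ) (t / m) + m * R * Real.sin t) / m := by
      field_simp
    rw [h4, abs_div, abs_of_pos (by linarith : (0 : ℝ) < m), div_lt_iff₀ (by linarith)]
    linarith
  · intro t
    have h3 : (t + (m : ℝ) * (2 * Real.pi)) / m = t / m + 2 * Real.pi := by field_simp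
    simp only
    rw [h3, FF_periodic]
  · intro α
    rw [hev]
    constructor
    · exact mul_pos_iff_of_pos_left hfac
    · constructor
      · intro h
        by_contra hc
        push Not at hc
        have := mul_nonneg hfac.le hc
        linarith
      · intro h
        exact mul_neg_of_pos_of_neg hfac h
  · intro φ hφ
    by_contra hcon
    push Not at hcon
    have hF0 : FF P z' m b (Real.tan ψ) φ = 0 := by
      rw [hev] at hφ
      exact (mul_eq_zero.1 hφ).resolve_left hfac.ne'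
    obtain ⟨e1, e2⟩ := hpack (Real.tan ψ) htan0.le htan1 φ
    rw [hF0, zero_sub, abs_neg, abs_mul, abs_of_pos hR] at e1
    have hc4 : |Real.cos (m * φ)| < 1 / 4 := by
      nlinarith
    have hs4 : 1 / 4 < |Real.sin (m * φ)| := by
      have hsc := Real.sin_sq_add_cos_sq (m * φ)
      rw [← sq_abs (Real.sin (m * φ)), ← sq_abs (Real.cos (m * φ))] at hsc
      by_contra hc
      push Not at hc
      nlinarith [abs_nonneg (Real.sin (m * φ)), abs_nonneg (Real.cos (m * φ))]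
    have hF'ne : FF' P z' m b (Real.tan ψ) φ ≠ 0 := by
      intro h0
      rw [h0, zero_add, abs_mul, abs_mul, abs_of_pos hR, abs_of_pos (by linarith : (0 : ℝ) < m)]
        at e2
      have : (m : ℝ) * R * (1 / 4) < m * R * |Real.sin (m * φ)| := by
        apply mul_lt_mul_of_pos_left hs4
        positivity
      linarith
    -- compare derivatives along the circle
    have hd1 : HasDerivAt (fun s => eval (fun i => z' i + Real.tan ψ * ee b s i) P)
        (Real.tan ψ ^ m * FF' P z' m b (Real.tan ψ) φ) φ := by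
      have : (fun s => eval (fun i => z' i + Real.tan ψ * ee b s i) P) =
          fun s => Real.tan ψ ^ m * FF P z' m b (Real.tan ψ) s := by
        funext s
        exact FF_eval z' b _ s
      rw [this]
      exact (FF_deriv P z' m b (Real.tan ψ) φ).const_mul _
    have hd2 : HasDerivAt (fun s => eval (fun i => z' i + Real.tan ψ * ee b s i) P)
        (∑ i, (Real.tan ψ * et b φ i) *
          eval (fun i => z' i + Real.tan ψ * ee b φ i) (pderiv i P)) φ := by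
      apply hasDerivAt_eval P
      intro i
      exact ((ee_deriv b φ i).const_mul _).const_add _
    have hgrad0 : ∀ i, eval (fun i => z' i + Real.tan ψ * ee b φ i) (pderiv i P) = 0 := by
      intro i
      have h2 := hcon i
      have h3 : (fun j => (sp b ψ φ : E3) j) =
          fun j => Real.cos ψ * (z' j + Real.tan ψ * ee b φ j) := by
        funext j
        simp only [sp, ee, hb2, hz']
        rw [Real.tan_eq_sin_div_cos]
        simp
        field_simp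
        ring
      rw [h3, eval_scale (hP.pderiv (i := i))] at h2
      have : Real.cos ψ ^ (ℓ - 1) ≠ 0 := pow_ne_zero _ hcos.ne'
      exact (mul_eq_zero.1 h2).resolve_left this
    have h5 := hd1.unique hd2
    simp only [hgrad0, mul_zero, Finset.sum_const_zero] at h5
    have h6 : Real.tan ψ ^ m ≠ 0 := pow_ne_zero _ htan0.ne'
    exact hF'ne ((mul_eq_zero.1 h5).resolve_left h6)

/-- Centre points of the positive sectors. -/
noncomputable def PP (b : OrthonormalBasis (Fin 3) ℝ E3) (m : ℕ) (ψ : ℝ) (k : ℕ) : S2 :=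
  sp b ψ ((2 * Real.pi * ((k : ℝ) + 1)) / m)

/-- Centre points of the negative sectors. -/
noncomputable def QQ (b : OrthonormalBasis (Fin 3) ℝ E3) (m : ℕ) (ψ : ℝ) (k : ℕ) : S2 :=
  sp b ψ (((2 * (k : ℝ) + 1) * Real.pi) / m)

/-- All the local information near a zero that is needed later. -/
theorem zero_data {P : MvPolynomial (Fin 3) ℝ} {ℓ : ℕ} (hP : P.IsHomogeneous ℓ)
    (hh : ∑ i : Fin 3, pderiv i (pderiv i P) = 0) (hP0 : P ≠ 0) (z : S2) (hz : ev P z = 0)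
    (m : ℕ) (hm : m = ordAt P (fun i => (z : E3) i)) :
    ∃ b : OrthonormalBasis (Fin 3) ℝ E3, b 2 = (z : E3) ∧ ∃ ψ0 : ℝ, 0 < ψ0 ∧
      ψ0 < Real.pi / 2 ∧ ∀ ψ1, 0 < ψ1 → ψ1 ≤ ψ0 →
      (∀ x : S2, Real.cos ψ1 ≤ inner ℝ (b 2) (x : E3) → x ≠ z → 0 < ev P x → ∃ k < m,
        connectedComponentIn {y : S2 | 0 < ev P y} x =
          connectedComponentIn {y : S2 | 0 < ev P y} (PP b m ψ1 k)) ∧
      (∀ x : S2, Real.cos ψ1 ≤ inner ℝ (b 2) (x : E3) → x ≠ z → ev P x < 0 → ∃ k < m,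
        connectedComponentIn {y : S2 | ev P y < 0} x =
          connectedComponentIn {y : S2 | ev P y < 0} (QQ b m ψ1 k)) ∧
      (∀ k : ℕ, 0 < ev P (PP b m ψ1 k) ∧
        z ∈ closure (connectedComponentIn {y : S2 | 0 < ev P y} (PP b m ψ1 k))) ∧
      (∀ k : ℕ, ev P (QQ b m ψ1 k) < 0 ∧
        z ∈ closure (connectedComponentIn {y : S2 | ev P y < 0} (QQ b m ψ1 k))) ∧
      (∀ x : S2, Real.cos ψ1 ≤ inner ℝ (b 2) (x : E3) → x ≠ z → ev P x = 0 →
        ∃ i, eval (fun j => (x : E3) j) (pderiv i P) ≠ 0) ∧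
      (∀ A : Set S2, IsOpen A →
        (∀ x : S2, inner ℝ (b 2) (x : E3) = Real.cos ψ1 → (x ∈ A ↔ 0 < ev P x)) →
        ∃ E F : Finset ℕ, E ⊆ Finset.range m ∧ F ⊆ Finset.range m ∧ E.card + F.card ≤ m + 1 ∧
          (∀ k < m, ∃ k' ∈ E, connectedComponentIn A (PP b m ψ1 k) =
            connectedComponentIn A (PP b m ψ1 k')) ∧
          (∀ k < m, ∃ k' ∈ F,
            connectedComponentIn (A ∪ {x : S2 | Real.cos ψ1 < inner ℝ (b 2) (x : E3)})ᶜ
              (QQ b m ψ1 k) =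
            connectedComponentIn (A ∪ {x : S2 | Real.cos ψ1 < inner ℝ (b 2) (x : E3)})ᶜ
              (QQ b m ψ1 k'))) := by
  have hm1 : 1 ≤ m := by rw [hm]; exact ordAt_pos hP0 hz
  have hmR : (1 : ℝ) ≤ m := by exact_mod_cast hm1
  have hm0 : (m : ℝ) ≠ 0 := by linarith
  have hpi := Real.pi_pos
  obtain ⟨b, hb2, ψ0, R, hψ0, hψ0', g, g', hg⟩ := germ_basic hP hh hP0 z hz
  rw [← hm] at hg
  have hcont : Continuous (fun y : S2 => ev P y) := (ev_continuous P).comp continuous_subtype_val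
  refine ⟨b, hb2, ψ0, hψ0, hψ0', ?_⟩
  -- data for the two signs
  have gP : ∀ ψ, 0 < ψ → ψ ≤ ψ0 → Gd R (fun t => g ψ (t + ((1 : ℤ) : ℝ) * (2 * Real.pi)))
      (fun t => g' ψ (t + ((1 : ℤ) : ℝ) * (2 * Real.pi))) :=
    fun ψ h0 h1 => (hg ψ h0 h1).1.shift 1
  have aP : ∀ ψ, 0 < ψ → ψ ≤ ψ0 → ∀ α : ℝ,
      sp b ψ ((α + 2 * Real.pi) / m) ∈ {y : S2 | 0 < ev P y} ↔
        0 < (fun t => g ψ (t + ((1 : ℤ) : ℝ) * (2 * Real.pi))) α := by
    intro ψ h0 h1 α
    have := ((hg ψ h0 h1).2.2.1 (α + 2 * Real.pi)).1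
    simp only [Int.cast_one, one_mul]
    exact this
  have gN : ∀ ψ, 0 < ψ → ψ ≤ ψ0 → Gd R (fun t => -g ψ (t + Real.pi))
      (fun t => -g' ψ (t + Real.pi)) :=
    fun ψ h0 h1 => (hg ψ h0 h1).1.flip
  have aN : ∀ ψ, 0 < ψ → ψ ≤ ψ0 → ∀ α : ℝ,
      sp b ψ ((α + Real.pi) / m) ∈ {y : S2 | ev P y < 0} ↔
        0 < (fun t => -g ψ (t + Real.pi)) α := by
    intro ψ h0 h1 α
    have := ((hg ψ h0 h1).2.2.1 (α + Real.pi)).2
    simp only [neg_pos]
    exact this
  -- coordinates of points near z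
  have hcoord : ∀ ψ1, 0 < ψ1 → ψ1 ≤ ψ0 → ∀ x : S2, Real.cos ψ1 ≤ inner ℝ (b 2) (x : E3) →
      x ≠ z → ∃ ψ φ : ℝ, 0 < ψ ∧ ψ ≤ ψ1 ∧ x = sp b ψ φ := by
    intro ψ1 h0 h1 x hx hxz
    obtain ⟨φ, hφ⟩ := sp_surj b x
    refine ⟨_, φ, ?_, ?_, hφ.symm⟩
    · rcases (Real.arccos_nonneg (inner ℝ (b 2) (x : E3))).lt_or_eq with h | h
      · exact h
      · exfalso
        apply hxz
        rw [← hφ, ← h]
        exact sp_zero hb2 φ
    · have h2 : Real.arccos (Real.cos ψ1) = ψ1 := Real.arccos_cos h0.le (by linarith)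
      rw [← h2]
      exact Real.arccos_le_arccos hx
  intro ψ1 h0 h1
  refine ⟨?_, ?_, ?_, ?_, ?_, ?_⟩
  · intro x hx hxz hxp
    obtain ⟨ψ, φ, hψa, hψb, rfl⟩ := hcoord ψ1 h0 h1 x hx hxz
    have e : φ = ((m * φ - 2 * Real.pi) + 2 * Real.pi) / m := by field_simp; ring
    have hmem : sp b ψ (((m * φ - 2 * Real.pi) + 2 * Real.pi) / m) ∈ {y : S2 | 0 < ev P y} := by
      rw [← e]; exact hxp
    obtain ⟨k, hk⟩ := sector_conn b _ _ gP aP hψa (hψb.trans h1) hmem
    obtain ⟨k', hk', hk'2⟩ := sp_idx b (2 * Real.pi) m hm1 k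
    refine ⟨k', hk', ?_⟩
    have h2 := hk ψ1 h0 h1
    rw [← e, hk'2 ψ1] at h2
    rw [h2]
    congr 1
    unfold PP
    congr 2
    ring
  · intro x hx hxz hxp
    obtain ⟨ψ, φ, hψa, hψb, rfl⟩ := hcoord ψ1 h0 h1 x hx hxz
    have e : φ = ((m * φ - Real.pi) + Real.pi) / m := by field_simp; ring
    have hmem : sp b ψ (((m * φ - Real.pi) + Real.pi) / m) ∈ {y : S2 | ev P y < 0} := by
      rw [← e]; exact hxp
    obtain ⟨k, hk⟩ := sector_conn b _ _ gN aN hψa (hψb.trans h1) hmem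
    obtain ⟨k', hk', hk'2⟩ := sp_idx b Real.pi m hm1 k
    refine ⟨k', hk', ?_⟩
    have h2 := hk ψ1 h0 h1
    rw [← e, hk'2 ψ1] at h2
    rw [h2]
    congr 1
    unfold QQ
    congr 2
    ring
  · intro k
    have e : PP b m ψ1 k = sp b ψ1 ((2 * Real.pi * ((k : ℤ) : ℝ) + 2 * Real.pi) / m) := by
      unfold PP
      congr 2
      push_cast
      ring
    constructor
    · have h2 := (aP ψ1 h0 h1 (2 * Real.pi * ((k : ℤ) : ℝ))).2 (by
        apply (gP ψ1 h0 h1).pos_of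
        have : 2 * Real.pi * ((k : ℤ) : ℝ) = 0 + ((k : ℤ) : ℝ) * (2 * Real.pi) := by ring
        rw [this, Real.cos_add_int_mul_two_pi, Real.cos_zero]
        norm_num)
      rw [e]; exact h2
    · rw [e]
      exact sector_closure b _ _ gP aP hb2 h0 h1 k
  · intro k
    have e : QQ b m ψ1 k = sp b ψ1 ((2 * Real.pi * ((k : ℤ) : ℝ) + Real.pi) / m) := by
      unfold QQ
      congr 2
      push_cast
      ring
    constructor
    · have h2 := (aN ψ1 h0 h1 (2 * Real.pi * ((k : ℤ) : ℝ))).2 (by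
        apply (gN ψ1 h0 h1).pos_of
        have : 2 * Real.pi * ((k : ℤ) : ℝ) = 0 + ((k : ℤ) : ℝ) * (2 * Real.pi) := by ring
        rw [this, Real.cos_add_int_mul_two_pi, Real.cos_zero]
        norm_num)
      rw [e]; exact h2
    · rw [e]
      exact sector_closure b _ _ gN aN hb2 h0 h1 k
  · intro x hx hxz hxp
    obtain ⟨ψ, φ, hψa, hψb, rfl⟩ := hcoord ψ1 h0 h1 x hx hxz
    exact (hg ψ hψa (hψb.trans h1)).2.2.2 φ hxp
  · intro A hA hAz
    have h2 := local_planar b h0 (lt_of_le_of_lt h1 hψ0') m hm1 (hg ψ1 h0 h1).1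
      (hg ψ1 h0 h1).2.1 hA (fun α => by
        rw [hAz _ (sp_inner b ψ1 _)]
        exact ((hg ψ1 h0 h1).2.2.1 α).1)
    exact h2

end Run7.h506
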