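import Mathlib
import Pool.Agent.Run7.h506.Zero

set_option autoImplicit false

namespace Run7.h506

open Set Topology MvPolynomial

/-- The components of an open set. -/
abbrev Dm (O : Set S2) : Type := {C : Set S2 // ∃ x ∈ O, C = connectedComponentIn O x}

/-- The component of a point. -/
def dm (O : Set S2) (x : S2) (hx : x ∈ O) : Dm O := ⟨connectedComponentIn O x, x, hx, rfl⟩

/-- Functions on components that agree on components meeting at the points of `I`. -/
def VV (O : Set S2) (I : Finset S2) : Submodule ℝ (Dm O → ℝ) where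
  carrier := {f | ∀ z ∈ I, ∀ C C' : Dm O, z ∈ closure C.1 → z ∈ closure C'.1 → f C = f C'}
  add_mem' := by
    intro f g hf hg z hz C C' h1 h2
    simp only [Pi.add_apply]
    rw [hf z hz C C' h1 h2, hg z hz C C' h1 h2]
  zero_mem' := by
    intro z _ C C' _ _
    rfl
  smul_mem' := by
    intro c f hf z hz C C' h1 h2
    simp only [Pi.smul_apply]
    rw [hf z hz C C' h1 h2]

theorem VV_empty (O : Set S2) : VV O ∅ = ⊤ := by
  rw [eq_top_iff]
  intro f _ z hz
  exact absurd hz (Finset.notMem_empty z)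

theorem mem_VV {O : Set S2} {I : Finset S2} {f : Dm O → ℝ} :
    f ∈ VV O I ↔ ∀ z ∈ I, ∀ C C' : Dm O, z ∈ closure C.1 → z ∈ closure C'.1 → f C = f C' :=
  Iff.rfl

/-- Merging at one more point lowers the dimension by at most the number of classes minus one. -/
theorem VV_step {O : Set S2} [Finite (Dm O)] {I : Finset S2} [DecidableEq S2] {z : S2} {m : ℕ}
    {E : Finset ℕ} (hm : 1 ≤ m) (c : ℕ → Dm O)
    (hc : ∀ C : Dm O, z ∈ closure C.1 → ∃ k < m, C = c k)
    (hE : ∀ f ∈ VV O I, ∀ k < m, ∃ k' ∈ E, f (c k) = f (c k')) :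
    Module.finrank ℝ (VV O I) + 1 ≤ Module.finrank ℝ (VV O (insert z I)) + E.card := by
  classical
  have hfin : Fintype (Dm O) := Fintype.ofFinite _
  obtain ⟨k0, hk0, -⟩ := hE 0 (Submodule.zero_mem _) 0 (by omega)
  set E' := E.erase k0 with hE'
  have hcard : E'.card + 1 = E.card := Finset.card_erase_add_one hk0
  -- the linear map
  let φ : VV O I →ₗ[ℝ] (E' → ℝ) :=
    { toFun := fun f k => f.1 (c k.1) - f.1 (c k0)
      map_add' := by
        intro f g
        funext k
        simp only [Submodule.coe_add, Pi.add_apply]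
        ring
      map_smul' := by
        intro a f
        funext k
        simp only [Submodule.coe_smul, Pi.smul_apply, RingHom.id_apply, smul_eq_mul]
        ring }
  have h1 := LinearMap.finrank_range_add_finrank_ker φ
  have h2 : Module.finrank ℝ (LinearMap.range φ) ≤ E'.card := by
    have h3 := Submodule.finrank_le (LinearMap.range φ)
    rw [Module.finrank_fintype_fun_eq_card, Fintype.card_coe] at h3
    exact h3
  have h4 : Module.finrank ℝ (LinearMap.ker φ) ≤ Module.finrank ℝ (VV O (insert z I)) := by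
    have h5 : (LinearMap.ker φ).map (VV O I).subtype ≤ VV O (insert z I) := by
      rintro f ⟨⟨g, hg⟩, hg2, rfl⟩
      simp only [Submodule.subtype_apply]
      have hg3 : ∀ k ∈ E, g (c k) = g (c k0) := by
        intro k hk
        by_cases hkk : k = k0
        · rw [hkk]
        · have h6 : φ ⟨g, hg⟩ = 0 := hg2
          have h7 := congrFun h6 ⟨k, Finset.mem_erase.2 ⟨hkk, hk⟩⟩
          have h8 : g (c k) - g (c k0) = 0 := h7
          linarith
      have hg4 : ∀ C : Dm O, z ∈ closure C.1 → g C = g (c k0) := by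
        intro C hC
        obtain ⟨k, hk, rfl⟩ := hc C hC
        obtain ⟨k', hk', he⟩ := hE g hg k hk
        rw [he, hg3 k' hk']
      intro w hw C C' hC hC'
      rcases Finset.mem_insert.1 hw with rfl | hw
      · rw [hg4 C hC, hg4 C' hC']
      · exact hg w hw C C' hC hC'
    have h6 := Submodule.finrank_mono h5
    rw [Submodule.finrank_map_subtype_eq] at h6
    exact h6
  omega

/-- Two components sharing a point agree. -/
theorem dm_eq {O : Set S2} {C C' : Dm O} {x : S2} (h : x ∈ C.1) (h' : x ∈ C'.1) : C = C' := by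
  obtain ⟨C, y, hy, rfl⟩ := C
  obtain ⟨C', y', hy', rfl⟩ := C'
  apply Subtype.ext
  simp only at h h' ⊢
  rw [connectedComponentIn_eq h, connectedComponentIn_eq h']

theorem dm_mem {O : Set S2} {x : S2} (hx : x ∈ O) : x ∈ (dm O x hx).1 :=
  mem_connectedComponentIn hx

theorem dm_sub {O : Set S2} (C : Dm O) : C.1 ⊆ O := by
  obtain ⟨C, y, hy, rfl⟩ := C
  exact connectedComponentIn_subset _ _

theorem dm_open {O : Set S2} (hO : IsOpen O) (C : Dm O) : IsOpen C.1 := by
  obtain ⟨C, y, hy, rfl⟩ := C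
  exact hO.connectedComponentIn

theorem dm_closure {O : Set S2} (hO : IsOpen O) {C : Dm O} {x : S2} (h : x ∈ closure C.1)
    (hx : x ∈ O) : x ∈ C.1 := by
  obtain ⟨C, y, hy, rfl⟩ := C
  exact mem_comp_of_mem_closure hO h hx

/-- Values of an admissible function are constant along the components of the enlarged open
set. -/
theorem open_side {O : Set S2} (hO : IsOpen O) {I : Finset S2} {B : S2 → Set S2}
    (hB : ∀ z ∈ I, IsOpen (B z)) (hBd : ∀ z ∈ I, ∀ z' ∈ I, z ≠ z' → Disjoint (B z) (B z'))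
    (hBa : ∀ z ∈ I, ∀ x (hx : x ∈ O), x ∈ B z → z ∈ closure (dm O x hx).1)
    {f : Dm O → ℝ} (hf : f ∈ VV O I) {x y : S2} (hx : x ∈ O) (hy : y ∈ O)
    (hxy : connectedComponentIn (O ∪ ⋃ z ∈ I, B z) x = connectedComponentIn (O ∪ ⋃ z ∈ I, B z) y) :
    f (dm O x hx) = f (dm O y hy) := by
  set A := O ∪ ⋃ z ∈ I, B z with hA
  set c := f (dm O x hx) with hc
  set S1 : Set S2 := (⋃ C : {C : Dm O // f C = c}, C.1.1) ∪
    ⋃ z : {z : S2 // z ∈ I ∧ ∃ C : Dm O, z ∈ closure C.1 ∧ f C = c}, B z.1 with hS1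
  set S2' : Set S2 := (⋃ C : {C : Dm O // f C ≠ c}, C.1.1) ∪
    ⋃ z : {z : S2 // z ∈ I ∧ ¬ ∃ C : Dm O, z ∈ closure C.1 ∧ f C = c}, B z.1 with hS2
  have o1 : IsOpen S1 := by
    apply IsOpen.union
    · exact isOpen_iUnion (fun (C : {C : Dm O // f C = c}) => dm_open hO C.1)
    · exact isOpen_iUnion
        (fun (z : {z : S2 // z ∈ I ∧ ∃ C : Dm O, z ∈ closure C.1 ∧ f C = c}) => hB z.1 z.2.1)
  have o2 : IsOpen S2' := by
    apply IsOpen.union
    · exact isOpen_iUnion (fun (C : {C : Dm O // f C ≠ c}) => dm_open hO C.1)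
    · exact isOpen_iUnion
        (fun (z : {z : S2 // z ∈ I ∧ ¬ ∃ C : Dm O, z ∈ closure C.1 ∧ f C = c}) => hB z.1 z.2.1)
  have hcov : A ⊆ S1 ∪ S2' := by
    rintro p (hp | hp)
    · by_cases hfp : f (dm O p hp) = c
      · left; left
        exact mem_iUnion.2 ⟨⟨dm O p hp, hfp⟩, dm_mem hp⟩
      · right; left
        exact mem_iUnion.2 ⟨⟨dm O p hp, hfp⟩, dm_mem hp⟩
    · rw [mem_iUnion₂] at hp
      obtain ⟨z, hz, hpz⟩ := hp
      by_cases hzc : ∃ C : Dm O, z ∈ closure C.1 ∧ f C = c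
      · left; right
        exact mem_iUnion.2 ⟨⟨z, hz, hzc⟩, hpz⟩
      · right; right
        exact mem_iUnion.2 ⟨⟨z, hz, hzc⟩, hpz⟩
  have hdisj : ∀ p, p ∈ S1 → p ∈ S2' → False := by
    rintro p (h1 | h1) (h2 | h2)
    · obtain ⟨C, hC⟩ := mem_iUnion.1 h1
      obtain ⟨C', hC'⟩ := mem_iUnion.1 h2
      exact C'.2 ((congrArg f (dm_eq hC' hC)).trans C.2)
    · obtain ⟨C, hC⟩ := mem_iUnion.1 h1
      obtain ⟨z, hz⟩ := mem_iUnion.1 h2
      have hpO : p ∈ O := dm_sub _ hC
      have h3 := hBa z.1 z.2.1 p hpO hz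
      apply z.2.2
      exact ⟨dm O p hpO, h3, (congrArg f (dm_eq (dm_mem hpO) hC)).trans C.2⟩
    · obtain ⟨z, hz⟩ := mem_iUnion.1 h1
      obtain ⟨C, hC⟩ := mem_iUnion.1 h2
      have hpO : p ∈ O := dm_sub _ hC
      have h3 := hBa z.1 z.2.1 p hpO hz
      obtain ⟨C'', hC1, hC2⟩ := z.2.2
      have e1 : f C.1 = f (dm O p hpO) := congrArg f (dm_eq hC (dm_mem hpO))
      exact C.2 (e1.trans ((hf z.1 z.2.1 _ _ h3 hC1).trans hC2))
    · obtain ⟨z, hz⟩ := mem_iUnion.1 h1
      obtain ⟨z', hz'⟩ := mem_iUnion.1 h2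
      by_cases he : z.1 = z'.1
      · apply z'.2.2
        rw [← he]
        exact z.2.2
      · exact Set.disjoint_left.1 (hBd z.1 z.2.1 z'.1 z'.2.1 he) hz hz'
  have hxA : x ∈ A := Or.inl hx
  have hyA : y ∈ A := Or.inl hy
  have hK : IsPreconnected (connectedComponentIn A x) := isPreconnected_connectedComponentIn
  have hKA : connectedComponentIn A x ⊆ A := connectedComponentIn_subset _ _
  have hxS : x ∈ S1 := Or.inl (mem_iUnion.2 ⟨⟨dm O x hx, rfl⟩, dm_mem hx⟩)
  have hyK : y ∈ connectedComponentIn A x := by rw [hxy]; exact mem_connectedComponentIn hyA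
  have hyS : y ∈ S1 := by
    rcases hcov hyA with h | h
    · exact h
    · exfalso
      obtain ⟨p, hp1, hp2, hp3⟩ := hK S1 S2' o1 o2 (hKA.trans hcov)
        ⟨x, mem_connectedComponentIn hxA, hxS⟩ ⟨y, hyK, h⟩
      exact hdisj p hp2 hp3
  rcases hyS with h | h
  · obtain ⟨C, hC⟩ := mem_iUnion.1 h
    exact C.2.symm.trans (congrArg f (dm_eq hC (dm_mem hy)))
  · obtain ⟨z, hz⟩ := mem_iUnion.1 h
    have h3 := hBa z.1 z.2.1 y hy hz
    obtain ⟨C'', hC1, hC2⟩ := z.2.2
    exact hC2.symm.trans (hf z.1 z.2.1 _ _ hC1 h3)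

/-- Values of an admissible function are constant along the components of a closed set. -/
theorem closed_side {O : Set S2} (hO : IsOpen O) [Finite (Dm O)] {J : Finset S2} {F : Set S2}
    (hF : ∀ p ∈ F, p ∈ closure O)
    (hJ : ∀ p ∈ F, p ∉ O → p ∉ J → ∀ C C' : Dm O, p ∈ closure C.1 → p ∈ closure C'.1 → C = C')
    {f : Dm O → ℝ} (hf : f ∈ VV O J) {x y : S2} (hx : x ∈ O) (hy : y ∈ O) (hxF : x ∈ F)
    (hyF : y ∈ F) (hxy : connectedComponentIn F x = connectedComponentIn F y) :
    f (dm O x hx) = f (dm O y hy) := by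
  set c := f (dm O x hx) with hc
  set S1 : Set S2 := ⋃ C : {C : Dm O // f C = c}, closure C.1.1 with hS1
  set S2' : Set S2 := ⋃ C : {C : Dm O // f C ≠ c}, closure C.1.1 with hS2
  have o1 : IsClosed S1 :=
    isClosed_iUnion_of_finite (fun (C : {C : Dm O // f C = c}) => isClosed_closure)
  have o2 : IsClosed S2' :=
    isClosed_iUnion_of_finite (fun (C : {C : Dm O // f C ≠ c}) => isClosed_closure)
  have hcov : F ⊆ S1 ∪ S2' := by
    intro p hp
    have h1 : O = ⋃ C : Dm O, C.1 := by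
      apply Set.Subset.antisymm
      · intro q hq
        exact mem_iUnion.2 ⟨dm O q hq, dm_mem hq⟩
      · exact iUnion_subset (fun C => dm_sub C)
    have h2 := hF p hp
    rw [h1, closure_iUnion_of_finite] at h2
    obtain ⟨C, hC⟩ := mem_iUnion.1 h2
    by_cases hfC : f C = c
    · left; exact mem_iUnion.2 ⟨⟨C, hfC⟩, hC⟩
    · right; exact mem_iUnion.2 ⟨⟨C, hfC⟩, hC⟩
  have hdisj : ∀ p ∈ F, p ∈ S1 → p ∈ S2' → False := by
    intro p hp h1 h2
    obtain ⟨C, hC⟩ := mem_iUnion.1 h1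
    obtain ⟨C', hC'⟩ := mem_iUnion.1 h2
    by_cases hpO : p ∈ O
    · have e := dm_eq (dm_closure hO hC hpO) (dm_closure hO hC' hpO)
      exact C'.2 ((congrArg f e).symm.trans C.2)
    · by_cases hpJ : p ∈ J
      · exact C'.2 ((hf p hpJ _ _ hC' hC).trans C.2)
      · have e := hJ p hp hpO hpJ _ _ hC hC'
        exact C'.2 ((congrArg f e).symm.trans C.2)
  have hK : IsPreconnected (connectedComponentIn F x) := isPreconnected_connectedComponentIn
  have hKF : connectedComponentIn F x ⊆ F := connectedComponentIn_subset _ _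
  have hxS : x ∈ S1 := mem_iUnion.2 ⟨⟨dm O x hx, rfl⟩, subset_closure (dm_mem hx)⟩
  have hyK : y ∈ connectedComponentIn F x := by rw [hxy]; exact mem_connectedComponentIn hyF
  have hyS : y ∈ S1 := by
    rcases hcov hyF with h | h
    · exact h
    · exfalso
      rw [isPreconnected_closed_iff] at hK
      obtain ⟨p, hp1, hp2, hp3⟩ := hK S1 S2' o1 o2 (hKF.trans hcov)
        ⟨x, mem_connectedComponentIn hxF, hxS⟩ ⟨y, hyK, h⟩
      exact hdisj p (hKF hp1) hp2 hp3
  obtain ⟨C, hC⟩ := mem_iUnion.1 hyS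
  exact C.2.symm.trans (congrArg f (dm_eq (dm_closure hO hC hy) (dm_mem hy)))

end Run7.h506
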