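import Mathlib
import Pool.Agent.Run7.h506.Graph

set_option autoImplicit false

namespace Run7.h506

open Set Topology MvPolynomial

/-- The singular zeros on the sphere. -/
def Sg (P : MvPolynomial (Fin 3) ℝ) : Set S2 :=
  {z : S2 | ev P z = 0 ∧ ∀ i, eval (fun j => (z : E3) j) (pderiv i P) = 0}

theorem mem_closure_both {P : MvPolynomial (Fin 3) ℝ} {ℓ : ℕ} (hP : P.IsHomogeneous ℓ)
    (hh : ∑ i : Fin 3, pderiv i (pderiv i P) = 0) (hP0 : P ≠ 0) (z : S2) (hz : ev P z = 0) :
    z ∈ closure {y : S2 | 0 < ev P y} ∧ z ∈ closure {y : S2 | ev P y < 0} := by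
  obtain ⟨b, hb2, ψ0, h1, h2, h3⟩ := zero_data hP hh hP0 z hz _ rfl
  obtain ⟨_, _, h4, h5, _, _⟩ := h3 ψ0 h1 le_rfl
  exact ⟨closure_mono (connectedComponentIn_subset _ _) (h4 0).2,
    closure_mono (connectedComponentIn_subset _ _) (h5 0).2⟩

theorem Sg_finite {P : MvPolynomial (Fin 3) ℝ} {ℓ : ℕ} (hP : P.IsHomogeneous ℓ)
    (hh : ∑ i : Fin 3, pderiv i (pderiv i P) = 0) (hP0 : P ≠ 0) : (Sg P).Finite := by
  have hcont : Continuous (fun y : S2 => ev P y) := (ev_continuous P).comp continuous_subtype_val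
  have hloc : ∀ z : S2, ∃ U ∈ 𝓝 z, U ∩ Sg P ⊆ {z} := by
    intro z
    by_cases hz : ev P z = 0
    · obtain ⟨b, hb2, ψ0, h1, h2, h3⟩ := zero_data hP hh hP0 z hz _ rfl
      obtain ⟨_, _, _, _, h4, _⟩ := h3 ψ0 h1 le_rfl
      refine ⟨{x : S2 | Real.cos ψ0 < inner ℝ (b 2) (x : E3)}, ?_, ?_⟩
      · apply IsOpen.mem_nhds
        · exact isOpen_lt continuous_const (by fun_prop)
        · change Real.cos ψ0 < inner ℝ (b 2) (z : E3)
          rw [← hb2]
          have : inner ℝ (b 2) (b 2) = (1 : ℝ) := by simp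
          rw [this, ← Real.cos_zero]
          exact Real.cos_lt_cos_of_nonneg_of_le_pi le_rfl (by linarith [Real.pi_pos]) h1
      · rintro x ⟨hx1, hx2⟩
        by_contra hxz
        have hx1' : Real.cos ψ0 < inner ℝ (b 2) (x : E3) := hx1
        obtain ⟨i, hi⟩ := h4 x hx1'.le (fun h => hxz h) hx2.1
        exact hi (hx2.2 i)
    · refine ⟨{x : S2 | ev P x ≠ 0}, ?_, ?_⟩
      · exact (isOpen_ne_fun hcont continuous_const).mem_nhds hz
      · rintro x ⟨hx1, hx2⟩
        exact absurd hx2.1 hx1
  choose U hU1 hU2 using hloc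
  obtain ⟨t, ht⟩ := isCompact_univ.elim_nhds_subcover U (fun z _ => hU1 z)
  apply t.finite_toSet.subset
  intro x hx
  have h1 := ht.2 (mem_univ x)
  rw [mem_iUnion₂] at h1
  obtain ⟨z, hz, hxz⟩ := h1
  have := hU2 z ⟨hxz, hx⟩
  rw [mem_singleton_iff] at this
  rw [this]
  exact hz

theorem sep_exists (T : Finset S2) : ∃ δ : ℝ, 0 < δ ∧ ∀ z ∈ T, ∀ z' ∈ T, z ≠ z' →
    δ ≤ dist (z : E3) (z' : E3) := by
  classical
  by_cases hne : T.offDiag.Nonempty
  · obtain ⟨p, hp, hmin⟩ := T.offDiag.exists_min_image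
      (fun p => dist (p.1 : E3) (p.2 : E3)) hne
    rw [Finset.mem_offDiag] at hp
    refine ⟨dist (p.1 : E3) (p.2 : E3), ?_, ?_⟩
    · apply dist_pos.2
      intro h
      exact hp.2.2 (Subtype.ext h)
    · intro z hz z' hz' hzz
      exact hmin (z, z') (Finset.mem_offDiag.2 ⟨hz, hz', hzz⟩)
  · refine ⟨1, one_pos, ?_⟩
    intro z hz z' hz' hzz
    exact absurd ⟨(z, z'), Finset.mem_offDiag.2 ⟨hz, hz', hzz⟩⟩ hne

theorem cap_dist {z x : S2} {ψ : ℝ} (h0 : 0 ≤ ψ) (h : Real.cos ψ ≤ inner ℝ (z : E3) (x : E3)) :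
    dist (z : E3) (x : E3) ≤ ψ := by
  have hz : ‖(z : E3)‖ = 1 := mem_sphere_zero_iff_norm.1 z.2
  have hx : ‖(x : E3)‖ = 1 := mem_sphere_zero_iff_norm.1 x.2
  have h1 : ‖(z : E3) - x‖ ^ 2 = 2 - 2 * inner ℝ (z : E3) (x : E3) := by
    rw [norm_sub_sq_real, hz, hx]; ring
  have h2 := Real.one_sub_sq_div_two_le_cos (x := ψ)
  rw [dist_eq_norm]
  have h3 : ‖(z : E3) - x‖ ^ 2 ≤ ψ ^ 2 := by rw [h1]; linarith
  exact abs_le_of_sq_le_sq' h3 h0 |>.2

/-- One telescoping step at a singular zero. -/
theorem tele_step {P : MvPolynomial (Fin 3) ℝ} {ℓ : ℕ} (hP : P.IsHomogeneous ℓ)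
    (hh : ∑ i : Fin 3, pderiv i (pderiv i P) = 0) (hP0 : P ≠ 0)
    [Finite (Dm {y : S2 | 0 < ev P y})] [Finite (Dm {y : S2 | ev P y < 0})] [DecidableEq S2]
    (T : Finset S2) (hT : ∀ z, z ∈ T ↔ z ∈ Sg P) :
    Module.finrank ℝ (VV {y : S2 | 0 < ev P y} ∅) + Module.finrank ℝ (VV {y : S2 | ev P y < 0} ∅)
      ≤ Module.finrank ℝ (VV {y : S2 | 0 < ev P y} T) +
        Module.finrank ℝ (VV {y : S2 | ev P y < 0} T) +
        ∑ z ∈ T, (ordAt P (fun i => (z : E3) i) - 1) := by
  set Op : Set S2 := {y : S2 | 0 < ev P y} with hOp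
  set On : Set S2 := {y : S2 | ev P y < 0} with hOn
  have hcont : Continuous (fun y : S2 => ev P y) := (ev_continuous P).comp continuous_subtype_val
  have hOpo : IsOpen Op := isOpen_lt continuous_const hcont
  have hOno : IsOpen On := isOpen_lt hcont continuous_const
  obtain ⟨δ, hδ, hsep⟩ := sep_exists T
  -- choose the local data
  have hdata : ∀ z : S2, ∃ b : OrthonormalBasis (Fin 3) ℝ E3, ∃ ψ : ℝ, z ∈ T →
      b 2 = (z : E3) ∧ 0 < ψ ∧ ψ < Real.pi / 2 ∧ ψ ≤ δ / 3 ∧
      (∀ x : S2, Real.cos ψ ≤ inner ℝ (z : E3) (x : E3) → x ≠ z → 0 < ev P x →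
        ∃ k < ordAt P (fun i => (z : E3) i), connectedComponentIn Op x =
          connectedComponentIn Op (PP b (ordAt P (fun i => (z : E3) i)) ψ k)) ∧
      (∀ x : S2, Real.cos ψ ≤ inner ℝ (z : E3) (x : E3) → x ≠ z → ev P x < 0 →
        ∃ k < ordAt P (fun i => (z : E3) i), connectedComponentIn On x =
          connectedComponentIn On (QQ b (ordAt P (fun i => (z : E3) i)) ψ k)) ∧
      (∀ k : ℕ, 0 < ev P (PP b (ordAt P (fun i => (z : E3) i)) ψ k) ∧
        z ∈ closure (connectedComponentIn Op (PP b (ordAt P (fun i => (z : E3) i)) ψ k))) ∧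
      (∀ k : ℕ, ev P (QQ b (ordAt P (fun i => (z : E3) i)) ψ k) < 0 ∧
        z ∈ closure (connectedComponentIn On (QQ b (ordAt P (fun i => (z : E3) i)) ψ k))) ∧
      (∀ A : Set S2, IsOpen A →
        (∀ x : S2, inner ℝ (z : E3) (x : E3) = Real.cos ψ → (x ∈ A ↔ 0 < ev P x)) →
        ∃ E F : Finset ℕ, E.card + F.card ≤ ordAt P (fun i => (z : E3) i) + 1 ∧
          (∀ k < ordAt P (fun i => (z : E3) i), ∃ k' ∈ E,
            connectedComponentIn A (PP b (ordAt P (fun i => (z : E3) i)) ψ k) =
            connectedComponentIn A (PP b (ordAt P (fun i => (z : E3) i)) ψ k')) ∧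
          (∀ k < ordAt P (fun i => (z : E3) i), ∃ k' ∈ F,
            connectedComponentIn (A ∪ {x : S2 | Real.cos ψ < inner ℝ (z : E3) (x : E3)})ᶜ
              (QQ b (ordAt P (fun i => (z : E3) i)) ψ k) =
            connectedComponentIn (A ∪ {x : S2 | Real.cos ψ < inner ℝ (z : E3) (x : E3)})ᶜ
              (QQ b (ordAt P (fun i => (z : E3) i)) ψ k'))) := by
    intro z
    by_cases hz : z ∈ T
    · have hz0 : ev P z = 0 := ((hT z).1 hz).1
      obtain ⟨b, hb2, ψ0, h1, h2, h3⟩ := zero_data hP hh hP0 z hz0 _ rfl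
      have hψpos : 0 < min ψ0 (δ / 3) := lt_min h1 (by positivity)
      obtain ⟨a1, a2, a3, a4, _, a6⟩ := h3 (min ψ0 (δ / 3)) hψpos (min_le_left _ _)
      rw [hb2] at a1 a2 a6
      refine ⟨b, min ψ0 (δ / 3), fun _ => ⟨hb2, hψpos,
        lt_of_le_of_lt (min_le_left _ _) h2, min_le_right _ _, a1, a2, a3, a4, ?_⟩⟩
      intro A hA hAz
      obtain ⟨E, F, _, _, e3, e4, e5⟩ := a6 A hA hAz
      exact ⟨E, F, e3, e4, e5⟩
    · obtain ⟨p0, hp0, hp0c⟩ := exists_unit_orth (z : E3)
      obtain ⟨b, _, _⟩ := exists_basis_ext p0 (z : E3) hp0 (mem_sphere_zero_iff_norm.1 z.2) hp0c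
      exact ⟨b, 0, fun h => absurd h hz⟩
  choose b ψ hd using hdata
  set m : S2 → ℕ := fun z => ordAt P (fun i => (z : E3) i) with hm
  have hm1 : ∀ z ∈ T, 1 ≤ m z := fun z hz => ordAt_pos hP0 ((hT z).1 hz).1
  set B : S2 → Set S2 := fun z => {x : S2 | Real.cos (ψ z) < inner ℝ (z : E3) (x : E3)} with hB
  have hBo : ∀ z, IsOpen (B z) := fun z => isOpen_lt continuous_const (by fun_prop)
  -- closed caps are disjoint
  have hcap : ∀ z ∈ T, ∀ z' ∈ T, z ≠ z' → ∀ x : S2,
      Real.cos (ψ z) ≤ inner ℝ (z : E3) (x : E3) → Real.cos (ψ z') ≤ inner ℝ (z' : E3) (x : E3) →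
      False := by
    intro z hz z' hz' hzz x h1 h2
    have d1 := cap_dist (hd z hz).2.1.le h1
    have d2 := cap_dist (hd z' hz').2.1.le h2
    have e1 := (hd z hz).2.2.2.1
    have e2 := (hd z' hz').2.2.2.1
    have e3 := hsep z hz z' hz' hzz
    have e4 := dist_triangle_right (z : E3) (z' : E3) (x : E3)
    linarith
  have hzB : ∀ z ∈ T, z ∈ B z := by
    intro z hz
    change Real.cos (ψ z) < inner ℝ (z : E3) (z : E3)
    have hzn : ‖(z : E3)‖ = 1 := mem_sphere_zero_iff_norm.1 z.2
    rw [real_inner_self_eq_norm_sq, hzn, one_pow, ← Real.cos_zero]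
    exact Real.cos_lt_cos_of_nonneg_of_le_pi le_rfl
      (by linarith [Real.pi_pos, (hd z hz).2.2.1]) (hd z hz).2.1
  have main : ∀ I : Finset S2, I ⊆ T →
      Module.finrank ℝ (VV Op ∅) + Module.finrank ℝ (VV On (T \ I)) ≤
        Module.finrank ℝ (VV Op I) + Module.finrank ℝ (VV On T) + ∑ z ∈ I, (m z - 1) := by
    intro I
    induction I using Finset.induction_on with
    | empty =>
      intro _
      rw [Finset.sdiff_empty]
      simp
    | insert j I hjI ih =>
      intro hsub
      have hjT : j ∈ T := hsub (Finset.mem_insert_self _ _)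
      have hIT : I ⊆ T := (Finset.subset_insert _ _).trans hsub
      have ih' := ih hIT
      set J := T \ insert j I with hJ
      have hTI : T \ I = insert j J := by
        ext w
        simp only [hJ, Finset.mem_sdiff, Finset.mem_insert]
        constructor
        · rintro ⟨h1, h2⟩
          by_cases hw : w = j
          · exact Or.inl hw
          · exact Or.inr ⟨h1, by tauto⟩
        · rintro (h | ⟨h1, h2⟩)
          · rw [h]; exact ⟨hjT, hjI⟩
          · exact ⟨h1, by tauto⟩
      obtain ⟨hb2, hψ0, hψ1, hψδ, a1, a2, a3, a4, a5⟩ := hd j hjT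
      set A : Set S2 := Op ∪ ⋃ z ∈ I, B z with hA
      have hAo : IsOpen A := hOpo.union (isOpen_biUnion (fun z _ => hBo z))
      have hnotB : ∀ x : S2, Real.cos (ψ j) ≤ inner ℝ (j : E3) (x : E3) →
          x ∉ ⋃ z ∈ I, B z := by
        intro x hx hcon
        rw [mem_iUnion₂] at hcon
        obtain ⟨z, hz, hxz⟩ := hcon
        have hxz' : Real.cos (ψ z) < inner ℝ (z : E3) (x : E3) := hxz
        exact hcap j hjT z (hIT hz) (fun h => hjI (h ▸ hz)) x hx hxz'.le
      obtain ⟨E, F, hEF, hE, hF⟩ := a5 A hAo (by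
        intro x hx
        constructor
        · rintro (h | h)
          · exact h
          · exact absurd h (hnotB x hx.ge)
        · intro h; exact Or.inl h)
      have hmj := hm1 j hjT
      -- points on the circle
      have hPin : ∀ k, inner ℝ (j : E3) (PP (b j) (m j) (ψ j) k : E3) = Real.cos (ψ j) := by
        intro k
        rw [← hb2]; exact sp_inner _ _ _
      have hQin : ∀ k, inner ℝ (j : E3) (QQ (b j) (m j) (ψ j) k : E3) = Real.cos (ψ j) := by
        intro k
        rw [← hb2]; exact sp_inner _ _ _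
      have hj0 : ev P j = 0 := ((hT j).1 hjT).1
      -- positive side
      have s1 := VV_step (O := Op) (I := I) (z := j) (m := m j) (E := E) hmj
        (fun k => dm Op (PP (b j) (m j) (ψ j) k) (a3 k).1)
        (by
          intro C hC
          obtain ⟨x, hx1, hx2⟩ := mem_closure_iff.1 hC (B j) (hBo j) (hzB j hjT)
          have hxO : x ∈ Op := dm_sub C hx2
          have hxO' : 0 < ev P x := hxO
          have hx1' : Real.cos (ψ j) < inner ℝ (j : E3) (x : E3) := hx1
          obtain ⟨k, hk, he⟩ := a1 x hx1'.le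
            (fun h => by rw [h, hj0] at hxO'; exact lt_irrefl _ hxO') hxO'
          refine ⟨k, hk, ?_⟩
          rw [dm_eq hx2 (dm_mem hxO)]
          exact Subtype.ext he)
        (by
          intro f hf k hk
          obtain ⟨k', hk', he⟩ := hE k hk
          refine ⟨k', hk', ?_⟩
          exact open_side hOpo (fun z _ => hBo z)
            (fun z hz z' hz' hzz => by
              rw [Set.disjoint_left]
              intro x hx hx'
              have h1 : Real.cos (ψ z) < inner ℝ (z : E3) (x : E3) := hx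
              have h2 : Real.cos (ψ z') < inner ℝ (z' : E3) (x : E3) := hx'
              exact hcap z (hIT hz) z' (hIT hz') hzz x h1.le h2.le)
            (fun z hz x hx hxz => by
              obtain ⟨_, _, _, _, c1, _, c3, _, _⟩ := hd z (hIT hz)
              have h1 : Real.cos (ψ z) < inner ℝ (z : E3) (x : E3) := hxz
              have hz0 : ev P z = 0 := ((hT z).1 (hIT hz)).1
              have hx' : 0 < ev P x := hx
              obtain ⟨k, _, he⟩ := c1 x h1.le
                (fun h => by rw [h, hz0] at hx'; exact lt_irrefl _ hx') hx'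
              change z ∈ closure (connectedComponentIn Op x)
              rw [he]
              exact (c3 k).2)
            hf _ _ he)
      -- negative side
      have hregU : ∀ p : S2, ev P p = 0 → p ∉ T → ∀ C C' : Dm On, p ∈ closure C.1 →
          p ∈ closure C'.1 → C = C' := by
        intro p hp hpT C C' hC hC'
        have hex : ∃ i, eval (fun j => (p : E3) j) (pderiv i P) ≠ 0 := by
          by_contra hcon
          push Not at hcon
          exact hpT ((hT p).2 ⟨hp, hcon⟩)
        obtain ⟨⟨U, hUo, hpU, hU⟩, _⟩ := local_neg hP p hp hex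
        obtain ⟨x, hx1, hx2⟩ := mem_closure_iff.1 hC U hUo hpU
        obtain ⟨x', hx1', hx2'⟩ := mem_closure_iff.1 hC' U hUo hpU
        have e := hU x hx1 x' hx1' (dm_sub C hx2) (dm_sub C' hx2')
        rw [dm_eq hx2 (dm_mem (dm_sub C hx2)), dm_eq hx2' (dm_mem (dm_sub C' hx2'))]
        exact Subtype.ext e
      have s2 := VV_step (O := On) (I := J) (z := j) (m := m j) (E := F) hmj
        (fun k => dm On (QQ (b j) (m j) (ψ j) k) (a4 k).1)
        (by
          intro C hC
          obtain ⟨x, hx1, hx2⟩ := mem_closure_iff.1 hC (B j) (hBo j) (hzB j hjT)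
          have hxO : x ∈ On := dm_sub C hx2
          have hxO' : ev P x < 0 := hxO
          have hx1' : Real.cos (ψ j) < inner ℝ (j : E3) (x : E3) := hx1
          obtain ⟨k, hk, he⟩ := a2 x hx1'.le
            (fun h => by rw [h, hj0] at hxO'; exact lt_irrefl _ hxO') hxO'
          refine ⟨k, hk, ?_⟩
          rw [dm_eq hx2 (dm_mem hxO)]
          exact Subtype.ext he)
        (by
          intro f hf k hk
          obtain ⟨k', hk', he⟩ := hF k hk
          refine ⟨k', hk', ?_⟩
          have hQF : ∀ k, QQ (b j) (m j) (ψ j) k ∈ (A ∪ B j)ᶜ := by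
            intro k
            rintro ((h | h) | h)
            · have h1 : 0 < ev P (QQ (b j) (m j) (ψ j) k) := h
              linarith [(a4 k).1]
            · exact hnotB _ (hQin k).ge h
            · have h1 : Real.cos (ψ j) < inner ℝ (j : E3) (QQ (b j) (m j) (ψ j) k : E3) := h
              rw [hQin] at h1
              exact lt_irrefl _ h1
          have hle : ∀ p ∈ (A ∪ B j)ᶜ, ev P p ≤ 0 := by
            intro p hp
            by_contra hcon
            push Not at hcon
            exact hp (Or.inl (Or.inl hcon))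
          exact closed_side hOno (F := (A ∪ B j)ᶜ)
            (fun p hp => by
              rcases (hle p hp).lt_or_eq with h | h
              · exact subset_closure h
              · exact (mem_closure_both hP hh hP0 p h).2)
            (fun p hp hpO hpJ C C' hC hC' => by
              have hp0 : ev P p = 0 := by
                rcases (hle p hp).lt_or_eq with h | h
                · exact absurd h hpO
                · exact h
              apply hregU p hp0 _ C C' hC hC'
              intro hpT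
              have : p ∈ insert j I := by
                by_contra hcon
                exact hpJ (by rw [hJ, Finset.mem_sdiff]; exact ⟨hpT, hcon⟩)
              rcases Finset.mem_insert.1 this with h | h
              · apply hp
                right
                rw [h]
                exact hzB j hjT
              · apply hp
                left; right
                exact mem_iUnion₂.2 ⟨p, h, hzB p hpT⟩)
            hf _ _ (hQF k) (hQF k') he)
      rw [← hTI] at s2
      rw [Finset.sum_insert hjI]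
      have hmj' : m j = ordAt P (fun i => (j : E3) i) := rfl
      omega
  have hfin := main T (Finset.Subset.refl T)
  rw [Finset.sdiff_self] at hfin
  exact hfin

end Run7.h506
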