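import Mathlib
import Pool.Agent.Run7.h506.Sing
import Pool.Agent.Run7.h506.Transfer

set_option autoImplicit false

namespace Run7.h506

open Set Topology MvPolynomial MeasureTheory

theorem reg_unique {P : MvPolynomial (Fin 3) ℝ} {ℓ : ℕ} (hP : P.IsHomogeneous ℓ)
    {On : Set S2} (hOn : On = {y : S2 | ev P y < 0}) {p : S2} (hp : ev P p = 0)
    (hex : ∃ i, eval (fun j => (p : E3) j) (pderiv i P) ≠ 0) (C C' : Dm On)
    (hC : p ∈ closure C.1) (hC' : p ∈ closure C'.1) : C = C' := by
  subst hOn
  obtain ⟨⟨U, hUo, hpU, hU⟩, _⟩ := local_neg hP p hp hex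
  obtain ⟨x, hx1, hx2⟩ := mem_closure_iff.1 hC U hUo hpU
  obtain ⟨x', hx1', hx2'⟩ := mem_closure_iff.1 hC' U hUo hpU
  have e := hU x hx1 x' hx1' (dm_sub C hx2) (dm_sub C' hx2')
  rw [dm_eq hx2 (dm_mem (dm_sub C hx2)), dm_eq hx2' (dm_mem (dm_sub C' hx2'))]
  exact Subtype.ext e

/-- The abstract count bound used as an input. -/
def CountBd (P : MvPolynomial (Fin 3) ℝ) (M : ℝ) : Prop :=
  ∀ FA FB : Finset (Set S2),
    (∀ C ∈ FA, ∃ x : S2, 0 < ev P x ∧ C = connectedComponentIn {y : S2 | 0 < ev P y} x) →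
    (∀ C ∈ FB, ∃ x : S2, ev P x < 0 ∧ C = connectedComponentIn {y : S2 | 0 < ev P y}ᶜ x) →
    ((FA.card + FB.card : ℕ) : ℝ) ≤ M

theorem finite_Dm {P : MvPolynomial (Fin 3) ℝ} {M : ℝ} (hM : CountBd P M)
    {Op : Set S2} (hOp : Op = {y : S2 | 0 < ev P y}) : Finite (Dm Op) := by
  classical
  subst hOp
  by_contra hinf
  rw [not_finite_iff_infinite] at hinf
  obtain ⟨S, hS⟩ := Infinite.exists_subset_card_eq (Dm {y : S2 | 0 < ev P y}) (⌈M⌉₊ + 1)
  have h1 := hM (S.image Subtype.val) ∅
    (fun C hC => by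
      rw [Finset.mem_image] at hC
      obtain ⟨D, _, rfl⟩ := hC
      obtain ⟨x, hx, he⟩ := D.2
      exact ⟨x, hx, he⟩)
    (fun C hC => absurd hC (Finset.notMem_empty C))
  rw [Finset.card_image_of_injective _ Subtype.val_injective, hS, Finset.card_empty] at h1
  push_cast at h1
  have h2 := Nat.le_ceil M
  linarith

theorem cluster_bound {P : MvPolynomial (Fin 3) ℝ} {ℓ : ℕ} (hP : P.IsHomogeneous ℓ)
    (hh : ∑ i : Fin 3, pderiv i (pderiv i P) = 0) (hP0 : P ≠ 0) {M : ℝ} (hM : CountBd P M)
    {Op On : Set S2} (hOp : Op = {y : S2 | 0 < ev P y}) (hOn : On = {y : S2 | ev P y < 0})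
    [Finite (Dm Op)] [Finite (Dm On)] (T : Finset S2) (hT : ∀ z, z ∈ T ↔ z ∈ Sg P) :
    ((Nat.card (Dm Op) + Module.finrank ℝ (VV On T) : ℕ) : ℝ) ≤ M := by
  classical
  have f1 : Fintype (Dm Op) := Fintype.ofFinite _
  have f2 : Fintype (Dm On) := Fintype.ofFinite _
  have hcont : Continuous (fun y : S2 => ev P y) := (ev_continuous P).comp continuous_subtype_val
  have hOno : IsOpen On := by rw [hOn]; exact isOpen_lt hcont continuous_const
  have hrep : ∀ C : Dm On, ∃ x, ∃ hx : x ∈ On, C = dm On x hx := by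
    intro C
    obtain ⟨x, hx, he⟩ := C.2
    exact ⟨x, hx, Subtype.ext he⟩
  choose rep hrO hrep using hrep
  set FA : Finset (Set S2) := Finset.univ.image (fun C : Dm Op => C.1) with hFA
  set FB : Finset (Set S2) := Finset.univ.image
    (fun C : Dm On => connectedComponentIn Opᶜ (rep C)) with hFB
  have cA : FA.card = Nat.card (Dm Op) := by
    rw [hFA, Finset.card_image_of_injective _ Subtype.val_injective, Finset.card_univ,
      Nat.card_eq_fintype_card]
  have hg : ∀ K : FB, ∃ C : Dm On, connectedComponentIn Opᶜ (rep C) = K.1 := by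
    intro K
    obtain ⟨C, _, hC⟩ := Finset.mem_image.1 K.2
    exact ⟨C, hC⟩
  choose g hg using hg
  let L : VV On T →ₗ[ℝ] (FB → ℝ) :=
    { toFun := fun f K => f.1 (g K)
      map_add' := by intro f f'; rfl
      map_smul' := by intro a f; rfl }
  have hLinj : Function.Injective L := by
    rw [← LinearMap.ker_eq_bot, LinearMap.ker_eq_bot']
    intro f hf
    apply Subtype.ext
    funext C
    set K : FB := ⟨connectedComponentIn Opᶜ (rep C), by
      rw [hFB]; exact Finset.mem_image_of_mem _ (Finset.mem_univ _)⟩ with hK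
    have h1 : f.1 (g K) = 0 := congrFun hf K
    have h2 : connectedComponentIn Opᶜ (rep (g K)) = connectedComponentIn Opᶜ (rep C) := hg K
    have hle : ∀ p ∈ Opᶜ, ev P p ≤ 0 := by
      intro p hp
      by_contra hcon
      push Not at hcon
      exact hp (by rw [hOp]; exact hcon)
    have hOnp : ∀ p, p ∈ On ↔ ev P p < 0 := by
      intro p; rw [hOn]; exact Iff.rfl
    have hrc : ∀ C : Dm On, rep C ∈ Opᶜ := by
      intro C hc
      rw [hOp] at hc
      have h3 := (hOnp _).1 (hrO C)
      have h4 : 0 < ev P (rep C) := hc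
      linarith
    have h3 := closed_side hOno (F := Opᶜ) (J := T)
      (fun p hp => by
        rcases (hle p hp).lt_or_eq with h | h
        · exact subset_closure ((hOnp p).2 h)
        · have := (mem_closure_both hP hh hP0 p h).2
          rw [hOn]; exact this)
      (fun p hp hpO hpJ C C' hC hC' => by
        have hp0 : ev P p = 0 := by
          rcases (hle p hp).lt_or_eq with h | h
          · exact absurd ((hOnp p).2 h) hpO
          · exact h
        apply reg_unique hP hOn hp0 _ C C' hC hC'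
        by_contra hcon
        push Not at hcon
        exact hpJ ((hT p).2 ⟨hp0, hcon⟩))
      f.2 (hrO (g K)) (hrO C) (hrc _) (hrc _) h2
    rw [← hrep, ← hrep] at h3
    change f.1 C = 0
    rw [← h3]; exact h1
  have hB : Module.finrank ℝ (VV On T) ≤ FB.card := by
    have := LinearMap.finrank_le_finrank_of_injective hLinj
    rw [Module.finrank_fintype_fun_eq_card, Fintype.card_coe] at this
    exact this
  have h1 := hM FA FB
    (fun C hC => by
      rw [hFA, Finset.mem_image] at hC
      obtain ⟨D, _, rfl⟩ := hC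
      obtain ⟨x, hx, he⟩ := D.2
      exact ⟨x, by rw [hOp] at hx; exact hx, by rw [he, ← hOp]⟩)
    (fun C hC => by
      rw [hFB, Finset.mem_image] at hC
      obtain ⟨D, _, rfl⟩ := hC
      have hx : ev P (rep D) < 0 := by
        have := hrO D
        rw [hOn] at this
        exact this
      exact ⟨rep D, hx, by rw [← hOp]⟩)
  refine le_trans ?_ h1
  rw [cA]
  exact_mod_cast Nat.add_le_add_left hB _

/-- Number of nodal domains against the two numbers of signed domains. -/
theorem card_NV_le {P : MvPolynomial (Fin 3) ℝ} [Finite (Dm {y : S2 | 0 < ev P y})]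
    [Finite (Dm {y : S2 | ev P y < 0})] :
    Finite (ConnectedComponents (NV P)) ∧ Nat.card (ConnectedComponents (NV P)) ≤
      Nat.card (Dm {y : S2 | 0 < ev P y}) + Nat.card (Dm {y : S2 | ev P y < 0}) := by
  classical
  have hrep : ∀ C : ConnectedComponents (NV P), ∃ x : NV P, (x : ConnectedComponents (NV P)) = C :=
    ConnectedComponents.surjective_coe
  choose r hr using hrep
  have hneg : ∀ C, ¬ 0 < ev P (toS (r C)) → ev P (toS (r C)) < 0 := by
    intro C hC
    have h1 : ev P (toS (r C)) ≠ 0 := (r C).2.2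
    exact lt_of_le_of_ne (not_lt.1 hC) h1
  let ι : ConnectedComponents (NV P) → Dm {y : S2 | 0 < ev P y} ⊕ Dm {y : S2 | ev P y < 0} :=
    fun C => if h : 0 < ev P (toS (r C)) then Sum.inl (dm _ (toS (r C)) h)
      else Sum.inr (dm _ (toS (r C)) (hneg C h))
  have hinj : Function.Injective ι := by
    intro C C' h
    simp only [ι] at h
    rw [← hr C, ← hr C']
    by_cases h1 : 0 < ev P (toS (r C))
    · by_cases h2 : 0 < ev P (toS (r C'))
      · rw [dif_pos h1, dif_pos h2] at h
        have h3 := Sum.inl.inj h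
        have m1 := dm_mem (O := {y : S2 | 0 < ev P y}) h1
        have m2 := dm_mem (O := {y : S2 | 0 < ev P y}) h2
        rw [← h3] at m2
        apply same_comp isPreconnected_connectedComponentIn _ _ _ m1 m2
        intro y hy
        have : y ∈ {y : S2 | 0 < ev P y} := connectedComponentIn_subset _ _ hy
        exact ne_of_gt this
      · rw [dif_pos h1, dif_neg h2] at h
        exact absurd h Sum.inl_ne_inr
    · by_cases h2 : 0 < ev P (toS (r C'))
      · rw [dif_neg h1, dif_pos h2] at h
        exact absurd h Sum.inr_ne_inl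
      · rw [dif_neg h1, dif_neg h2] at h
        have h3 := Sum.inr.inj h
        have m1 := dm_mem (O := {y : S2 | ev P y < 0}) (hneg C h1)
        have m2 := dm_mem (O := {y : S2 | ev P y < 0}) (hneg C' h2)
        rw [← h3] at m2
        apply same_comp isPreconnected_connectedComponentIn _ _ _ m1 m2
        intro y hy
        have : y ∈ {y : S2 | ev P y < 0} := connectedComponentIn_subset _ _ hy
        exact ne_of_lt this
  constructor
  · exact Finite.of_injective ι hinj
  · rw [← Nat.card_sum]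
    exact Nat.card_le_card_of_injective ι hinj

/-- The general inequality: twice the number of nodal domains is at most twice the count bound
plus the total excess order of the singular zeros. -/
theorem general_bound {P : MvPolynomial (Fin 3) ℝ} {ℓ : ℕ} (hP : P.IsHomogeneous ℓ)
    (hh : ∑ i : Fin 3, pderiv i (pderiv i P) = 0) (hP0 : P ≠ 0) {M : ℝ} (hM : CountBd P M)
    (hM' : CountBd (-P) M) (T : Finset S2) (hT : ∀ z, z ∈ T ↔ z ∈ Sg P) :
    Finite (ConnectedComponents (NV P)) ∧
      2 * (Nat.card (ConnectedComponents (NV P)) : ℝ) ≤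
        2 * M + ((∑ z ∈ T, (ordAt P (fun i => (z : E3) i) - 1) : ℕ) : ℝ) := by
  classical
  have e1 : {y : S2 | ev P y < 0} = {y : S2 | 0 < ev (-P) y} := by
    ext y
    simp only [Set.mem_ofPred_eq, ev_neg]
    constructor <;> intro h <;> linarith
  have e2 : {y : S2 | 0 < ev P y} = {y : S2 | ev (-P) y < 0} := by
    ext y
    simp only [Set.mem_ofPred_eq, ev_neg]
    constructor <;> intro h <;> linarith
  have i1 : Finite (Dm {y : S2 | 0 < ev P y}) := finite_Dm hM rfl
  have i2 : Finite (Dm {y : S2 | ev P y < 0}) := finite_Dm hM' e1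
  have hT' : ∀ z, z ∈ T ↔ z ∈ Sg (-P) := by
    intro z
    rw [hT]
    simp only [Sg, Set.mem_ofPred_eq, ev_neg, map_neg, neg_eq_zero]
  have b1 := cluster_bound hP hh hP0 hM rfl rfl T hT
  have b2 := cluster_bound hP.neg (harm_neg hh) (neg_ne_zero.2 hP0) hM' e1 e2 T hT'
  have b3 := tele_step hP hh hP0 T hT
  rw [VV_empty, VV_empty, finrank_top, finrank_top] at b3
  have f1 : Fintype (Dm {y : S2 | 0 < ev P y}) := Fintype.ofFinite _
  have f2 : Fintype (Dm {y : S2 | ev P y < 0}) := Fintype.ofFinite _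
  rw [Module.finrank_fintype_fun_eq_card, Module.finrank_fintype_fun_eq_card,
    ← Nat.card_eq_fintype_card, ← Nat.card_eq_fintype_card] at b3
  obtain ⟨hfin, b4⟩ := card_NV_le (P := P)
  refine ⟨hfin, ?_⟩
  have b3' : ((Nat.card (Dm {y : S2 | 0 < ev P y}) : ℕ) : ℝ) +
      ((Nat.card (Dm {y : S2 | ev P y < 0}) : ℕ) : ℝ) ≤
      (Module.finrank ℝ (VV {y : S2 | 0 < ev P y} T) : ℝ) +
        (Module.finrank ℝ (VV {y : S2 | ev P y < 0} T) : ℝ) +
        ((∑ z ∈ T, (ordAt P (fun i => (z : E3) i) - 1) : ℕ) : ℝ) := by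
    exact_mod_cast b3
  have b4' : ((Nat.card (ConnectedComponents (NV P)) : ℕ) : ℝ) ≤
      ((Nat.card (Dm {y : S2 | 0 < ev P y}) : ℕ) : ℝ) +
      ((Nat.card (Dm {y : S2 | ev P y < 0}) : ℕ) : ℝ) := by
    exact_mod_cast b4
  rw [Nat.cast_add] at b1 b2
  linarith

end Run7.h506
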