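import Mathlib
import Pool.Agent.Run7.h506.SFinal

set_option autoImplicit false

namespace Run7.h506

open Set Topology MvPolynomial

theorem countBd_explicit {P : MvPolynomial (Fin 3) ℝ} {ℓ : ℕ} (hP : P.IsHomogeneous ℓ)
    (hh : ∑ i : Fin 3, pderiv i (pderiv i P) = 0) (hℓ : 8 ≤ ℓ) :
    CountBd P (((ℓ : ℝ) + 1) ^ 2 / 2) := by
  intro FA FB hFA hFB
  have h := count_main hP hh hℓ FA FB hFA hFB
  have h2 : ((2 * (FA.card + FB.card) : ℕ) : ℝ) ≤ (((ℓ + 1) ^ 2 : ℕ) : ℝ) := by exact_mod_cast h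
  push_cast at h2 ⊢
  linarith

/-- The singular zeros as a finite set of coordinate vectors. -/
theorem sing_coords {P : MvPolynomial (Fin 3) ℝ} {ℓ : ℕ} (hP : P.IsHomogeneous ℓ)
    (hh : ∑ i : Fin 3, pderiv i (pderiv i P) = 0) (hP0 : P ≠ 0) :
    ∃ (T : Finset S2) (T' : Finset (Fin 3 → ℝ)), (∀ z, z ∈ T ↔ z ∈ Sg P) ∧
      (∀ x : Fin 3 → ℝ, x ∈ T' ↔ (∑ i : Fin 3, x i ^ 2 = 1 ∧ eval x P = 0 ∧
        ∀ i : Fin 3, eval x (pderiv i P) = 0)) ∧
      ∑ x ∈ T', (ordAt P x - 1) = ∑ z ∈ T, (ordAt P (fun i => (z : E3) i) - 1) := by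
  classical
  have hfin := Sg_finite hP hh hP0
  have hinj : Function.Injective (fun (z : S2) (i : Fin 3) => (z : E3) i) := by
    intro z z' h
    apply Subtype.ext
    ext i
    exact congrFun h i
  refine ⟨hfin.toFinset, hfin.toFinset.image (fun (z : S2) (i : Fin 3) => (z : E3) i), ?_, ?_, ?_⟩
  · intro z
    exact hfin.mem_toFinset
  · intro x
    rw [Finset.mem_image]
    constructor
    · rintro ⟨z, hz, rfl⟩
      rw [hfin.mem_toFinset] at hz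
      refine ⟨?_, hz.1, hz.2⟩
      have h : ‖(z : E3)‖ = 1 := mem_sphere_zero_iff_norm.1 z.2
      have h2 := EuclideanSpace.norm_sq_eq (z : E3)
      rw [h] at h2
      simpa using h2.symm
    · rintro ⟨h1, h2, h3⟩
      refine ⟨⟨WithLp.toLp 2 x, ?_⟩, ?_, rfl⟩
      · rw [mem_sphere_zero_iff_norm]
        apply norm_eq_one_of_sq
        rw [EuclideanSpace.norm_sq_eq]
        simpa using h1
      · rw [hfin.mem_toFinset]
        exact ⟨h2, h3⟩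
  · rw [Finset.sum_image (fun z _ z' _ h => hinj h)]

theorem explicit_bound {P : MvPolynomial (Fin 3) ℝ} {ℓ : ℕ} (hP : P.IsHomogeneous ℓ)
    (hh : ∑ i : Fin 3, pderiv i (pderiv i P) = 0) (hP0 : P ≠ 0) (hℓ : 8 ≤ ℓ) :
    ∃ T' : Finset (Fin 3 → ℝ),
      (∀ x : Fin 3 → ℝ, x ∈ T' ↔ (∑ i : Fin 3, x i ^ 2 = 1 ∧ eval x P = 0 ∧
        ∀ i : Fin 3, eval x (pderiv i P) = 0)) ∧
      Finite (ConnectedComponents (NV P)) ∧
      2 * Nat.card (ConnectedComponents (NV P)) ≤ (ℓ + 1) ^ 2 + ∑ x ∈ T', (ordAt P x - 1) := by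
  obtain ⟨T, T', h1, h2, h3⟩ := sing_coords hP hh hP0
  obtain ⟨h4, h5⟩ := general_bound hP hh hP0 (countBd_explicit hP hh hℓ)
    (countBd_explicit hP.neg (harm_neg hh) hℓ) T h1
  refine ⟨T', h2, h4, ?_⟩
  rw [h3]
  have h6 : ((2 * Nat.card (ConnectedComponents (NV P)) : ℕ) : ℝ) ≤
      (((ℓ + 1) ^ 2 + ∑ z ∈ T, (ordAt P (fun i => (z : E3) i) - 1) : ℕ) : ℝ) := by
    rw [Nat.cast_add, Nat.cast_mul]
    push_cast at h5 ⊢
    linarith
  exact_mod_cast h6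

end Run7.h506
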