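import Mathlib
import Pool.Agent.Run7.h506.NPh
import Pool.Agent.Run7.h506.Avg
import Pool.Agent.Run7.h506.SExplicit

set_option autoImplicit false

namespace Run7.h506

open Set Topology MeasureTheory MvPolynomial

/-- The counting theorem: positive nodal domains together with those components of the closed
set where the polynomial is non-positive that contain a strictly negative point. -/
theorem count_gen {P : MvPolynomial (Fin 3) ℝ} {ℓ : ℕ} (hP : P.IsHomogeneous ℓ) {k0 : ℝ}
    (hk0 : 0 ≤ k0)
    (hfrA : ∀ c : S2, 0 < ev P c → ENNReal.ofReal k0 * volume (Metric.ball (0 : E3) 1) ≤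
      volume (Metric.ball (0 : E3) 1 ∩ hit (connectedComponentIn {y : S2 | 0 < ev P y} c)))
    (hfrB : ∀ c : S2, 0 < ev (-P) c → ENNReal.ofReal k0 * volume (Metric.ball (0 : E3) 1) ≤
      volume (Metric.ball (0 : E3) 1 ∩ hit (connectedComponentIn {y : S2 | 0 < ev (-P) y} c)))
    (FA FB : Finset (Set S2))
    (hFA : ∀ C ∈ FA, ∃ x : S2, 0 < ev P x ∧
      C = connectedComponentIn {y : S2 | 0 < ev P y} x)
    (hFB : ∀ C ∈ FB, ∃ x : S2, ev P x < 0 ∧
      C = connectedComponentIn {y : S2 | 0 < ev P y}ᶜ x) :
    ((FA.card : ℝ) + FB.card) * k0 ≤ (ℓ : ℝ) + 1 := by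
  classical
  have hneS : Nonempty S2 := (NormedSpace.sphere_nonempty.2 zero_le_one).to_subtype
  choose! xA hxA1 hxA2 using hFA
  choose! xB hxB1 hxB2 using hFB
  set DA : Set S2 → Set S2 := fun C => connectedComponentIn {y : S2 | 0 < ev P y} (xA C) with hDA
  set DB : Set S2 → Set S2 := fun C => connectedComponentIn {y : S2 | 0 < ev (-P) y} (xB C)
    with hDB
  set B := Metric.ball (0 : E3) 1 with hB
  have hBm : MeasurableSet B := Metric.isOpen_ball.measurableSet
  set κ := ENNReal.ofReal k0 with hκ
  have hlowA : ∀ C ∈ FA, κ * volume B ≤ ∫⁻ n in B, (hit (DA C)).indicator 1 n := by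
    intro C hC
    rw [lintegral_indicator_one (hit_isOpen _).measurableSet,
      Measure.restrict_apply (hit_isOpen _).measurableSet, inter_comm]
    exact hfrA (xA C) (hxA1 C hC)
  have hlowB : ∀ C ∈ FB, κ * volume B ≤ ∫⁻ n in B, (hit (DB C)).indicator 1 n := by
    intro C hC
    rw [lintegral_indicator_one (hit_isOpen _).measurableSet,
      Measure.restrict_apply (hit_isOpen _).measurableSet, inter_comm]
    have h0 : 0 < ev (-P) (xB C) := by rw [ev_neg]; linarith [hxB1 C hC]
    exact hfrB (xB C) h0
  have hpt : ∀ n : E3, n ≠ 0 → ∑ C ∈ FA, (hit (DA C)).indicator (1 : E3 → ENNReal) n +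
      ∑ C ∈ FB, (hit (DB C)).indicator (1 : E3 → ENNReal) n ≤ ((ℓ + 1 : ℕ) : ENNReal) := by
    intro n hn
    have e1 : ∑ C ∈ FA, (hit (DA C)).indicator (1 : E3 → ENNReal) n =
        ((FA.filter (fun C => n ∈ hit (DA C))).card : ENNReal) := by
      rw [Finset.card_filter, Nat.cast_sum]
      apply Finset.sum_congr rfl
      intro C _
      by_cases h : n ∈ hit (DA C) <;> simp [h]
    have e2 : ∑ C ∈ FB, (hit (DB C)).indicator (1 : E3 → ENNReal) n =
        ((FB.filter (fun C => n ∈ hit (DB C))).card : ENNReal) := by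
      rw [Finset.card_filter, Nat.cast_sum]
      apply Finset.sum_congr rfl
      intro C _
      by_cases h : n ∈ hit (DB C) <;> simp [h]
    rw [e1, e2, ← Nat.cast_add, Nat.cast_le]
    apply circle_hits hP n hn
    · intro C hC
      rw [Finset.mem_filter] at hC
      obtain ⟨hC1, hC2⟩ := hC
      obtain ⟨x, hx1, hx2⟩ := hit_exists isPreconnected_connectedComponentIn hC2
      have hx3 : x ∈ {y : S2 | 0 < ev P y} := connectedComponentIn_subset _ _ hx1
      refine ⟨x, by rw [real_inner_comm]; exact hx2, hx3, ?_⟩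
      rw [← connectedComponentIn_eq hx1]
      exact hxA2 C hC1
    · intro C hC
      rw [Finset.mem_filter] at hC
      obtain ⟨hC1, hC2⟩ := hC
      obtain ⟨x, hx1, hx2⟩ := hit_exists isPreconnected_connectedComponentIn hC2
      have hx4 : x ∈ {y : S2 | 0 < ev (-P) y} := connectedComponentIn_subset _ _ hx1
      have hx3 : 0 < ev (-P) x := hx4
      rw [ev_neg] at hx3
      refine ⟨x, by rw [real_inner_comm]; exact hx2, by linarith, ?_⟩
      have hsub : DB C ⊆ connectedComponentIn {y : S2 | 0 < ev P y}ᶜ (xB C) := by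
        apply connectedComponentIn_mono
        intro y hy
        simp only [Set.mem_ofPred_eq, Set.mem_compl_iff] at hy ⊢
        rw [ev_neg] at hy
        linarith
      rw [← connectedComponentIn_eq (hsub hx1)]
      exact hxB2 C hC1
  have hint : ∫⁻ n in B, (∑ C ∈ FA, (hit (DA C)).indicator (1 : E3 → ENNReal) n +
      ∑ C ∈ FB, (hit (DB C)).indicator (1 : E3 → ENNReal) n) ≤
      ((ℓ + 1 : ℕ) : ENNReal) * volume B := by
    have h1 : ∫⁻ n in B, ((ℓ + 1 : ℕ) : ENNReal) = ((ℓ + 1 : ℕ) : ENNReal) * volume B := by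
      rw [setLIntegral_const]
    rw [← h1]
    apply lintegral_mono_ae
    apply ae_restrict_of_ae
    have h0 : ∀ᵐ n : E3 ∂volume, n ≠ 0 := by
      have : volume ({0} : Set E3) = 0 := by simp
      rw [ae_iff]
      simp
    filter_upwards [h0] with n hn
    exact hpt n hn
  rw [lintegral_add_left, lintegral_finsetSum, lintegral_finsetSum] at hint
  · have hsum : ((FA.card : ENNReal) + FB.card) * (κ * volume B) ≤
        ((ℓ + 1 : ℕ) : ENNReal) * volume B := by
      refine le_trans ?_ hint
      rw [add_mul]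
      apply add_le_add
      · rw [← nsmul_eq_mul]
        exact Finset.card_nsmul_le_sum _ _ _ hlowA
      · rw [← nsmul_eq_mul]
        exact Finset.card_nsmul_le_sum _ _ _ hlowB
    have hvB : volume B ≠ 0 := by
      rw [hB, EuclideanSpace.volume_ball_fin_three]
      have := Real.pi_pos
      simp
      positivity
    have hvB' : volume B ≠ ⊤ := by
      rw [hB]
      exact measure_ball_lt_top.ne
    rw [← mul_assoc] at hsum
    have hs2 := (ENNReal.mul_le_mul_iff_left hvB hvB').1 hsum
    have e3 : ((FA.card : ENNReal) + FB.card) * κ =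
        ENNReal.ofReal (((FA.card : ℝ) + FB.card) * k0) := by
      rw [hκ, ENNReal.ofReal_mul (by positivity), ENNReal.ofReal_add (by positivity)
        (by positivity), ENNReal.ofReal_natCast, ENNReal.ofReal_natCast]
    have e4 : ((ℓ + 1 : ℕ) : ENNReal) = ENNReal.ofReal ((ℓ : ℝ) + 1) := by
      rw [← ENNReal.ofReal_natCast]
      push_cast
      rfl
    rw [e3, e4] at hs2
    exact (ENNReal.ofReal_le_ofReal_iff (by positivity)).1 hs2
  · intro C _
    exact (measurable_one.indicator (hit_isOpen _).measurableSet)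
  · intro C _
    exact (measurable_one.indicator (hit_isOpen _).measurableSet)
  · apply Finset.measurable_sum
    intro C _
    exact (measurable_one.indicator (hit_isOpen _).measurableSet)



end Run7.h506
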