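import Mathlib
import Pool.Agent.Run7.h506.NPi

set_option autoImplicit false

namespace Run7.h506

open Set Topology MeasureTheory MvPolynomial

theorem cos_pi_div_pos {N : ℕ} (hN : 3 ≤ N) : 0 < Real.cos (Real.pi / N) := by
  have hNR : (3 : ℝ) ≤ N := by exact_mod_cast hN
  have hNpos : (0 : ℝ) < N := by linarith
  have hpi := Real.pi_pos
  apply Real.cos_pos_of_mem_Ioo
  constructor
  · have : 0 < Real.pi / N := by positivity
    linarith
  · rw [div_lt_div_iff_of_pos_left hpi hNpos (by norm_num)]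
    linarith

theorem hit_frac_N {N : ℕ} (hN : 3 ≤ N) {P : MvPolynomial (Fin 3) ℝ} {ℓ : ℕ}
    (hP : P.IsHomogeneous ℓ) (hh : ∑ i : Fin 3, pderiv i (pderiv i P) = 0) (hℓ : 1 ≤ ℓ)
    (c : S2) (hc : 0 < ev P c) :
    ENNReal.ofReal (1201 / 500 * Real.cos (Real.pi / N) / ((ℓ : ℝ) + 13000 * N)) *
        volume (Metric.ball (0 : E3) 1) ≤
      volume (Metric.ball (0 : E3) 1 ∩ hit (connectedComponentIn {y : S2 | 0 < ev P y} c)) := by
  have hNR : (3 : ℝ) ≤ N := by exact_mod_cast hN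
  have hℓR : (1 : ℝ) ≤ ℓ := by exact_mod_cast hℓ
  have hcos := cos_pi_div_pos hN
  have hμ : 0 < (ℓ : ℝ) + 13000 * N := by positivity
  apply hit_measure_N (mem_connectedComponentIn hc) (by omega : 1 ≤ N) (by positivity)
  intro b hb
  exact npoint hN hP hh hℓ hμ (by nlinarith) c hc b hb

theorem countBd_N {N : ℕ} (hN : 3 ≤ N) {P : MvPolynomial (Fin 3) ℝ} {ℓ : ℕ}
    (hP : P.IsHomogeneous ℓ) (hh : ∑ i : Fin 3, pderiv i (pderiv i P) = 0) (hℓ : 1 ≤ ℓ) :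
    CountBd P (((ℓ : ℝ) + 1) * ((ℓ : ℝ) + 13000 * N) /
      (1201 / 500 * Real.cos (Real.pi / N))) := by
  intro FA FB hFA hFB
  have hNR : (3 : ℝ) ≤ N := by exact_mod_cast hN
  have hℓR : (1 : ℝ) ≤ ℓ := by exact_mod_cast hℓ
  have hcos := cos_pi_div_pos hN
  have hμ : 0 < (ℓ : ℝ) + 13000 * N := by positivity
  have h := count_gen hP (k0 := 1201 / 500 * Real.cos (Real.pi / N) / ((ℓ : ℝ) + 13000 * N))
    (by positivity) (fun c hc => hit_frac_N hN hP hh hℓ c hc)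
    (fun c hc => hit_frac_N hN hP.neg (harm_neg hh) hℓ c hc) FA FB hFA hFB
  rw [mul_div_assoc', div_le_iff₀ hμ] at h
  rw [le_div_iff₀ (by positivity)]
  push_cast
  exact h

/-- Explicit version of the sharper bound for large degrees. -/
theorem countBd_sharp {P : MvPolynomial (Fin 3) ℝ} {ℓ : ℕ}
    (hP : P.IsHomogeneous ℓ) (hh : ∑ i : Fin 3, pderiv i (pderiv i P) = 0)
    (hℓ : 4000000000 ≤ ℓ) :
    CountBd P (5 / 12 * (ℓ : ℝ) ^ 2) := by
  intro FA FB hFA hFB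
  have h := countBd_N (N := 100) (by norm_num) hP hh (by omega) FA FB hFA hFB
  refine h.trans ?_
  have hℓR : (4000000000 : ℝ) ≤ ℓ := by exact_mod_cast hℓ
  have hcos : 0.9995 ≤ Real.cos (Real.pi / ((100 : ℕ) : ℝ)) := by
    have h1 := Real.one_sub_sq_div_two_le_cos (x := Real.pi / ((100 : ℕ) : ℝ))
    have h2 := Real.pi_lt_d2
    have h3 := Real.pi_pos
    refine le_trans ?_ h1
    push_cast
    nlinarith
  have hpos : (0 : ℝ) < 1201 / 500 * 0.9995 := by norm_num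
  have h4 : (((ℓ : ℝ) + 1) * ((ℓ : ℝ) + 13000 * ((100 : ℕ) : ℝ)) /
      (1201 / 500 * Real.cos (Real.pi / ((100 : ℕ) : ℝ)))) ≤
      ((ℓ : ℝ) + 1) * ((ℓ : ℝ) + 13000 * 100) / (1201 / 500 * 0.9995) := by
    push_cast at hcos ⊢
    gcongr
  refine h4.trans ?_
  rw [div_le_iff₀ hpos]
  nlinarith

theorem sharp_bound {P : MvPolynomial (Fin 3) ℝ} {ℓ : ℕ} (hP : P.IsHomogeneous ℓ)
    (hh : ∑ i : Fin 3, pderiv i (pderiv i P) = 0) (hP0 : P ≠ 0) (hℓ : 4000000000 ≤ ℓ) :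
    ∃ T' : Finset (Fin 3 → ℝ),
      (∀ x : Fin 3 → ℝ, x ∈ T' ↔ (∑ i : Fin 3, x i ^ 2 = 1 ∧ eval x P = 0 ∧
        ∀ i : Fin 3, eval x (pderiv i P) = 0)) ∧
      Finite (ConnectedComponents (NV P)) ∧
      12 * Nat.card (ConnectedComponents (NV P)) ≤
        5 * ℓ ^ 2 + 6 * ∑ x ∈ T', (ordAt P x - 1) := by
  obtain ⟨T, T', h1, h2, h3⟩ := sing_coords hP hh hP0
  obtain ⟨h4, h5⟩ := general_bound hP hh hP0 (countBd_sharp hP hh hℓ)
    (countBd_sharp hP.neg (harm_neg hh) hℓ) T h1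
  refine ⟨T', h2, h4, ?_⟩
  rw [h3]
  have h6 : ((12 * Nat.card (ConnectedComponents (NV P)) : ℕ) : ℝ) ≤
      ((5 * ℓ ^ 2 + 6 * ∑ z ∈ T, (ordAt P (fun i => (z : E3) i) - 1) : ℕ) : ℝ) := by
    rw [Nat.cast_add, Nat.cast_mul, Nat.cast_mul, Nat.cast_mul]
    push_cast at h5 ⊢
    linarith
  exact_mod_cast h6

end Run7.h506
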