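import Mathlib
import Pool.Agent.Run7.h506.NPj

set_option autoImplicit false

namespace Run7.h506

open Set Topology MeasureTheory MvPolynomial

/-- The points of the coordinate sphere where the value satisfies a predicate. -/
abbrev VS (P : MvPolynomial (Fin 3) ℝ) (q : ℝ → Prop) : Type :=
  {x : Fin 3 → ℝ // ∑ i : Fin 3, x i ^ 2 = 1 ∧ q (eval x P)}

noncomputable def toV {P : MvPolynomial (Fin 3) ℝ} {q : ℝ → Prop} (x : VS P q) : S2 :=
  ⟨WithLp.toLp 2 x.1, by
    rw [mem_sphere_zero_iff_norm]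
    apply norm_eq_one_of_sq
    rw [EuclideanSpace.norm_sq_eq]
    have := x.2.1
    simpa using this⟩

theorem toV_q {P : MvPolynomial (Fin 3) ℝ} {q : ℝ → Prop} (x : VS P q) : q (ev P (toV x)) := x.2.2

noncomputable def ofV {P : MvPolynomial (Fin 3) ℝ} {q : ℝ → Prop} (y : {y : S2 // q (ev P y)}) :
    VS P q :=
  ⟨fun i => (y.1 : E3) i, by
    constructor
    · have h : ‖(y.1 : E3)‖ = 1 := mem_sphere_zero_iff_norm.1 y.1.2
      have h2 := EuclideanSpace.norm_sq_eq (y.1 : E3)
      rw [h] at h2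
      simpa using h2.symm
    · exact y.2⟩

theorem ofV_continuous {P : MvPolynomial (Fin 3) ℝ} {q : ℝ → Prop} :
    Continuous (ofV : {y : S2 // q (ev P y)} → VS P q) := by
  unfold ofV
  apply Continuous.subtype_mk
  fun_prop

theorem ofV_toV {P : MvPolynomial (Fin 3) ℝ} {q : ℝ → Prop} (x : VS P q) (h : q (ev P (toV x))) :
    ofV ⟨toV x, h⟩ = x := by
  apply Subtype.ext
  rfl

theorem same_compV {P : MvPolynomial (Fin 3) ℝ} {q : ℝ → Prop} {K : Set S2}
    (hK : IsPreconnected K) (hKs : ∀ y ∈ K, q (ev P y)) (x x' : VS P q) (hx : toV x ∈ K)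
    (hx' : toV x' ∈ K) : (x : ConnectedComponents (VS P q)) = x' := by
  set K' : Set {y : S2 // q (ev P y)} := Subtype.val ⁻¹' K with hK'
  have h1 : IsPreconnected K' := preimage_preconn hK hKs
  have h2 : IsPreconnected (ofV '' K') := h1.image _ ofV_continuous.continuousOn
  have m1 : x ∈ ofV '' K' := ⟨⟨toV x, hKs _ hx⟩, hx, ofV_toV x _⟩
  have m2 : x' ∈ ofV '' K' := ⟨⟨toV x', hKs _ hx'⟩, hx', ofV_toV x' _⟩
  rw [ConnectedComponents.coe_eq_coe']
  exact h2.subset_connectedComponent m2 m1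

/-- Every component of the closed set where the harmonic is non-positive has a negative point. -/
theorem neg_in_comp {P : MvPolynomial (Fin 3) ℝ} {ℓ : ℕ} (hP : P.IsHomogeneous ℓ)
    (hh : ∑ i : Fin 3, pderiv i (pderiv i P) = 0) (hP0 : P ≠ 0) {M : ℝ} (hM : CountBd (-P) M)
    (z : S2) (hz : ev P z ≤ 0) :
    ∃ x : S2, ev P x < 0 ∧ connectedComponentIn {y : S2 | 0 < ev P y}ᶜ z =
      connectedComponentIn {y : S2 | 0 < ev P y}ᶜ x := by
  have hcont : Continuous (fun y : S2 => ev P y) := (ev_continuous P).comp continuous_subtype_val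
  have hAo : IsOpen {y : S2 | 0 < ev P y} := isOpen_lt continuous_const hcont
  have hzc : z ∈ {y : S2 | 0 < ev P y}ᶜ := by
    simp only [Set.mem_compl_iff, Set.mem_ofPred_eq, not_lt]; exact hz
  rcases hz.lt_or_eq with h | h
  · exact ⟨z, h, rfl⟩
  have hfin : Finite (Dm {y : S2 | ev P y < 0}) := by
    apply finite_Dm hM
    ext y
    simp only [Set.mem_ofPred_eq, ev_neg]
    constructor <;> intro h <;> linarith
  have hcl := (mem_closure_both hP hh hP0 z h).2
  have hsub : {y : S2 | ev P y < 0} ⊆ ⋃ D : Dm {y : S2 | ev P y < 0}, closure (D : Set S2) := by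
    intro y hy
    rw [Set.mem_iUnion]
    exact ⟨⟨connectedComponentIn {y : S2 | ev P y < 0} y, y, hy, rfl⟩,
      subset_closure (mem_connectedComponentIn hy)⟩
  have hclosed : IsClosed (⋃ D : Dm {y : S2 | ev P y < 0}, closure (D : Set S2)) :=
    isClosed_iUnion_of_finite (fun _ => isClosed_closure)
  have h2 := closure_minimal hsub hclosed hcl
  rw [Set.mem_iUnion] at h2
  obtain ⟨D, hD⟩ := h2
  obtain ⟨x, hx, hDx⟩ := D.2
  have hpre : IsPreconnected (closure (D : Set S2)) := by
    rw [hDx]; exact isPreconnected_connectedComponentIn.closure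
  have hsub2 : closure (D : Set S2) ⊆ {y : S2 | 0 < ev P y}ᶜ := by
    apply closure_minimal _ hAo.isClosed_compl
    rw [hDx]
    intro y hy
    have h3 : y ∈ {y : S2 | ev P y < 0} := connectedComponentIn_subset _ _ hy
    simp only [Set.mem_compl_iff, Set.mem_ofPred_eq, not_lt] at h3 ⊢
    exact h3.le
  have hxD : x ∈ closure (D : Set S2) := by
    apply subset_closure
    rw [hDx]
    exact mem_connectedComponentIn hx
  refine ⟨x, hx, connectedComponentIn_eq ?_⟩
  exact hpre.subset_connectedComponentIn hD hsub2 hxD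

theorem one_side_finset {P : MvPolynomial (Fin 3) ℝ} {ℓ : ℕ} (hP : P.IsHomogeneous ℓ)
    (hh : ∑ i : Fin 3, pderiv i (pderiv i P) = 0) (hP0 : P ≠ 0) {M : ℝ} (hM : CountBd P M)
    (hM' : CountBd (-P) M)
    (SA : Finset (ConnectedComponents (VS P (fun t => 0 < t))))
    (SB : Finset (ConnectedComponents (VS P (fun t => t ≤ 0)))) :
    ((SA.card + SB.card : ℕ) : ℝ) ≤ M := by
  classical
  choose r hr using (ConnectedComponents.surjective_coe (α := VS P (fun t => 0 < t)))
  choose r' hr' using (ConnectedComponents.surjective_coe (α := VS P (fun t => t ≤ 0)))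
  set FA := SA.image (fun C => connectedComponentIn {y : S2 | 0 < ev P y} (toV (r C))) with hFA
  set FB := SB.image (fun C => connectedComponentIn {y : S2 | 0 < ev P y}ᶜ (toV (r' C))) with hFB
  have hrA : ∀ C, 0 < ev P (toV (r C)) := fun C => toV_q (r C)
  have hrB : ∀ C, ev P (toV (r' C)) ≤ 0 := fun C => toV_q (r' C)
  have hrB' : ∀ C, toV (r' C) ∈ {y : S2 | 0 < ev P y}ᶜ := by
    intro C
    simp only [Set.mem_compl_iff, Set.mem_ofPred_eq, not_lt]
    exact hrB C
  have cA : FA.card = SA.card := by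
    apply Finset.card_image_of_injOn
    intro C _ C' _ h
    simp only at h
    have m1 : toV (r C) ∈ connectedComponentIn {y : S2 | 0 < ev P y} (toV (r C)) :=
      mem_connectedComponentIn (hrA C)
    have m2 : toV (r C') ∈ connectedComponentIn {y : S2 | 0 < ev P y} (toV (r C)) := by
      rw [h]; exact mem_connectedComponentIn (hrA C')
    rw [← hr C, ← hr C']
    apply same_compV isPreconnected_connectedComponentIn _ _ _ m1 m2
    intro y hy
    have : y ∈ {y : S2 | 0 < ev P y} := connectedComponentIn_subset _ _ hy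
    exact this
  have cB : FB.card = SB.card := by
    apply Finset.card_image_of_injOn
    intro C _ C' _ h
    simp only at h
    have m1 : toV (r' C) ∈ connectedComponentIn {y : S2 | 0 < ev P y}ᶜ (toV (r' C)) :=
      mem_connectedComponentIn (hrB' C)
    have m2 : toV (r' C') ∈ connectedComponentIn {y : S2 | 0 < ev P y}ᶜ (toV (r' C)) := by
      rw [h]; exact mem_connectedComponentIn (hrB' C')
    rw [← hr' C, ← hr' C']
    apply same_compV isPreconnected_connectedComponentIn _ _ _ m1 m2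
    intro y hy
    have h3 : y ∈ {y : S2 | 0 < ev P y}ᶜ := connectedComponentIn_subset _ _ hy
    simp only [Set.mem_compl_iff, Set.mem_ofPred_eq, not_lt] at h3
    exact h3
  rw [← cA, ← cB]
  apply hM
  · intro D hD
    rw [hFA, Finset.mem_image] at hD
    obtain ⟨C, _, rfl⟩ := hD
    exact ⟨toV (r C), hrA C, rfl⟩
  · intro D hD
    rw [hFB, Finset.mem_image] at hD
    obtain ⟨C, _, rfl⟩ := hD
    exact neg_in_comp hP hh hP0 hM' _ (hrB C)

theorem two_finite {α β : Type*} {M : ℝ}
    (h : ∀ (S : Finset α) (T : Finset β), ((S.card + T.card : ℕ) : ℝ) ≤ M) :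
    Finite α ∧ Finite β ∧ ((Nat.card α + Nat.card β : ℕ) : ℝ) ≤ M := by
  have hα : Finite α := by
    by_contra hinf
    rw [not_finite_iff_infinite] at hinf
    obtain ⟨S, hS⟩ := Infinite.exists_subset_card_eq α (⌈M⌉₊ + 1)
    have h1 := h S ∅
    rw [hS, Finset.card_empty] at h1
    push_cast at h1
    have h2 := Nat.le_ceil M
    linarith
  have hβ : Finite β := by
    by_contra hinf
    rw [not_finite_iff_infinite] at hinf
    obtain ⟨S, hS⟩ := Infinite.exists_subset_card_eq β (⌈M⌉₊ + 1)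
    have h1 := h ∅ S
    rw [hS, Finset.card_empty] at h1
    push_cast at h1
    have h2 := Nat.le_ceil M
    linarith
  refine ⟨hα, hβ, ?_⟩
  have f1 := Fintype.ofFinite α
  have f2 := Fintype.ofFinite β
  rw [Nat.card_eq_fintype_card, Nat.card_eq_fintype_card]
  exact h Finset.univ Finset.univ

theorem one_side {P : MvPolynomial (Fin 3) ℝ} {ℓ : ℕ} (hP : P.IsHomogeneous ℓ)
    (hh : ∑ i : Fin 3, pderiv i (pderiv i P) = 0) (hP0 : P ≠ 0) (hℓ : 4000000000 ≤ ℓ) :
    Finite (ConnectedComponents (VS P (fun t => 0 < t))) ∧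
    Finite (ConnectedComponents (VS P (fun t => t ≤ 0))) ∧
      12 * (Nat.card (ConnectedComponents (VS P (fun t => 0 < t))) +
        Nat.card (ConnectedComponents (VS P (fun t => t ≤ 0)))) ≤ 5 * ℓ ^ 2 := by
  obtain ⟨h1, h2, h3⟩ := two_finite (one_side_finset hP hh hP0 (countBd_sharp hP hh hℓ)
    (countBd_sharp hP.neg (harm_neg hh) hℓ))
  refine ⟨h1, h2, ?_⟩
  have h4 : ((12 * (Nat.card (ConnectedComponents (VS P (fun t => 0 < t))) +
        Nat.card (ConnectedComponents (VS P (fun t => t ≤ 0)))) : ℕ) : ℝ) ≤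
      ((5 * ℓ ^ 2 : ℕ) : ℝ) := by
    rw [Nat.cast_mul]
    push_cast at h3 ⊢
    linarith
  exact_mod_cast h4

theorem one_side_all {P : MvPolynomial (Fin 3) ℝ} {ℓ : ℕ} (hP : P.IsHomogeneous ℓ)
    (hh : ∑ i : Fin 3, pderiv i (pderiv i P) = 0) (hP0 : P ≠ 0) (hℓ : 8 ≤ ℓ) :
    Finite (ConnectedComponents (VS P (fun t => 0 < t))) ∧
    Finite (ConnectedComponents (VS P (fun t => t ≤ 0))) ∧
      2 * (Nat.card (ConnectedComponents (VS P (fun t => 0 < t))) +
        Nat.card (ConnectedComponents (VS P (fun t => t ≤ 0)))) ≤ (ℓ + 1) ^ 2 := by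
  obtain ⟨h1, h2, h3⟩ := two_finite (one_side_finset hP hh hP0 (countBd_explicit hP hh hℓ)
    (countBd_explicit hP.neg (harm_neg hh) hℓ))
  refine ⟨h1, h2, ?_⟩
  have h4 : ((2 * (Nat.card (ConnectedComponents (VS P (fun t => 0 < t))) +
        Nat.card (ConnectedComponents (VS P (fun t => t ≤ 0)))) : ℕ) : ℝ) ≤
      (((ℓ + 1) ^ 2 : ℕ) : ℝ) := by
    rw [Nat.cast_mul]
    push_cast at h3 ⊢
    linarith
  exact_mod_cast h4

end Run7.h506
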