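import Pool.Agent.Run7.h608.Basic

/-!
The number of Fourier modes in a small window (almost Mathieu project, helper608, MP_29bb0a_mp).
-/

set_option autoImplicit false

namespace Run7.h506.AMO

open Finset Run7.h608

theorem card_le_of_diam (S : Finset ℕ) (D : ℝ) (hD : 0 ≤ D)
    (h : ∀ k ∈ S, ∀ k' ∈ S, k ≤ k' → (k' : ℝ) - k ≤ D) : (S.card : ℝ) ≤ D + 1 := by
  rcases S.eq_empty_or_nonempty with rfl | hne
  · simp; linarith
  · have h1 : S ⊆ Icc (S.min' hne) (S.max' hne) := fun x hx =>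
      mem_Icc.2 ⟨S.min'_le x hx, S.le_max' x hx⟩
    have h2 := card_le_card h1
    rw [Nat.card_Icc] at h2
    have h3 := h _ (S.min'_mem hne) _ (S.max'_mem hne) (S.min'_le_max' hne)
    have h4 : S.card + S.min' hne ≤ S.max' hne + 1 := by
      have := S.min'_le_max' hne
      omega
    have h5 : (S.card : ℝ) + S.min' hne ≤ S.max' hne + 1 := by exact_mod_cast h4
    linarith

theorem cos_gap {x y : ℝ} (hx : 0 ≤ x) (hxy : x ≤ y) (hy : y ≤ Real.pi) :
    2 * ((y - x) / Real.pi) ^ 2 ≤ Real.cos x - Real.cos y := by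
  have hpi := Real.pi_pos
  have h1 : Real.cos x - Real.cos y = 2 * Real.sin ((y + x) / 2) * Real.sin ((y - x) / 2) := by
    rw [Real.cos_sub_cos]
    have e1 : (x - y) / 2 = -((y - x) / 2) := by ring
    have e2 : (x + y) / 2 = (y + x) / 2 := by ring
    rw [e1, e2, Real.sin_neg]
    ring
  have h2 : (y - x) / Real.pi ≤ Real.sin ((y - x) / 2) := by
    have := Real.mul_le_sin (x := (y - x) / 2) (by linarith) (by linarith)
    calc (y - x) / Real.pi = 2 / Real.pi * ((y - x) / 2) := by ring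
      _ ≤ _ := this
  have h0 : 0 ≤ (y - x) / Real.pi := div_nonneg (by linarith) hpi.le
  have h3 : (y - x) / Real.pi ≤ Real.sin ((y + x) / 2) := by
    rcases le_total ((y + x) / 2) (Real.pi / 2) with h | h
    · refine h2.trans (Real.sin_le_sin_of_le_of_le_pi_div_two (by linarith) h (by linarith))
    · have e : Real.sin ((y + x) / 2) = Real.sin (Real.pi - (y + x) / 2) := (Real.sin_pi_sub _).symm
      rw [e]
      refine h2.trans (Real.sin_le_sin_of_le_of_le_pi_div_two (by linarith) (by linarith) (by linarith))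
  rw [h1]
  calc 2 * ((y - x) / Real.pi) ^ 2 = 2 * ((y - x) / Real.pi) * ((y - x) / Real.pi) := by ring
    _ ≤ 2 * Real.sin ((y + x) / 2) * Real.sin ((y - x) / 2) := by
      refine mul_le_mul (by linarith) h2 h0 (by linarith)

/-- modes in the half circle -/
theorem half_window (L : ℕ) (hL : 0 < L) (v η : ℝ) (hη : 0 ≤ η) (S : Finset ℕ)
    (hS : ∀ k ∈ S, 2 * k ≤ L ∧ |2 * Real.cos (2 * Real.pi * k / L) + v| ≤ 4 * η) :
    (S.card : ℝ) ≤ √(2 * η) * L / 2 + 1 := by
  have hL0 : (0 : ℝ) < L := by exact_mod_cast hL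
  have hpi := Real.pi_pos
  refine card_le_of_diam S _ (by positivity) fun k hk k' hk' hkk => ?_
  obtain ⟨h1, h2⟩ := hS k hk
  obtain ⟨h3, h4⟩ := hS k' hk'
  have hkkR : (k : ℝ) ≤ k' := by exact_mod_cast hkk
  have h3R : 2 * (k' : ℝ) ≤ L := by exact_mod_cast h3
  have hg := cos_gap (x := 2 * Real.pi * k / L) (y := 2 * Real.pi * k' / L) (by positivity)
    (by gcongr) (by rw [div_le_iff₀ hL0]; nlinarith)
  rw [abs_le] at h2 h4
  have h5 : 2 * ((2 * Real.pi * k' / L - 2 * Real.pi * k / L) / Real.pi) ^ 2 ≤ 4 * η := by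
    linarith [h2.1, h2.2, h4.1, h4.2]
  have h6 : ((2 * Real.pi * k' / L - 2 * Real.pi * k / L) / Real.pi) = 2 * (k' - k) / L := by
    field_simp
  rw [h6] at h5
  have h7 : (2 * ((k' : ℝ) - k) / L) ^ 2 ≤ 2 * η := by linarith
  have h8 : 2 * ((k' : ℝ) - k) / L ≤ √(2 * η) := Real.le_sqrt_of_sq_le h7
  rw [div_le_iff₀ hL0] at h8
  linarith

theorem window (L : ℕ) (hL : 0 < L) (v η : ℝ) (hη : 0 ≤ η) :
    (((range L).filter fun k : ℕ => |2 * Real.cos (2 * Real.pi * k / L) + v| ≤ 4 * η).card : ℝ) ≤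
      √(2 * η) * L + 2 := by
  classical
  have hL0 : (0 : ℝ) < L := by exact_mod_cast hL
  set S := (range L).filter fun k : ℕ => |2 * Real.cos (2 * Real.pi * k / L) + v| ≤ 4 * η with hS
  have h1 := half_window L hL v η hη (S.filter fun k => 2 * k ≤ L) (by
    intro k hk
    rw [mem_filter, hS, mem_filter] at hk
    exact ⟨hk.2, hk.1.2⟩)
  have h2 := half_window L hL v η hη ((S.filter fun k => ¬ 2 * k ≤ L).image fun k => L - k) (by
    intro k hk
    rw [mem_image] at hk
    obtain ⟨m, hm, rfl⟩ := hk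
    rw [mem_filter, hS, mem_filter, mem_range] at hm
    obtain ⟨⟨hm1, hm2⟩, hm3⟩ := hm
    refine ⟨by omega, ?_⟩
    have e : (2 * Real.pi * ((L - m : ℕ) : ℝ) / L) = 2 * Real.pi - 2 * Real.pi * m / L := by
      rw [Nat.cast_sub hm1.le]
      field_simp
    rw [e, Real.cos_two_pi_sub]
    exact hm2)
  have h3 : ((S.filter fun k => ¬ 2 * k ≤ L).image fun k => L - k).card =
      (S.filter fun k => ¬ 2 * k ≤ L).card := by
    refine card_image_of_injOn ?_
    intro x hx y hy hxy
    rw [mem_coe, mem_filter, hS, mem_filter, mem_range] at hx hy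
    have := hx.1.1
    have := hy.1.1
    simp only at hxy
    omega
  rw [h3] at h2
  have h4 := card_filter_add_card_filter_not (s := S) (fun k => 2 * k ≤ L)
  have h5 : (S.card : ℝ) = ((S.filter fun k => 2 * k ≤ L).card : ℝ) +
      ((S.filter fun k => ¬ 2 * k ≤ L).card : ℝ) := by exact_mod_cast h4.symm
  rw [h5]
  linarith

end Run7.h506.AMO
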