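import Pool.Agent.Run7.h506.AMO_Ch
import Pool.Agent.Run7.h506.AMO_W

/-!
Piece C of the almost Mathieu project (helper608, MP_29bb0a_mp): the dimension bound.
-/

set_option autoImplicit false

namespace Run7.h506.AMO

open Finset Run7.h608

theorem sum_range_mul' {M : Type*} [AddCommMonoid M] (f : ℕ → M) (A B : ℕ) :
    ∑ t ∈ range (A * B), f t = ∑ i ∈ range A, ∑ j ∈ range B, f (i * B + j) := by
  induction A with
  | zero => simp
  | succ A ih => rw [Nat.succ_mul, sum_range_add, ih, sum_range_succ]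

theorem abs_cos_sub (x y : ℝ) : |Real.cos x - Real.cos y| ≤ |x - y| := by
  rw [Real.cos_sub_cos, abs_mul, abs_mul]
  have h1 := Real.abs_sin_le_one ((x + y) / 2)
  have h2 : |Real.sin ((x - y) / 2)| ≤ |(x - y) / 2| := Real.abs_sin_le_abs
  rw [abs_div, abs_of_pos (by norm_num : (0 : ℝ) < 2)] at h2
  have h3 : |(-2 : ℝ)| = 2 := by norm_num
  rw [h3]
  have h4 := abs_nonneg (Real.sin ((x - y) / 2))
  nlinarith [abs_nonneg (Real.sin ((x + y) / 2)), mul_le_mul h1 h2 h4 zero_le_one]

/-- the potential of the `q`-step operator varies slowly -/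
theorem pot_slow (β θ : ℝ) (p : ℤ) (q : ℕ) (hβ : (q : ℝ) * β = p + θ) (m m' : ℤ) :
    |2 * Real.cos (2 * Real.pi * (q * (m * β))) - 2 * Real.cos (2 * Real.pi * (q * (m' * β)))| ≤
      4 * Real.pi * |((m : ℝ) - m') * θ| := by
  have h : ∀ m : ℤ, Real.cos (2 * Real.pi * (q * (m * β))) = Real.cos (2 * Real.pi * (m * θ)) := by
    intro m
    have e : 2 * Real.pi * (q * (m * β)) = 2 * Real.pi * (m * θ) + ((m * p : ℤ) : ℝ) * (2 * Real.pi) := by
      have : (q : ℝ) * (m * β) = m * (q * β) := by ring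
      rw [this, hβ]
      push_cast
      ring
    rw [e, Real.cos_add_int_mul_two_pi]
  rw [h, h, ← mul_sub, abs_mul, abs_of_pos (by norm_num : (0 : ℝ) < 2)]
  have h1 := abs_cos_sub (2 * Real.pi * (m * θ)) (2 * Real.pi * (m' * θ))
  have e : 2 * Real.pi * (m * θ) - 2 * Real.pi * (m' * θ) = (2 * Real.pi) * (((m : ℝ) - m') * θ) := by
    ring
  rw [e, abs_mul, abs_of_pos Real.two_pi_pos] at h1
  linarith

section
variable (a : ℤ) (q L : ℕ)

/-- the site number `s` of the chain `r` -/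
def site (r : ℕ) (s : ℤ) : ℤ := a + s * q + r

/-- the functionals -/
noncomputable def phi {K : ℕ} : (Fin K × Fin q) × (Bool ⊕ Fin L) → ((ℤ → ℂ) →ₗ[ℂ] ℂ)
  | ((k, r), Sum.inl true) => LinearMap.proj (site a q r ((k : ℕ) * L : ℤ))
  | ((k, r), Sum.inl false) => LinearMap.proj (site a q r ((k : ℕ) * L + (L - 1) : ℤ))
  | ((k, r), Sum.inr i) =>
      ∑ j ∈ range L, ee ((j : ℝ) * (i : ℕ) / L) • LinearMap.proj (site a q r ((k : ℕ) * L + j : ℤ))

end

/-- the combination -/
noncomputable def comb {ι : Type} [Fintype ι] (v : ι → ℤ → ℂ) : (ι → ℂ) →ₗ[ℂ] (ℤ → ℂ) where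
  toFun c := fun m => ∑ i, c i * v i m
  map_add' c d := by
    funext m
    simp only [Pi.add_apply, add_mul, sum_add_distrib]
  map_smul' t c := by
    funext m
    simp only [Pi.smul_apply, smul_eq_mul, RingHom.id_apply, mul_sum]
    exact sum_congr rfl fun i _ => by ring

theorem pieceC (β θ : ℝ) (p : ℤ) (q L : ℕ) (η : ℝ) (hq : 1 ≤ q) (hL : 3 ≤ L)
    (hβ : (q : ℝ) * β = p + θ) (hη : 0 < η) (_hη1 : η ≤ 1)
    (hsmall : 4 * Real.pi * L * q * |θ| ≤ η / 2)
    (a b : ℤ) (hab : a ≤ b) {ι : Type} [Fintype ι] (v : ι → ℤ → ℂ)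
    (hsupp : ∀ i m, m ∉ Ico a b → v i m = 0)
    (hind : ∀ c : ι → ℂ, (∀ m, ∑ i, c i * v i m = 0) → c = 0)
    (hK : ∀ c : ι → ℂ, ∀ w : ℤ → ℂ, (∀ m, w m = ∑ i, c i * v i m) →
      ∑ m ∈ Ico (a - q) (b + q),
        ‖w (m + q) + w (m - q) + (2 * Real.cos (2 * Real.pi * (q * (m * β))) : ℝ) * w m‖ ^ 2
        ≤ (3 * η) ^ 2 * ∑ m ∈ Ico a b, ‖w m‖ ^ 2) :
    (Fintype.card ι : ℝ) ≤ (((b : ℝ) - a) / L + q) * (3 * Real.sqrt η * L + 4) := by
  classical
  have hL0 : (0 : ℝ) < L := by exact_mod_cast (by omega : 0 < L)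
  have hq0 : (0 : ℝ) < q := by exact_mod_cast (by omega : 0 < q)
  set n : ℕ := (b - a).toNat with hn
  have hnZ : (n : ℤ) = b - a := Int.toNat_of_nonneg (by omega)
  have hnR : (n : ℝ) = b - a := by exact_mod_cast hnZ
  set K : ℕ := n / (L * q) + 1 with hKdef
  have hLq : 0 < L * q := Nat.mul_pos (by omega) (by omega)
  have hKn : n < K * L * q := by
    have := Nat.lt_div_mul_add (a := n) hLq
    rw [hKdef, mul_assoc]
    nlinarith
  -- the potential on the chains
  set P : ℤ → ℝ := fun m => 2 * Real.cos (2 * Real.pi * (q * (m * β))) with hP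
  let good : (Fin K × Fin q) × (Bool ⊕ Fin L) → Prop := fun x => match x with
    | (_, Sum.inl _) => True
    | ((k, r), Sum.inr i) =>
      |2 * Real.cos (2 * Real.pi * (i : ℕ) / L) + P (site a q r ((k : ℕ) * L : ℤ))| ≤ 4 * η
  let T := {x : (Fin K × Fin q) × (Bool ⊕ Fin L) // good x}
  -- the number of conditions
  have hcardT : (Fintype.card T : ℝ) ≤ (K * q : ℝ) * (√(2 * η) * L + 4) := by
    have h1 : Fintype.card T = ∑ x : (Fin K × Fin q) × (Bool ⊕ Fin L), if good x then 1 else 0 := by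
      rw [Fintype.card_subtype, card_filter]
    rw [h1, Fintype.sum_prod_type]
    push_cast
    have h2 : ∀ kr : Fin K × Fin q, (∑ y : Bool ⊕ Fin L, if good (kr, y) then (1 : ℝ) else 0) ≤
        √(2 * η) * L + 4 := by
      rintro ⟨k, r⟩
      rw [Fintype.sum_sum_type]
      have h4 := window L (by omega) (P (site a q r ((k : ℕ) * L : ℤ))) η hη.le
      have h5 : (∑ y : Fin L, if |2 * Real.cos (2 * Real.pi * (y : ℕ) / L) +
            P (site a q r ((k : ℕ) * L : ℤ))| ≤ 4 * η then (1 : ℝ) else 0) =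
          (((range L).filter fun i : ℕ => |2 * Real.cos (2 * Real.pi * i / L) +
            P (site a q r ((k : ℕ) * L : ℤ))| ≤ 4 * η).card : ℝ) := by
        rw [card_filter]
        push_cast
        rw [← Fin.sum_univ_eq_sum_range (fun i : ℕ => if |2 * Real.cos (2 * Real.pi * i / L) +
            P (site a q r ((k : ℕ) * L : ℤ))| ≤ 4 * η then (1 : ℝ) else 0) L]
      have h6 : ((∑ y : Bool, if good ((k, r), Sum.inl y) then (1 : ℝ) else 0) +
          ∑ y : Fin L, if good ((k, r), Sum.inr y) then (1 : ℝ) else 0) =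
          (∑ _y : Bool, (1 : ℝ)) + ∑ y : Fin L, if |2 * Real.cos (2 * Real.pi * (y : ℕ) / L) +
            P (site a q r ((k : ℕ) * L : ℤ))| ≤ 4 * η then (1 : ℝ) else 0 := by
        refine congrArg₂ (· + ·) ?_ ?_
        · exact sum_congr rfl fun y _ => if_pos trivial
        · refine sum_congr rfl fun y _ => ?_
          by_cases h : good ((k, r), Sum.inr y)
          · exact (if_pos h).trans (if_pos (show |2 * Real.cos (2 * Real.pi * (y : ℕ) / L) +
              P (site a q r ((k : ℕ) * L : ℤ))| ≤ 4 * η from h)).symm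
          · exact (if_neg h).trans (if_neg (show ¬ |2 * Real.cos (2 * Real.pi * (y : ℕ) / L) +
              P (site a q r ((k : ℕ) * L : ℤ))| ≤ 4 * η from h)).symm
      refine le_of_eq_of_le (Eq.trans ?_ h6) ?_
      · refine congrArg₂ (· + ·) ?_ ?_
        · refine sum_congr rfl fun y _ => ?_
          exact (if_pos trivial).trans (if_pos trivial).symm
        · rfl
      · rw [h5]
        simp only [sum_const, card_univ, Fintype.card_bool, nsmul_eq_mul]
        push_cast
        linarith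
    calc (∑ kr : Fin K × Fin q, ∑ y : Bool ⊕ Fin L, if good (kr, y) then (1 : ℝ) else 0)
        ≤ ∑ _kr : Fin K × Fin q, (√(2 * η) * L + 4) := sum_le_sum fun kr _ => h2 kr
      _ = (K * q : ℝ) * (√(2 * η) * L + 4) := by
        rw [sum_const, card_univ, Fintype.card_prod, Fintype.card_fin, Fintype.card_fin,
          nsmul_eq_mul]
        push_cast
        ring
  have hKq : (K * q : ℝ) ≤ ((b : ℝ) - a) / L + q := by
    have h1 : ((n / (L * q) : ℕ) : ℝ) ≤ (n : ℝ) / (L * q : ℕ) := Nat.cast_div_le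
    rw [hKdef]
    push_cast at h1 ⊢
    rw [le_div_iff₀ (by positivity)] at h1
    rw [← hnR, add_mul, one_mul]
    refine add_le_add ?_ le_rfl
    rw [le_div_iff₀ hL0]
    calc ((n / (L * q) : ℕ) : ℝ) * q * L = ((n / (L * q) : ℕ) : ℝ) * (L * q) := by ring
      _ ≤ n := h1
  have hba : 0 ≤ (b : ℝ) - a := by
    have : (a : ℝ) ≤ b := by exact_mod_cast hab
    linarith
  have hsq : √(2 * η) ≤ 3 * √η := by
    rw [Real.sqrt_mul (by norm_num)]
    have : √2 ≤ 3 := by
      rw [Real.sqrt_le_left (by norm_num)]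
      norm_num
    exact mul_le_mul_of_nonneg_right this (Real.sqrt_nonneg _)
  have hfin : (K * q : ℝ) * (√(2 * η) * L + 4) ≤
      (((b : ℝ) - a) / L + q) * (3 * √η * L + 4) := by
    refine mul_le_mul hKq ?_ (by positivity) (by positivity)
    have := mul_le_mul_of_nonneg_right hsq hL0.le
    linarith
  by_contra hcon
  push Not at hcon
  have hlt : Fintype.card T < Fintype.card ι := by
    have : (Fintype.card T : ℝ) < Fintype.card ι := by linarith
    exact_mod_cast this
  -- a nonzero combination in the kernel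
  let Φ : (ι → ℂ) →ₗ[ℂ] (T → ℂ) := LinearMap.pi fun t => (phi a q L t.1).comp (comb v)
  have hker : LinearMap.ker Φ ≠ ⊥ := LinearMap.ker_ne_bot_of_finrank_lt (by
    rw [Module.finrank_fintype_fun_eq_card, Module.finrank_fintype_fun_eq_card]
    exact hlt)
  obtain ⟨c, hc, hc0⟩ := Submodule.exists_mem_ne_zero_of_ne_bot hker
  rw [LinearMap.mem_ker] at hc
  have hcT : ∀ t : T, phi a q L t.1 (comb v c) = 0 := fun t => congrFun hc t
  set w : ℤ → ℂ := comb v c with hw
  have hwm : ∀ m, w m = ∑ i, c i * v i m := fun m => rfl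
  have hw0 : ∀ m, m ∉ Ico a b → w m = 0 := by
    intro m hm
    rw [hwm]
    exact sum_eq_zero fun i _ => by rw [hsupp i m hm, mul_zero]
  have hKnZ : b ≤ a + (K : ℤ) * L * q := by
    have : ((n : ℕ) : ℤ) < (K : ℤ) * L * q := by exact_mod_cast hKn
    omega
  -- ends of the chains
  have hend1 : ∀ k r : ℕ, r < q → w (site a q r ((k : ℤ) * L)) = 0 := by
    intro k r hr
    by_cases hk : k < K
    · exact hcT ⟨((⟨k, hk⟩, ⟨r, hr⟩), Sum.inl true), trivial⟩
    · refine hw0 _ fun h => ?_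
      rw [mem_Ico] at h
      unfold site at h
      have h1 : (K : ℤ) * L * q ≤ (k : ℤ) * L * q := by
        have : (K : ℤ) ≤ k := by exact_mod_cast not_lt.1 hk
        gcongr
      have h2 : (0 : ℤ) ≤ r := by positivity
      omega
  have hend2 : ∀ k r : ℕ, r < q → w (site a q r ((k : ℤ) * L - 1)) = 0 := by
    intro k r hr
    rcases k with _ | k
    · refine hw0 _ fun h => ?_
      rw [mem_Ico] at h
      unfold site at h
      have : (r : ℤ) < q := by exact_mod_cast hr
      have h1 := h.1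
      push_cast at h1
      linarith
    · by_cases hk : k < K
      · have h1 := hcT ⟨((⟨k, hk⟩, ⟨r, hr⟩), Sum.inl false), trivial⟩
        have e : (((k + 1 : ℕ) : ℤ) * L - 1) = ((k : ℕ) * L + (L - 1) : ℤ) := by push_cast; ring
        rw [e]
        exact h1
      · refine hw0 _ fun h => ?_
        rw [mem_Ico] at h
        unfold site at h
        have h1 : (K : ℤ) * L * q ≤ (k : ℤ) * L * q := by
          have : (K : ℤ) ≤ k := by exact_mod_cast not_lt.1 hk
          gcongr
        have h2 : (0 : ℤ) ≤ r := by positivity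
        have h3 : (k : ℤ) * L * q ≤ (((k + 1 : ℕ) : ℤ) * L - 1) * q := by
          have : (k : ℤ) * L ≤ (((k + 1 : ℕ) : ℤ) * L - 1) := by
            push_cast
            have : (1 : ℤ) ≤ L := by exact_mod_cast (by omega : 1 ≤ L)
            nlinarith
          exact mul_le_mul_of_nonneg_right this (by positivity)
        omega
  set KW : ℤ → ℂ := fun m => w (m + q) + w (m - q) + (P m : ℂ) * w m with hKW
  -- one chain
  have hchain : ∀ k < K, ∀ r < q,
      10 * η ^ 2 * ∑ j ∈ range L, ‖w (site a q r ((k : ℤ) * L + j))‖ ^ 2 ≤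
        ∑ j ∈ range L, ‖KW (site a q r ((k : ℤ) * L + j))‖ ^ 2 := by
    intro k hk r hr
    set g : ℤ → ℂ := fun j => if 0 < j ∧ j < (L : ℤ) - 1 then w (site a q r ((k : ℤ) * L + j)) else 0
      with hg
    have hgin : ∀ j : ℤ, -1 ≤ j → j ≤ L → g j = w (site a q r ((k : ℤ) * L + j)) := by
      intro j h1 h2
      simp only [hg]
      split_ifs with h
      · rfl
      · have h3 : j = -1 ∨ j = 0 ∨ j = (L : ℤ) - 1 ∨ j = L := by omega
        rcases h3 with rfl | rfl | rfl | rfl
        · have := hend2 k r hr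
          rw [sub_eq_add_neg] at this
          exact this.symm
        · have := hend1 k r hr
          rw [add_zero]
          exact this.symm
        · have := hend2 (k + 1) r hr
          have e : (((k + 1 : ℕ) : ℤ) * L - 1) = (k : ℤ) * L + ((L : ℤ) - 1) := by push_cast; ring
          rw [e] at this
          exact this.symm
        · have := hend1 (k + 1) r hr
          have e : (((k + 1 : ℕ) : ℤ) * L) = (k : ℤ) * L + (L : ℤ) := by push_cast; ring
          rw [e] at this
          exact this.symm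
    have hmain := chain L hL η (P (site a q r ((k : ℤ) * L))) hη g (by
      intro j hj
      simp only [hg]
      rw [if_neg]
      omega) (by
      intro i hi hmode
      have h1 := hcT ⟨((⟨k, hk⟩, ⟨r, hr⟩), Sum.inr ⟨i, hi⟩), hmode⟩
      have h2 : phi a q L ((⟨k, hk⟩, ⟨r, hr⟩), Sum.inr ⟨i, hi⟩) w =
          ∑ j ∈ range L, ee ((j : ℝ) * i / L) * w (site a q r ((k : ℤ) * L + j)) := by
        simp only [phi, LinearMap.sum_apply, LinearMap.smul_apply, LinearMap.proj_apply, smul_eq_mul]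
      rw [h2] at h1
      rw [← h1]
      refine sum_congr rfl fun j hj => ?_
      rw [mem_range] at hj
      rw [hgin j (by omega) (by omega), mul_comm]) (fun j => P (site a q r ((k : ℤ) * L + j))) (by
      intro j hj
      refine (pot_slow β θ p q hβ _ _).trans ?_
      have e : ((site a q r ((k : ℤ) * L + j) : ℤ) : ℝ) - ((site a q r ((k : ℤ) * L) : ℤ) : ℝ) =
          j * q := by
        unfold site
        push_cast
        ring
      rw [e, abs_mul, abs_of_nonneg (by positivity)]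
      refine le_trans ?_ hsmall
      have hjL : (j : ℝ) ≤ L := by exact_mod_cast hj.le
      have hpi := Real.pi_pos
      calc 4 * Real.pi * ((j : ℝ) * q * |θ|) ≤ 4 * Real.pi * ((L : ℝ) * q * |θ|) := by gcongr
        _ = 4 * Real.pi * L * q * |θ| := by ring)
    have e1 : ∑ j ∈ range L, ‖g j‖ ^ 2 =
        ∑ j ∈ range L, ‖w (site a q r ((k : ℤ) * L + j))‖ ^ 2 := by
      refine sum_congr rfl fun j hj => ?_
      rw [mem_range] at hj
      rw [hgin j (by omega) (by omega)]
    have e2 : ∑ j ∈ range L, ‖g ((j : ℤ) + 1) + g ((j : ℤ) - 1) +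
        ((P (site a q r ((k : ℤ) * L + j)) : ℝ) : ℂ) * g j‖ ^ 2 =
        ∑ j ∈ range L, ‖KW (site a q r ((k : ℤ) * L + j))‖ ^ 2 := by
      refine sum_congr rfl fun j hj => ?_
      rw [mem_range] at hj
      rw [hgin j (by omega) (by omega), hgin (j + 1) (by omega) (by omega),
        hgin (j - 1) (by omega) (by omega)]
      have s1 : site a q r ((k : ℤ) * L + ((j : ℤ) + 1)) = site a q r ((k : ℤ) * L + j) + q := by
        unfold site; ring
      have s2 : site a q r ((k : ℤ) * L + ((j : ℤ) - 1)) = site a q r ((k : ℤ) * L + j) - q := by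
        unfold site; ring
      rw [s1, s2]
    rw [e1, e2] at hmain
    exact hmain
  -- all chains together
  have hre : ∀ F : ℤ → ℝ, ∑ t ∈ range (K * L * q), F (a + t) =
      ∑ k ∈ range K, ∑ r ∈ range q, ∑ j ∈ range L, F (site a q r ((k : ℤ) * L + j)) := by
    intro F
    rw [sum_range_mul' (fun t : ℕ => F (a + t)), sum_range_mul' _ K L]
    refine sum_congr rfl fun k _ => ?_
    rw [sum_comm]
    refine sum_congr rfl fun r _ => sum_congr rfl fun j _ => ?_
    congr 1
    unfold site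
    push_cast
    ring
  have htot : 10 * η ^ 2 * ∑ t ∈ range (K * L * q), ‖w (a + t)‖ ^ 2 ≤
      ∑ t ∈ range (K * L * q), ‖KW (a + t)‖ ^ 2 := by
    rw [hre (fun m => ‖w m‖ ^ 2), hre (fun m => ‖KW m‖ ^ 2), mul_sum]
    refine sum_le_sum fun k hk => ?_
    rw [mul_sum]
    exact sum_le_sum fun r hr => hchain k (mem_range.1 hk) r (mem_range.1 hr)
  have himg : ∀ F : ℤ → ℝ, ∑ t ∈ range (K * L * q), F (a + t) =
      ∑ m ∈ (range (K * L * q)).image (fun t : ℕ => a + (t : ℤ)), F m := by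
    intro F
    rw [sum_image]
    intro x _ y _ hxy
    simp only at hxy
    omega
  have hlow : ∑ m ∈ Ico a b, ‖w m‖ ^ 2 ≤ ∑ t ∈ range (K * L * q), ‖w (a + t)‖ ^ 2 := by
    rw [himg (fun m => ‖w m‖ ^ 2)]
    refine sum_le_sum_of_subset_of_nonneg ?_ fun _ _ _ => sq_nonneg _
    intro m hm
    rw [mem_Ico] at hm
    rw [mem_image]
    refine ⟨(m - a).toNat, ?_, ?_⟩
    · rw [mem_range]
      have : ((m - a).toNat : ℤ) = m - a := Int.toNat_of_nonneg (by omega)
      have h2 : ((m - a).toNat : ℤ) < (K : ℤ) * L * q := by omega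
      exact_mod_cast h2
    · rw [Int.toNat_of_nonneg (by omega)]
      ring
  have hup : ∑ t ∈ range (K * L * q), ‖KW (a + t)‖ ^ 2 ≤
      ∑ m ∈ Ico (a - q) (b + q), ‖KW m‖ ^ 2 := by
    rw [himg (fun m => ‖KW m‖ ^ 2)]
    rw [← sum_filter_add_sum_filter_not _ (fun m => m < b + q)]
    have h0 : ∑ m ∈ ((range (K * L * q)).image (fun t : ℕ => a + (t : ℤ))).filter
        (fun m => ¬ m < b + q), ‖KW m‖ ^ 2 = 0 := by
      refine sum_eq_zero fun m hm => ?_
      rw [mem_filter] at hm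
      have hm2 := not_lt.1 hm.2
      have hqZ : (0 : ℤ) ≤ q := by positivity
      simp only [hKW]
      rw [hw0 (m + q) (fun h => by rw [mem_Ico] at h; omega),
        hw0 (m - q) (fun h => by rw [mem_Ico] at h; omega),
        hw0 m (fun h => by rw [mem_Ico] at h; omega)]
      simp
    rw [h0, add_zero]
    refine sum_le_sum_of_subset_of_nonneg ?_ fun _ _ _ => sq_nonneg _
    intro m hm
    rw [mem_filter, mem_image] at hm
    obtain ⟨⟨t, _, rfl⟩, h2⟩ := hm
    rw [mem_Ico]
    exact ⟨by omega, h2⟩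
  have hKc := hK c w hwm
  have hKc' : ∑ m ∈ Ico (a - q) (b + q), ‖KW m‖ ^ 2 ≤ (3 * η) ^ 2 * ∑ m ∈ Ico a b, ‖w m‖ ^ 2 := hKc
  have hS0 : 0 ≤ ∑ m ∈ Ico a b, ‖w m‖ ^ 2 := sum_nonneg fun _ _ => sq_nonneg _
  have hη2 : 0 < η ^ 2 := by positivity
  have hzero : ∑ m ∈ Ico a b, ‖w m‖ ^ 2 ≤ 0 := by
    have h1 : 10 * η ^ 2 * ∑ m ∈ Ico a b, ‖w m‖ ^ 2 ≤ 9 * η ^ 2 * ∑ m ∈ Ico a b, ‖w m‖ ^ 2 := by
      calc 10 * η ^ 2 * ∑ m ∈ Ico a b, ‖w m‖ ^ 2
          ≤ 10 * η ^ 2 * ∑ t ∈ range (K * L * q), ‖w (a + t)‖ ^ 2 := by gcongr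
        _ ≤ _ := htot
        _ ≤ _ := hup
        _ ≤ _ := hKc'
        _ = _ := by ring
    nlinarith
  have hall : ∀ m, w m = 0 := by
    intro m
    by_cases hm : m ∈ Ico a b
    · have h1 : ‖w m‖ ^ 2 ≤ ∑ m ∈ Ico a b, ‖w m‖ ^ 2 :=
        single_le_sum (f := fun m => ‖w m‖ ^ 2) (fun _ _ => sq_nonneg _) hm
      have h2 : ‖w m‖ ^ 2 ≤ 0 := h1.trans hzero
      have h3 : ‖w m‖ = 0 := by nlinarith [norm_nonneg (w m), sq_nonneg ‖w m‖]
      exact norm_eq_zero.1 h3
    · exact hw0 m hm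
  exact hc0 (hind c fun m => by rw [← hwm]; exact hall m)

end Run7.h506.AMO
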