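import Pool.Agent.Run7.h506.AMO_F

/-!
One chain (almost Mathieu project, helper608, MP_29bb0a_mp).
-/

set_option autoImplicit false

namespace Run7.h506.AMO

open Finset Run7.h608

theorem shift_up (L : ℕ) (g : ℤ → ℂ) (h0 : g 0 = 0) (hL : g L = 0) (k : ℕ) :
    ∑ j ∈ range L, g ((j : ℤ) + 1) * ee ((j : ℝ) * k / L) =
      ee (-((k : ℝ) / L)) * ∑ j ∈ range L, g j * ee ((j : ℝ) * k / L) := by
  have h1 : ∀ j ∈ range L, g ((j : ℤ) + 1) * ee ((j : ℝ) * k / L) =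
      ee (-((k : ℝ) / L)) * (g ((j + 1 : ℕ) : ℤ) * ee (((j + 1 : ℕ) : ℝ) * k / L)) := by
    intro j _
    have e : ee ((j : ℝ) * k / L) = ee (-((k : ℝ) / L)) * ee (((j + 1 : ℕ) : ℝ) * k / L) := by
      rw [← ee_add]
      congr 1
      push_cast
      ring
    rw [e]
    push_cast
    ring
  rw [sum_congr rfl h1, ← mul_sum]
  congr 1
  have h2 := sum_range_succ (fun j : ℕ => g (j : ℤ) * ee ((j : ℝ) * k / L)) L
  have h3 := sum_range_succ' (fun j : ℕ => g (j : ℤ) * ee ((j : ℝ) * k / L)) L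
  rw [h2] at h3
  simp only [hL, zero_mul, add_zero] at h3
  rw [h3]
  simp [h0]

theorem shift_down (L : ℕ) (g : ℤ → ℂ) (h0 : g (-1) = 0) (hL : g ((L : ℤ) - 1) = 0) (k : ℕ) :
    ∑ j ∈ range L, g ((j : ℤ) - 1) * ee ((j : ℝ) * k / L) =
      ee ((k : ℝ) / L) * ∑ j ∈ range L, g j * ee ((j : ℝ) * k / L) := by
  cases L with
  | zero => simp
  | succ n =>
    rw [sum_range_succ', sum_range_succ (fun j : ℕ => g (j : ℤ) * ee ((j : ℝ) * k / (n + 1 : ℕ)))]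
    have e1 : g ((n : ℕ) : ℤ) = 0 := by
      have : (((n + 1 : ℕ) : ℤ) - 1) = (n : ℤ) := by push_cast; ring
      rw [this] at hL
      exact hL
    have e2 : g (((0 : ℕ) : ℤ) - 1) = 0 := by simpa using h0
    rw [e1, e2, zero_mul, zero_mul, add_zero, add_zero, mul_sum]
    refine sum_congr rfl fun j _ => ?_
    have e3 : (((j + 1 : ℕ) : ℤ) - 1) = (j : ℤ) := by push_cast; ring
    have e4 : ee (((j + 1 : ℕ) : ℝ) * k / (n + 1 : ℕ)) =
        ee ((k : ℝ) / (n + 1 : ℕ)) * ee ((j : ℝ) * k / (n + 1 : ℕ)) := by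
      rw [← ee_add]
      congr 1
      push_cast
      ring
    rw [e3, e4]
    ring

theorem chain (L : ℕ) (hL : 3 ≤ L) (η v : ℝ) (hη : 0 < η) (g : ℤ → ℂ)
    (hg : ∀ j : ℤ, j ≤ 0 ∨ (L : ℤ) - 1 ≤ j → g j = 0)
    (hF : ∀ k < L, |2 * Real.cos (2 * Real.pi * k / L) + v| ≤ 4 * η →
      ∑ j ∈ range L, g j * ee ((j : ℝ) * k / L) = 0)
    (V : ℕ → ℝ) (hV : ∀ j < L, |V j - v| ≤ η / 2) :
    10 * η ^ 2 * ∑ j ∈ range L, ‖g j‖ ^ 2 ≤
      ∑ j ∈ range L, ‖g ((j : ℤ) + 1) + g ((j : ℤ) - 1) + (V j : ℂ) * g j‖ ^ 2 := by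
  have hL0 : (0 : ℝ) < L := by exact_mod_cast (by omega : 0 < L)
  set S := ∑ j ∈ range L, ‖g j‖ ^ 2 with hS
  -- Fourier side
  have hFy : ∀ k : ℕ, ∑ j ∈ range L, (g ((j : ℤ) + 1) + g ((j : ℤ) - 1) + (v : ℂ) * g j) *
      ee ((j : ℝ) * k / L) =
      ((2 * Real.cos (2 * Real.pi * k / L) + v : ℝ) : ℂ) *
        ∑ j ∈ range L, g j * ee ((j : ℝ) * k / L) := by
    intro k
    have h1 := shift_up L g (hg 0 (Or.inl le_rfl)) (hg L (Or.inr (by omega))) k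
    have h2 := shift_down L g (hg (-1) (Or.inl (by omega))) (hg _ (Or.inr le_rfl)) k
    have h3 := ee_add_ee_neg ((k : ℝ) / L)
    have e : 2 * Real.pi * ((k : ℝ) / L) = 2 * Real.pi * k / L := by ring
    rw [e] at h3
    simp only [add_mul, sum_add_distrib]
    rw [h1, h2]
    have h4 : ∑ j ∈ range L, (v : ℂ) * g (j : ℤ) * ee ((j : ℝ) * k / L) =
        (v : ℂ) * ∑ j ∈ range L, g j * ee ((j : ℝ) * k / L) := by
      rw [mul_sum]
      exact sum_congr rfl fun j _ => by ring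
    rw [h4]
    push_cast at h3 ⊢
    rw [← h3]
    ring
  have hP := parsevalL L (by omega) fun j : ℕ => g ((j : ℤ) + 1) + g ((j : ℤ) - 1) + (v : ℂ) * g j
  have hPg := parsevalL L (by omega) fun j : ℕ => g j
  have h1 : 16 * η ^ 2 * (L * S) ≤
      L * ∑ j ∈ range L, ‖g ((j : ℤ) + 1) + g ((j : ℤ) - 1) + (v : ℂ) * g j‖ ^ 2 := by
    rw [← hP, ← hPg, mul_sum]
    refine sum_le_sum fun k hk => ?_
    rw [hFy, norm_mul, mul_pow]
    rcases le_or_gt |2 * Real.cos (2 * Real.pi * k / L) + v| (4 * η) with h | h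
    · rw [hF k (mem_range.1 hk) h, norm_zero]
      simp
    · refine mul_le_mul_of_nonneg_right ?_ (sq_nonneg _)
      rw [Complex.norm_real, Real.norm_eq_abs]
      nlinarith [h, hη]
  have h2 : 16 * η ^ 2 * S ≤
      ∑ j ∈ range L, ‖g ((j : ℤ) + 1) + g ((j : ℤ) - 1) + (v : ℂ) * g j‖ ^ 2 := by
    refine le_of_mul_le_mul_left ?_ hL0
    calc (L : ℝ) * (16 * η ^ 2 * S) = 16 * η ^ 2 * (L * S) := by ring
      _ ≤ _ := h1
  have h3 : ∑ j ∈ range L, ‖g ((j : ℤ) + 1) + g ((j : ℤ) - 1) + (v : ℂ) * g j‖ ^ 2 ≤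
      3 / 2 * (∑ j ∈ range L, ‖g ((j : ℤ) + 1) + g ((j : ℤ) - 1) + (V j : ℂ) * g j‖ ^ 2) +
        3 / 4 * η ^ 2 * S := by
    rw [hS, mul_sum, mul_sum, ← sum_add_distrib]
    refine sum_le_sum fun j hj => ?_
    have e : g ((j : ℤ) + 1) + g ((j : ℤ) - 1) + (v : ℂ) * g j =
        (g ((j : ℤ) + 1) + g ((j : ℤ) - 1) + (V j : ℂ) * g j) + ((v - V j : ℝ) : ℂ) * g j := by
      push_cast; ring
    have h4 : ‖((v - V j : ℝ) : ℂ) * g j‖ ≤ η / 2 * ‖g j‖ := by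
      rw [norm_mul, Complex.norm_real, Real.norm_eq_abs]
      refine mul_le_mul_of_nonneg_right ?_ (norm_nonneg _)
      rw [abs_sub_comm]
      exact hV j (mem_range.1 hj)
    have h5 := norm_add_le (g ((j : ℤ) + 1) + g ((j : ℤ) - 1) + (V j : ℂ) * g j)
      (((v - V j : ℝ) : ℂ) * g j)
    rw [← e] at h5
    set A := ‖g ((j : ℤ) + 1) + g ((j : ℤ) - 1) + (V j : ℂ) * g j‖
    set B := η / 2 * ‖g j‖ with hB
    have hA0 : 0 ≤ A := norm_nonneg _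
    have hB0 : 0 ≤ B := by positivity
    have h6 : ‖g ((j : ℤ) + 1) + g ((j : ℤ) - 1) + (v : ℂ) * g j‖ ≤ A + B := by linarith
    have h7 : ‖g ((j : ℤ) + 1) + g ((j : ℤ) - 1) + (v : ℂ) * g j‖ ^ 2 ≤ (A + B) ^ 2 :=
      pow_le_pow_left₀ (norm_nonneg _) h6 2
    have h8 : (A + B) ^ 2 ≤ 3 / 2 * A ^ 2 + 3 * B ^ 2 := by nlinarith [sq_nonneg (A - 2 * B)]
    have h9 : 3 * B ^ 2 = 3 / 4 * η ^ 2 * ‖g j‖ ^ 2 := by rw [hB]; ring
    linarith
  have hS0 : 0 ≤ S := sum_nonneg fun _ _ => sq_nonneg _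
  nlinarith [mul_nonneg (sq_nonneg η) hS0]

end Run7.h506.AMO
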