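import Pool.Agent.Run7.h506.AMO_D1

/-!
Piece D of the almost Mathieu project (helper608, MP_29bb0a_mp): the set where the orthogonal
polynomial is small.
-/

set_option autoImplicit false

namespace Run7.h506.AMO

open Finset Run7.h608

theorem inj_sum {ι : Type*} (T : Finset ι) (f : ι → ℕ) (hf : Set.InjOn f T) (h1 : ∀ k ∈ T, 1 ≤ f k)
    (N : ℕ) (hN : T.card ≤ N) : ∑ k ∈ T, (1 : ℝ) / f k ≤ (harmonic N : ℝ) + 1 := by
  classical
  rcases Nat.eq_zero_or_pos N with rfl | hN0
  · have : T = ∅ := card_eq_zero.1 (by omega)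
    rw [this]
    simp
  have hNR : (0 : ℝ) < N := by exact_mod_cast hN0
  have e : ∑ k ∈ T, (1 : ℝ) / f k = ∑ m ∈ T.image f, (1 : ℝ) / m := by
    rw [sum_image hf]
  rw [e, ← sum_filter_add_sum_filter_not _ (fun m => m ≤ N)]
  refine add_le_add ?_ ?_
  · rw [harmonic_eq_sum_Icc]
    push_cast
    calc ∑ m ∈ (T.image f).filter (fun m => m ≤ N), (1 : ℝ) / m
        ≤ ∑ m ∈ Icc 1 N, (1 : ℝ) / m := by
          refine sum_le_sum_of_subset_of_nonneg ?_ fun _ _ _ => by positivity
          intro m hm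
          rw [mem_filter, mem_image] at hm
          obtain ⟨⟨k, hk, rfl⟩, h2⟩ := hm
          exact mem_Icc.2 ⟨h1 k hk, h2⟩
      _ = _ := sum_congr rfl fun m _ => by rw [one_div]
  · calc ∑ m ∈ (T.image f).filter (fun m => ¬ m ≤ N), (1 : ℝ) / m
        ≤ ∑ m ∈ (T.image f).filter (fun m => ¬ m ≤ N), (1 : ℝ) / N := by
          refine sum_le_sum fun m hm => ?_
          rw [mem_filter] at hm
          have : (N : ℝ) ≤ m := by exact_mod_cast (not_le.1 hm.2).le
          exact one_div_le_one_div_of_le hNR this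
      _ = (((T.image f).filter (fun m => ¬ m ≤ N)).card : ℝ) * (1 / N) := by
          rw [sum_const, nsmul_eq_mul]
      _ ≤ (N : ℝ) * (1 / N) := by
          refine mul_le_mul_of_nonneg_right ?_ (by positivity)
          have : ((T.image f).filter (fun m => ¬ m ≤ N)).card ≤ N :=
            ((card_filter_le _ _).trans card_image_le).trans hN
          exact_mod_cast this
      _ = 1 := by field_simp

section
variable {ι : Type*} (x : ι → ℝ) (E ε : ℝ)

theorem floor_inj (hε : 0 < ε) (S : Finset ι)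
    (hsep : ∀ k ∈ S, ∀ l ∈ S, k ≠ l → ε ≤ |x k - x l|) :
    Set.InjOn (fun k => ⌊(x k - E) / ε⌋) S := by
  intro k hk l hl hkl
  by_contra hne
  have h1 := hsep k hk l hl hne
  simp only at hkl
  have h2 := Int.abs_sub_lt_one_of_floor_eq_floor hkl
  have h3 : (x k - E) / ε - (x l - E) / ε = (x k - x l) / ε := by ring
  rw [h3, abs_div, abs_of_pos hε, div_lt_one hε] at h2
  linarith

theorem sum_inv_far (hε : 0 < ε) (S : Finset ι)
    (hsep : ∀ k ∈ S, ∀ l ∈ S, k ≠ l → ε ≤ |x k - x l|)
    (hfar : ∀ k ∈ S, ε / 2 < |x k - E|) (N : ℕ) (hN : S.card ≤ N) :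
    ∑ k ∈ S, 1 / |x k - E| ≤ (6 + 2 * (harmonic N : ℝ)) / ε := by
  classical
  set m : ι → ℤ := fun k => ⌊(x k - E) / ε⌋ with hm
  have hinj := floor_inj x E ε hε S hsep
  have hlow : ∀ k, (m k : ℝ) * ε ≤ x k - E := by
    intro k
    have := Int.floor_le ((x k - E) / ε)
    rwa [le_div_iff₀ hε] at this
  have hupp : ∀ k, x k - E < ((m k : ℝ) + 1) * ε := by
    intro k
    have := Int.lt_floor_add_one ((x k - E) / ε)
    rwa [div_lt_iff₀ hε] at this
  -- the four parts
  set A := S.filter (fun k => 1 ≤ m k) with hA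
  set B := S.filter (fun k => m k = 0) with hB
  set C := S.filter (fun k => m k = -1) with hC
  set D := S.filter (fun k => m k ≤ -2) with hD
  have hsplit : ∑ k ∈ S, 1 / |x k - E| ≤ ∑ k ∈ A, 1 / |x k - E| + ∑ k ∈ B, 1 / |x k - E| +
      ∑ k ∈ C, 1 / |x k - E| + ∑ k ∈ D, 1 / |x k - E| := by
    rw [hA, hB, hC, hD, sum_filter, sum_filter, sum_filter, sum_filter, ← sum_add_distrib,
      ← sum_add_distrib, ← sum_add_distrib]
    refine sum_le_sum fun k _ => ?_
    have h0 : 0 ≤ 1 / |x k - E| := by positivity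
    split_ifs <;> first | linarith | omega
  have hHN : (0 : ℝ) ≤ harmonic N := by
    rw [harmonic_eq_sum_Icc]; push_cast; positivity
  have hA' : ∑ k ∈ A, 1 / |x k - E| ≤ ((harmonic N : ℝ) + 1) / ε := by
    have h1 := inj_sum A (fun k => (m k).toNat) (by
      intro k hk l hl hkl
      rw [mem_coe, hA, mem_filter] at hk hl
      simp only at hkl
      refine hinj hk.1 hl.1 ?_
      change m k = m l
      omega) (by
      intro k hk
      rw [hA, mem_filter] at hk
      omega) N ((card_filter_le _ _).trans hN)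
    calc ∑ k ∈ A, 1 / |x k - E| ≤ ∑ k ∈ A, (1 / ((m k).toNat : ℝ)) * (1 / ε) := by
          refine sum_le_sum fun k hk => ?_
          rw [hA, mem_filter] at hk
          have h2 : (((m k).toNat : ℕ) : ℝ) = m k := by
            have : (((m k).toNat : ℕ) : ℤ) = m k := Int.toNat_of_nonneg (by omega)
            exact_mod_cast this
          have h3 : (1 : ℝ) ≤ m k := by exact_mod_cast hk.2
          rw [h2, one_div_mul_one_div]
          refine one_div_le_one_div_of_le (by positivity) ((hlow k).trans (le_abs_self _))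
      _ = (∑ k ∈ A, (1 / ((m k).toNat : ℝ))) * (1 / ε) := by rw [sum_mul]
      _ ≤ ((harmonic N : ℝ) + 1) * (1 / ε) := by gcongr
      _ = _ := by ring
  have hD' : ∑ k ∈ D, 1 / |x k - E| ≤ ((harmonic N : ℝ) + 1) / ε := by
    have h1 := inj_sum D (fun k => (-(m k) - 1).toNat) (by
      intro k hk l hl hkl
      rw [mem_coe, hD, mem_filter] at hk hl
      simp only at hkl
      refine hinj hk.1 hl.1 ?_
      change m k = m l
      omega) (by
      intro k hk
      rw [hD, mem_filter] at hk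
      omega) N ((card_filter_le _ _).trans hN)
    calc ∑ k ∈ D, 1 / |x k - E| ≤ ∑ k ∈ D, (1 / ((-(m k) - 1).toNat : ℝ)) * (1 / ε) := by
          refine sum_le_sum fun k hk => ?_
          rw [hD, mem_filter] at hk
          have h2 : (((-(m k) - 1).toNat : ℕ) : ℝ) = -(m k) - 1 := by
            have : (((-(m k) - 1).toNat : ℕ) : ℤ) = -(m k) - 1 := Int.toNat_of_nonneg (by omega)
            exact_mod_cast this
          have h3 : (m k : ℝ) ≤ -2 := by exact_mod_cast hk.2
          rw [h2, one_div_mul_one_div]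
          refine one_div_le_one_div_of_le (mul_pos (by linarith) hε) ?_
          have h4 := hupp k
          calc (-(m k : ℝ) - 1) * ε = -(((m k : ℝ) + 1) * ε) := by ring
            _ ≤ -(x k - E) := by linarith
            _ ≤ |x k - E| := neg_le_abs _
      _ = (∑ k ∈ D, (1 / ((-(m k) - 1).toNat : ℝ))) * (1 / ε) := by rw [sum_mul]
      _ ≤ ((harmonic N : ℝ) + 1) * (1 / ε) := by gcongr
      _ = _ := by ring
  have hone : ∀ (c : ℤ) (T : Finset ι), T ⊆ S → (∀ k ∈ T, m k = c) →
      ∑ k ∈ T, 1 / |x k - E| ≤ 2 / ε := by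
    intro c T hTS hT
    have h1 : T.card ≤ 1 := card_le_one.2 fun k hk l hl =>
      hinj (hTS hk) (hTS hl) ((hT k hk).trans (hT l hl).symm)
    calc ∑ k ∈ T, 1 / |x k - E| ≤ ∑ k ∈ T, 2 / ε := by
          refine sum_le_sum fun k hk => ?_
          have h2 := hfar k (hTS hk)
          have h3 : 2 / ε = 1 / (ε / 2) := by field_simp
          rw [h3]
          exact one_div_le_one_div_of_le (by positivity) h2.le
      _ = (T.card : ℝ) * (2 / ε) := by rw [sum_const, nsmul_eq_mul]
      _ ≤ 1 * (2 / ε) := by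
          refine mul_le_mul_of_nonneg_right ?_ (by positivity)
          exact_mod_cast h1
      _ = 2 / ε := one_mul _
  have hB' := hone 0 B (filter_subset _ _) fun k hk => (mem_filter.1 hk).2
  have hC' := hone (-1) C (filter_subset _ _) fun k hk => (mem_filter.1 hk).2
  calc ∑ k ∈ S, 1 / |x k - E| ≤ _ := hsplit
    _ ≤ ((harmonic N : ℝ) + 1) / ε + 2 / ε + 2 / ε + ((harmonic N : ℝ) + 1) / ε := by linarith
    _ = _ := by ring

theorem near_card (hε : 0 < ε) (S : Finset ι)
    (hsep : ∀ k ∈ S, ∀ l ∈ S, k ≠ l → ε ≤ |x k - x l|)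
    (hnear : ∀ k ∈ S, |x k - E| ≤ ε / 2) : S.card ≤ 2 := by
  classical
  have hinj := floor_inj x E ε hε S hsep
  have h1 : S.card = (S.image (fun k => ⌊(x k - E) / ε⌋)).card := (card_image_of_injOn hinj).symm
  have h2 : S.image (fun k => ⌊(x k - E) / ε⌋) ⊆ {-1, 0} := by
    intro z hz
    rw [mem_image] at hz
    obtain ⟨k, hk, rfl⟩ := hz
    have h3 := abs_le.1 (hnear k hk)
    have h4 : -1 ≤ ⌊(x k - E) / ε⌋ := by
      rw [Int.le_floor, le_div_iff₀ hε]
      push_cast
      linarith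
    have h5 : ⌊(x k - E) / ε⌋ < 1 := by
      rw [Int.floor_lt, div_lt_iff₀ hε]
      push_cast
      linarith
    rw [mem_insert, mem_singleton]
    omega
  rw [h1]
  exact (card_le_card h2).trans (card_le_two)

theorem all_card (hε : 0 < ε) (hε1 : ε ≤ 1 / 2) (S : Finset ι)
    (hsep : ∀ k ∈ S, ∀ l ∈ S, k ≠ l → ε ≤ |x k - x l|)
    (hx : ∀ k ∈ S, |x k| ≤ 5) : (S.card : ℝ) ≤ 11 / ε := by
  classical
  have hinj := floor_inj x 0 ε hε S hsep
  have h1 : S.card = (S.image (fun k => ⌊(x k - 0) / ε⌋)).card := (card_image_of_injOn hinj).symm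
  have h2 : S.image (fun k => ⌊(x k - 0) / ε⌋) ⊆ Icc ⌊-5 / ε⌋ ⌊5 / ε⌋ := by
    intro z hz
    rw [mem_image] at hz
    obtain ⟨k, hk, rfl⟩ := hz
    have h3 := abs_le.1 (hx k hk)
    rw [mem_Icc, sub_zero]
    exact ⟨Int.floor_le_floor (by gcongr; exact h3.1), Int.floor_le_floor (by gcongr; exact h3.2)⟩
  have h3 := card_le_card h2
  rw [← h1, Int.card_Icc] at h3
  have h4 : (S.card : ℤ) ≤ ⌊5 / ε⌋ + 1 - ⌊-5 / ε⌋ := by
    have : ⌊-5 / ε⌋ ≤ ⌊5 / ε⌋ := Int.floor_le_floor (by gcongr; norm_num)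
    omega
  have h5 : (S.card : ℝ) ≤ ⌊5 / ε⌋ + 1 - ⌊-5 / ε⌋ := by exact_mod_cast h4
  have h6 := Int.floor_le (5 / ε)
  have h7 := Int.lt_floor_add_one (-5 / ε)
  have h8 : 2 ≤ 1 / ε := by rw [le_div_iff₀ hε]; linarith
  have h9 : 11 / ε = 5 / ε - -5 / ε + 1 / ε := by ring
  rw [h9]
  linarith

end

theorem pieceD (β : ℝ) (q : ℕ) (hq : 2 ≤ q)
    (hprod : (q : ℝ) / 2 ≤ ∏ i ∈ range (q - 1), |2 * sn β (i + 1)|)
    (ε η : ℝ) (hε : 0 < ε) (hε1 : ε ≤ 1 / 2) (hη : 0 < η) {ι : Type} [Fintype ι] (x : ι → ℝ)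
    (hx : ∀ k, |x k| ≤ 5) (hsep : ∀ k l, k ≠ l → ε ≤ |x k - x l|)
    (hsm : ∀ k, |pp β (x k) q| ≤ η) :
    (Fintype.card ι : ℝ) ≤ 4 * q + 100 * η / (q * ε) * Real.log (1 / ε) := by
  classical
  have hq0 : (0 : ℝ) < q := by exact_mod_cast (by omega : 0 < q)
  have hprod' : (q : ℝ) / 2 ≤ |AJ β (q - 1)| := by
    unfold AJ aj
    rw [abs_prod]
    push_cast
    exact hprod
  have hne : ∀ i : ℕ, 1 ≤ i → i < q → aj β i ≠ 0 := by
    intro i h1 h2 h0
    have h3 : AJ β (q - 1) = 0 := by
      unfold AJ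
      refine prod_eq_zero (i := i - 1) (mem_range.2 (by omega)) ?_
      rw [show i - 1 + 1 = i by omega, h0]
    rw [h3, abs_zero] at hprod'
    linarith
  obtain ⟨Ev, cw, hcw0, hcw1, hres⟩ := resolvent β q hq hne
  set F := (univ : Finset ι).filter (fun k => ∀ j, ε / 2 < |x k - Ev j|) with hF
  set G := (univ : Finset ι).filter (fun k => ¬ ∀ j, ε / 2 < |x k - Ev j|) with hG
  have hcard : (Fintype.card ι : ℝ) = (F.card : ℝ) + (G.card : ℝ) := by
    have := card_filter_add_card_filter_not (s := (univ : Finset ι))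
      (fun k => ∀ j, ε / 2 < |x k - Ev j|)
    rw [card_univ] at this
    exact_mod_cast this.symm
  -- near points
  have hGc : (G.card : ℝ) ≤ 2 * q := by
    have h1 : G ⊆ (univ : Finset (Fin q)).biUnion
        (fun j => (univ : Finset ι).filter (fun k => |x k - Ev j| ≤ ε / 2)) := by
      intro k hk
      rw [hG, mem_filter] at hk
      have := hk.2
      push Not at this
      obtain ⟨j, hj⟩ := this
      exact mem_biUnion.2 ⟨j, mem_univ _, mem_filter.2 ⟨mem_univ _, hj⟩⟩
    have h2 := (card_le_card h1).trans (card_biUnion_le_card_mul _ _ 2 fun j _ =>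
      near_card x (Ev j) ε hε _ (fun k _ l _ => hsep k l) fun k hk => (mem_filter.1 hk).2)
    rw [card_univ, Fintype.card_fin] at h2
    have h3 : (G.card : ℝ) ≤ (q : ℝ) * 2 := by exact_mod_cast h2
    linarith
  -- far points
  set l := Real.log (1 / ε) with hl
  have h2ε : 2 ≤ 1 / ε := by rw [le_div_iff₀ hε]; linarith
  have hl2 : Real.log 2 ≤ l := Real.log_le_log (by norm_num) h2ε
  have hlog2 := Real.log_two_gt_d9
  have hl0 : 0 < l := by linarith
  set N := ⌊11 / ε⌋₊ with hN
  have hFN : F.card ≤ N := by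
    rw [hN, Nat.le_floor_iff (by positivity)]
    exact all_card x ε hε hε1 F (fun k _ l _ => hsep k l) fun k _ => hx k
  have hH : (harmonic N : ℝ) ≤ 6.5 * l := by
    have h1 := harmonic_le_one_add_log N
    have h11 : (1 : ℝ) ≤ 11 / ε := by rw [le_div_iff₀ hε]; linarith
    have hN1 : 1 ≤ N := by
      rw [hN, Nat.le_floor_iff (by positivity)]
      exact_mod_cast h11
    have h2 : Real.log N ≤ Real.log (11 / ε) :=
      Real.log_le_log (by exact_mod_cast hN1) (Nat.floor_le (by positivity))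
    have h3 : Real.log (11 / ε) = Real.log 11 + l := by
      rw [hl, ← Real.log_mul (by norm_num) (by positivity)]
      congr 1
      ring
    have h4 : Real.log 11 ≤ 4 * Real.log 2 := by
      have : Real.log 11 ≤ Real.log (2 ^ 4) := Real.log_le_log (by norm_num) (by norm_num)
      rwa [Real.log_pow] at this
    linarith
  have hsumF : (F.card : ℝ) * |AJ β (q - 1)| ≤ η * ((6 + 2 * (harmonic N : ℝ)) / ε) := by
    calc (F.card : ℝ) * |AJ β (q - 1)| = ∑ k ∈ F, |AJ β (q - 1)| := by
          rw [sum_const, nsmul_eq_mul]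
      _ ≤ ∑ k ∈ F, η * ∑ j, cw j / |x k - Ev j| := by
          refine sum_le_sum fun k hk => ?_
          rw [hF, mem_filter] at hk
          have h1 := hres (x k) fun j h => by
            have := hk.2 j
            rw [h, sub_self, abs_zero] at this
            linarith
          refine h1.trans (mul_le_mul_of_nonneg_right (hsm k) ?_)
          exact sum_nonneg fun j _ => div_nonneg (hcw0 j) (abs_nonneg _)
      _ = η * ∑ j, cw j * ∑ k ∈ F, 1 / |x k - Ev j| := by
          rw [← mul_sum, sum_comm]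
          congr 1
          refine sum_congr rfl fun j _ => ?_
          rw [mul_sum]
          exact sum_congr rfl fun k _ => by ring
      _ ≤ η * ∑ j, cw j * ((6 + 2 * (harmonic N : ℝ)) / ε) := by
          refine mul_le_mul_of_nonneg_left (sum_le_sum fun j _ => ?_) hη.le
          refine mul_le_mul_of_nonneg_left ?_ (hcw0 j)
          exact sum_inv_far x (Ev j) ε hε F (fun k _ l _ => hsep k l)
            (fun k hk => (mem_filter.1 hk).2 j) N hFN
      _ = η * ((∑ j, cw j) * ((6 + 2 * (harmonic N : ℝ)) / ε)) := by rw [sum_mul]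
      _ ≤ η * (1 * ((6 + 2 * (harmonic N : ℝ)) / ε)) := by
          have hH0 : (0 : ℝ) ≤ harmonic N := by
            rw [harmonic_eq_sum_Icc]; push_cast; positivity
          gcongr
      _ = _ := by rw [one_mul]
  have hF1 : (F.card : ℝ) * (q / 2) ≤ η * (22 * l / ε) := by
    calc (F.card : ℝ) * (q / 2) ≤ (F.card : ℝ) * |AJ β (q - 1)| := by gcongr
      _ ≤ _ := hsumF
      _ ≤ η * (22 * l / ε) := by
        gcongr
        linarith
  have hF2 : (F.card : ℝ) ≤ 100 * η / (q * ε) * l := by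
    have h1 : (F.card : ℝ) ≤ η * (22 * l / ε) / (q / 2) := by
      rw [le_div_iff₀ (by positivity)]
      exact hF1
    refine h1.trans ?_
    have h2 : η * (22 * l / ε) / (q / 2) = 44 * (η * l / (q * ε)) := by
      field_simp
      ring
    have h3 : 100 * η / (q * ε) * l = 100 * (η * l / (q * ε)) := by ring
    rw [h2, h3]
    have h4 : 0 ≤ η * l / (q * ε) := by positivity
    linarith
  rw [hcard]
  linarith

end Run7.h506.AMO
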