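import Pool.Agent.Run7.h608.Basic

/-!
Piece D of the almost Mathieu project (helper608, MP_29bb0a_mp), part 1: the resolvent of the
Jacobi matrix.
-/

set_option autoImplicit false

namespace Run7.h506.AMO

open Finset Run7.h608 Matrix

/-- off-diagonal entries -/
noncomputable def aj (β : ℝ) (n : ℕ) : ℝ := 2 * sn β n

/-- products of the off-diagonal entries -/
noncomputable def AJ (β : ℝ) (n : ℕ) : ℝ := ∏ i ∈ range n, aj β (i + 1)

/-- the Jacobi matrix -/
noncomputable def JJ (β : ℝ) (q : ℕ) : Matrix (Fin q) (Fin q) ℝ :=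
  Matrix.of fun i k => (if (i : ℕ) + 1 = k then aj β k else 0) + (if (k : ℕ) + 1 = i then aj β i else 0)

theorem JJ_herm (β : ℝ) (q : ℕ) : (JJ β q).IsHermitian := by
  ext i k
  simp only [JJ, Matrix.conjTranspose_apply, Matrix.of_apply, star_trivial]
  rw [add_comm]

/-- the solution -/
noncomputable def UU (β E : ℝ) (n : ℕ) : ℝ := pp β E n / AJ β n

theorem AJ_succ (β : ℝ) (n : ℕ) : AJ β (n + 1) = AJ β n * aj β (n + 1) := by
  unfold AJ; rw [prod_range_succ]

theorem AJ_ne {β : ℝ} {q : ℕ} (h : ∀ i : ℕ, 1 ≤ i → i < q → aj β i ≠ 0) (n : ℕ) (hn : n < q) :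
    AJ β n ≠ 0 := by
  unfold AJ
  rw [prod_ne_zero_iff]
  intro i hi
  rw [mem_range] at hi
  exact h _ (by omega) (by omega)

theorem JJ_mulVec (β E : ℝ) (q : ℕ) (hq : 2 ≤ q) (h : ∀ i : ℕ, 1 ≤ i → i < q → aj β i ≠ 0)
    (i : Fin q) :
    E * UU β E i - (JJ β q *ᵥ fun k : Fin q => UU β E k) i =
      if (i : ℕ) = q - 1 then pp β E q / AJ β (q - 1) else 0 := by
  have h1 : (JJ β q *ᵥ fun k : Fin q => UU β E k) i =
      (if (i : ℕ) + 1 < q then aj β (i + 1) * UU β E (i + 1) else 0) +
        (if 1 ≤ (i : ℕ) then aj β i * UU β E (i - 1) else 0) := by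
    simp only [Matrix.mulVec, dotProduct, JJ, Matrix.of_apply, add_mul, sum_add_distrib]
    congr 1
    · have e := Fin.sum_univ_eq_sum_range (fun k : ℕ =>
        (if (i : ℕ) + 1 = k then aj β k else 0) * UU β E k) q
      rw [e]
      simp only [ite_mul, zero_mul]
      rw [sum_ite_eq]
      simp only [mem_range]
    · have e := Fin.sum_univ_eq_sum_range (fun k : ℕ =>
        (if k + 1 = (i : ℕ) then aj β i else 0) * UU β E k) q
      rw [e]
      split_ifs with hi
      · have h2 : ∀ k ∈ range q, (if k + 1 = (i : ℕ) then aj β i else 0) * UU β E k =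
            if (i : ℕ) - 1 = k then aj β i * UU β E k else 0 := by
          intro k _
          by_cases h3 : k + 1 = (i : ℕ)
          · rw [if_pos h3, if_pos (by omega)]
          · rw [if_neg h3, if_neg (by omega), zero_mul]
        rw [sum_congr rfl h2, sum_ite_eq, if_pos]
        rw [mem_range]
        have := i.2
        omega
      · refine sum_eq_zero fun k _ => ?_
        rw [if_neg (by omega), zero_mul]
  rw [h1]
  have hA : AJ β i ≠ 0 := AJ_ne h i i.2
  obtain ⟨n, hn⟩ := i
  simp only at *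
  -- first term
  have e1 : n + 1 < q → aj β (n + 1 : ℕ) * UU β E (n + 1) = pp β E (n + 1) / AJ β n := by
    intro hn1
    have := h (n + 1) (by omega) hn1
    unfold UU
    rw [AJ_succ]
    field_simp
  have e2 : ∀ m : ℕ, n = m + 1 → aj β n * UU β E m = aj β n ^ 2 * pp β E m / AJ β n := by
    intro m hm
    subst hm
    have h3 := h (m + 1) (by omega) (by omega)
    have h4 := AJ_ne h m (by omega)
    unfold UU
    rw [AJ_succ]
    field_simp
  rcases n with _ | m
  · -- `n = 0`
    rw [if_pos (by omega), if_neg (by omega), if_neg (by omega)]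
    have := e1 (by omega)
    rw [show ((0 : ℕ) + 1 : ℕ) = 1 from rfl] at this
    push_cast at this ⊢
    rw [this]
    simp [UU, pp, AJ]
  · have hr : pp β E (m + 2) = E * pp β E (m + 1) - 4 * sn β (m + 1) ^ 2 * pp β E m := rfl
    have e3 : 4 * sn β ((m : ℝ) + 1) ^ 2 = aj β (m + 1 : ℕ) ^ 2 := by
      unfold aj; push_cast; ring
    rw [e3] at hr
    rw [if_pos (by omega : 1 ≤ m + 1)]
    have h5 : m + 1 - 1 = m := by omega
    rw [h5, e2 m rfl]
    by_cases hlast : m + 1 = q - 1
    · rw [if_neg (by omega), if_pos hlast, ← hlast]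
      have hq2 : q = m + 2 := by omega
      rw [hq2, hr, zero_add]
      unfold UU
      ring
    · rw [if_pos (by omega), if_neg hlast]
      have := e1 (by omega)
      push_cast at this ⊢
      rw [this]
      have e4 : pp β E (m + 1 + 1) = pp β E (m + 2) := rfl
      rw [e4, hr]
      unfold UU
      push_cast
      field_simp
      ring

/-- the resolvent identity -/
theorem resolvent (β : ℝ) (q : ℕ) (hq : 2 ≤ q) (h : ∀ i : ℕ, 1 ≤ i → i < q → aj β i ≠ 0) :
    ∃ (Ev cw : Fin q → ℝ), (∀ j, 0 ≤ cw j) ∧ ∑ j, cw j ≤ 1 ∧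
      ∀ E : ℝ, (∀ j, E ≠ Ev j) → |AJ β (q - 1)| ≤ |pp β E q| * ∑ j, cw j / |E - Ev j| := by
  set hJ := JJ_herm β q
  set b := hJ.eigenvectorBasis with hb
  let i0 : Fin q := ⟨0, by omega⟩
  let i1 : Fin q := ⟨q - 1, by omega⟩
  have hinner : ∀ (j : Fin q) (x : EuclideanSpace ℝ (Fin q)), inner ℝ (b j) x = ∑ i, b j i * x i := by
    intro j x
    simp only [PiLp.inner_apply, RCLike.inner_apply, conj_trivial]
    exact sum_congr rfl fun i _ => mul_comm _ _
  have hunit : ∀ i : Fin q, ∑ j, b j i ^ 2 = 1 := by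
    intro i
    have h1 := b.sum_sq_norm_inner_right (EuclideanSpace.single i (1 : ℝ))
    rw [PiLp.norm_single, norm_one, one_pow] at h1
    rw [← h1]
    refine sum_congr rfl fun j _ => ?_
    rw [EuclideanSpace.inner_single_right]
    simp
  refine ⟨hJ.eigenvalues, fun j => |b j i0 * b j i1|, fun j => abs_nonneg _, ?_, ?_⟩
  · have h1 : ∀ j ∈ univ, |b j i0 * b j i1| ≤ (b j i0 ^ 2 + b j i1 ^ 2) / 2 := by
      intro j _
      rw [abs_le]
      constructor <;> nlinarith [sq_nonneg (b j i0 + b j i1), sq_nonneg (b j i0 - b j i1)]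
    calc ∑ j, |b j i0 * b j i1| ≤ ∑ j, (b j i0 ^ 2 + b j i1 ^ 2) / 2 := sum_le_sum h1
      _ = (∑ j, b j i0 ^ 2 + ∑ j, b j i1 ^ 2) / 2 := by rw [← sum_add_distrib, sum_div]
      _ = 1 := by rw [hunit, hunit]; norm_num
  · intro E hE
    set u : EuclideanSpace ℝ (Fin q) := WithLp.toLp 2 (fun k : Fin q => UU β E k) with hu
    have hu0 : u i0 = 1 := by simp [hu, i0, UU, pp, AJ]
    set P := pp β E q / AJ β (q - 1) with hP
    -- coefficients
    have hcoef : ∀ j, (E - hJ.eigenvalues j) * inner ℝ (b j) u = P * b j i1 := by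
      intro j
      have hev := hJ.mulVec_eigenvectorBasis j
      rw [← hb] at hev
      rw [hinner]
      have h1 : ∑ i, b j i * (E * u i - (JJ β q *ᵥ fun k : Fin q => UU β E k) i) = P * b j i1 := by
        have h2 : ∀ i : Fin q, E * u i - (JJ β q *ᵥ fun k : Fin q => UU β E k) i =
            if i1 = i then P else 0 := by
          intro i
          have h3 := JJ_mulVec β E q hq h i
          have h4 : u i = UU β E i := rfl
          rw [h4, h3]
          by_cases h5 : (i : ℕ) = q - 1
          · rw [if_pos h5, if_pos (Fin.ext h5.symm)]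
          · rw [if_neg h5, if_neg fun h6 => h5 (by rw [← h6])]
        simp only [h2, mul_ite, mul_zero]
        rw [sum_ite_eq, if_pos (mem_univ _), mul_comm]
      have h3 : ∑ i, b j i * (JJ β q *ᵥ fun k : Fin q => UU β E k) i =
          hJ.eigenvalues j * ∑ i, b j i * u i := by
        have h4 : ∑ i, b j i * (JJ β q *ᵥ fun k : Fin q => UU β E k) i =
            (⇑(b j)) ⬝ᵥ (JJ β q *ᵥ fun k : Fin q => UU β E k) := rfl
        rw [h4, Matrix.dotProduct_mulVec, ← Matrix.mulVec_transpose]
        have h5 : (JJ β q)ᵀ = JJ β q := by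
          have := hJ.eq
          rwa [Matrix.conjTranspose_eq_transpose_of_trivial] at this
        rw [h5, hev, smul_dotProduct, smul_eq_mul]
        rfl
      rw [← h1]
      simp only [mul_sub, sum_sub_distrib]
      rw [h3, sub_mul, mul_sum]
      congr 1
      exact sum_congr rfl fun i _ => by ring
    have hrepr := b.sum_repr' u
    have h0 : ∑ j, inner ℝ (b j) u * b j i0 = 1 := by
      rw [← hu0]
      conv_rhs => rw [← hrepr]
      simp
    have hval : ∀ j, inner ℝ (b j) u = P * b j i1 / (E - hJ.eigenvalues j) := by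
      intro j
      have h1 : E - hJ.eigenvalues j ≠ 0 := sub_ne_zero.2 (hE j)
      rw [eq_div_iff h1, mul_comm, hcoef]
    have hAne : AJ β (q - 1) ≠ 0 := AJ_ne h _ (by omega)
    have h1 : (1 : ℝ) ≤ |P| * ∑ j, |b j i0 * b j i1| / |E - hJ.eigenvalues j| := by
      calc (1 : ℝ) = |∑ j, inner ℝ (b j) u * b j i0| := by rw [h0, abs_one]
        _ ≤ ∑ j, |inner ℝ (b j) u * b j i0| := abs_sum_le_sum_abs _ _
        _ = |P| * ∑ j, |b j i0 * b j i1| / |E - hJ.eigenvalues j| := by
          rw [mul_sum]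
          refine sum_congr rfl fun j _ => ?_
          rw [hval, ← abs_div, ← abs_mul]
          congr 1
          ring
    rw [hP, abs_div, div_mul_eq_mul_div, le_div_iff₀ (abs_pos.2 hAne), one_mul] at h1
    exact h1

end Run7.h506.AMO
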