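import Pool.Agent.Run7.h506.AMO_E1

/-!
Piece E of the almost Mathieu project (helper608, MP_29bb0a_mp).
-/

set_option autoImplicit false

namespace Run7.h506.AMO

open Finset Run7.h608 Matrix

/-- approximate eigenvectors with finite support, phase `θ` -/
def AppEig (α θ E : ℝ) : Prop :=
  ∀ ε : ℝ, 0 < ε → ∃ (M : ℕ) (ψ : ℤ → ℂ), (∀ n : ℤ, (M : ℤ) < |n| → ψ n = 0) ∧ (∃ n, ψ n ≠ 0) ∧
    ∑ n ∈ Icc (-(M : ℤ) - 1) ((M : ℤ) + 1),
      ‖ψ (n + 1) + ψ (n - 1) + ((2 * Real.cos (2 * Real.pi * (n * α + θ)) - E : ℝ) : ℂ) * ψ n‖ ^ 2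
      < ε ^ 2 * ∑ n ∈ Icc (-(M : ℤ)) (M : ℤ), ‖ψ n‖ ^ 2

/-- the periodic potential -/
noncomputable def vper (N : ℕ) (P : ℤ) (x : ZMod N) : ℝ :=
  2 * Real.cos (2 * Real.pi * (x.val * ((P : ℝ) / N)))

/-- the periodic matrix -/
noncomputable def HN (N : ℕ) (P : ℤ) : Matrix (ZMod N) (ZMod N) ℂ :=
  Matrix.of fun x y => (if y = x + 1 then 1 else 0) + (if y = x - 1 then 1 else 0) +
    (if y = x then (vper N P x : ℂ) else 0)

theorem HN_herm (N : ℕ) (P : ℤ) : (HN N P).IsHermitian := by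
  ext x y
  simp only [HN, Matrix.conjTranspose_apply, Matrix.of_apply, star_add]
  have e1 : (x = y + 1) ↔ (y = x - 1) := by
    constructor
    · rintro rfl; ring
    · rintro rfl; ring
  have e2 : (x = y - 1) ↔ (y = x + 1) := by
    constructor
    · rintro rfl; ring
    · rintro rfl; ring
  have e3 : (x = y) ↔ (y = x) := eq_comm
  simp only [e1, e2, e3]
  by_cases h : y = x
  · subst h
    simp only [if_true, RCLike.star_def, Complex.conj_ofReal]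
    split_ifs <;> simp
  · simp only [if_neg h]
    split_ifs <;> simp

theorem HN_mulVec (N : ℕ) [NeZero N] (P : ℤ) (u : ZMod N → ℂ) (x : ZMod N) :
    (HN N P *ᵥ u) x = u (x + 1) + u (x - 1) + (vper N P x : ℂ) * u x := by
  simp only [Matrix.mulVec, dotProduct, HN, Matrix.of_apply, add_mul, sum_add_distrib, ite_mul,
    one_mul, zero_mul, sum_ite_eq', mem_univ, if_true]

/-- the potential only depends on the residue -/
theorem vper_eq (N : ℕ) [NeZero N] (P m : ℤ) : vper N P (m : ZMod N) = pot ((P : ℝ) / N) m := by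
  unfold vper pot
  have hN : (N : ℝ) ≠ 0 := by exact_mod_cast NeZero.ne N
  have h1 : (((m : ZMod N).val : ℤ) : ZMod N) = ((m : ℤ) : ZMod N) := by
    rw [Int.cast_natCast, ZMod.natCast_zmod_val]
  rw [ZMod.intCast_eq_intCast_iff_dvd_sub] at h1
  obtain ⟨c, hc⟩ := h1
  have h2 : (m : ℝ) = ((m : ZMod N).val : ℝ) + N * c := by
    have : m = ((m : ZMod N).val : ℤ) + N * c := by linarith
    have h3 : (m : ℝ) = ((((m : ZMod N).val : ℤ) + N * c : ℤ) : ℝ) := by rw [← this]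
    rw [h3]; push_cast; ring
  rw [h2]
  have h3 : 2 * Real.pi * ((((m : ZMod N).val : ℝ) + N * c) * ((P : ℝ) / N)) =
      2 * Real.pi * (((m : ZMod N).val : ℝ) * ((P : ℝ) / N)) + (c * P : ℤ) * (2 * Real.pi) := by
    push_cast
    field_simp
  rw [h3, Real.cos_add_int_mul_two_pi]

/-- eigenvectors of the matrix are periodic solutions -/
theorem HH_of_HN (N : ℕ) [NeZero N] (P : ℤ) (u : ZMod N → ℂ) (E : ℝ)
    (h : HN N P *ᵥ u = (E : ℂ) • u) :
    HH ((P : ℝ) / N) (fun m : ℤ => u (m : ZMod N)) = (E : ℂ) • fun m : ℤ => u (m : ZMod N) := by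
  funext m
  rw [HH_apply, Pi.smul_apply, ← vper_eq]
  have h1 := congrFun h (m : ZMod N)
  rw [HN_mulVec, Pi.smul_apply] at h1
  rw [← h1]
  push_cast
  rfl

section transplant

variable (N : ℕ) [NeZero N] (k : ℤ) (M : ℕ)

/-- representative of `x - k` in `[-(M+2), N-(M+2))` -/
def rr (x : ZMod N) : ℤ := ((x - k + ((M + 2 : ℕ) : ZMod N)).val : ℤ) - (M + 2)

theorem rr_cast (x : ZMod N) : ((rr N k M x : ℤ) : ZMod N) = x - k := by
  unfold rr
  push_cast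
  rw [ZMod.natCast_zmod_val]
  ring

omit [NeZero N] in
theorem rr_lo (x : ZMod N) : -((M : ℤ) + 2) ≤ rr N k M x := by
  unfold rr; omega

theorem rr_hi (x : ZMod N) : rr N k M x < N - ((M : ℤ) + 2) := by
  unfold rr
  have := ZMod.val_lt (x - (k : ZMod N) + ((M + 2 : ℕ) : ZMod N))
  omega

theorem rr_uniq (x : ZMod N) (n : ℤ) (h1 : -((M : ℤ) + 2) ≤ n) (h2 : n < N - ((M : ℤ) + 2))
    (h3 : (n : ZMod N) = x - k) : rr N k M x = n := by
  have h4 := rr_cast N k M x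
  rw [← h3, ZMod.intCast_eq_intCast_iff_dvd_sub] at h4
  have h5 := rr_lo N k M x
  have h6 := rr_hi N k M x
  obtain ⟨c, hc⟩ := h4
  have hN : (0 : ℤ) < N := by exact_mod_cast Nat.pos_of_ne_zero (NeZero.ne N)
  have h7 : c = 0 := by
    have h8 : (N : ℤ) * c < N * 1 := by rw [← hc]; omega
    have h9 : (N : ℤ) * (-1) < N * c := by rw [← hc]; omega
    have := lt_of_mul_lt_mul_left h8 hN.le
    have := lt_of_mul_lt_mul_left h9 hN.le
    omega
  rw [h7] at hc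
  omega

variable {ψ : ℤ → ℂ}

theorem rr_succ (hN : 2 * M + 5 ≤ N) (hψ : ∀ n : ℤ, (M : ℤ) < |n| → ψ n = 0) (x : ZMod N) :
    ψ (rr N k M (x + 1)) = ψ (rr N k M x + 1) := by
  have h1 := rr_lo N k M x
  have h2 := rr_hi N k M x
  have h3 := rr_cast N k M x
  by_cases h : rr N k M x + 1 < N - ((M : ℤ) + 2)
  · rw [rr_uniq N k M (x + 1) (rr N k M x + 1) (by omega) h (by push_cast; rw [h3]; ring)]
  · have h4 : rr N k M x + 1 = N - ((M : ℤ) + 2) := by omega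
    have h5 : rr N k M (x + 1) = -((M : ℤ) + 2) := by
      refine rr_uniq N k M (x + 1) _ le_rfl (by omega) ?_
      have h6 : ((rr N k M x + 1 : ℤ) : ZMod N) = ((N - ((M : ℤ) + 2) : ℤ) : ZMod N) := by rw [h4]
      push_cast at h6 ⊢
      rw [h3, ZMod.natCast_self] at h6
      rw [zero_sub] at h6
      rw [← h6]; ring
    rw [h4, h5, hψ _ (by rw [abs_neg, abs_of_nonneg (by omega)]; omega),
      hψ _ (by rw [abs_of_nonneg (by omega)]; omega)]

theorem rr_pred (hN : 2 * M + 5 ≤ N) (hψ : ∀ n : ℤ, (M : ℤ) < |n| → ψ n = 0) (x : ZMod N) :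
    ψ (rr N k M (x - 1)) = ψ (rr N k M x - 1) := by
  have h1 := rr_lo N k M x
  have h2 := rr_hi N k M x
  have h3 := rr_cast N k M x
  by_cases h : -((M : ℤ) + 2) ≤ rr N k M x - 1
  · rw [rr_uniq N k M (x - 1) (rr N k M x - 1) h (by omega) (by push_cast; rw [h3]; ring)]
  · have h4 : rr N k M x = -((M : ℤ) + 2) := by omega
    have h5 : rr N k M (x - 1) = N - ((M : ℤ) + 2) - 1 := by
      refine rr_uniq N k M (x - 1) _ (by omega) (by omega) ?_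
      have h6 : ((rr N k M x : ℤ) : ZMod N) = ((-((M : ℤ) + 2) : ℤ) : ZMod N) := by rw [h4]
      push_cast at h6 ⊢
      rw [h3] at h6
      rw [ZMod.natCast_self]
      have h7 : x - 1 - (k : ZMod N) = (x - k) - 1 := by ring
      rw [h7, h6]; ring
    rw [h4, h5, hψ _ (by rw [abs_of_nonneg (by omega)]; omega),
      hψ _ (by rw [abs_of_neg (by omega)]; omega)]

theorem rr_sum (g : ℤ → ℝ) :
    ∑ x : ZMod N, g (rr N k M x) = ∑ n ∈ Ico (-((M : ℤ) + 2)) (N - ((M : ℤ) + 2)), g n := by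
  refine sum_bij (fun x _ => rr N k M x) ?_ ?_ ?_ ?_
  · intro x _
    rw [mem_Ico]
    exact ⟨rr_lo N k M x, rr_hi N k M x⟩
  · intro x _ y _ h
    have h1 := rr_cast N k M x
    have h2 := rr_cast N k M y
    rw [h, h2] at h1
    exact (sub_left_injective h1).symm
  · intro n hn
    rw [mem_Ico] at hn
    refine ⟨((n + k : ℤ) : ZMod N), mem_univ _, ?_⟩
    exact rr_uniq N k M _ n hn.1 hn.2 (by push_cast; ring)
  · intro x _
    rfl

theorem rr_sum' (hN : 2 * M + 5 ≤ N) (g : ℤ → ℝ) (R : ℕ) (hR : R ≤ M + 1)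
    (hg : ∀ n : ℤ, (R : ℤ) < |n| → g n = 0) :
    ∑ x : ZMod N, g (rr N k M x) = ∑ n ∈ Icc (-(R : ℤ)) R, g n := by
  rw [rr_sum]
  symm
  refine sum_subset ?_ ?_
  · intro n hn
    rw [mem_Icc] at hn
    rw [mem_Ico]
    omega
  · intro n _ hn
    apply hg
    rw [mem_Icc] at hn
    by_contra h
    push Not at h
    rw [abs_le] at h
    exact hn h

end transplant

theorem step (α θ E ρ : ℝ) (hρ : 0 < ρ) (M : ℕ) (ψ : ℤ → ℂ)
    (hψ : ∀ n : ℤ, (M : ℤ) < |n| → ψ n = 0)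
    (happ : ∑ n ∈ Icc (-(M : ℤ) - 1) ((M : ℤ) + 1),
      ‖ψ (n + 1) + ψ (n - 1) + ((2 * Real.cos (2 * Real.pi * (n * α + θ)) - E : ℝ) : ℂ) * ψ n‖ ^ 2
      < (ρ / 2) ^ 2 * ∑ n ∈ Icc (-(M : ℤ)) (M : ℤ), ‖ψ n‖ ^ 2)
    (N : ℕ) (P : ℤ) (hN : 2 * M + 5 ≤ N) (hN2 : 8 * Real.pi * (2 * M + 1) ≤ ρ * N)
    (hcop : IsCoprime P (N : ℤ)) (hPN : |(P : ℝ) / N - α| ≤ 2 / N) :
    ∃ (E' : ℝ) (ψ : ℤ → ℂ), |E' - E| < ρ ∧ (∃ n, ψ n ≠ 0) ∧
        (∀ n, ψ (n + N) = ψ n) ∧ HH ((P : ℝ) / N) ψ = (E' : ℂ) • ψ := by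
  have : NeZero N := ⟨by omega⟩
  have hN0 : (0 : ℝ) < N := by
    have : 0 < N := by omega
    exact_mod_cast this
  obtain ⟨a, b, hab⟩ := hcop
  set j : ℤ := ⌊θ * N⌋ with hj
  set k : ℤ := j * a with hk
  have hj1 : |(j : ℝ) / N - θ| ≤ 1 / N := by
    have h1 : (j : ℝ) ≤ θ * N := Int.floor_le _
    have h2 : θ * N < j + 1 := Int.lt_floor_add_one _
    have h3 : (j : ℝ) / N - θ = (j - θ * N) / N := by field_simp
    rw [h3, abs_div, abs_of_pos hN0, div_le_div_iff_of_pos_right hN0, abs_le]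
    constructor <;> linarith
  -- the potential
  have hpot : ∀ x : ZMod N, |rr N k M x| ≤ M →
      |vper N P x - 2 * Real.cos (2 * Real.pi * (rr N k M x * α + θ))| ≤ ρ / 2 := by
    intro x hx
    set r := rr N k M x with hr
    have h1 : x = ((r + k : ℤ) : ZMod N) := by
      push_cast
      rw [hr, rr_cast]; ring
    have h2 : vper N P x = pot ((P : ℝ) / N) (r + k) := by
      conv_lhs => rw [h1]
      exact vper_eq N P (r + k)
    rw [h2]
    unfold pot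
    have h3 : 2 * Real.pi * (((r + k : ℤ) : ℝ) * ((P : ℝ) / N)) =
        2 * Real.pi * (r * ((P : ℝ) / N) + j / N) + ((-(j * b) : ℤ) : ℝ) * (2 * Real.pi) := by
      have h4 : (a : ℝ) * P + b * N = 1 := by exact_mod_cast hab
      rw [hk]
      push_cast
      field_simp
      linear_combination (j : ℝ) * h4
    rw [h3, Real.cos_add_int_mul_two_pi, ← mul_sub, abs_mul, abs_of_pos (by norm_num : (0:ℝ) < 2)]
    have h5 := Real.abs_cos_sub_cos_le (2 * Real.pi * (r * ((P : ℝ) / N) + j / N))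
      (2 * Real.pi * (r * α + θ))
    have h6 : 2 * Real.pi * (r * ((P : ℝ) / N) + j / N) - 2 * Real.pi * (r * α + θ) =
        2 * Real.pi * (r * ((P : ℝ) / N - α) + (j / N - θ)) := by ring
    rw [h6, abs_mul, abs_of_pos (by positivity : (0:ℝ) < 2 * Real.pi)] at h5
    have h7 : |(r : ℝ) * ((P : ℝ) / N - α) + (j / N - θ)| ≤ M * (2 / N) + 1 / N := by
      refine (abs_add_le _ _).trans (add_le_add ?_ hj1)
      rw [abs_mul]
      refine mul_le_mul ?_ hPN (abs_nonneg _) (Nat.cast_nonneg _)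
      have : ((|r| : ℤ) : ℝ) ≤ M := by exact_mod_cast hx
      rwa [Int.cast_abs] at this
    have h8 : (M : ℝ) * (2 / N) + 1 / N = (2 * M + 1) / N := by ring
    rw [h8] at h7
    have h9 : 4 * Real.pi * ((2 * M + 1) / N) ≤ ρ / 2 := by
      rw [mul_div_assoc', div_le_iff₀ hN0]
      linarith
    have h10 : 2 * Real.pi * |(r : ℝ) * ((P : ℝ) / N - α) + (j / N - θ)| ≤
        2 * Real.pi * ((2 * M + 1) / N) := mul_le_mul_of_nonneg_left h7 (by positivity)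
    linarith
  -- the vector
  set φ : ZMod N → ℂ := fun x => ψ (rr N k M x) with hφ
  set D : ℤ → ℂ := fun n => ψ (n + 1) + ψ (n - 1) +
    ((2 * Real.cos (2 * Real.pi * (n * α + θ)) - E : ℝ) : ℂ) * ψ n with hD
  have hbd : ∀ x : ZMod N, ‖(HN N P *ᵥ φ) x - (E : ℂ) * φ x‖ ^ 2 ≤
      2 * ‖D (rr N k M x)‖ ^ 2 + 2 * ((ρ / 2) ^ 2 * ‖ψ (rr N k M x)‖ ^ 2) := by
    intro x
    rw [HN_mulVec]
    simp only [hφ]
    rw [rr_succ N k M hN hψ x, rr_pred N k M hN hψ x]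
    set r := rr N k M x with hr
    set e : ℝ := vper N P x - 2 * Real.cos (2 * Real.pi * (r * α + θ)) with he
    have h1 : ψ (r + 1) + ψ (r - 1) + (vper N P x : ℂ) * ψ r - (E : ℂ) * ψ r =
        D r + (e : ℂ) * ψ r := by
      simp only [hD, he]
      push_cast
      ring
    rw [h1]
    have h2 : ‖(e : ℂ) * ψ r‖ ≤ ρ / 2 * ‖ψ r‖ := by
      rw [norm_mul, Complex.norm_real, Real.norm_eq_abs]
      by_cases h3 : |r| ≤ M
      · exact mul_le_mul_of_nonneg_right (hpot x h3) (norm_nonneg _)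
      · rw [hψ r (by omega)]; simp
    have h3 : ‖D r + (e : ℂ) * ψ r‖ ≤ ‖D r‖ + ρ / 2 * ‖ψ r‖ :=
      (norm_add_le _ _).trans (by linarith)
    have h4 : ‖D r + (e : ℂ) * ψ r‖ ^ 2 ≤ (‖D r‖ + ρ / 2 * ‖ψ r‖) ^ 2 :=
      pow_le_pow_left₀ (norm_nonneg _) h3 2
    nlinarith [sq_nonneg (‖D r‖ - ρ / 2 * ‖ψ r‖)]
  have hsumD : ∑ x : ZMod N, ‖D (rr N k M x)‖ ^ 2 =
      ∑ n ∈ Icc (-(M : ℤ) - 1) ((M : ℤ) + 1), ‖D n‖ ^ 2 := by
    rw [rr_sum' N k M hN (fun n => ‖D n‖ ^ 2) (M + 1) le_rfl]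
    · congr 1
      push_cast
      congr 1
      ring
    · intro n hn
      push_cast at hn
      simp only [hD]
      rw [hψ n (by omega)]
      have h1 : (M : ℤ) < |n + 1| := by
        rcases lt_abs.1 hn with h | h
        · rw [abs_of_nonneg (by omega)]; omega
        · rw [abs_of_nonpos (by omega)]; omega
      have h2 : (M : ℤ) < |n - 1| := by
        rcases lt_abs.1 hn with h | h
        · rw [abs_of_nonneg (by omega)]; omega
        · rw [abs_of_nonpos (by omega)]; omega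
      rw [hψ _ h1, hψ _ h2]
      simp
  have hsumψ : ∑ x : ZMod N, ‖ψ (rr N k M x)‖ ^ 2 =
      ∑ n ∈ Icc (-(M : ℤ)) (M : ℤ), ‖ψ n‖ ^ 2 := by
    rw [rr_sum' N k M hN (fun n => ‖ψ n‖ ^ 2) M (by omega)]
    intro n hn
    rw [hψ n hn]; simp
  have hmain : ∑ x, ‖(HN N P *ᵥ φ) x - (E : ℂ) * φ x‖ ^ 2 < ρ ^ 2 * ∑ x, ‖φ x‖ ^ 2 := by
    calc ∑ x, ‖(HN N P *ᵥ φ) x - (E : ℂ) * φ x‖ ^ 2
        ≤ ∑ x, (2 * ‖D (rr N k M x)‖ ^ 2 + 2 * ((ρ / 2) ^ 2 * ‖ψ (rr N k M x)‖ ^ 2)) :=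
          sum_le_sum fun x _ => hbd x
      _ = 2 * ∑ x : ZMod N, ‖D (rr N k M x)‖ ^ 2 +
          2 * ((ρ / 2) ^ 2 * ∑ x : ZMod N, ‖ψ (rr N k M x)‖ ^ 2) := by
          rw [sum_add_distrib, mul_sum, mul_sum, mul_sum]
      _ < ρ ^ 2 * ∑ x, ‖φ x‖ ^ 2 := by
          have h1 : ∑ x, ‖φ x‖ ^ 2 = ∑ n ∈ Icc (-(M : ℤ)) (M : ℤ), ‖ψ n‖ ^ 2 := hsumψ
          rw [h1, hsumD]
          have h2 : ∑ n ∈ Icc (-(M : ℤ) - 1) ((M : ℤ) + 1), ‖D n‖ ^ 2 <
            (ρ / 2) ^ 2 * ∑ n ∈ Icc (-(M : ℤ)) (M : ℤ), ‖ψ n‖ ^ 2 := happ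
          linarith
  obtain ⟨E', u, h1, h2, h3⟩ := herm_near (HN N P) (HN_herm N P) φ E ρ hmain hρ
  refine ⟨E', fun m : ℤ => u (m : ZMod N), h1, ?_, ?_, HH_of_HN N P u E' h3⟩
  · by_contra hcon
    push Not at hcon
    refine h2 (funext fun x => ?_)
    have := hcon (x.val : ℤ)
    rwa [Int.cast_natCast, ZMod.natCast_zmod_val] at this
  · intro n
    simp

/-- finitely many approximate eigenvalues are simultaneously close to eigenvalues of the
`N`-periodic problem at frequency `P/N` close to `α`, phase `0`. -/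
theorem pieceE (α : ℝ) {ι : Type} [Fintype ι] (E θ : ι → ℝ) (hE : ∀ i, AppEig α (θ i) (E i))
    (ρ : ℝ) (hρ : 0 < ρ) :
    ∃ (N : ℕ) (P : ℤ), 0 < N ∧ 1 / ρ ≤ N ∧ IsCoprime P (N : ℤ) ∧ |(P : ℝ) / N - α| < ρ ∧
      ∀ i, ∃ (E' : ℝ) (ψ : ℤ → ℂ), |E' - E i| < ρ ∧ (∃ n, ψ n ≠ 0) ∧
        (∀ n, ψ (n + N) = ψ n) ∧ HH ((P : ℝ) / N) ψ = (E' : ℂ) • ψ := by
  choose M ψ hψ hne happ using fun i => hE i (ρ / 2) (half_pos hρ)
  set M0 : ℕ := univ.sup M with hM0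
  have hM : ∀ i, M i ≤ M0 := fun i => le_sup (mem_univ i)
  obtain ⟨N, hNlarge, hNp⟩ := Nat.exists_infinite_primes
    (max (2 * M0 + 5) (⌈(8 * Real.pi * (2 * M0 + 1) + 4) / ρ⌉₊ + 1))
  have hN1 : 2 * M0 + 5 ≤ N := (le_max_left _ _).trans hNlarge
  have hN2 : ⌈(8 * Real.pi * (2 * M0 + 1) + 4) / ρ⌉₊ + 1 ≤ N := (le_max_right _ _).trans hNlarge
  have hN0 : (0 : ℝ) < N := by exact_mod_cast hNp.pos
  have hN3 : 8 * Real.pi * (2 * M0 + 1) + 4 ≤ ρ * N := by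
    have h1 := Nat.le_ceil ((8 * Real.pi * (2 * M0 + 1) + 4) / ρ)
    have h2 : ((⌈(8 * Real.pi * (2 * M0 + 1) + 4) / ρ⌉₊ : ℕ) : ℝ) + 1 ≤ N := by exact_mod_cast hN2
    have h3 : (8 * Real.pi * (2 * M0 + 1) + 4) / ρ ≤ N := by linarith
    rw [div_le_iff₀ hρ] at h3
    linarith
  have hM0' : (0 : ℝ) ≤ 8 * Real.pi * (2 * M0 + 1) := by positivity
  -- the numerator
  obtain ⟨P, hcop, hP⟩ : ∃ P : ℤ, IsCoprime P (N : ℤ) ∧ |(P : ℝ) / N - α| ≤ 2 / N := by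
    have key : ∀ P : ℤ, ¬ (N : ℤ) ∣ P → IsCoprime P (N : ℤ) := by
      intro P hP
      have hpr : Prime (N : ℤ) := Nat.prime_iff_prime_int.1 hNp
      exact ((Prime.coprime_iff_not_dvd hpr).2 hP).symm
    have h1 : (⌊α * N⌋ : ℝ) ≤ α * N := Int.floor_le _
    have h2 : α * N < ⌊α * N⌋ + 1 := Int.lt_floor_add_one _
    by_cases hd : (N : ℤ) ∣ ⌊α * N⌋
    · refine ⟨⌊α * N⌋ + 1, key _ ?_, ?_⟩
      · intro h
        have h3 := (Int.dvd_add_right hd).1 h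
        have h4 := Int.le_of_dvd (by norm_num) h3
        have h5 := hNp.two_le
        omega
      · have h3 : ((⌊α * N⌋ + 1 : ℤ) : ℝ) / N - α = (⌊α * N⌋ + 1 - α * N) / N := by
          push_cast; field_simp
        rw [h3, abs_div, abs_of_pos hN0, div_le_div_iff_of_pos_right hN0, abs_le]
        constructor <;> linarith
    · refine ⟨⌊α * N⌋, key _ hd, ?_⟩
      have h3 : ((⌊α * N⌋ : ℤ) : ℝ) / N - α = (⌊α * N⌋ - α * N) / N := by
        field_simp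
      rw [h3, abs_div, abs_of_pos hN0, div_le_div_iff_of_pos_right hN0, abs_le]
      constructor <;> linarith
  refine ⟨N, P, hNp.pos, ?_, hcop, ?_, fun i => ?_⟩
  · rw [div_le_iff₀ hρ]
    linarith
  · refine lt_of_le_of_lt hP ?_
    rw [div_lt_iff₀ hN0]
    linarith
  · refine step α (θ i) (E i) ρ hρ (M i) (ψ i) (hψ i) (happ i) N P ?_ ?_ hcop hP
    · have := hM i
      omega
    · have h1 : ((M i : ℕ) : ℝ) ≤ M0 := by exact_mod_cast hM i
      have h2 : 8 * Real.pi * (2 * (M i : ℝ) + 1) ≤ 8 * Real.pi * (2 * M0 + 1) :=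
        mul_le_mul_of_nonneg_left (by linarith) (by positivity)
      linarith

end Run7.h506.AMO
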