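import Pool.Agent.Run7.h608.Basic

/-!
Piece E of the almost Mathieu project (helper608, MP_29bb0a_mp), part 1: approximate eigenvectors
of a Hermitian matrix.
-/

set_option autoImplicit false

namespace Run7.h506.AMO

open Finset Run7.h608 Matrix

theorem herm_near {n : Type} [Fintype n] [DecidableEq n] (A : Matrix n n ℂ)
    (hA : A.IsHermitian) (φ : n → ℂ) (E ρ : ℝ)
    (h : ∑ x, ‖(A *ᵥ φ) x - (E : ℂ) * φ x‖ ^ 2 < ρ ^ 2 * ∑ x, ‖φ x‖ ^ 2) (hρ : 0 < ρ) :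
    ∃ (E' : ℝ) (u : n → ℂ), |E' - E| < ρ ∧ u ≠ 0 ∧ A *ᵥ u = (E' : ℂ) • u := by
  by_contra hcon
  push Not at hcon
  set b := hA.eigenvectorBasis with hb
  set v : EuclideanSpace ℂ n := WithLp.toLp 2 φ with hv
  set w : EuclideanSpace ℂ n := WithLp.toLp 2 (fun x => (A *ᵥ φ) x - (E : ℂ) * φ x) with hw
  have hev : ∀ j, A *ᵥ ⇑(b j) = ((hA.eigenvalues j : ℝ) : ℂ) • ⇑(b j) := by
    intro j
    have h1 := hA.mulVec_eigenvectorBasis j
    rw [← hb] at h1
    rw [h1]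
    ext x
    simp
  have hbig : ∀ j, ρ ≤ |hA.eigenvalues j - E| := by
    intro j
    by_contra h1
    push Not at h1
    refine hcon (hA.eigenvalues j) (⇑(b j)) h1 ?_ (hev j)
    intro h2
    have h3 : ‖b j‖ = 1 := b.norm_eq_one j
    have h4 : b j = 0 := by
      ext x
      exact congrFun h2 x
    rw [h4, norm_zero] at h3
    exact zero_ne_one h3
  have hcoef : ∀ j, inner ℂ (b j) w = ((hA.eigenvalues j - E : ℝ) : ℂ) * inner ℂ (b j) v := by
    intro j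
    have e1 : ∀ x : EuclideanSpace ℂ n, inner ℂ (b j) x = star (⇑(b j)) ⬝ᵥ ⇑x := by
      intro x
      simp only [PiLp.inner_apply, RCLike.inner_apply, dotProduct, Pi.star_apply, RCLike.star_def]
      exact sum_congr rfl fun i _ => mul_comm _ _
    rw [e1, e1]
    have e2 : (⇑w : n → ℂ) = A *ᵥ φ - (E : ℂ) • φ := by
      ext x; simp [hw]
    have e3 : (⇑v : n → ℂ) = φ := rfl
    rw [e2, e3, dotProduct_sub, dotProduct_smul, Matrix.dotProduct_mulVec]
    have e4 : star (⇑(b j)) ᵥ* A = ((hA.eigenvalues j : ℝ) : ℂ) • star (⇑(b j)) := by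
      have h1 := Matrix.star_mulVec A (⇑(b j))
      rw [hA.eq, hev] at h1
      rw [← h1]
      ext x
      simp
    rw [e4, smul_dotProduct]
    simp only [smul_eq_mul]
    push_cast
    ring
  have h1 := b.sum_sq_norm_inner_right w
  have h2 := b.sum_sq_norm_inner_right v
  rw [EuclideanSpace.norm_sq_eq] at h1 h2
  have h3 : ∑ x, ‖w x‖ ^ 2 = ∑ x, ‖(A *ᵥ φ) x - (E : ℂ) * φ x‖ ^ 2 := rfl
  have h4 : ∑ x, ‖v x‖ ^ 2 = ∑ x, ‖φ x‖ ^ 2 := rfl
  rw [h3] at h1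
  rw [h4] at h2
  rw [← h1, ← h2, mul_sum] at h
  refine absurd h (not_lt.2 (sum_le_sum fun j _ => ?_))
  rw [hcoef, norm_mul, mul_pow, Complex.norm_real, Real.norm_eq_abs]
  exact mul_le_mul_of_nonneg_right (pow_le_pow_left₀ hρ.le (hbig j) 2) (sq_nonneg _)

end Run7.h506.AMO
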