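import Pool.Agent.Run7.h608.Basic

/-!
Finite Fourier analysis on `range L` for the almost Mathieu project (helper608, MP_29bb0a_mp).
-/

set_option autoImplicit false

namespace Run7.h506.AMO

open Finset Run7.h608

theorem ee_pow (x : ℝ) (n : ℕ) : ee x ^ n = ee (n * x) := by
  induction n with
  | zero => simp [ee_zero]
  | succ n ih =>
    rw [pow_succ, ih, ← ee_add]
    congr 1
    push_cast
    ring

theorem ee_eq_one {x : ℝ} (h : ee x = 1) : ∃ n : ℤ, x = n := by
  unfold ee at h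
  rw [Complex.exp_eq_one_iff] at h
  obtain ⟨n, hn⟩ := h
  refine ⟨n, ?_⟩
  have hpi : (2 * (Real.pi : ℂ) * Complex.I) ≠ 0 := Complex.two_pi_I_ne_zero
  have h2 : ((x : ℂ) - n) * (2 * (Real.pi : ℂ) * Complex.I) = 0 := by
    have : ((2 * Real.pi * x : ℝ) : ℂ) * Complex.I = (x : ℂ) * (2 * (Real.pi : ℂ) * Complex.I) := by
      push_cast; ring
    rw [this] at hn
    rw [sub_mul, hn, sub_self]
  have h3 := (mul_eq_zero.1 h2).resolve_right hpi
  have h4 : (x : ℂ) = n := sub_eq_zero.1 h3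
  exact_mod_cast h4

theorem conj_ee (x : ℝ) : (starRingEnd ℂ) (ee x) = ee (-x) := by
  rw [ee_eq, ee_eq]
  have h1 : (2 * Real.pi * -x) = -(2 * Real.pi * x) := by ring
  rw [h1, Real.cos_neg, Real.sin_neg]
  simp only [map_add, map_mul, Complex.conj_ofReal, Complex.conj_I]
  push_cast
  ring

theorem geom (L : ℕ) (hL : 0 < L) (d : ℤ) (hd : ¬ (L : ℤ) ∣ d) :
    ∑ k ∈ range L, ee ((d : ℝ) * k / L) = 0 := by
  have hL0 : (L : ℝ) ≠ 0 := by positivity
  have h1 : ∀ k ∈ range L, ee ((d : ℝ) * k / L) = ee ((d : ℝ) / L) ^ k := by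
    intro k _
    rw [ee_pow]
    congr 1
    ring
  rw [sum_congr rfl h1]
  have hz : ee ((d : ℝ) / L) ≠ 1 := by
    intro h
    obtain ⟨n, hn⟩ := ee_eq_one h
    apply hd
    refine ⟨n, ?_⟩
    have h2 : (d : ℝ) = L * n := by field_simp at hn; linarith
    exact_mod_cast h2
  rw [geom_sum_eq hz, ee_pow]
  have h3 : ((L : ℝ) * ((d : ℝ) / L)) = ((d : ℤ) : ℝ) := by field_simp
  rw [h3, ee_int, sub_self, zero_div]

theorem parsevalL (L : ℕ) (hL : 0 < L) (f : ℕ → ℂ) :
    ∑ k ∈ range L, ‖∑ j ∈ range L, f j * ee ((j : ℝ) * k / L)‖ ^ 2 =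
      L * ∑ j ∈ range L, ‖f j‖ ^ 2 := by
  have hL0 : (L : ℝ) ≠ 0 := by positivity
  have key : (((∑ k ∈ range L, ‖∑ j ∈ range L, f j * ee ((j : ℝ) * k / L)‖ ^ 2 : ℝ)) : ℂ) =
      ((L * ∑ j ∈ range L, ‖f j‖ ^ 2 : ℝ) : ℂ) := by
    push_cast
    have h1 : ∀ k ∈ range L, ((‖∑ j ∈ range L, f j * ee ((j : ℝ) * k / L)‖ : ℂ)) ^ 2 =
        ∑ j ∈ range L, ∑ i ∈ range L, f j * (starRingEnd ℂ) (f i) *
          ee ((((j : ℤ) - i : ℤ) : ℝ) * k / L) := by
      intro k _
      rw [← Complex.mul_conj', map_sum, sum_mul_sum]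
      refine sum_congr rfl fun j _ => sum_congr rfl fun i _ => ?_
      rw [map_mul, conj_ee]
      have e : ee ((((j : ℤ) - i : ℤ) : ℝ) * k / L) = ee ((j : ℝ) * k / L) * ee (-((i : ℝ) * k / L)) := by
        rw [← ee_add]
        congr 1
        push_cast
        ring
      rw [e]
      ring
    rw [sum_congr rfl h1, sum_comm]
    rw [mul_sum]
    refine sum_congr rfl fun j hj => ?_
    rw [sum_comm]
    rw [sum_eq_single j]
    · rw [← mul_sum]
      have h2 : ∀ k ∈ range L, ee ((((j : ℤ) - j : ℤ) : ℝ) * k / L) = 1 := by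
        intro k _
        have : ((((j : ℤ) - j : ℤ) : ℝ) * k / L) = 0 := by simp
        rw [this, ee_zero]
      rw [sum_congr rfl h2, Complex.mul_conj']
      simp
      ring
    · intro i hi hij
      rw [← mul_sum, geom L hL, mul_zero]
      rw [mem_range] at hi hj
      rintro ⟨c, hc⟩
      have hL1 : (0 : ℤ) < L := by exact_mod_cast hL
      have h3 : |(j : ℤ) - i| < L := by
        rw [abs_lt]; constructor <;> omega
      rw [hc, abs_mul, abs_of_pos hL1] at h3
      have hc0 : c ≠ 0 := by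
        rintro rfl
        rw [mul_zero] at hc
        omega
      have h4 : 1 ≤ |c| := Int.one_le_abs hc0
      nlinarith
    · intro h
      exact absurd hj h
  exact_mod_cast key

end Run7.h506.AMO
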